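import Mathlib
import Pool.Agent.MT.Defs

set_option autoImplicit false

/-!
# Project SVB (sieve barrier for prime triplets beyond parity; problem MP_c0d11e_nt)

Definitions.
-/

namespace Pool.Agent.SVB

open Finset
open Pool.Agent.MT (IsWt Z1)

/-- The number of prime factors of `n` larger than `w`, counted with multiplicity. -/
def omw (w n : ℕ) : ℕ := (n.primeFactorsList.filter (fun p => decide (w < p))).length

/-- Completely multiplicative sign: `1` at the primes up to `w`, `-1` at the larger primes. -/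
noncomputable def sg (w n : ℕ) : ℝ := (-1) ^ omw w n

/-- The size of the small primes, `(log N) ^ B`. -/
noncomputable def wN (B N : ℕ) : ℕ := ⌈Real.log N ^ B⌉₊

/-- The primes `p` with `N < p ^ 3 ≤ N ^ 2`. -/
def II (N : ℕ) : Finset ℕ := (range (N + 1)).filter (fun p => p.Prime ∧ N < p ^ 3 ∧ p ^ 3 ≤ N ^ 2)

noncomputable def ell (N : ℕ) : ℝ := ∑ p ∈ II N, 1 / (p : ℝ)

/-- The number of primes of `II N` dividing `r`. -/
def XX (N r : ℕ) : ℕ := ((II N).filter (fun p => p ∣ r)).card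

noncomputable def hh (N r : ℕ) : ℝ := XX N r / ell N - 1

noncomputable def kap (N : ℕ) : ℝ := (ell N / (2 - ell N)) ^ 3

/-- The density. -/
noncomputable def FF (N w r₁ r₂ r₃ : ℕ) : ℝ :=
  (1 - sg w r₁) * (1 - sg w r₂) * (1 - sg w r₃) * (1 - kap N * (hh N r₁ * hh N r₂ * hh N r₃))

/-- Weighted sum over the multiples of `f`. -/
noncomputable def S1 (η : ℝ → ℝ) (N f : ℕ) (g : ℕ → ℝ) : ℝ :=
  ∑ r ∈ (range (N + 1)).filter (fun r => f ∣ r), η ((r : ℝ) / N) * g r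

/-- Weighted sum over triples of multiples. -/
noncomputable def S3 (η : ℝ → ℝ) (N f₁ f₂ f₃ : ℕ) (G : ℕ → ℕ → ℕ → ℝ) : ℝ :=
  ∑ r₁ ∈ (range (N + 1)).filter (fun r => f₁ ∣ r),
    ∑ r₂ ∈ (range (N + 1)).filter (fun r => f₂ ∣ r),
      ∑ r₃ ∈ (range (N + 1)).filter (fun r => f₃ ∣ r),
        η ((r₁ : ℝ) / N) * η ((r₂ : ℝ) / N) * η ((r₃ : ℝ) / N) * G r₁ r₂ r₃

/-- Atoms: no prime factor in `(w, R]`, and sign `-1`. -/
def IsAt (N w R r : ℕ) : Prop :=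
  0 < r ∧ r ≤ N ∧ sg w r = -1 ∧ ∀ p : ℕ, p.Prime → p ∣ r → p ≤ w ∨ R < p

/-- The total weight of the atoms. -/
noncomputable def aN (η : ℝ → ℝ) (N w R : ℕ) : ℝ := by
  classical exact ∑ r ∈ (range (N + 1)).filter (fun r => IsAt N w R r), η ((r : ℝ) / N)

/-- No prime larger than `w` divides two of the three numbers. -/
def Nc (w r₁ r₂ r₃ : ℕ) : Prop :=
  ∀ p : ℕ, p.Prime → w < p → ¬ (p ∣ r₁ ∧ p ∣ r₂) ∧ ¬ (p ∣ r₁ ∧ p ∣ r₃) ∧ ¬ (p ∣ r₂ ∧ p ∣ r₃)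

/-- Indicator of the complement of `Nc`. -/
noncomputable def cc (w r₁ r₂ r₃ : ℕ) : ℝ := by
  classical exact if Nc w r₁ r₂ r₃ then 0 else 1

/-- What the transfer to sieves needs from a density on triples. -/
structure Dens (η : ℝ → ℝ) (N w R : ℕ) (K τ V : ℝ) (F : ℕ → ℕ → ℕ → ℝ) : Prop where
  nonneg : ∀ r₁ r₂ r₃ : ℕ, 0 < r₁ → r₁ ≤ N → 0 < r₂ → r₂ ≤ N → 0 < r₃ → r₃ ≤ N →
    0 ≤ F r₁ r₂ r₃
  le : ∀ r₁ r₂ r₃ : ℕ, 0 < r₁ → r₁ ≤ N → 0 < r₂ → r₂ ≤ N → 0 < r₃ → r₃ ≤ N →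
    F r₁ r₂ r₃ ≤ K
  mom : ∀ f₁ f₂ f₃ : ℕ, 0 < f₁ → 0 < f₂ → 0 < f₃ → f₁ * f₂ * f₃ ≤ R →
    |S3 η N f₁ f₂ f₃ F - Z1 η N ^ 3 / (f₁ * f₂ * f₃)| ≤ τ * (Z1 η N ^ 3 / (f₁ * f₂ * f₃))
  atom : ∀ r₁ r₂ r₃ : ℕ, IsAt N w R r₁ → IsAt N w R r₂ → IsAt N w R r₃ → V ≤ F r₁ r₂ r₃

/-- The primes in `(w, R]`. -/
def SS (w R : ℕ) : Finset ℕ := (Ioc w R).filter Nat.Prime

/-- The primes up to `w`. -/
def pw (w : ℕ) : Finset ℕ := (range (w + 1)).filter Nat.Prime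

/-- The factor lost in the a priori bound. -/
noncomputable def QQ (w R : ℕ) : ℝ := ∏ p ∈ SS w R, ((1 + 3 / (p : ℝ)) / (1 - 3 / (p : ℝ)))

/-- The number of residues `n` modulo `d` with `d ∣ n (n + u) (n + 6)`. -/
def rho (u d : ℕ) : ℕ := ((range d).filter (fun n => d ∣ n * (n + u) * (n + 6))).card

/-- The sieve function of level `R` with weights `lam`. -/
noncomputable def th (lam : ℕ → ℝ) (R u n : ℕ) : ℝ :=
  ∑ d ∈ (Icc 1 R).filter (fun d => Squarefree d ∧ d ∣ n * (n + u) * (n + 6)), lam d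

/-- The mean value of the sieve function. -/
noncomputable def MM (lam : ℕ → ℝ) (R u : ℕ) : ℝ :=
  ∑ d ∈ (Icc 1 R).filter Squarefree, lam d * (rho u d / d)

end Pool.Agent.SVB
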