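import Mathlib
import Pool.Agent.SVB.Defs

set_option autoImplicit false

/-!
# Project SVB: ZetaD

Derivatives of (z-1) zeta(z). For Re z > 1: (z-1) zeta(z) = z - z (z-1) G(z) with
G(z) = int_1^oo frac(x) x^(-z-1) dx, and the right side is analytic and of polynomial growth for
Re z > 0 (Mellin transform), so the Cauchy estimate on discs of radius 1/2 applies.
-/

namespace Pool.Agent.SVB

open Finset Filter Topology
open Pool.Agent.MT (IsWt Z1)

namespace ZetaDAux

open MeasureTheory Set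

/-- the fractional part on (1, oo) -/
noncomputable def gf (t : ℝ) : ℂ := (Ioi (1 : ℝ)).indicator (fun t => ((Int.fract t : ℝ) : ℂ)) t

theorem gf_meas : Measurable gf :=
  (Complex.measurable_ofReal.comp measurable_fract).indicator measurableSet_Ioi

theorem gf_norm (t : ℝ) : ‖gf t‖ ≤ 1 := by
  unfold gf
  by_cases h : t ∈ Ioi (1 : ℝ)
  · rw [indicator_of_mem h, Complex.norm_real, Real.norm_eq_abs, abs_of_nonneg (Int.fract_nonneg t)]
    exact (Int.fract_lt_one t).le
  · rw [indicator_of_notMem h, norm_zero]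
    exact zero_le_one

/-- the Mellin transform -/
noncomputable def G (z : ℂ) : ℂ := mellin gf (-z)

theorem G_diff {z : ℂ} (hz : 0 < z.re) : DifferentiableAt ℂ G z := by
  have h1 : DifferentiableAt ℂ (mellin gf) (-z) := by
    refine mellin_differentiableAt_of_isBigO_rpow (a := 0) (b := (-z).re - 1) ?_ ?_ ?_ ?_ ?_
    · have h2 : LocallyIntegrable gf volume :=
        (locallyIntegrable_const (1 : ℝ)).mono gf_meas.aestronglyMeasurable
          (Eventually.of_forall fun t => by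
            rw [norm_one]
            exact gf_norm t)
      exact h2.locallyIntegrableOn _
    · refine Asymptotics.IsBigO.of_bound 1 (Eventually.of_forall fun t => ?_)
      rw [neg_zero, Real.rpow_zero, norm_one, one_mul]
      exact gf_norm t
    · rw [Complex.neg_re]
      linarith
    · refine Asymptotics.IsBigO.of_bound 1 ?_
      have h3 : ∀ᶠ t : ℝ in 𝓝[>] 0, t < 1 := by
        apply nhdsWithin_le_nhds
        exact Iio_mem_nhds one_pos
      filter_upwards [h3] with t ht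
      have h4 : gf t = 0 := by
        unfold gf
        rw [indicator_of_notMem]
        exact not_lt.2 ht.le
      rw [h4, norm_zero]
      positivity
    · linarith
  have h2 : DifferentiableAt ℂ (fun z : ℂ => -z) z := differentiableAt_id.neg
  exact DifferentiableAt.comp z h1 h2

theorem G_eq (z : ℂ) : G z = ∫ t in Ioi (1 : ℝ), ((Int.fract t : ℝ) : ℂ) * (t : ℂ) ^ (-(z + 1)) := by
  unfold G mellin
  have h1 : ∀ t : ℝ, (t : ℂ) ^ (-z - 1) • gf t =
      (Ioi (1 : ℝ)).indicator (fun t : ℝ => ((Int.fract t : ℝ) : ℂ) * (t : ℂ) ^ (-(z + 1))) t := by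
    intro t
    unfold gf
    by_cases h : t ∈ Ioi (1 : ℝ)
    · rw [indicator_of_mem h, indicator_of_mem h, smul_eq_mul, mul_comm]
      congr 2
      ring
    · rw [indicator_of_notMem h, indicator_of_notMem h, smul_zero]
  simp only [h1]
  rw [setIntegral_indicator measurableSet_Ioi]
  congr 2
  rw [Ioi_inter_Ioi]
  norm_num

theorem G_integrable {z : ℂ} (hz : 0 < z.re) :
    IntegrableOn (fun t : ℝ => ((Int.fract t : ℝ) : ℂ) * (t : ℂ) ^ (-(z + 1))) (Ioi (1 : ℝ)) := by
  have h1 : IntegrableOn (fun t : ℝ => (t : ℂ) ^ (-(z + 1))) (Ioi (1 : ℝ)) := by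
    apply integrableOn_Ioi_cpow_of_lt _ one_pos
    rw [Complex.neg_re, Complex.add_re, Complex.one_re]
    linarith
  refine Integrable.bdd_mul (c := 1) h1 ?_ ?_
  · exact (Complex.measurable_ofReal.comp measurable_fract).aestronglyMeasurable
  · refine Eventually.of_forall fun t => ?_
    rw [Complex.norm_real, Real.norm_eq_abs, abs_of_nonneg (Int.fract_nonneg t)]
    exact (Int.fract_lt_one t).le

theorem G_norm {z : ℂ} (hz : 0 < z.re) : ‖G z‖ ≤ 1 / z.re := by
  rw [G_eq]
  have h1 : IntegrableOn (fun t : ℝ => t ^ (-(z.re + 1))) (Ioi (1 : ℝ)) :=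
    integrableOn_Ioi_rpow_of_lt (by linarith) one_pos
  have h2 : ∫ t in Ioi (1 : ℝ), t ^ (-(z.re + 1)) = 1 / z.re := by
    rw [integral_Ioi_rpow_of_lt (by linarith) one_pos, Real.one_rpow]
    have h3 : -(z.re + 1) + 1 = -z.re := by ring
    rw [h3, neg_div_neg_eq]
  rw [← h2]
  refine norm_integral_le_of_norm_le h1 ?_
  filter_upwards [ae_restrict_mem measurableSet_Ioi] with t ht
  have ht0 : (0 : ℝ) < t := lt_trans one_pos ht
  rw [norm_mul, Complex.norm_cpow_eq_rpow_re_of_pos ht0, Complex.norm_real, Real.norm_eq_abs,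
    abs_of_nonneg (Int.fract_nonneg t)]
  have h3 : (-(z + 1)).re = -(z.re + 1) := by simp
  rw [h3]
  calc Int.fract t * t ^ (-(z.re + 1)) ≤ 1 * t ^ (-(z.re + 1)) :=
        mul_le_mul_of_nonneg_right (Int.fract_lt_one t).le (by positivity)
    _ = t ^ (-(z.re + 1)) := one_mul _

/-- the entire function -/
noncomputable def F (z : ℂ) : ℂ := z - z * (z - 1) * G z

theorem F_eq {z : ℂ} (hz : 1 < z.re) : (z - 1) * riemannZeta z = F z := by
  have hz1 : z - 1 ≠ 0 := by
    intro h
    have h1 : (z - 1).re = 0 := by rw [h, Complex.zero_re]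
    rw [Complex.sub_re, Complex.one_re] at h1
    linarith
  have h1 : riemannZeta z =
      z * ∫ t in Ioi (1 : ℝ), (∑ k ∈ Finset.Icc 1 ⌊t⌋₊, (1 : ℕ → ℂ) k) * (t : ℂ) ^ (-(z + 1)) := by
    rw [← LSeries_one_eq_riemannZeta hz]
    refine LSeries_eq_mul_integral' _ zero_le_one hz ?_
    refine Asymptotics.IsBigO.of_bound 1 (Eventually.of_forall fun n => ?_)
    simp
  have h2 : ∫ t in Ioi (1 : ℝ), (∑ k ∈ Finset.Icc 1 ⌊t⌋₊, (1 : ℕ → ℂ) k) *
      (t : ℂ) ^ (-(z + 1)) = ∫ t in Ioi (1 : ℝ), ((t : ℂ) ^ (-z) -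
        ((Int.fract t : ℝ) : ℂ) * (t : ℂ) ^ (-(z + 1))) := by
    refine setIntegral_congr_fun measurableSet_Ioi fun t ht => ?_
    have ht0 : (0 : ℝ) < t := lt_trans one_pos ht
    have ht1 : (t : ℂ) ≠ 0 := Complex.ofReal_ne_zero.2 ht0.ne'
    have e1 : (∑ k ∈ Finset.Icc 1 ⌊t⌋₊, (1 : ℕ → ℂ) k) = ((⌊t⌋₊ : ℝ) : ℂ) := by
      simp
    have e2 : ((⌊t⌋₊ : ℕ) : ℝ) = t - Int.fract t := by
      rw [natCast_floor_eq_intCast_floor ht0.le, Int.self_sub_fract]
    have e3 : (t : ℂ) ^ (-z) = (t : ℂ) * (t : ℂ) ^ (-(z + 1)) := by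
      have h : -z = 1 + -(z + 1) := by ring
      rw [h, Complex.cpow_add _ _ ht1, Complex.cpow_one]
    rw [e1, e2, e3]
    push_cast
    ring
  have h3 : IntegrableOn (fun t : ℝ => (t : ℂ) ^ (-z)) (Ioi (1 : ℝ)) := by
    apply integrableOn_Ioi_cpow_of_lt _ one_pos
    rw [Complex.neg_re]
    linarith
  have h4 : ∫ t in Ioi (1 : ℝ), (t : ℂ) ^ (-z) = 1 / (z - 1) := by
    rw [integral_Ioi_cpow_of_lt _ one_pos]
    · have h5 : -z + 1 = -(z - 1) := by ring
      rw [h5, neg_div_neg_eq]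
      simp
    · rw [Complex.neg_re]
      linarith
  rw [h1, h2, integral_sub h3 (G_integrable (by linarith)), h4, ← G_eq]
  unfold F
  field_simp

theorem F_diff {z : ℂ} (hz : 0 < z.re) : DifferentiableAt ℂ F z := by
  unfold F
  exact differentiableAt_id.sub
    ((differentiableAt_id.mul (differentiableAt_id.sub_const 1)).mul (G_diff hz))

end ZetaDAux

open ZetaDAux

theorem zeta_deriv (j : ℕ) : ∃ (C : ℝ) (E : ℕ), 0 < C ∧ ∀ s : ℂ, 1 < s.re → s.re ≤ 2 →
    ‖iteratedDeriv j (fun z : ℂ => (z - 1) * riemannZeta z) s‖ ≤ C * (1 + |s.im|) ^ E := by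
  refine ⟨j.factorial * 30 / (1 / 2 : ℝ) ^ j, 2, by positivity, ?_⟩
  intro s hs1 hs2
  have hev : (fun z : ℂ => (z - 1) * riemannZeta z) =ᶠ[𝓝 s] F := by
    have h1 : {z : ℂ | 1 < z.re} ∈ 𝓝 s :=
      (isOpen_lt continuous_const Complex.continuous_re).mem_nhds hs1
    filter_upwards [h1] with z hz
    exact F_eq hz
  rw [hev.iteratedDeriv_eq]
  have hre : ∀ z : ℂ, ‖z - s‖ ≤ 1 / 2 → 1 / 2 < z.re := by
    intro z hz
    have h1 : |(z - s).re| ≤ 1 / 2 := (Complex.abs_re_le_norm _).trans hz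
    rw [Complex.sub_re] at h1
    have h2 := (abs_le.1 h1).1
    linarith
  have hdiff : DiffContOnCl ℂ F (Metric.ball s (1 / 2)) := by
    apply DifferentiableOn.diffContOnCl
    intro z hz
    rw [closure_ball s (by norm_num : (1 / 2 : ℝ) ≠ 0), Metric.mem_closedBall, dist_eq_norm] at hz
    have h1 := hre z hz
    exact (F_diff (by linarith)).differentiableWithinAt
  have hbd : ∀ z ∈ Metric.sphere s (1 / 2), ‖F z‖ ≤ 30 * (1 + |s.im|) ^ 2 := by
    intro z hz
    rw [Metric.mem_sphere, dist_eq_norm] at hz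
    have h1 := hre z hz.le
    have h2 : ‖s‖ ≤ 2 + |s.im| := by
      have h3 := Complex.norm_le_abs_re_add_abs_im s
      rw [abs_of_pos (by linarith : 0 < s.re)] at h3
      linarith
    have h3 : ‖z‖ ≤ 5 / 2 + |s.im| := by
      have h4 : z = s + (z - s) := by ring
      rw [h4]
      refine (norm_add_le _ _).trans ?_
      linarith
    have h4 : ‖z - 1‖ ≤ 7 / 2 + |s.im| := by
      refine (norm_sub_le _ _).trans ?_
      rw [norm_one]
      linarith
    have h5 : ‖G z‖ ≤ 2 := by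
      refine (G_norm (by linarith)).trans ?_
      rw [div_le_iff₀ (by linarith)]
      linarith
    have h0 : 0 ≤ |s.im| := abs_nonneg _
    unfold F
    refine (norm_sub_le _ _).trans ?_
    rw [norm_mul, norm_mul]
    have h6 : ‖z‖ * ‖z - 1‖ * ‖G z‖ ≤ (5 / 2 + |s.im|) * (7 / 2 + |s.im|) * 2 := by
      gcongr
    nlinarith
  have hmain := Complex.norm_iteratedDeriv_le_of_forall_mem_sphere_norm_le j
    (by norm_num : (0 : ℝ) < 1 / 2) hdiff hbd
  refine hmain.trans (le_of_eq ?_)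
  ring

end Pool.Agent.SVB
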