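import Mathlib
import Pool.Agent.SVB.ZetaD
import Pool.Agent.MT.LLow
import Pool.Agent.MT.LZero

set_option autoImplicit false

namespace Pool.Agent.SVB

open Finset Filter Topology
open Pool.Agent.MT (IsWt Z1)

theorem zl_char (s : ℂ) (hs : 1 < s.re) :
    LSeries (fun n : ℕ => (1 : DirichletCharacter ℂ 1) (n : ZMod 1)) s = riemannZeta s := by
  have h : (fun n : ℕ => (1 : DirichletCharacter ℂ 1) (n : ZMod 1)) = 1 := by
    funext n
    have : IsUnit ((n : ZMod 1)) := by
      have : (n : ZMod 1) = 1 := Subsingleton.elim _ _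
      rw [this]; exact isUnit_one
    simp [MulChar.one_apply this]
  rw [h]
  exact LSeries_one_eq_riemannZeta hs

theorem zl_real (x : ℝ) (hx : 0 < x) : 1 ≤ ‖riemannZeta (1 + x)‖ := by
  have hs : 1 < ((1 : ℂ) + x).re := by simpa using hx
  have h1 : riemannZeta (1 + x) = ∑' n : ℕ, 1 / ((n : ℂ) + 1) ^ ((1 : ℂ) + x) :=
    zeta_eq_tsum_one_div_nat_add_one_cpow hs
  have h2 : ∀ n : ℕ, 1 / ((n : ℂ) + 1) ^ ((1 : ℂ) + x) = ((1 / ((n : ℝ) + 1) ^ (1 + x) : ℝ) : ℂ) := by
    intro n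
    rw [Complex.ofReal_div, Complex.ofReal_cpow (by positivity)]
    push_cast
    rfl
  have h3 : Summable (fun n : ℕ => (1 / ((n : ℝ) + 1) ^ (1 + x) : ℝ)) := by
    have h4 := (Real.summable_one_div_nat_rpow (p := 1 + x)).2 (by linarith)
    have h5 := (summable_nat_add_iff 1).2 h4
    refine h5.congr fun n => ?_
    push_cast
    rfl
  have h4 : (1 : ℝ) ≤ ∑' n : ℕ, (1 / ((n : ℝ) + 1) ^ (1 + x) : ℝ) := by
    have h5 := h3.le_tsum 0 (fun n _ => by positivity)
    simpa using h5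
  rw [h1]
  simp_rw [h2]
  rw [← Complex.ofReal_tsum, Complex.norm_real, Real.norm_eq_abs]
  exact h4.trans (le_abs_self _)

/-- Lower bound at real points. -/
theorem zl_pt : ∃ c : ℝ, 0 < c ∧ c ≤ 1 ∧ ∀ x : ℝ, 0 < x → c ≤ ‖(x : ℂ) * riemannZeta (1 + x)‖ := by
  have h := riemannZeta_residue_one.norm
  rw [norm_one] at h
  have h1 := h.eventually_const_lt (show (1 / 2 : ℝ) < 1 by norm_num)
  rw [eventually_nhdsWithin_iff, Metric.eventually_nhds_iff] at h1
  obtain ⟨δ, hδ, h2⟩ := h1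
  refine ⟨min (1 / 2) δ, lt_min (by norm_num) hδ, (min_le_left _ _).trans (by norm_num), ?_⟩
  intro x hx
  rcases lt_or_ge x δ with hxδ | hxδ
  · have h3 := @h2 (1 + x) (by
      rw [Complex.dist_eq]
      simp [abs_of_pos hx, hxδ]) (by
      simp only [Set.mem_compl_iff, Set.mem_singleton_iff]
      intro h4
      have : (x : ℂ) = 0 := by linear_combination h4
      rw [Complex.ofReal_eq_zero] at this
      exact hx.ne' this)
    have h4 : ((1 : ℂ) + x - 1) = x := by ring
    rw [h4] at h3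
    exact (min_le_left _ _).trans h3.le
  · rw [norm_mul, Complex.norm_real, Real.norm_eq_abs, abs_of_pos hx]
    calc min (1 / 2) δ ≤ δ := min_le_right _ _
      _ ≤ x * 1 := by linarith
      _ ≤ _ := mul_le_mul_of_nonneg_left (zl_real x hx) hx.le

theorem zl_diff {z : ℂ} (hz : 1 < z.re) :
    DifferentiableAt ℂ (fun z : ℂ => (z - 1) * riemannZeta z) z := by
  have h1 : z ≠ 1 := by
    intro h
    rw [h] at hz
    simp at hz
  exact (differentiableAt_id.sub_const 1).mul (differentiableAt_riemannZeta h1)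

theorem zl_lip {C : ℝ} {E : ℕ} (hC : 0 < C) (h : ∀ s : ℂ, 1 < s.re → s.re ≤ 2 →
    ‖iteratedDeriv 1 (fun z : ℂ => (z - 1) * riemannZeta z) s‖ ≤ C * (1 + |s.im|) ^ E)
    {T : ℝ} {s s' : ℂ} (h1 : 1 < s.re) (h2 : s.re ≤ 2) (h1' : 1 < s'.re) (h2' : s'.re ≤ 2)
    (hT : |s.im| ≤ T) (hT' : |s'.im| ≤ T) :
    ‖(s - 1) * riemannZeta s - (s' - 1) * riemannZeta s'‖ ≤ C * (1 + T) ^ E * ‖s - s'‖ := by
  have hconv : Convex ℝ {z : ℂ | (1 < z.re ∧ z.re ≤ 2) ∧ |z.im| ≤ T} := by
    intro z hz z' hz' a b ha hb hab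
    obtain ⟨⟨hz1, hz2⟩, hz3⟩ := hz
    obtain ⟨⟨hz1', hz2'⟩, hz3'⟩ := hz'
    simp only [Set.mem_ofPred_eq, Complex.add_re, Complex.add_im, Complex.real_smul, Complex.mul_re,
      Complex.mul_im, Complex.ofReal_re, Complex.ofReal_im, zero_mul, sub_zero, add_zero]
    refine ⟨⟨?_, ?_⟩, ?_⟩
    · rcases eq_or_lt_of_le ha with h0 | h0
      · have : b = 1 := by linarith
        rw [← h0, this]; linarith
      · nlinarith
    · nlinarith
    · rw [abs_le] at hz3 hz3' ⊢
      constructor <;> nlinarith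
  refine hconv.norm_image_sub_le_of_norm_deriv_le (f := fun z : ℂ => (z - 1) * riemannZeta z)
    (fun z hz => zl_diff hz.1.1) (fun z hz => ?_) ⟨⟨h1', h2'⟩, hT'⟩ ⟨⟨h1, h2⟩, hT⟩
  have h3 := h z hz.1.1 hz.1.2
  rw [iteratedDeriv_one] at h3
  refine h3.trans ?_
  apply mul_le_mul_of_nonneg_left _ hC.le
  exact pow_le_pow_left₀ (by positivity) (by linarith [hz.2]) E

theorem zeta_low : ∃ (c : ℝ) (E : ℕ), 0 < c ∧ ∀ s : ℂ, 1 < s.re → s.re ≤ 2 →
    c / (1 + |s.im|) ^ E ≤ ‖(s - 1) * riemannZeta s‖ := by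
  obtain ⟨C0, E0, hC0, h0⟩ := zeta_deriv 0
  obtain ⟨C1, E1, hC1, h1⟩ := zeta_deriv 1
  obtain ⟨c, hc, hc1, hpt⟩ := zl_pt
  obtain ⟨CL, hCL, hL⟩ := Pool.Agent.MT.L_zero
  set t0 : ℝ := min 1 (c / (2 * C1 * 2 ^ E1)) with ht0
  have ht0pos : 0 < t0 := lt_min one_pos (by positivity)
  have ht01 : t0 ≤ 1 := min_le_left _ _
  have ht0c : C1 * 2 ^ E1 * t0 ≤ c / 2 := by
    have h2 : t0 ≤ c / (2 * C1 * 2 ^ E1) := min_le_right _ _
    calc C1 * 2 ^ E1 * t0 ≤ C1 * 2 ^ E1 * (c / (2 * C1 * 2 ^ E1)) :=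
          mul_le_mul_of_nonneg_left h2 (by positivity)
      _ = c / 2 := by field_simp
  set K1 : ℝ := max (max (3 * CL) (C0 / (2 * t0))) 1 with hK1
  have hK1a : 3 * CL ≤ K1 := (le_max_left _ _).trans (le_max_left _ _)
  have hK1b : C0 / (2 * t0) ≤ K1 := (le_max_right _ _).trans (le_max_left _ _)
  have hK1c : 1 ≤ K1 := le_max_right _ _
  set K : ℝ := max (K1 / t0) C1 with hK
  have hKa : K1 / t0 ≤ K := le_max_left _ _
  have hKb : C1 ≤ K := le_max_right _ _
  have hK1' : 1 ≤ K := by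
    refine le_trans ?_ hKa
    rw [le_div_iff₀ ht0pos]
    linarith
  set E' := E0 + E1 + 1 with hE'
  refine ⟨min (c / 2) (1 / (16 * K ^ 7) / 2 ^ (38 * E')), 38 * E', by positivity, ?_⟩
  intro s hs1 hs2
  set x₀ := s.re - 1 with hx₀
  set t := s.im with ht
  have hs : s = 1 + (x₀ : ℂ) + Complex.I * (t : ℂ) := by
    apply Complex.ext <;> simp [hx₀, ht]
  have ht1 : 1 ≤ (1 + |t|) := by linarith [abs_nonneg t]
  have hpow1 : 1 ≤ (1 + |t|) ^ (38 * E') := one_le_pow₀ ht1
  rcases le_or_gt |t| t0 with hcase | hcase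
  · -- near the real axis
    have h2 := zl_lip (s := s) (s' := 1 + (x₀ : ℂ)) hC1 h1 hs1 hs2 (by simp [hx₀]; linarith)
      (by simp [hx₀]; linarith) (T := 1) (hcase.trans ht01) (by simp)
    have h3 : ‖s - (1 + (x₀ : ℂ))‖ = |t| := by
      have : s - (1 + (x₀ : ℂ)) = Complex.I * (t : ℂ) := by rw [hs]; ring
      rw [this]
      simp
    have h4 := hpt x₀ (by rw [hx₀]; linarith)
    have h5 : ((1 : ℂ) + (x₀ : ℂ) - 1) = x₀ := by ring
    rw [h3, h5] at h2
    have h6 : C1 * (1 + 1) ^ E1 * |t| ≤ c / 2 := by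
      refine le_trans ?_ ht0c
      rw [show (1 : ℝ) + 1 = 2 by norm_num]
      exact mul_le_mul_of_nonneg_left hcase (by positivity)
    have h7 : c / 2 ≤ ‖(s - 1) * riemannZeta s‖ := by
      have h8 := norm_sub_norm_le ((x₀ : ℂ) * riemannZeta (1 + x₀)) ((s - 1) * riemannZeta s)
      rw [norm_sub_rev] at h8
      have h9 := h8.trans (h2.trans h6)
      have h10 := sub_le_iff_le_add.mp h9
      have h11 := h4.trans h10
      linarith
    refine le_trans ?_ h7
    rw [div_le_iff₀ (by positivity)]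
    calc min (c / 2) (1 / (16 * K ^ 7) / 2 ^ (38 * E')) ≤ c / 2 := min_le_left _ _
      _ = c / 2 * 1 := by ring
      _ ≤ c / 2 * (1 + |t|) ^ (38 * E') := mul_le_mul_of_nonneg_left hpow1 (by positivity)
  · -- away from the real axis
    set Y : ℝ := (1 + 2 * |t|) ^ E' with hY
    have h2t : 1 ≤ 1 + 2 * |t| := by linarith [abs_nonneg t]
    have hY1 : 1 ≤ Y := one_le_pow₀ h2t
    have hre : ∀ x : ℝ, ((1 : ℂ) + (x : ℂ) + Complex.I * (t : ℂ)).re = 1 + x := by
      intro x; simp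
    have him : ∀ x : ℝ, ((1 : ℂ) + (x : ℂ) + Complex.I * (t : ℂ)).im = t := by
      intro x; simp
    have hcore := Pool.Agent.MT.LLow_core K Y hK1' hY1
      (fun x : ℝ => ‖((1 : ℂ) + (x : ℂ) + Complex.I * (t : ℂ) - 1) *
        riemannZeta ((1 : ℂ) + (x : ℂ) + Complex.I * (t : ℂ))‖) (fun x => norm_nonneg _) ?_ ?_ x₀
      (by rw [hx₀]; linarith) (by rw [hx₀]; linarith)
    · simp only [← hs] at hcore
      refine le_trans ?_ hcore
      have hYle : Y ^ 38 ≤ 2 ^ (38 * E') * (1 + |t|) ^ (38 * E') := by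
        rw [hY, ← pow_mul, ← mul_pow, mul_comm E' 38]
        exact pow_le_pow_left₀ (by linarith) (by linarith [abs_nonneg t]) _
      calc min (c / 2) (1 / (16 * K ^ 7) / 2 ^ (38 * E')) / (1 + |t|) ^ (38 * E')
          ≤ (1 / (16 * K ^ 7) / 2 ^ (38 * E')) / (1 + |t|) ^ (38 * E') :=
            div_le_div_of_nonneg_right (min_le_right _ _) (by positivity)
        _ = 1 / (16 * K ^ 7) / (2 ^ (38 * E') * (1 + |t|) ^ (38 * E')) := by
            rw [div_div]
        _ ≤ 1 / (16 * K ^ 7) / Y ^ 38 := div_le_div_of_nonneg_left (by positivity) (by positivity) hYle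
    · -- the product inequality
      intro x hx0 hx1
      have hP : ‖LSeries (fun n : ℕ => (1 : DirichletCharacter ℂ 1) (n : ZMod 1)) (1 + x)‖ ≤
          K1 * Y / x := by
        have h2 := hL 1 (1 + (x : ℂ)) (by simpa using hx0) (by simp; linarith)
        refine h2.trans ?_
        have h3 : ‖(1 : ℂ) + x - 1‖ = x := by
          have : (1 : ℂ) + x - 1 = x := by ring
          rw [this, Complex.norm_real, Real.norm_eq_abs, abs_of_pos hx0]
        have h4 : ((1 : ℂ) + x).im = 0 := by simp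
        rw [h3, h4]
        have h5 : Real.log (((1 : ℕ) : ℝ) * (|(0 : ℝ)| + 3)) ≤ 2 := by
          have h6 := Real.log_le_sub_one_of_pos (show (0 : ℝ) < 3 by norm_num)
          simp only [Nat.cast_one, abs_zero, zero_add, one_mul]
          linarith
        have h6 : 1 ≤ 1 / x := by
          rw [le_div_iff₀ hx0]; linarith
        calc CL * (Real.log (((1 : ℕ) : ℝ) * (|(0 : ℝ)| + 3)) + 1 / x)
            ≤ CL * (2 * (1 / x) + 1 / x) :=
              mul_le_mul_of_nonneg_left (add_le_add (h5.trans (by linarith)) le_rfl) hCL.le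
          _ = (3 * CL) * 1 / x := by ring
          _ ≤ K1 * Y / x := by
              apply div_le_div_of_nonneg_right _ hx0.le
              exact mul_le_mul hK1a hY1 (by norm_num) (by linarith)
      have hR : ‖LSeries (fun n : ℕ => ((1 : DirichletCharacter ℂ 1) ^ 2) (n : ZMod 1))
          (1 + x + 2 * Complex.I * t)‖ ≤ K1 * Y ^ 5 := by
        have hz1 : 1 < ((1 : ℂ) + x + 2 * Complex.I * t).re := by simpa using hx0
        have hz2 : ((1 : ℂ) + x + 2 * Complex.I * t).re ≤ 2 := by simp; linarith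
        have hzim : ((1 : ℂ) + x + 2 * Complex.I * t).im = 2 * t := by simp
        rw [one_pow, zl_char _ hz1]
        have h2 := h0 _ hz1 hz2
        rw [iteratedDeriv_zero, norm_mul, hzim, abs_mul, abs_two] at h2
        have h3 : 2 * t0 ≤ ‖(1 : ℂ) + x + 2 * Complex.I * t - 1‖ := by
          have h4 := Complex.abs_im_le_norm ((1 : ℂ) + x + 2 * Complex.I * t - 1)
          have h5 : ((1 : ℂ) + x + 2 * Complex.I * t - 1).im = 2 * t := by simp
          rw [h5, abs_mul, abs_two] at h4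
          linarith
        have h4 : 2 * t0 * ‖riemannZeta ((1 : ℂ) + x + 2 * Complex.I * t)‖ ≤
            C0 * (1 + 2 * |t|) ^ E0 :=
          (mul_le_mul_of_nonneg_right h3 (norm_nonneg _)).trans h2
        have h5 : ‖riemannZeta ((1 : ℂ) + x + 2 * Complex.I * t)‖ ≤
            C0 / (2 * t0) * (1 + 2 * |t|) ^ E0 := by
          rw [div_mul_eq_mul_div, le_div_iff₀ (by positivity)]
          linarith
        refine h5.trans ?_
        have h6 : (1 + 2 * |t|) ^ E0 ≤ Y ^ 5 := by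
          rw [hY, ← pow_mul]
          exact pow_le_pow_right₀ h2t (by omega)
        exact mul_le_mul hK1b h6 (by positivity) (by linarith)
      have h2 := Pool.Agent.MT.LLow_prod (1 : DirichletCharacter ℂ 1) x t K1 Y hx0 (by linarith)
        (by linarith) hP hR
      have hz1 : 1 < ((1 : ℂ) + x + Complex.I * t).re := by simpa using hx0
      rw [zl_char _ hz1] at h2
      have h3 : t0 ≤ ‖(1 : ℂ) + x + Complex.I * t - 1‖ := by
        have h4 := Complex.abs_im_le_norm ((1 : ℂ) + x + Complex.I * t - 1)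
        have h5 : ((1 : ℂ) + x + Complex.I * t - 1).im = t := by simp
        rw [h5] at h4
        linarith
      have h4 : t0 * ‖riemannZeta ((1 : ℂ) + x + Complex.I * t)‖ ≤
          ‖((1 : ℂ) + x + Complex.I * t - 1) * riemannZeta ((1 : ℂ) + x + Complex.I * t)‖ := by
        rw [norm_mul]
        exact mul_le_mul_of_nonneg_right h3 (norm_nonneg _)
      set G := ‖((1 : ℂ) + x + Complex.I * t - 1) * riemannZeta ((1 : ℂ) + x + Complex.I * t)‖
        with hG
      set z := ‖riemannZeta ((1 : ℂ) + x + Complex.I * t)‖ with hz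
      have hz0 : 0 ≤ z := norm_nonneg _
      have hG0 : 0 ≤ G := norm_nonneg _
      calc x ^ 3 ≤ K1 ^ 4 * Y ^ 8 * z ^ 4 := h2
        _ = (K1 / t0) ^ 4 * Y ^ 8 * (t0 * z) ^ 4 := by
            field_simp
        _ ≤ K ^ 4 * Y ^ 8 * G ^ 4 := by
            apply mul_le_mul _ (pow_le_pow_left₀ (by positivity) h4 4) (by positivity) (by positivity)
            exact mul_le_mul_of_nonneg_right (pow_le_pow_left₀ (by positivity) hKa 4) (by positivity)
    · -- Lipschitz
      intro x y hx0 hx1 hy0 hy1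
      have h2 := zl_lip (s := (1 : ℂ) + x + Complex.I * t) (s' := (1 : ℂ) + y + Complex.I * t)
        hC1 h1 (by rw [hre]; linarith) (by rw [hre]; linarith) (by rw [hre]; linarith)
        (by rw [hre]; linarith) (T := |t|) (by rw [him]) (by rw [him])
      have h3 := abs_norm_sub_norm_le
        (((1 : ℂ) + x + Complex.I * t - 1) * riemannZeta ((1 : ℂ) + x + Complex.I * t))
        (((1 : ℂ) + y + Complex.I * t - 1) * riemannZeta ((1 : ℂ) + y + Complex.I * t))
      have h4 : ‖((1 : ℂ) + x + Complex.I * t) - ((1 : ℂ) + y + Complex.I * t)‖ = |x - y| := by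
        have : ((1 : ℂ) + x + Complex.I * t) - ((1 : ℂ) + y + Complex.I * t) = ((x - y : ℝ) : ℂ) := by
          push_cast; ring
        rw [this, Complex.norm_real, Real.norm_eq_abs]
      rw [h4] at h2
      refine h3.trans (h2.trans ?_)
      apply mul_le_mul_of_nonneg_right _ (abs_nonneg _)
      have h5 : (1 + |t|) ^ E1 ≤ Y ^ 2 := by
        calc (1 + |t|) ^ E1 ≤ (1 + 2 * |t|) ^ E1 :=
              pow_le_pow_left₀ (by linarith) (by linarith [abs_nonneg t]) _
          _ ≤ (1 + 2 * |t|) ^ (E' * 2) := pow_le_pow_right₀ h2t (by omega)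
          _ = Y ^ 2 := by rw [hY, ← pow_mul]
      exact mul_le_mul hKb h5 (by positivity) (by linarith)

end Pool.Agent.SVB
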