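import Mathlib
import Pool.Agent.SVB.ZetaL

set_option autoImplicit false

/-!
# Project SVB: LiouD

For Re s > 1: zeta(s) * L(liouville, s) = zeta(2s) (Euler products; sg 0 n = (-1)^Omega(n)).
So (s-1) zeta(s) L(s) = (s-1) zeta(2s).  The derivatives of (s-1) zeta(2s) are bounded by the Cauchy
estimate, the derivatives of L follow by the Leibniz rule from zeta_deriv and zeta_low.
-/

namespace Pool.Agent.SVB

open Finset Filter Topology
open Pool.Agent.MT (IsWt Z1)

namespace LiouDAux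

/-- the Liouville function -/
noncomputable def lf (n : ℕ) : ℂ := ((sg 0 n : ℝ) : ℂ)

theorem omw_zero (n : ℕ) : omw 0 n = n.primeFactorsList.length := by
  unfold omw
  rw [List.filter_eq_self.2]
  intro p hp
  simpa using (Nat.prime_of_mem_primeFactorsList hp).pos

theorem lf_mul {m n : ℕ} (hm : m ≠ 0) (hn : n ≠ 0) : lf (m * n) = lf m * lf n := by
  unfold lf sg
  rw [omw_zero, omw_zero, omw_zero, (Nat.perm_primeFactorsList_mul hm hn).length_eq,
    List.length_append, pow_add]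
  push_cast
  ring

theorem lf_one : lf 1 = 1 := by
  unfold lf sg
  rw [omw_zero]
  simp

theorem lf_prime {p : ℕ} (hp : p.Prime) : lf p = -1 := by
  unfold lf sg
  rw [omw_zero, Nat.primeFactorsList_prime hp]
  simp

theorem norm_lf (n : ℕ) : ‖lf n‖ = 1 := by
  unfold lf sg
  simp

/-- the Liouville function twisted by a power -/
noncomputable def lhom (s : ℂ) (hs : s ≠ 0) : ℕ →*₀ ℂ where
  toFun n := lf n * (n : ℂ) ^ (-s)
  map_zero' := by
    simp [hs]
  map_one' := by
    simp [lf_one]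
  map_mul' m n := by
    by_cases hm : m = 0
    · subst hm
      simp [hs]
    by_cases hn : n = 0
    · subst hn
      simp [hs]
    rw [lf_mul hm hn, Nat.cast_mul, Complex.natCast_mul_natCast_cpow]
    ring

theorem norm_lhom (s : ℂ) (hs : s ≠ 0) (n : ℕ) :
    ‖lhom s hs n‖ = ‖riemannZetaSummandHom hs n‖ := by
  change ‖lf n * (n : ℂ) ^ (-s)‖ = ‖(n : ℂ) ^ (-s)‖
  rw [norm_mul, norm_lf, one_mul]

theorem lser_eq {s : ℂ} (hs : s ≠ 0) : LSeries lf s = ∑' n, lhom s hs n := by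
  unfold LSeries
  apply tsum_congr
  intro n
  change LSeries.term lf s n = lf n * (n : ℂ) ^ (-s)
  by_cases hn : n = 0
  · subst hn
    simp [LSeries.term, hs]
  · rw [LSeries.term_of_ne_zero hn, Complex.cpow_neg, div_eq_mul_inv]

theorem zeta_mul {s : ℂ} (hs : 1 < s.re) : riemannZeta s * LSeries lf s = riemannZeta (2 * s) := by
  have hs0 : s ≠ 0 := by
    intro h
    rw [h] at hs
    simp at hs
    linarith
  have h1 := riemannZeta_eulerProduct_hasProd hs
  have hsum : Summable (fun n => ‖lhom s hs0 n‖) := by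
    simp only [norm_lhom]
    exact summable_riemannZetaSummand hs
  have h2 := EulerProduct.eulerProduct_completely_multiplicative_hasProd hsum
  rw [← lser_eq hs0] at h2
  have hs2 : 1 < (2 * s).re := by
    simp only [Complex.mul_re, Complex.re_ofNat, Complex.im_ofNat, zero_mul, sub_zero]
    linarith
  have h3 := riemannZeta_eulerProduct_hasProd hs2
  have h4 := h1.mul h2
  refine h4.unique ?_
  convert h3 using 1
  funext p
  have hp : (p : ℕ).Prime := p.2
  have e1 : lhom s hs0 (p : ℕ) = -((p : ℕ) : ℂ) ^ (-s) := by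
    change lf p * ((p : ℕ) : ℂ) ^ (-s) = _
    rw [lf_prime hp]
    ring
  have e2 : ((p : ℕ) : ℂ) ^ (-(2 * s)) = ((p : ℕ) : ℂ) ^ (-s) * ((p : ℕ) : ℂ) ^ (-s) := by
    have hp0 : ((p : ℕ) : ℂ) ≠ 0 := by exact_mod_cast hp.ne_zero
    rw [← Complex.cpow_add _ _ hp0]
    congr 1
    ring
  rw [e1, e2, ← mul_inv]
  congr 1
  ring

/-- `(z - 1) ζ(z)` -/
noncomputable def gf (z : ℂ) : ℂ := (z - 1) * riemannZeta z

/-- `(z - 1) ζ(2 z)` -/
noncomputable def hf (z : ℂ) : ℂ := (z - 1) * riemannZeta (2 * z)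

theorem an_gf {s : ℂ} (hs : 1 < s.re) : AnalyticAt ℂ gf s := by
  have hopen : IsOpen {z : ℂ | 1 < z.re} := isOpen_lt continuous_const Complex.continuous_re
  have hd : DifferentiableOn ℂ gf {z : ℂ | 1 < z.re} := by
    intro z hz
    have hz1 : z ≠ 1 := by
      intro h
      rw [h] at hz
      simp at hz
    have h1 : DifferentiableAt ℂ (fun z : ℂ => z - 1) z := by fun_prop
    exact (h1.mul (differentiableAt_riemannZeta hz1)).differentiableWithinAt
  exact hd.analyticAt (hopen.mem_nhds hs)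

theorem an_lf {s : ℂ} (hs : 1 < s.re) : AnalyticAt ℂ (LSeries lf) s := by
  apply LSeries_analyticOnNhd
  have h : LSeries.abscissaOfAbsConv lf ≤ 1 :=
    LSeries.abscissaOfAbsConv_le_of_le_const ⟨1, fun n _ => (norm_lf n).le⟩
  show LSeries.abscissaOfAbsConv lf < (s.re : EReal)
  exact lt_of_le_of_lt h (by exact_mod_cast hs)

theorem diff_hf {z : ℂ} (hz : 1 / 2 < z.re) : DifferentiableAt ℂ hf z := by
  have hz1 : 2 * z ≠ 1 := by
    intro h
    have h2 := congrArg Complex.re h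
    simp only [Complex.mul_re, Complex.re_ofNat, Complex.im_ofNat, zero_mul, sub_zero,
      Complex.one_re] at h2
    linarith
  have h1 : DifferentiableAt ℂ (fun z : ℂ => z - 1) z := by fun_prop
  have h2 : DifferentiableAt ℂ (fun z : ℂ => 2 * z) z := by fun_prop
  have h3 : DifferentiableAt ℂ (fun z : ℂ => riemannZeta (2 * z)) z :=
    (differentiableAt_riemannZeta hz1).comp z h2
  exact h1.mul h3

/-- bound of the zeta function to the right of the line `3/2` -/
theorem zeta_bdd : ∃ M : ℝ, 0 < M ∧ ∀ z : ℂ, 3 / 2 ≤ z.re → ‖riemannZeta z‖ ≤ M := by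
  have hsum : Summable fun n : ℕ => 1 / ((n : ℝ) + 1) ^ ((3 : ℝ) / 2) := by
    have h := Real.summable_one_div_nat_rpow.2 (by norm_num : (1 : ℝ) < 3 / 2)
    have h2 := (summable_nat_add_iff 1).2 h
    refine h2.congr fun n => ?_
    push_cast
    rfl
  refine ⟨∑' n : ℕ, 1 / ((n : ℝ) + 1) ^ ((3 : ℝ) / 2), ?_, ?_⟩
  · apply hsum.tsum_pos (fun n => by positivity) 0
    norm_num
  · intro z hz
    have hz1 : 1 < z.re := by linarith
    rw [zeta_eq_tsum_one_div_nat_add_one_cpow hz1]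
    have hb : ∀ n : ℕ, ‖1 / ((n : ℂ) + 1) ^ z‖ ≤ 1 / ((n : ℝ) + 1) ^ ((3 : ℝ) / 2) := by
      intro n
      have hn : (1 : ℝ) ≤ (n : ℝ) + 1 := by
        have : (0 : ℝ) ≤ n := Nat.cast_nonneg n
        linarith
      have e1 : ‖((n : ℂ) + 1) ^ z‖ = ((n : ℝ) + 1) ^ z.re := by
        have : ((n : ℂ) + 1) = (((n : ℝ) + 1 : ℝ) : ℂ) := by push_cast; rfl
        rw [this, Complex.norm_cpow_eq_rpow_re_of_pos (by linarith)]
      rw [norm_div, norm_one, e1]
      apply one_div_le_one_div_of_le (by positivity)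
      exact Real.rpow_le_rpow_of_exponent_le hn hz
    exact (tsum_of_norm_bounded hsum.hasSum hb)

theorem hf_deriv (j : ℕ) : ∃ C : ℝ, 0 < C ∧ ∀ s : ℂ, 1 < s.re → s.re ≤ 2 →
    ‖iteratedDeriv j hf s‖ ≤ C * (1 + |s.im|) := by
  obtain ⟨M, hM, hMb⟩ := zeta_bdd
  refine ⟨(j.factorial : ℝ) * (4 * M) / (1 / 4) ^ j, by positivity, ?_⟩
  intro s hs1 hs2
  have hcl : ∀ z ∈ Metric.closedBall s (1 / 4), 3 / 4 ≤ z.re ∧ ‖z - 1‖ ≤ 4 * (1 + |s.im|) := by
    intro z hz
    have h1 : ‖z - s‖ ≤ 1 / 4 := by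
      rw [← dist_eq_norm]
      exact Metric.mem_closedBall.1 hz
    have h2 : |(z - s).re| ≤ 1 / 4 := (Complex.abs_re_le_norm _).trans h1
    rw [Complex.sub_re, abs_le] at h2
    refine ⟨by linarith, ?_⟩
    have h3 : ‖s - 1‖ ≤ |(s - 1).re| + |(s - 1).im| := Complex.norm_le_abs_re_add_abs_im _
    rw [Complex.sub_re, Complex.sub_im, Complex.one_re, Complex.one_im, sub_zero,
      abs_of_pos (by linarith)] at h3
    have h4 : ‖z - 1‖ ≤ ‖z - s‖ + ‖s - 1‖ := norm_sub_le_norm_sub_add_norm_sub z s 1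
    have h5 : 0 ≤ |s.im| := abs_nonneg _
    linarith
  have hdiff : DiffContOnCl ℂ hf (Metric.ball s (1 / 4)) := by
    apply DifferentiableOn.diffContOnCl
    intro z hz
    have h1 := hcl z (Metric.closure_ball_subset_closedBall hz)
    exact (diff_hf (by linarith [h1.1])).differentiableWithinAt
  have hb : ∀ z ∈ Metric.sphere s (1 / 4), ‖hf z‖ ≤ 4 * M * (1 + |s.im|) := by
    intro z hz
    have h1 := hcl z (Metric.sphere_subset_closedBall hz)
    unfold hf
    rw [norm_mul]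
    have h2 : ‖riemannZeta (2 * z)‖ ≤ M := by
      apply hMb
      simp only [Complex.mul_re, Complex.re_ofNat, Complex.im_ofNat, zero_mul, sub_zero]
      linarith [h1.1]
    have h3 : 0 ≤ 4 * (1 + |s.im|) := by positivity
    calc ‖z - 1‖ * ‖riemannZeta (2 * z)‖ ≤ (4 * (1 + |s.im|)) * M :=
          mul_le_mul h1.2 h2 (norm_nonneg _) h3
      _ = 4 * M * (1 + |s.im|) := by ring
  have h := Complex.norm_iteratedDeriv_le_of_forall_mem_sphere_norm_le j (by norm_num) hdiff hb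
  refine h.trans (le_of_eq ?_)
  ring

theorem leibniz (j : ℕ) {s : ℂ} (hs : 1 < s.re) :
    gf s * iteratedDeriv j (LSeries lf) s = iteratedDeriv j hf s -
      ∑ i ∈ range j, (j.choose (i + 1) : ℂ) * iteratedDeriv (i + 1) gf s *
        iteratedDeriv (j - (i + 1)) (LSeries lf) s := by
  have h1 := iteratedDeriv_fun_mul (n := j) (an_gf hs).contDiffAt (an_lf hs).contDiffAt
  have hev : (fun z => gf z * LSeries lf z) =ᶠ[nhds s] hf := by
    have hopen : IsOpen {z : ℂ | 1 < z.re} := isOpen_lt continuous_const Complex.continuous_re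
    filter_upwards [hopen.mem_nhds hs] with z hz
    unfold gf hf
    rw [mul_assoc, zeta_mul hz]
  rw [hev.iteratedDeriv_eq, Finset.sum_range_succ'] at h1
  simp only [Nat.choose_zero_right, Nat.cast_one, one_mul, iteratedDeriv_zero, Nat.sub_zero] at h1
  rw [h1]
  ring

end LiouDAux

open LiouDAux

theorem liou_deriv (j : ℕ) : ∃ (C : ℝ) (E : ℕ), 0 < C ∧ ∀ s : ℂ, 1 < s.re → s.re ≤ 2 →
    ‖iteratedDeriv j (LSeries (fun n => ((sg 0 n : ℝ) : ℂ))) s‖ ≤ C * (1 + |s.im|) ^ E := by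
  change ∃ (C : ℝ) (E : ℕ), 0 < C ∧ ∀ s : ℂ, 1 < s.re → s.re ≤ 2 →
    ‖iteratedDeriv j (LSeries lf) s‖ ≤ C * (1 + |s.im|) ^ E
  obtain ⟨c, E0, hc, hlow⟩ := zeta_low
  choose CG EG hCG hGb using zeta_deriv
  obtain ⟨CH, hCH, hHb⟩ : ∃ CH : ℕ → ℝ, (∀ j, 0 < CH j) ∧ ∀ j, ∀ s : ℂ, 1 < s.re → s.re ≤ 2 →
      ‖iteratedDeriv j hf s‖ ≤ CH j * (1 + |s.im|) := by
    choose CH h1 h2 using hf_deriv
    exact ⟨CH, h1, h2⟩
  induction j using Nat.strong_induction_on with
  | _ j ih =>
    have ih' : ∀ m, ∃ (C : ℝ) (E : ℕ), 0 < C ∧ (m < j → ∀ s : ℂ, 1 < s.re → s.re ≤ 2 →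
        ‖iteratedDeriv m (LSeries lf) s‖ ≤ C * (1 + |s.im|) ^ E) := by
      intro m
      by_cases hm : m < j
      · obtain ⟨C, E, hC, hG⟩ := ih m hm
        exact ⟨C, E, hC, fun _ => hG⟩
      · exact ⟨1, 0, one_pos, fun h => absurd h hm⟩
    choose CL EL hCL hLb using ih'
    obtain ⟨B, hB⟩ : ∃ B : ℕ, B = 1 + ∑ i ∈ range j, (EG (i + 1) + EL (j - (i + 1))) := ⟨_, rfl⟩
    obtain ⟨K, hK⟩ : ∃ K : ℝ, K = CH j +
      ∑ i ∈ range j, (j.choose (i + 1) : ℝ) * CG (i + 1) * CL (j - (i + 1)) := ⟨_, rfl⟩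
    have hKpos : 0 < K := by
      have h2 : 0 ≤ ∑ i ∈ range j, (j.choose (i + 1) : ℝ) * CG (i + 1) * CL (j - (i + 1)) := by
        apply Finset.sum_nonneg
        intro i _
        have := (hCG (i + 1)).le
        have := (hCL (j - (i + 1))).le
        positivity
      have h1 := hCH j
      rw [hK]
      linarith
    refine ⟨K / c, B + E0, div_pos hKpos hc, ?_⟩
    intro s hs1 hs2
    obtain ⟨Z, hZ⟩ : ∃ Z : ℝ, Z = 1 + |s.im| := ⟨_, rfl⟩
    have hZ1 : 1 ≤ Z := by
      have h2 := abs_nonneg s.im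
      linarith
    have hZ0 : 0 < Z := by linarith
    have hg : c / Z ^ E0 ≤ ‖gf s‖ := by
      rw [hZ]
      exact hlow s hs1 hs2
    have hgpos : 0 < ‖gf s‖ := lt_of_lt_of_le (by positivity) hg
    have hL := leibniz j hs1
    have hmain : ‖gf s‖ * ‖iteratedDeriv j (LSeries lf) s‖ ≤ K * Z ^ B := by
      rw [← norm_mul, hL]
      refine (norm_sub_le _ _).trans ?_
      have e1 : ‖iteratedDeriv j hf s‖ ≤ CH j * Z ^ B := by
        have := hHb j s hs1 hs2
        rw [← hZ] at this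
        refine this.trans (mul_le_mul_of_nonneg_left ?_ (hCH j).le)
        calc Z = Z ^ 1 := (pow_one Z).symm
          _ ≤ Z ^ B := pow_le_pow_right₀ hZ1 (by omega)
      have e2 : ‖∑ i ∈ range j, (j.choose (i + 1) : ℂ) * iteratedDeriv (i + 1) gf s *
          iteratedDeriv (j - (i + 1)) (LSeries lf) s‖ ≤
          (∑ i ∈ range j, (j.choose (i + 1) : ℝ) * CG (i + 1) * CL (j - (i + 1))) * Z ^ B := by
        rw [sum_mul]
        refine (norm_sum_le _ _).trans (sum_le_sum fun i hi => ?_)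
        have hij : i < j := mem_range.1 hi
        have f1 : ‖iteratedDeriv (i + 1) gf s‖ ≤ CG (i + 1) * Z ^ EG (i + 1) := by
          rw [hZ]
          exact hGb (i + 1) s hs1 hs2
        have f2 : ‖iteratedDeriv (j - (i + 1)) (LSeries lf) s‖ ≤
            CL (j - (i + 1)) * Z ^ EL (j - (i + 1)) := by
          rw [hZ]
          exact hLb (j - (i + 1)) (by omega) s hs1 hs2
        have f3 : EG (i + 1) + EL (j - (i + 1)) ≤ B := by
          have := single_le_sum (f := fun i => EG (i + 1) + EL (j - (i + 1)))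
            (fun _ _ => Nat.zero_le _) hi
          rw [hB]
          omega
        rw [norm_mul, norm_mul, Complex.norm_natCast]
        have hcg := (hCG (i + 1)).le
        have hcl := (hCL (j - (i + 1))).le
        calc (j.choose (i + 1) : ℝ) * ‖iteratedDeriv (i + 1) gf s‖ *
              ‖iteratedDeriv (j - (i + 1)) (LSeries lf) s‖
            ≤ (j.choose (i + 1) : ℝ) * (CG (i + 1) * Z ^ EG (i + 1)) *
              (CL (j - (i + 1)) * Z ^ EL (j - (i + 1))) := by gcongr
          _ = (j.choose (i + 1) : ℝ) * CG (i + 1) * CL (j - (i + 1)) *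
              Z ^ (EG (i + 1) + EL (j - (i + 1))) := by
              rw [pow_add]
              ring
          _ ≤ _ := mul_le_mul_of_nonneg_left (pow_le_pow_right₀ hZ1 f3) (by positivity)
      have e3 : K * Z ^ B = CH j * Z ^ B +
          (∑ i ∈ range j, (j.choose (i + 1) : ℝ) * CG (i + 1) * CL (j - (i + 1))) * Z ^ B := by
        rw [hK]
        ring
      rw [e3]
      exact add_le_add e1 e2
    have h1 : c / Z ^ E0 * ‖iteratedDeriv j (LSeries lf) s‖ ≤ K * Z ^ B :=
      (mul_le_mul_of_nonneg_right hg (norm_nonneg _)).trans hmain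
    rw [← hZ]
    have h2 : ‖iteratedDeriv j (LSeries lf) s‖ ≤ K * Z ^ B / (c / Z ^ E0) := by
      rw [le_div_iff₀ (by positivity), mul_comm]
      exact h1
    refine h2.trans (le_of_eq ?_)
    rw [pow_add]
    field_simp

end Pool.Agent.SVB
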