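import Mathlib
import Pool.Agent.SVB.Defs

set_option autoImplicit false

/-!
# Project SVB: SmoothD

hSm w is multiplicative, hSm(p^k) = 2 for p <= w, k >= 1 and 0 for p > w; sg w = sg 0 * hSm w (Dirichlet convolution;
at p^k with p <= w: (-1)^k + 2 sum_(i=1)^k (-1)^(k-i) = 1). Summability: |sg| <= 1, hSm <= 2^omega(n) <= number of divisors.
hw_deriv: for 1 < Re s <= 2 the j-th derivative is bounded by sum hSm(n) (log n)^j / n over w-smooth n
(iteratedDeriv of LSeries: Mathlib LSeries_iteratedDeriv). Crude bound: with c = 1/log(w+2) <= 1/2-ish,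
(log n)^j <= j! c^(-j) n^c, and sum hSm(n) n^(-1+c) = prod_(p <= w) (1 + 2 sum_k p^(-k(1-c))) <= exp(C sum_(p<=w) p^c / p)
<= exp(C e (1+log w)) <= C (w+2)^K, c^(-j) <= C_j (w+2). K must not depend on j.
-/

namespace Pool.Agent.SVB

open Finset Filter Topology
open Pool.Agent.MT (IsWt Z1)

/-- The coefficients of the correction factor at the small primes. -/
noncomputable def hSm (w n : ℕ) : ℝ := by
  classical exact if n ≠ 0 ∧ ∀ p : ℕ, p.Prime → p ∣ n → p ≤ w then 2 ^ n.primeFactors.card else 0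

/-! ### Elementary properties of the sign -/

lemma omw_mul (w : ℕ) {m n : ℕ} (hm : m ≠ 0) (hn : n ≠ 0) :
    omw w (m * n) = omw w m + omw w n := by
  unfold omw
  have h := (Nat.perm_primeFactorsList_mul hm hn).filter (fun p => decide (w < p))
  rw [h.length_eq, List.filter_append, List.length_append]

lemma sg_mul (w : ℕ) {m n : ℕ} (hm : m ≠ 0) (hn : n ≠ 0) :
    sg w (m * n) = sg w m * sg w n := by
  unfold sg
  rw [omw_mul w hm hn, pow_add]

lemma sg_one' (w : ℕ) : sg w 1 = 1 := by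
  simp [sg, omw]

lemma omw_prime_pow (w p k : ℕ) (hp : p.Prime) :
    omw w (p ^ k) = if w < p then k else 0 := by
  unfold omw
  rw [hp.primeFactorsList_pow]
  split_ifs with h
  · rw [List.filter_replicate]; simp [h]
  · rw [List.filter_replicate]; simp [h]

lemma sg_prime_pow (w p k : ℕ) (hp : p.Prime) :
    sg w (p ^ k) = if w < p then (-1) ^ k else 1 := by
  unfold sg
  rw [omw_prime_pow w p k hp]
  split_ifs <;> simp

lemma abs_sg_le (w n : ℕ) : |sg w n| ≤ 1 := by
  unfold sg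
  simp

/-! ### Elementary properties of `hSm` -/

lemma hSm_one (w : ℕ) : hSm w 1 = 1 := by
  classical
  unfold hSm
  rw [if_pos]
  · simp
  · refine ⟨one_ne_zero, fun p hp h => ?_⟩
    exact absurd (Nat.dvd_one.mp h) hp.ne_one

lemma hSm_zero (w : ℕ) : hSm w 0 = 0 := by
  classical
  unfold hSm
  rw [if_neg]
  simp

lemma hSm_nonneg (w n : ℕ) : 0 ≤ hSm w n := by
  classical
  unfold hSm
  split_ifs <;> positivity

lemma hSm_mul (w : ℕ) {m n : ℕ} (h : m.Coprime n) : hSm w (m * n) = hSm w m * hSm w n := by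
  classical
  unfold hSm
  by_cases hm : m ≠ 0 ∧ ∀ p : ℕ, p.Prime → p ∣ m → p ≤ w
  · by_cases hn : n ≠ 0 ∧ ∀ p : ℕ, p.Prime → p ∣ n → p ≤ w
    · rw [if_pos hm, if_pos hn, if_pos]
      · rw [h.primeFactors_mul, card_union_of_disjoint h.disjoint_primeFactors, pow_add]
      · refine ⟨mul_ne_zero hm.1 hn.1, fun p hp hd => ?_⟩
        rcases (hp.dvd_mul).mp hd with hd | hd
        · exact hm.2 p hp hd
        · exact hn.2 p hp hd
    · rw [if_neg hn, if_neg, mul_zero]
      rintro ⟨h1, h2⟩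
      exact hn ⟨right_ne_zero_of_mul h1, fun p hp hd => h2 p hp (hd.mul_left m)⟩
  · rw [if_neg hm, if_neg, zero_mul]
    rintro ⟨h1, h2⟩
    exact hm ⟨left_ne_zero_of_mul h1, fun p hp hd => h2 p hp (hd.mul_right n)⟩

lemma hSm_prime_pow (w p k : ℕ) (hp : p.Prime) :
    hSm w (p ^ k) = if k = 0 then 1 else if w < p then 0 else 2 := by
  classical
  by_cases hk : k = 0
  · subst hk
    simp [hSm_one]
  · rw [if_neg hk]
    unfold hSm
    by_cases hw : w < p
    · rw [if_pos hw, if_neg]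
      rintro ⟨-, h2⟩
      exact absurd (h2 p hp (dvd_pow_self p hk)) (not_le.mpr hw)
    · rw [if_neg hw, if_pos]
      · rw [Nat.primeFactors_prime_pow hk hp]; simp
      · refine ⟨pow_ne_zero _ hp.ne_zero, fun q hq hd => ?_⟩
        rw [(Nat.prime_dvd_prime_iff_eq hq hp).mp (hq.dvd_of_dvd_pow hd)]
        exact not_lt.mp hw

/-! ### The convolution identity -/

/-- The sign as an arithmetic function. -/
noncomputable def sgA (w : ℕ) : ArithmeticFunction ℝ := ⟨fun n => if n = 0 then 0 else sg w n, by simp⟩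

/-- `hSm` as an arithmetic function. -/
noncomputable def hSmA (w : ℕ) : ArithmeticFunction ℝ := ⟨fun n => hSm w n, hSm_zero w⟩

lemma sgA_apply (w : ℕ) {n : ℕ} (hn : n ≠ 0) : sgA w n = sg w n := by
  change (if n = 0 then 0 else sg w n) = _
  rw [if_neg hn]

lemma hSmA_apply (w n : ℕ) : hSmA w n = hSm w n := rfl

lemma sgA_mult (w : ℕ) : (sgA w).IsMultiplicative := by
  rw [ArithmeticFunction.IsMultiplicative.iff_ne_zero]
  refine ⟨by rw [sgA_apply w one_ne_zero, sg_one'], fun {m n} hm hn _ => ?_⟩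
  rw [sgA_apply w (mul_ne_zero hm hn), sgA_apply w hm, sgA_apply w hn, sg_mul w hm hn]

lemma hSmA_mult (w : ℕ) : (hSmA w).IsMultiplicative := by
  refine ⟨by rw [hSmA_apply, hSm_one], fun {m n} h => ?_⟩
  rw [hSmA_apply, hSmA_apply, hSmA_apply, hSm_mul w h]

lemma alt_sum (k : ℕ) :
    ∑ i ∈ range (k + 1), (-1 : ℝ) ^ i * (if k - i = 0 then (1 : ℝ) else 2) = 1 := by
  rw [sum_range_succ]
  have h1 : ∑ i ∈ range k, (-1 : ℝ) ^ i * (if k - i = 0 then (1 : ℝ) else 2) =
      ∑ i ∈ range k, (-1 : ℝ) ^ i * 2 := by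
    refine sum_congr rfl fun i hi => ?_
    rw [if_neg (by have := mem_range.mp hi; omega)]
  rw [h1, ← sum_mul]
  have h2 := geom_sum_eq (show (-1 : ℝ) ≠ 1 by norm_num) k
  rw [h2]
  simp only [Nat.sub_self, if_true, mul_one]
  ring

lemma sgA_conv (w : ℕ) : sgA w = sgA 0 * hSmA w := by
  rw [ArithmeticFunction.IsMultiplicative.eq_iff_eq_on_prime_powers _ (sgA_mult w) _
    ((sgA_mult 0).mul (hSmA_mult w))]
  intro p k hp
  rw [sgA_apply w (pow_ne_zero _ hp.ne_zero), ArithmeticFunction.mul_apply,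
    Nat.sum_divisorsAntidiagonal (f := fun a b => sgA 0 a * hSmA w b),
    Nat.sum_divisors_prime_pow hp]
  have h1 : ∀ i ∈ range (k + 1), sgA 0 (p ^ i) * hSmA w (p ^ k / p ^ i) =
      (-1) ^ i * (if k - i = 0 then 1 else if w < p then 0 else 2) := by
    intro i hi
    have hik : i ≤ k := by have := mem_range.mp hi; omega
    rw [Nat.pow_div hik hp.pos, sgA_apply 0 (pow_ne_zero _ hp.ne_zero), hSmA_apply,
      sg_prime_pow 0 p i hp, hSm_prime_pow w p _ hp, if_pos hp.pos]
  rw [sum_congr rfl h1, sg_prime_pow w p k hp]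
  by_cases hw : w < p
  · simp only [if_pos hw]
    rw [sum_range_succ, sum_eq_zero]
    · simp
    · intro i hi
      rw [if_neg (by have := mem_range.mp hi; omega), mul_zero]
  · simp only [if_neg hw]
    exact (alt_sum k).symm

lemma conv_eq (w : ℕ) {n : ℕ} (hn : n ≠ 0) :
    sg w n = ∑ x ∈ n.divisorsAntidiagonal, sg 0 x.1 * hSm w x.2 := by
  have h : sgA w n = (sgA 0 * hSmA w) n := by rw [← sgA_conv w]
  rw [sgA_apply w hn, ArithmeticFunction.mul_apply] at h
  rw [h]
  refine sum_congr rfl fun x hx => ?_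
  rw [sgA_apply 0 (Nat.ne_zero_of_mem_divisorsAntidiagonal hx).1, hSmA_apply]

/-! ### The Euler product bound -/

/-- The exponent shift. -/
noncomputable def cw (w : ℕ) : ℝ := 1 / (2 * Real.log ((w : ℝ) + 2))

lemma log_pos' (w : ℕ) : 0 < Real.log ((w : ℝ) + 2) :=
  Real.log_pos (by have : (0 : ℝ) ≤ w := Nat.cast_nonneg w; linarith)

lemma cw_pos (w : ℕ) : 0 < cw w := by
  unfold cw
  have := log_pos' w
  positivity

lemma cw_log (w : ℕ) : cw w * Real.log ((w : ℝ) + 2) = 1 / 2 := by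
  unfold cw
  have := (log_pos' w).ne'
  field_simp

/-- The local variable at `p`. -/
noncomputable def xw (w p : ℕ) : ℝ := (p : ℝ) ^ (-(1 - cw w))

lemma xw_pos (w : ℕ) {p : ℕ} (hp : 0 < p) : 0 < xw w p := by
  unfold xw
  have : (0 : ℝ) < p := by exact_mod_cast hp
  positivity

lemma exp_half_le : Real.exp (1 / 2) ≤ 33 / 20 := by
  have h1 : Real.exp (1 / 2) ^ 2 = Real.exp 1 := by
    rw [← Real.exp_nat_mul]; norm_num
  have h2 := Real.exp_one_lt_d9
  have h3 : Real.exp (1 / 2) ^ 2 ≤ (33 / 20) ^ 2 := by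
    rw [h1]; linarith [h2]
  exact le_of_sq_le_sq h3 (by norm_num)

lemma xw_le (w : ℕ) {p : ℕ} (hp : 0 < p) (hpw : p ≤ w) : xw w p ≤ (33 / 20) / p := by
  have hp' : (0 : ℝ) < p := by exact_mod_cast hp
  unfold xw
  rw [show -(1 - cw w) = cw w - 1 by ring, Real.rpow_sub hp', Real.rpow_one]
  refine div_le_div_of_nonneg_right ?_ hp'.le
  have h1 : (p : ℝ) ^ cw w ≤ ((w : ℝ) + 2) ^ cw w := by
    refine Real.rpow_le_rpow hp'.le ?_ (cw_pos w).le
    have : (p : ℝ) ≤ w := by exact_mod_cast hpw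
    linarith
  refine h1.trans ?_
  have h2 : (0 : ℝ) < (w : ℝ) + 2 := by positivity
  rw [Real.rpow_def_of_pos h2, mul_comm, cw_log]
  exact exp_half_le

lemma xw_lt (w : ℕ) {p : ℕ} (hp : 2 ≤ p) (hpw : p ≤ w) : xw w p ≤ 33 / 40 := by
  refine (xw_le w (by omega) hpw).trans ?_
  have : (2 : ℝ) ≤ p := by exact_mod_cast hp
  rw [div_le_iff₀ (by linarith)]
  nlinarith

/-- The weighted coefficient. -/
noncomputable def gw (w n : ℕ) : ℝ := hSm w n * (n : ℝ) ^ (-(1 - cw w))

lemma gw_nonneg (w n : ℕ) : 0 ≤ gw w n := by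
  unfold gw
  exact mul_nonneg (hSm_nonneg w n) (by positivity)

lemma gw_one (w : ℕ) : gw w 1 = 1 := by
  simp [gw, hSm_one]

lemma gw_mul (w : ℕ) {m n : ℕ} (h : m.Coprime n) : gw w (m * n) = gw w m * gw w n := by
  unfold gw
  rw [hSm_mul w h, Nat.cast_mul, Real.mul_rpow (Nat.cast_nonneg m) (Nat.cast_nonneg n)]
  ring

lemma gw_prime_pow (w p k : ℕ) (hp : p.Prime) :
    gw w (p ^ k) = (if k = 0 then 1 else if w < p then 0 else 2) * xw w p ^ k := by
  unfold gw xw
  rw [hSm_prime_pow w p k hp, Nat.cast_pow, ← Real.rpow_natCast, ← Real.rpow_natCast,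
    ← Real.rpow_mul (Nat.cast_nonneg p), ← Real.rpow_mul (Nat.cast_nonneg p), mul_comm (k : ℝ)]

lemma local_hasSum (w p : ℕ) (hp : p.Prime) (hpw : p ≤ w) :
    HasSum (fun k => gw w (p ^ k)) (1 + 2 * (xw w p / (1 - xw w p))) := by
  have hx0 := (xw_pos w hp.pos).le
  have hx1 := xw_lt w hp.two_le hpw
  have hx : xw w p < 1 := by linarith
  have h1 : HasSum (fun k => xw w p ^ k) (1 - xw w p)⁻¹ := hasSum_geometric_of_lt_one hx0 hx
  have h2 : HasSum (fun k : ℕ => if k = 0 then (-1 : ℝ) else 0) (-1) := hasSum_ite_eq 0 (-1)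
  have h3 := (h1.mul_left 2).add h2
  have h4 : (2 * (1 - xw w p)⁻¹ + -1) = 1 + 2 * (xw w p / (1 - xw w p)) := by
    have : 1 - xw w p ≠ 0 := by linarith
    field_simp
    ring
  rw [h4] at h3
  have h5 : (fun k => gw w (p ^ k)) = fun k => 2 * xw w p ^ k + if k = 0 then -1 else 0 := by
    funext k
    rw [gw_prime_pow w p k hp, if_neg (not_lt.mpr hpw)]
    by_cases hk : k = 0
    · subst hk
      simp
      norm_num
    · simp [hk]
  rw [h5]
  exact h3

lemma local_hasSum_big (w p : ℕ) (hp : p.Prime) (hpw : w < p) :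
    HasSum (fun k => gw w (p ^ k)) 1 := by
  have h2 : HasSum (fun k : ℕ => if k = 0 then (1 : ℝ) else 0) 1 := hasSum_ite_eq 0 1
  have h5 : (fun k => gw w (p ^ k)) = fun k => if k = 0 then (1 : ℝ) else 0 := by
    funext k
    rw [gw_prime_pow w p k hp, if_pos hpw]
    by_cases hk : k = 0
    · subst hk
      simp
    · simp [hk]
  rw [h5]
  exact h2

lemma local_summable (w p : ℕ) (hp : p.Prime) : Summable (fun k => ‖gw w (p ^ k)‖) := by
  have h : Summable (fun k => gw w (p ^ k)) := by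
    by_cases hpw : w < p
    · exact (local_hasSum_big w p hp hpw).summable
    · exact (local_hasSum w p hp (not_lt.mp hpw)).summable
  refine h.congr fun k => ?_
  rw [Real.norm_of_nonneg (gw_nonneg w _)]

lemma local_bound (w p : ℕ) (hp : p.Prime) (hpw : p ≤ w) :
    1 + 2 * (xw w p / (1 - xw w p)) ≤ Real.exp (19 * (1 / (p : ℝ))) := by
  have hp0 : (0 : ℝ) < p := by exact_mod_cast hp.pos
  have hx0 := xw_pos w hp.pos
  have hx1 := xw_lt w hp.two_le hpw
  have hx2 := xw_le w hp.pos hpw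
  have h1 : xw w p / (1 - xw w p) ≤ (66 / 7) / p := by
    rw [div_le_div_iff₀ (by linarith) hp0]
    rw [le_div_iff₀ hp0] at hx2
    nlinarith
  have h2 : 1 + 2 * (xw w p / (1 - xw w p)) ≤ 1 + 19 * (1 / (p : ℝ)) := by
    have h3 : (66 / 7 : ℝ) / p = (66 / 7) * (1 / p) := by ring
    have h4 : 0 < 1 / (p : ℝ) := by positivity
    rw [h3] at h1
    nlinarith
  refine h2.trans ?_
  rw [add_comm]
  exact Real.add_one_le_exp _

lemma gw_hasSum (w : ℕ) :
    HasSum (gw w) (∏ p ∈ (w + 1).primesBelow, ∑' n : ℕ, gw w (p ^ n)) := by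
  have h := (EulerProduct.summable_and_hasSum_smoothNumbers_prod_primesBelow_tsum
    (f := gw w) (gw_one w) (fun {m n} h => gw_mul w h)
    (fun {p} hp => local_summable w p hp) (w + 1)).2
  refine (hasSum_subtype_iff_of_support_subset (s := Nat.smoothNumbers (w + 1)) ?_).mp h
  intro m hm
  rw [Function.mem_support] at hm
  rw [Nat.mem_smoothNumbers']
  intro p hp hd
  have h0 : hSm w m ≠ 0 := by
    intro h0
    apply hm
    unfold gw
    rw [h0, zero_mul]
  have h1 : m ≠ 0 ∧ ∀ p : ℕ, p.Prime → p ∣ m → p ≤ w := by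
    classical
    by_contra hcon
    apply h0
    unfold hSm
    rw [if_neg hcon]
  exact Nat.lt_succ_of_le (h1.2 p hp hd)

lemma gw_tsum_le (w : ℕ) : ∑' n, gw w n ≤ Real.exp 19 * ((w : ℝ) + 2) ^ 19 := by
  rw [(gw_hasSum w).tsum_eq]
  have h1 : ∏ p ∈ (w + 1).primesBelow, ∑' n : ℕ, gw w (p ^ n) ≤
      ∏ p ∈ (w + 1).primesBelow, Real.exp (19 * (1 / (p : ℝ))) := by
    refine prod_le_prod (fun p _ => tsum_nonneg fun n => gw_nonneg w _) fun p hp => ?_
    have hpp := Nat.prime_of_mem_primesBelow hp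
    have hpw : p ≤ w := Nat.lt_succ_iff.mp (Nat.lt_of_mem_primesBelow hp)
    rw [(local_hasSum w p hpp hpw).tsum_eq]
    exact local_bound w p hpp hpw
  refine h1.trans ?_
  rw [← Real.exp_sum, ← mul_sum]
  have h2 : ∑ p ∈ (w + 1).primesBelow, (1 / (p : ℝ)) ≤ 1 + Real.log ((w : ℝ) + 2) := by
    have h3 : ∑ p ∈ (w + 1).primesBelow, (1 / (p : ℝ)) ≤ ∑ n ∈ Icc 1 w, (1 / (n : ℝ)) := by
      refine sum_le_sum_of_subset_of_nonneg ?_ fun n _ _ => by positivity
      intro p hp
      rw [mem_Icc]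
      exact ⟨(Nat.prime_of_mem_primesBelow hp).pos,
        Nat.lt_succ_iff.mp (Nat.lt_of_mem_primesBelow hp)⟩
    have h4 : ∑ n ∈ Icc 1 w, (1 / (n : ℝ)) = ((harmonic w : ℚ) : ℝ) := by
      rw [harmonic_eq_sum_Icc]
      push_cast
      refine sum_congr rfl fun n _ => by rw [one_div]
    have h5 := harmonic_le_one_add_log w
    have h6 : Real.log (w : ℝ) ≤ Real.log ((w : ℝ) + 2) := by
      rcases Nat.eq_zero_or_pos w with h0 | h0
      · subst h0
        simp only [Nat.cast_zero, Real.log_zero]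
        exact (log_pos' 0).le.trans (by simp)
      · refine Real.log_le_log (by exact_mod_cast h0) (by linarith)
    linarith
  have h3 : Real.exp (19 * ∑ p ∈ (w + 1).primesBelow, (1 / (p : ℝ))) ≤
      Real.exp (19 * (1 + Real.log ((w : ℝ) + 2))) := by
    refine Real.exp_le_exp.mpr ?_
    linarith
  refine h3.trans (le_of_eq ?_)
  have hw2 : (0 : ℝ) < (w : ℝ) + 2 := by positivity
  rw [mul_add, mul_one, Real.exp_add]
  congr 1
  have h7 : (19 : ℝ) * Real.log ((w : ℝ) + 2) = ((19 : ℕ) : ℝ) * Real.log ((w : ℝ) + 2) := by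
    norm_num
  rw [h7, Real.exp_nat_mul, Real.exp_log hw2]

/-! ### The two theorems -/

lemma norm_term_le (w j : ℕ) (s : ℂ) (hs : 1 ≤ s.re) (n : ℕ) :
    ‖LSeries.term (LSeries.logMul^[j] (fun n => ((hSm w n : ℝ) : ℂ))) s n‖ ≤
      (j.factorial : ℝ) * (1 / cw w) ^ j * gw w n := by
  have hit : ∀ (j n : ℕ), LSeries.logMul^[j] (fun n => ((hSm w n : ℝ) : ℂ)) n =
      (Complex.log n) ^ j * ((hSm w n : ℝ) : ℂ) := by
    intro j
    induction j with
    | zero => intro n; simp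
    | succ j ih =>
      intro n
      rw [Function.iterate_succ', Function.comp_apply, LSeries.logMul, ih n, pow_succ]
      ring
  have hc := cw_pos w
  rcases Nat.eq_zero_or_pos n with h0 | h0
  · subst h0
    rw [LSeries.term_zero, norm_zero]
    have := gw_nonneg w 0
    positivity
  · rw [LSeries.norm_term_eq, if_neg h0.ne', hit, norm_mul, norm_pow, ← Complex.natCast_log,
      Complex.norm_real, Complex.norm_real, Real.norm_of_nonneg (hSm_nonneg w n),
      Real.norm_of_nonneg (Real.log_natCast_nonneg n)]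
    have hn : (1 : ℝ) ≤ n := by exact_mod_cast h0
    have hn0 : (0 : ℝ) < n := by linarith
    have h1 : (n : ℝ) ≤ (n : ℝ) ^ s.re := by
      calc (n : ℝ) = (n : ℝ) ^ (1 : ℝ) := (Real.rpow_one _).symm
        _ ≤ (n : ℝ) ^ s.re := Real.rpow_le_rpow_of_exponent_le hn hs
    have hL := Real.log_natCast_nonneg n
    have hh := hSm_nonneg w n
    have h2 : Real.log n ^ j * hSm w n / (n : ℝ) ^ s.re ≤ Real.log n ^ j * hSm w n / n :=
      div_le_div_of_nonneg_left (by positivity) hn0 h1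
    refine h2.trans ?_
    have h3 : (cw w * Real.log n) ^ j / j.factorial ≤ Real.exp (cw w * Real.log n) :=
      Real.pow_div_factorial_le_exp _ (by positivity) j
    have h4 : Real.exp (cw w * Real.log n) = (n : ℝ) ^ cw w := by
      rw [Real.rpow_def_of_pos hn0, mul_comm]
    have h5 : Real.log n ^ j ≤ (j.factorial : ℝ) * (1 / cw w) ^ j * (n : ℝ) ^ cw w := by
      rw [h4, div_le_iff₀ (by positivity), mul_pow] at h3
      have h6 : Real.log n ^ j = (1 / cw w) ^ j * (cw w ^ j * Real.log n ^ j) := by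
        rw [← mul_assoc, ← mul_pow, one_div_mul_cancel hc.ne', one_pow, one_mul]
      rw [h6]
      have h7 : 0 ≤ (1 / cw w) ^ j := by positivity
      calc (1 / cw w) ^ j * (cw w ^ j * Real.log n ^ j)
          ≤ (1 / cw w) ^ j * ((n : ℝ) ^ cw w * j.factorial) := mul_le_mul_of_nonneg_left h3 h7
        _ = _ := by ring
    unfold gw
    rw [show -(1 - cw w) = cw w - 1 by ring, Real.rpow_sub hn0, Real.rpow_one]
    calc Real.log n ^ j * hSm w n / n
        ≤ ((j.factorial : ℝ) * (1 / cw w) ^ j * (n : ℝ) ^ cw w) * hSm w n / n := by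
          refine div_le_div_of_nonneg_right ?_ hn0.le
          exact mul_le_mul_of_nonneg_right h5 hh
      _ = _ := by ring

lemma summable_of_one_le (w : ℕ) (s : ℂ) (hs : 1 ≤ s.re) :
    LSeriesSummable (fun n => ((hSm w n : ℝ) : ℂ)) s := by
  refine Summable.of_norm_bounded (g := fun n => (((0 : ℕ).factorial : ℝ) * (1 / cw w) ^ 0) * gw w n)
    ((gw_hasSum w).summable.mul_left _) fun n => ?_
  have h := norm_term_le w 0 s hs n
  simpa using h

theorem sg_conv (w : ℕ) (s : ℂ) (hs : 1 < s.re) :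
    LSeriesSummable (fun n => ((sg w n : ℝ) : ℂ)) s ∧
    LSeriesSummable (fun n => ((hSm w n : ℝ) : ℂ)) s ∧
    LSeries (fun n => ((sg w n : ℝ) : ℂ)) s =
      LSeries (fun n => ((sg 0 n : ℝ) : ℂ)) s * LSeries (fun n => ((hSm w n : ℝ) : ℂ)) s := by
  have hsg : ∀ w : ℕ, LSeriesSummable (fun n => ((sg w n : ℝ) : ℂ)) s := by
    intro w
    refine LSeriesSummable_of_bounded_of_one_lt_re (m := 1) (fun n _ => ?_) hs
    rw [Complex.norm_real, Real.norm_eq_abs]
    exact abs_sg_le w n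
  have hh := summable_of_one_le w s hs.le
  refine ⟨hsg w, hh, ?_⟩
  rw [← LSeries_convolution' (hsg 0) hh]
  refine LSeries_congr (fun {n} hn => ?_) s
  rw [LSeries.convolution_def]
  simp only
  rw [conv_eq w hn]
  push_cast
  rfl

theorem hw_deriv : ∃ K : ℕ, ∀ j : ℕ, ∃ C : ℝ, 0 < C ∧ ∀ (w : ℕ) (s : ℂ), 1 < s.re → s.re ≤ 2 →
    ‖iteratedDeriv j (LSeries (fun n => ((hSm w n : ℝ) : ℂ))) s‖ ≤ C * ((w : ℝ) + 2) ^ K := by
  refine ⟨20, fun j => ⟨(j.factorial : ℝ) * (2 ^ j * j.factorial) * Real.exp 19, by positivity,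
    fun w s hs _ => ?_⟩⟩
  have habs : LSeries.abscissaOfAbsConv (fun n => ((hSm w n : ℝ) : ℂ)) < s.re := by
    have h1 := (summable_of_one_le w 1 (by simp)).abscissaOfAbsConv_le
    refine lt_of_le_of_lt h1 ?_
    exact_mod_cast hs
  rw [LSeries_iteratedDeriv j habs, norm_mul, norm_pow, norm_neg, norm_one, one_pow, one_mul]
  have h1 : HasSum (fun n => (j.factorial : ℝ) * (1 / cw w) ^ j * gw w n)
      ((j.factorial : ℝ) * (1 / cw w) ^ j * ∑' n, gw w n) :=
    ((gw_hasSum w).summable.hasSum).mul_left _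
  have h2 := tsum_of_norm_bounded h1 (norm_term_le w j s hs.le)
  refine h2.trans ?_
  have hw2 : (0 : ℝ) < (w : ℝ) + 2 := by positivity
  have hL := log_pos' w
  have h3 : (1 / cw w) ^ j ≤ 2 ^ j * j.factorial * ((w : ℝ) + 2) := by
    have h4 : 1 / cw w = 2 * Real.log ((w : ℝ) + 2) := by
      unfold cw; rw [one_div_one_div]
    rw [h4, mul_pow, mul_assoc]
    refine mul_le_mul_of_nonneg_left ?_ (by positivity)
    have h5 := Real.pow_div_factorial_le_exp (Real.log ((w : ℝ) + 2)) hL.le j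
    rw [Real.exp_log hw2, div_le_iff₀ (by positivity)] at h5
    linarith
  have h4 := gw_tsum_le w
  have h5 : 0 ≤ ∑' n, gw w n := tsum_nonneg fun n => gw_nonneg w n
  have hc := cw_pos w
  calc (j.factorial : ℝ) * (1 / cw w) ^ j * ∑' n, gw w n
      ≤ (j.factorial : ℝ) * (2 ^ j * j.factorial * ((w : ℝ) + 2)) *
        (Real.exp 19 * ((w : ℝ) + 2) ^ 19) := by
        refine mul_le_mul ?_ h4 h5 (by positivity)
        exact mul_le_mul_of_nonneg_left h3 (by positivity)
    _ = _ := by ring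

end Pool.Agent.SVB
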