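import Mathlib
import Pool.Agent.SVB.Defs
import Pool.Agent.MT.Tauber

set_option autoImplicit false

/-!
# Project SVB: TauberR

Tauberian estimate at real scales. Adapt the proof of `Pool.Agent.MT.tauber` (file MT/Tauber.lean, all lemmas
before the last one are already for arbitrary real arguments): replace the natural number N by a real X >= 2
and range (N+1) by range (floor X + 1); eta (n / X) = 0 for n > X.
-/

namespace Pool.Agent.SVB

open Finset Filter Topology
open Pool.Agent.MT (IsWt Z1)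
open Pool.Agent.MT (tbS tbM tbK tbM_nonneg tb_ident tb_zero tb_decay)
open MeasureTheory FourierTransform SchwartzMap

theorem tauberR (η : ℝ → ℝ) (hη : IsWt η) (j E : ℕ) : ∃ C : ℝ, 0 < C ∧
    ∀ (a : ℕ → ℂ) (Y : ℝ), (∀ s : ℂ, 1 < s.re → LSeriesSummable a s) →
    (∀ i ≤ j, ∀ s : ℂ, 1 < s.re → s.re ≤ 2 →
      ‖iteratedDeriv i (LSeries a) s‖ ≤ Y * (1 + |s.im|) ^ E) →
    ∀ X : ℝ, 2 ≤ X →
    ‖∑ n ∈ range (⌊X⌋₊ + 1), a n * ((η ((n : ℝ) / X) : ℝ) : ℂ)‖ ≤ C * Y * X / Real.log X ^ j := by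
  set g : 𝓢(ℝ, ℂ) := 𝓕 (tbS hη) with hg
  have hI : 0 ≤ ∫ ξ, tbM g E j ξ := integral_nonneg (tbM_nonneg g E j)
  refine ⟨(∫ ξ, tbM g E j ξ) / (2 * Real.pi) ^ j + 1, by positivity, ?_⟩
  intro a Y ha hb X hX
  have hY : 0 ≤ Y := by
    have := hb 0 (Nat.zero_le _) 2 (by norm_num) (by norm_num)
    simp at this
    exact (norm_nonneg _).trans this
  have hN0 : (0 : ℝ) < X := by linarith
  have hL : 0 < Real.log X := Real.log_pos (by linarith)
  have habs : LSeries.abscissaOfAbsConv a ≤ (1 : ℝ) :=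
    LSeries.abscissaOfAbsConv_le_of_forall_lt_LSeriesSummable
      (fun y hy => ha (y : ℂ) (by simpa using hy))
  have hD : AnalyticOnNhd ℂ (LSeries a) {s : ℂ | 1 < s.re} := by
    intro s hs
    apply LSeries_analyticOnNhd a s
    have hs' : 1 < s.re := hs
    exact lt_of_le_of_lt habs (by exact_mod_cast hs')
  -- the finite sum
  have hfin : ∀ σ : ℝ, 1 < σ → σ ≤ 2 →
      ‖∑ n ∈ range (⌊X⌋₊ + 1), LSeries.term a (σ : ℂ) n * tbK η (Real.log n - Real.log X)‖ ≤
        Y * (∫ ξ, tbM g E j ξ) / (2 * Real.pi * Real.log X) ^ j := by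
    intro σ hσ hσ2
    have h1 := tb_ident hη a ha hσ (Real.log X)
    have h2 : HasSum (fun n : ℕ => LSeries.term a (σ : ℂ) n * tbK η (Real.log n - Real.log X))
        (∑ n ∈ range (⌊X⌋₊ + 1), LSeries.term a (σ : ℂ) n * tbK η (Real.log n - Real.log X)) := by
      apply hasSum_sum_of_ne_finset_zero
      intro n hn
      rw [mem_range, not_lt] at hn
      have hn0 : (0 : ℝ) < n := by exact_mod_cast (by omega : 0 < n)
      have : η (Real.exp (Real.log n - Real.log X)) = 0 := by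
        apply tb_zero hη
        rintro ⟨-, h⟩
        rw [Real.exp_sub, Real.exp_log hn0, Real.exp_log hN0, div_lt_iff₀ hN0] at h
        have : X ≤ n := (Nat.lt_of_floor_lt (by omega)).le
        linarith
      simp [tbK, this]
    rw [h2.unique h1]
    exact tb_decay hD hσ hσ2 g j E Y hY hb (Real.log X) hL
  -- the limit
  have hlim : Filter.Tendsto (fun σ : ℝ =>
      ‖∑ n ∈ range (⌊X⌋₊ + 1), LSeries.term a (σ : ℂ) n * tbK η (Real.log n - Real.log X)‖)
      (nhdsWithin 1 (Set.Ioi 1))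
      (nhds ‖∑ n ∈ range (⌊X⌋₊ + 1), LSeries.term a ((1 : ℝ) : ℂ) n *
        tbK η (Real.log n - Real.log X)‖) := by
    apply Filter.Tendsto.mono_left _ nhdsWithin_le_nhds
    apply Filter.Tendsto.norm
    apply tendsto_finsetSum
    intro n _
    apply Filter.Tendsto.mul_const
    have hc : ContinuousAt (fun z : ℂ => LSeries.term a z n) ((1 : ℝ) : ℂ) :=
      (LSeries.hasDerivAt_term a n _).continuousAt
    have := hc.tendsto.comp (Complex.continuous_ofReal.tendsto (1 : ℝ))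
    exact this
  have hle := le_of_tendsto hlim (b := Y * (∫ ξ, tbM g E j ξ) / (2 * Real.pi * Real.log X) ^ j) (by
    have hmem : Set.Ioc (1 : ℝ) 2 ∈ nhdsWithin (1 : ℝ) (Set.Ioi 1) :=
      Ioc_mem_nhdsGT (by norm_num)
    filter_upwards [hmem] with σ hσ
    exact hfin σ hσ.1 hσ.2)
  have hval : ∀ n ∈ range (⌊X⌋₊ + 1), LSeries.term a ((1 : ℝ) : ℂ) n *
      tbK η (Real.log n - Real.log X) =
      (a n * ((η ((n : ℝ) / X) : ℝ) : ℂ)) * ((X⁻¹ : ℝ) : ℂ) := by
    intro n _
    rcases Nat.eq_zero_or_pos n with h | h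
    · subst h
      have : η 0 = 0 := tb_zero hη 0 (by rintro ⟨h, -⟩; norm_num at h)
      simp [this]
    · have hn0 : (0 : ℝ) < n := by exact_mod_cast h
      rw [LSeries.term_of_ne_zero h.ne']
      unfold tbK
      rw [Real.exp_sub, Real.exp_log hn0, Real.exp_log hN0]
      have hnc : (n : ℂ) ≠ 0 := by exact_mod_cast h.ne'
      have hNc : (X : ℂ) ≠ 0 := by exact_mod_cast hN0.ne'
      push_cast
      rw [Complex.cpow_one]
      field_simp
  rw [sum_congr rfl hval, ← sum_mul, norm_mul, Complex.norm_real, norm_inv, Real.norm_eq_abs,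
    abs_of_pos hN0, mul_inv_le_iff₀ hN0, mul_pow] at hle
  refine hle.trans ?_
  have hlj : 0 < Real.log X ^ j := by positivity
  have : Y * (∫ ξ, tbM g E j ξ) / ((2 * Real.pi) ^ j * Real.log X ^ j) * X =
      ((∫ ξ, tbM g E j ξ) / (2 * Real.pi) ^ j) * Y * X / Real.log X ^ j := by
    field_simp
  rw [this]
  apply div_le_div_of_nonneg_right _ hlj.le
  have : 0 ≤ Y * X := by positivity
  nlinarith

end Pool.Agent.SVB
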