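import Mathlib
import Pool.Agent.SVB.TauberR
import Pool.Agent.SVB.LiouD
import Pool.Agent.SVB.SmoothD

set_option autoImplicit false

/-!
# Project SVB: LiouW

Take K from hw_deriv (independent of j), j = A + B*K, and apply tauberR with a = sg w and
Y = C (w+2)^K <= C1 (log X)^(B K) (X >= 2). The derivative bounds: L(sg w) = L(sg 0) * L(hSm w) on Re s > 1 (sg_conv), hence the
same for iterated derivatives (Leibniz; the functions agree on the open half plane), with liou_deriv and hw_deriv.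
-/

namespace Pool.Agent.SVB

open Finset Filter Topology
open Pool.Agent.MT (IsWt Z1)

lemma liouW_contDiff {f : ℕ → ℂ} (hf : ∀ s : ℂ, 1 < s.re → LSeriesSummable f s) {s : ℂ}
    (hs : 1 < s.re) (n : ℕ) : ContDiffAt ℂ n (LSeries f) s := by
  have h1 : LSeries.abscissaOfAbsConv f ≤ (1 : ℝ) := by
    refine LSeries.abscissaOfAbsConv_le_of_forall_lt_LSeriesSummable fun y hy => hf _ ?_
    simpa using hy
  have h2 : AnalyticAt ℂ (LSeries f) s := by
    refine LSeries_analyticOnNhd f s ?_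
    refine lt_of_le_of_lt h1 ?_
    exact_mod_cast hs
  exact h2.contDiffAt

lemma liouW_deriv : ∃ K : ℕ, ∀ j : ℕ, ∃ (C : ℝ) (E : ℕ), 0 < C ∧ ∀ (w : ℕ), ∀ i ≤ j,
    ∀ s : ℂ, 1 < s.re → s.re ≤ 2 →
    ‖iteratedDeriv i (LSeries (fun n => ((sg w n : ℝ) : ℂ))) s‖ ≤
      C * ((w : ℝ) + 2) ^ K * (1 + |s.im|) ^ E := by
  obtain ⟨K, hK⟩ := hw_deriv
  choose C' hC'0 hC' using hK
  choose C E hC0 hC using liou_deriv
  refine ⟨K, fun j => ?_⟩
  refine ⟨∑ i ∈ range (j + 1), ∑ l ∈ range (i + 1), (i.choose l : ℝ) * C l * C' (i - l),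
    ∑ l ∈ range (j + 1), E l, ?_, ?_⟩
  · refine Finset.sum_pos (fun i _ => ?_) ⟨0, by simp⟩
    refine Finset.sum_pos (fun l hl => ?_) ⟨0, by simp⟩
    have h1 : 0 < i.choose l := Nat.choose_pos (Nat.lt_succ_iff.1 (Finset.mem_range.1 hl))
    have h2 : (0 : ℝ) < i.choose l := by exact_mod_cast h1
    exact mul_pos (mul_pos h2 (hC0 l)) (hC'0 _)
  · intro w i hi s hs1 hs2
    have heq : LSeries (fun n => ((sg w n : ℝ) : ℂ)) =ᶠ[𝓝 s]
        LSeries (fun n => ((sg 0 n : ℝ) : ℂ)) * LSeries (fun n => ((hSm w n : ℝ) : ℂ)) := by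
      have h1 : {z : ℂ | 1 < z.re} ∈ 𝓝 s :=
        (isOpen_lt continuous_const Complex.continuous_re).mem_nhds hs1
      filter_upwards [h1] with z hz
      exact (sg_conv w z hz).2.2
    rw [heq.iteratedDeriv_eq, iteratedDeriv_mul
      (liouW_contDiff (fun z hz => (sg_conv 0 z hz).1) hs1 i)
      (liouW_contDiff (fun z hz => (sg_conv w z hz).2.1) hs1 i)]
    have ht : (1 : ℝ) ≤ 1 + |s.im| := by
      have := abs_nonneg s.im
      linarith
    have hw2 : (0 : ℝ) ≤ ((w : ℝ) + 2) ^ K := by positivity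
    have h2 : ∀ l ∈ range (i + 1), ‖(i.choose l : ℂ) *
        iteratedDeriv l (LSeries (fun n => ((sg 0 n : ℝ) : ℂ))) s *
        iteratedDeriv (i - l) (LSeries (fun n => ((hSm w n : ℝ) : ℂ))) s‖ ≤
        ((i.choose l : ℝ) * C l * C' (i - l)) *
          (((w : ℝ) + 2) ^ K * (1 + |s.im|) ^ (∑ l ∈ range (j + 1), E l)) := by
      intro l hl
      rw [Finset.mem_range] at hl
      rw [norm_mul, norm_mul, Complex.norm_natCast]
      have h3 : ‖iteratedDeriv l (LSeries (fun n => ((sg 0 n : ℝ) : ℂ))) s‖ ≤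
          C l * (1 + |s.im|) ^ (∑ l ∈ range (j + 1), E l) := by
        refine (hC l s hs1 hs2).trans (mul_le_mul_of_nonneg_left ?_ (hC0 l).le)
        refine pow_le_pow_right₀ ht ?_
        exact Finset.single_le_sum (f := E) (fun _ _ => Nat.zero_le _)
          (Finset.mem_range.2 (by omega))
      have h4 := hC' (i - l) w s hs1 hs2
      have h5 := mul_le_mul h3 h4 (norm_nonneg _)
        (mul_nonneg (hC0 l).le (by positivity))
      have h6 := mul_le_mul_of_nonneg_left h5 (Nat.cast_nonneg (α := ℝ) (i.choose l))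
      calc _ = (i.choose l : ℝ) * (‖iteratedDeriv l (LSeries (fun n => ((sg 0 n : ℝ) : ℂ))) s‖ *
            ‖iteratedDeriv (i - l) (LSeries (fun n => ((hSm w n : ℝ) : ℂ))) s‖) := by ring
        _ ≤ _ := h6
        _ = _ := by ring
    refine (norm_sum_le _ _).trans ((Finset.sum_le_sum h2).trans ?_)
    rw [← Finset.sum_mul, mul_assoc]
    refine mul_le_mul_of_nonneg_right ?_ (by positivity)
    refine Finset.single_le_sum
      (f := fun i => ∑ l ∈ range (i + 1), (i.choose l : ℝ) * C l * C' (i - l)) ?_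
      (Finset.mem_range.2 (Nat.lt_succ_of_le hi))
    intro i' _
    exact Finset.sum_nonneg fun l _ => mul_nonneg
      (mul_nonneg (Nat.cast_nonneg _) (hC0 l).le) (hC'0 _).le

theorem liou_w (η : ℝ → ℝ) (hη : IsWt η) (A B : ℕ) : ∃ C : ℝ, 0 < C ∧ ∀ (X : ℝ) (w : ℕ), 2 ≤ X →
    (w : ℝ) ≤ Real.log X ^ B + 2 →
    |∑ n ∈ range (⌊X⌋₊ + 1), sg w n * η ((n : ℝ) / X)| ≤ C * X / Real.log X ^ A := by
  obtain ⟨K, hK⟩ := liouW_deriv
  obtain ⟨C0, E, hC0, hder⟩ := hK (A + B * K)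
  obtain ⟨C1, hC1, htau⟩ := tauberR η hη (A + B * K) E
  have hlog2 : 0 < Real.log 2 := Real.log_pos (by norm_num)
  set C2 : ℝ := 1 + 4 / Real.log 2 ^ B with hC2
  have hC2pos : 0 < C2 := by positivity
  refine ⟨C1 * C0 * C2 ^ K, by positivity, ?_⟩
  intro X w hX hw
  have hlogX : Real.log 2 ≤ Real.log X := Real.log_le_log (by norm_num) hX
  have hlogpos : 0 < Real.log X := lt_of_lt_of_le hlog2 hlogX
  have h1 := htau (fun n => ((sg w n : ℝ) : ℂ)) (C0 * ((w : ℝ) + 2) ^ K)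
    (fun s hs => (sg_conv w s hs).1) (fun i hi s hs1 hs2 => hder w i hi s hs1 hs2) X hX
  have h2 : ‖∑ n ∈ range (⌊X⌋₊ + 1), ((sg w n : ℝ) : ℂ) * ((η ((n : ℝ) / X) : ℝ) : ℂ)‖ =
      |∑ n ∈ range (⌊X⌋₊ + 1), sg w n * η ((n : ℝ) / X)| := by
    rw [← Real.norm_eq_abs, ← Complex.norm_real]
    congr 1
    push_cast
    rfl
  rw [h2] at h1
  refine h1.trans ?_
  have h3 : (w : ℝ) + 2 ≤ C2 * Real.log X ^ B := by
    have h4 : Real.log 2 ^ B ≤ Real.log X ^ B := pow_le_pow_left₀ hlog2.le hlogX B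
    have h5 : 4 ≤ 4 / Real.log 2 ^ B * Real.log X ^ B := by
      rw [div_mul_eq_mul_div, le_div_iff₀ (by positivity)]
      nlinarith
    rw [hC2, add_mul, one_mul]
    linarith
  have h6 : ((w : ℝ) + 2) ^ K ≤ C2 ^ K * Real.log X ^ (B * K) := by
    rw [pow_mul, ← mul_pow]
    exact pow_le_pow_left₀ (by positivity) h3 K
  rw [div_le_div_iff₀ (by positivity) (by positivity)]
  have h7 : Real.log X ^ (A + B * K) = Real.log X ^ A * Real.log X ^ (B * K) := pow_add _ _ _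
  rw [h7]
  have hXpos : 0 < X := by linarith
  have h8 : C1 * (C0 * ((w : ℝ) + 2) ^ K) * X ≤
      C1 * (C0 * (C2 ^ K * Real.log X ^ (B * K))) * X := by
    refine mul_le_mul_of_nonneg_right ?_ hXpos.le
    refine mul_le_mul_of_nonneg_left ?_ hC1.le
    exact mul_le_mul_of_nonneg_left h6 hC0.le
  calc _ ≤ C1 * (C0 * (C2 ^ K * Real.log X ^ (B * K))) * X * Real.log X ^ A :=
        mul_le_mul_of_nonneg_right h8 (by positivity)
    _ = _ := by ring

end Pool.Agent.SVB
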