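import Mathlib
import Pool.Agent.SVB.Defs
import Pool.Agent.PC.PNTAP
import Pool.Agent.MT.Wt

set_option autoImplicit false

/-!
# Project SVB: PrimeW

PNT (Pool.Agent.PC.pnt_ap 1 0) for X = N/m >= N^(1-delta): sum_p eta(p/X) = (1+o(1)) (int eta) X/log X uniformly, Z1 eta N = (1+o(1)) N int eta, log X <= log N.
Compare eta with a step function (MT.Wt wt_lipschitz), or Abel summation.
-/

namespace Pool.Agent.SVB

open Finset Filter Topology
open Pool.Agent.MT (IsWt Z1)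

/-- comparison with a step function -/
theorem pw_grid (η : ℝ → ℝ) (hη : IsWt η) (L : ℝ) (hL : 0 < L)
    (hLip : ∀ x y : ℝ, |η x - η y| ≤ L * |x - y|) (W : ℕ → ℝ) (hW : ∀ n, 0 ≤ W n)
    (K : ℕ) (hK : 0 < K) (X : ℝ) (hX : 0 < X) (ε : ℝ)
    (hC : ∀ j : ℕ, j ≤ K → |∑ n ∈ range (⌊(j : ℝ) / K * X⌋₊ + 1), W n - (j : ℝ) / K * X| ≤ ε * X)
    (M : ℕ) (hM : X ≤ M) :
    |∑ n ∈ range (M + 1), η ((n : ℝ) / X) * W n -
      X * ((1 / (K : ℝ)) * ∑ j ∈ range K, η ((j : ℝ) / K))| ≤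
      (L / K * (1 + ε) + 2 * ε * K) * X := by
  have hKR : (0 : ℝ) < K := by exact_mod_cast hK
  have hK0 : (K : ℝ) ≠ 0 := hKR.ne'
  set a : ℕ → ℕ := fun j => ⌊(j : ℝ) / K * X⌋₊ + 1 with ha
  set F : ℕ → ℝ := fun j => ∑ n ∈ range (a j), η ((n : ℝ) / X) * W n with hF
  set C : ℕ → ℝ := fun j => ∑ n ∈ range (a j), W n with hCdef
  have hmono : ∀ j, a j ≤ a (j + 1) := by
    intro j
    simp only [ha]
    have : (j : ℝ) / K * X ≤ ((j + 1 : ℕ) : ℝ) / K * X := by
      gcongr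
      exact_mod_cast Nat.le_succ j
    have := Nat.floor_le_floor this
    omega
  have hF0 : F 0 = 0 := by
    simp only [hF, ha]
    simp only [Nat.cast_zero, zero_div, zero_mul, Nat.floor_zero, zero_add, sum_range_one]
    rw [Pool.Agent.MT.wt_zero_of_small η hη 0 (by norm_num), zero_mul]
  have hFK : F K = ∑ n ∈ range (M + 1), η ((n : ℝ) / X) * W n := by
    have haK : a K = ⌊X⌋₊ + 1 := by
      simp only [ha]
      rw [div_self hK0, one_mul]
    have hle : ⌊X⌋₊ + 1 ≤ M + 1 := by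
      have : ⌊X⌋₊ ≤ M := by
        have := Nat.floor_le_floor hM
        rwa [Nat.floor_natCast] at this
      omega
    simp only [hF]
    rw [haK]
    refine Finset.sum_subset (Finset.range_mono hle) ?_
    intro n _ hn2
    have h1 : ⌊X⌋₊ < n := by
      rw [mem_range] at hn2; omega
    have h2 : X < n := (Nat.floor_lt hX.le).mp h1
    have h3 : (1 : ℝ) < n / X := by rwa [one_lt_div hX]
    rw [Pool.Agent.MT.wt_zero_of_large η hη _ (by linarith), zero_mul]
  have htelF : ∑ n ∈ range (M + 1), η ((n : ℝ) / X) * W n = ∑ j ∈ range K, (F (j + 1) - F j) := by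
    rw [Finset.sum_range_sub, hF0, sub_zero, hFK]
  have hcell : ∀ j ∈ range K, |F (j + 1) - F j - η ((j : ℝ) / K) * (C (j + 1) - C j)| ≤
      L / K * (C (j + 1) - C j) := by
    intro j hj
    have h1 : F (j + 1) - F j = ∑ n ∈ Ico (a j) (a (j + 1)), η ((n : ℝ) / X) * W n := by
      rw [Finset.sum_Ico_eq_sub _ (hmono j)]
    have h2 : C (j + 1) - C j = ∑ n ∈ Ico (a j) (a (j + 1)), W n := by
      rw [Finset.sum_Ico_eq_sub _ (hmono j)]
    rw [h1, h2, Finset.mul_sum, Finset.mul_sum, ← Finset.sum_sub_distrib]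
    refine (Finset.abs_sum_le_sum_abs _ _).trans (Finset.sum_le_sum fun n hn => ?_)
    rw [← sub_mul, abs_mul, abs_of_nonneg (hW n)]
    refine mul_le_mul_of_nonneg_right ?_ (hW n)
    refine (hLip _ _).trans ?_
    rw [Finset.mem_Ico] at hn
    have h3 : (j : ℝ) / K * X < n := by
      have : ⌊(j : ℝ) / K * X⌋₊ < n := by
        have := hn.1; simp only [ha] at this; omega
      exact (Nat.floor_lt (by positivity)).mp this
    have h4 : (n : ℝ) ≤ ((j + 1 : ℕ) : ℝ) / K * X := by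
      have : n ≤ ⌊((j + 1 : ℕ) : ℝ) / K * X⌋₊ := by
        have := hn.2; simp only [ha] at this; omega
      exact (Nat.le_floor_iff (by positivity)).mp this
    have h5 : (j : ℝ) / K < n / X := by rwa [lt_div_iff₀ hX]
    have h6 : (n : ℝ) / X ≤ (j : ℝ) / K + 1 / K := by
      rw [div_le_iff₀ hX]
      refine h4.trans (le_of_eq ?_)
      push_cast
      ring
    have h7 : |(n : ℝ) / X - (j : ℝ) / K| ≤ 1 / K := by
      rw [abs_le]
      constructor
      · have : (0 : ℝ) < 1 / K := by positivity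
        linarith
      · linarith
    calc L * |(n : ℝ) / X - (j : ℝ) / K| ≤ L * (1 / K) := mul_le_mul_of_nonneg_left h7 hL.le
      _ = L / K := by ring
  have hstep : ∀ j ∈ range K, |η ((j : ℝ) / K) * (C (j + 1) - C j) -
      η ((j : ℝ) / K) * (X / K)| ≤ 2 * ε * X := by
    intro j hj
    rw [mem_range] at hj
    rw [← mul_sub, abs_mul, abs_of_nonneg (hη.nonneg _)]
    have h1 := hC j (by omega)
    have h2 := hC (j + 1) (by omega)
    have h3 : |C (j + 1) - C j - X / K| ≤ 2 * ε * X := by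
      have h4 : C (j + 1) - C j - X / K = (C (j + 1) - ((j + 1 : ℕ) : ℝ) / K * X) -
          (C j - (j : ℝ) / K * X) := by
        push_cast
        field_simp
        ring
      rw [h4]
      refine (abs_sub _ _).trans ?_
      linarith
    calc η ((j : ℝ) / K) * |C (j + 1) - C j - X / K| ≤ 1 * |C (j + 1) - C j - X / K| :=
          mul_le_mul_of_nonneg_right (hη.le_one _) (abs_nonneg _)
      _ ≤ 2 * ε * X := by rw [one_mul]; exact h3
  have hsumC : ∑ j ∈ range K, (C (j + 1) - C j) ≤ (1 + ε) * X := by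
    rw [Finset.sum_range_sub]
    have h1 := hC K le_rfl
    have h2 : C 0 ≥ 0 := Finset.sum_nonneg fun n _ => hW n
    rw [div_self hK0, one_mul] at h1
    have h3 : C K = ∑ n ∈ range (⌊X⌋₊ + 1), W n := by
      simp only [hCdef, ha]
      rw [div_self hK0, one_mul]
    rw [← h3] at h1
    have := (abs_le.mp h1).2
    linarith
  rw [htelF]
  have hsplit : ∑ j ∈ range K, (F (j + 1) - F j) -
      X * ((1 / (K : ℝ)) * ∑ j ∈ range K, η ((j : ℝ) / K)) =
      ∑ j ∈ range K, (F (j + 1) - F j - η ((j : ℝ) / K) * (C (j + 1) - C j)) +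
      ∑ j ∈ range K, (η ((j : ℝ) / K) * (C (j + 1) - C j) - η ((j : ℝ) / K) * (X / K)) := by
    rw [← Finset.sum_add_distrib, Finset.mul_sum, Finset.mul_sum, ← Finset.sum_sub_distrib]
    refine Finset.sum_congr rfl fun j _ => ?_
    ring
  rw [hsplit]
  refine (abs_add_le _ _).trans ?_
  have e1 : |∑ j ∈ range K, (F (j + 1) - F j - η ((j : ℝ) / K) * (C (j + 1) - C j))| ≤
      L / K * ((1 + ε) * X) := by
    refine (Finset.abs_sum_le_sum_abs _ _).trans ((Finset.sum_le_sum hcell).trans ?_)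
    rw [← Finset.mul_sum]
    exact mul_le_mul_of_nonneg_left hsumC (by positivity)
  have e2 : |∑ j ∈ range K, (η ((j : ℝ) / K) * (C (j + 1) - C j) - η ((j : ℝ) / K) * (X / K))| ≤
      K * (2 * ε * X) := by
    refine (Finset.abs_sum_le_sum_abs _ _).trans ((Finset.sum_le_sum hstep).trans ?_)
    rw [Finset.sum_const, card_range, nsmul_eq_mul]
  calc _ ≤ L / K * ((1 + ε) * X) + K * (2 * ε * X) := add_le_add e1 e2
    _ = _ := by ring

/-- the Chebyshev weight -/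
noncomputable def pwW (n : ℕ) : ℝ := if n.Prime then Real.log n else 0

theorem pw_W_nonneg (n : ℕ) : 0 ≤ pwW n := by
  unfold pwW
  split_ifs
  · exact Real.log_natCast_nonneg n
  · exact le_rfl

theorem pw_W_sum (n : ℕ) : ∑ k ∈ range n, pwW k = Pool.Agent.PC.PNT.th 1 0 n := by
  unfold pwW Pool.Agent.PC.PNT.th
  rw [← Finset.sum_filter]
  refine Finset.sum_congr ?_ fun _ _ => rfl
  ext p
  simp [Nat.mod_one]

theorem pw_pnt (ε : ℝ) (hε : 0 < ε) : ∃ X0 : ℝ, ∀ X : ℝ, X0 ≤ X → ∀ y : ℝ, 0 ≤ y → y ≤ X →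
    |∑ k ∈ range (⌊y⌋₊ + 1), pwW k - y| ≤ ε * X := by
  have h0 := Pool.Agent.PC.PNT.th_tendsto 1 0 one_pos (by simp)
  rw [Nat.totient_one, Nat.cast_one, div_one] at h0
  have h1 := (Metric.tendsto_atTop.mp h0) (ε / 4) (by positivity)
  obtain ⟨n0, hn0⟩ := h1
  set B : ℝ := ∑ k ∈ range (n0 + 1), pwW k with hB
  have hB0 : 0 ≤ B := Finset.sum_nonneg fun k _ => pw_W_nonneg k
  refine ⟨max 1 ((B + n0 + 2) / (ε / 2)), fun X hX y hy0 hyX => ?_⟩
  have hX1 : 1 ≤ X := (le_max_left _ _).trans hX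
  have hX2 : (B + n0 + 2) ≤ ε / 2 * X := by
    have := (le_max_right _ _).trans hX
    rw [div_le_iff₀ (by positivity)] at this
    linarith
  by_cases hc : n0 ≤ ⌊y⌋₊
  · have h2 := hn0 (⌊y⌋₊ + 1) (by omega)
    rw [← pw_W_sum, Real.dist_eq] at h2
    have hpos : (0 : ℝ) < ((⌊y⌋₊ + 1 : ℕ) : ℝ) := by positivity
    have h3 : |∑ k ∈ range (⌊y⌋₊ + 1), pwW k - ((⌊y⌋₊ + 1 : ℕ) : ℝ)| ≤
        ε / 4 * ((⌊y⌋₊ + 1 : ℕ) : ℝ) := by
      have h4 : ∑ k ∈ range (⌊y⌋₊ + 1), pwW k - ((⌊y⌋₊ + 1 : ℕ) : ℝ) =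
          (((∑ k ∈ range (⌊y⌋₊ + 1), pwW k) / ((⌊y⌋₊ + 1 : ℕ) : ℝ)) - 1) *
            ((⌊y⌋₊ + 1 : ℕ) : ℝ) := by
        rw [sub_mul, div_mul_cancel₀ _ hpos.ne', one_mul]
      rw [h4, abs_mul, abs_of_pos hpos]
      exact mul_le_mul_of_nonneg_right h2.le hpos.le
    have h5 : ((⌊y⌋₊ + 1 : ℕ) : ℝ) ≤ y + 1 := by
      push_cast
      linarith [Nat.floor_le hy0]
    have h6 : y ≤ ((⌊y⌋₊ + 1 : ℕ) : ℝ) := by
      push_cast
      exact (Nat.lt_floor_add_one y).le
    have h7 : ε / 4 * ((⌊y⌋₊ + 1 : ℕ) : ℝ) ≤ ε / 4 * (2 * X) :=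
      mul_le_mul_of_nonneg_left (by linarith) (by positivity)
    rw [abs_le] at h3 ⊢
    have h8 : (0 : ℝ) ≤ n0 := Nat.cast_nonneg _
    constructor
    · nlinarith [h3.1]
    · nlinarith [h3.2]
  · have h2 : ⌊y⌋₊ + 1 ≤ n0 + 1 := by omega
    have h3 : ∑ k ∈ range (⌊y⌋₊ + 1), pwW k ≤ B :=
      Finset.sum_le_sum_of_subset_of_nonneg (Finset.range_mono h2) fun k _ _ => pw_W_nonneg k
    have h4 : 0 ≤ ∑ k ∈ range (⌊y⌋₊ + 1), pwW k := Finset.sum_nonneg fun k _ => pw_W_nonneg k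
    have h5 : y ≤ n0 + 1 := by
      have h6 := Nat.lt_floor_add_one y
      have h7 : ((⌊y⌋₊ : ℕ) : ℝ) + 1 ≤ n0 + 1 := by
        have : ⌊y⌋₊ ≤ n0 := by omega
        have : ((⌊y⌋₊ : ℕ) : ℝ) ≤ n0 := by exact_mod_cast this
        linarith
      linarith
    have h8 : ε / 2 * X ≤ ε * X := by nlinarith
    rw [abs_le]
    have h9 : (0 : ℝ) ≤ n0 := Nat.cast_nonneg _
    constructor
    · linarith
    · linarith

theorem prime_wt (η : ℝ → ℝ) (hη : IsWt η) (δ : ℝ) (hδ : 0 < δ) (hδ1 : δ < 1) (ε : ℝ)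
    (hε : 0 < ε) : ∀ᶠ N : ℕ in atTop, ∀ m : ℕ, 0 < m → (m : ℝ) ≤ (N : ℝ) ^ δ →
    (1 - ε) * (Z1 η N / (m * Real.log N)) ≤
      ∑ p ∈ (range (N + 1)).filter Nat.Prime, η (((m * p : ℕ) : ℝ) / N) := by
  obtain ⟨L, hL, hLip⟩ := Pool.Agent.MT.wt_lipschitz η hη
  -- the grid
  obtain ⟨K, hK⟩ := exists_nat_gt (32 * L / ε)
  have hKR : (0 : ℝ) < K := lt_trans (by positivity) hK
  have hK0 : 0 < K := by exact_mod_cast hKR
  set ε1 : ℝ := min 1 (ε / (32 * K)) with hε1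
  have hε1pos : 0 < ε1 := lt_min one_pos (by positivity)
  have hε1a : ε1 ≤ 1 := min_le_left _ _
  have hε1b : 2 * ε1 * K ≤ ε / 16 := by
    have : ε1 ≤ ε / (32 * K) := min_le_right _ _
    calc 2 * ε1 * K ≤ 2 * (ε / (32 * K)) * K := by gcongr
      _ = ε / 16 := by field_simp; ring
  have hLK : L / K * (1 + ε1) ≤ ε / 16 := by
    have h1 : L / K ≤ ε / 32 := by
      rw [div_le_iff₀ hKR]
      rw [div_lt_iff₀ hε] at hK
      linarith
    calc L / K * (1 + ε1) ≤ ε / 32 * (1 + 1) := by gcongr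
      _ = ε / 16 := by ring
  obtain ⟨X0, hX0⟩ := pw_pnt ε1 hε1pos
  set A : ℝ := (1 / (K : ℝ)) * ∑ j ∈ range K, η ((j : ℝ) / K) with hA
  have ht : Tendsto (fun N : ℕ => (N : ℝ) ^ (1 - δ)) atTop atTop :=
    (tendsto_rpow_atTop (by linarith)).comp tendsto_natCast_atTop_atTop
  filter_upwards [ht.eventually_ge_atTop X0, ht.eventually_ge_atTop 1, eventually_ge_atTop 16,
    tendsto_natCast_atTop_atTop.eventually_ge_atTop (1 / ε1)] with N hN0 hN1 hN16 hNε m hm hmN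
  have hNR : (0 : ℝ) < N := by exact_mod_cast (by omega : 0 < N)
  have hmR : (0 : ℝ) < m := by exact_mod_cast hm
  have hm1 : (1 : ℝ) ≤ m := by exact_mod_cast hm
  set X : ℝ := N / m with hX
  have hXpos : 0 < X := by positivity
  have hXge : (N : ℝ) ^ (1 - δ) ≤ X := by
    rw [hX, le_div_iff₀ hmR]
    calc (N : ℝ) ^ (1 - δ) * m ≤ (N : ℝ) ^ (1 - δ) * (N : ℝ) ^ δ := by gcongr
      _ = N := by rw [← Real.rpow_add hNR]; simp
  have hXN : X ≤ N := div_le_self hNR.le hm1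
  -- the two applications of the grid lemma
  have g1 := pw_grid η hη L hL hLip pwW pw_W_nonneg K hK0 X hXpos ε1 (by
    intro j hj
    have hjK : (j : ℝ) / K ≤ 1 := by
      rw [div_le_one hKR]; exact_mod_cast hj
    exact hX0 X (hN0.trans hXge) ((j : ℝ) / K * X) (by positivity)
      (by nlinarith)) N hXN
  have g2 := pw_grid η hη L hL hLip (fun _ => 1) (fun _ => zero_le_one) K hK0 N hNR ε1 (by
    intro j hj
    rw [Finset.sum_const, card_range, nsmul_eq_mul, mul_one]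
    set y : ℝ := (j : ℝ) / K * N with hy
    have hy0 : 0 ≤ y := by positivity
    have h1 := Nat.floor_le hy0
    have h2 := Nat.lt_floor_add_one y
    have h3 : 1 ≤ ε1 * N := by
      rw [div_le_iff₀ hε1pos] at hNε
      linarith
    push_cast
    rw [abs_le]
    constructor <;> linarith) N le_rfl
  have hE : L / K * (1 + ε1) + 2 * ε1 * K ≤ ε / 8 := by linarith
  have hZ : ∑ n ∈ range (N + 1), η ((n : ℝ) / N) * (fun _ => (1 : ℝ)) n = Z1 η N := by
    simp [Z1]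
  rw [hZ] at g2
  have g2' : Z1 η N ≤ N * A + ε / 8 * N := by
    have := (abs_le.mp g2).2
    have h3 : (L / K * (1 + ε1) + 2 * ε1 * K) * (N : ℝ) ≤ ε / 8 * N := by gcongr
    linarith
  have g1' : X * A - ε / 8 * X ≤ ∑ n ∈ range (N + 1), η ((n : ℝ) / X) * pwW n := by
    have := (abs_le.mp g1).1
    have h3 : (L / K * (1 + ε1) + 2 * ε1 * K) * X ≤ ε / 8 * X := by gcongr
    linarith
  have hlogN : 0 < Real.log N := Real.log_pos (by exact_mod_cast (by omega : 1 < N))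
  have hsum : ∑ n ∈ range (N + 1), η ((n : ℝ) / X) * pwW n ≤
      Real.log N * ∑ p ∈ (range (N + 1)).filter Nat.Prime, η (((m * p : ℕ) : ℝ) / N) := by
    rw [Finset.mul_sum, Finset.sum_filter]
    refine Finset.sum_le_sum fun n hn => ?_
    rw [mem_range] at hn
    have h1 : ((n : ℝ) / X) = (((m * n : ℕ) : ℝ) / N) := by
      rw [hX]
      push_cast
      field_simp
    rw [h1]
    unfold pwW
    split_ifs with hp
    · rw [mul_comm]
      refine mul_le_mul_of_nonneg_right ?_ (hη.nonneg _)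
      refine Real.log_le_log (by exact_mod_cast hp.pos) ?_
      exact_mod_cast (by omega : n ≤ N)
    · simp
  have hZ4 := (Pool.Agent.MT.Z1_bounds η hη N hN16).1
  have key : (1 - ε) * (Z1 η N / m) ≤ X * A - ε / 8 * X := by
    have h1 : Z1 η N / m ≤ X * A + ε / 8 * X := by
      rw [div_le_iff₀ hmR]
      have : (X * A + ε / 8 * X) * m = N * A + ε / 8 * N := by
        rw [hX]; field_simp
      rw [this]
      exact g2'
    have h2 : X / 4 ≤ Z1 η N / m := by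
      rw [hX, div_div, mul_comm, ← div_div]
      gcongr
    nlinarith
  have hfin : (1 - ε) * (Z1 η N / (m * Real.log N)) = ((1 - ε) * (Z1 η N / m)) / Real.log N := by
    field_simp
  rw [hfin, div_le_iff₀ hlogN]
  calc (1 - ε) * (Z1 η N / m) ≤ X * A - ε / 8 * X := key
    _ ≤ _ := g1'
    _ ≤ _ := hsum
    _ = _ := mul_comm _ _

end Pool.Agent.SVB
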