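import Mathlib
import Pool.Agent.SVB.Defs

set_option autoImplicit false

/-!
# Project SVB: SmoothS

Mathlib EulerProduct (summable_and_hasSum_smoothNumbers_prod_primesBelow_geometric or similar) gives
prod_(p <= w)(1-1/p)^(-1) = sum over w-smooth m of 1/m. Tail m > N^delta: <= N^(-c delta) sum m^(-1+c) = N^(-c delta) prod(1-p^(-1+c))^(-1) <= N^(-c delta) exp(C w^c (1+log w)),
w <= (log N)^B + 1, choose c = 1/(2B+2): exp(-c delta log N + C (log N)^(3/4)) -> 0, and the product is >= 1.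
-/

namespace Pool.Agent.SVB

open Finset Filter Topology
open Pool.Agent.MT (IsWt Z1)

/-- the completely multiplicative function `m ^ (-s)` -/
noncomputable def smoothHom (s : ℝ) : ℕ →* ℝ where
  toFun m := (m : ℝ) ^ (-s)
  map_one' := by simp
  map_mul' a b := by
    push_cast
    rw [Real.mul_rpow (Nat.cast_nonneg a) (Nat.cast_nonneg b)]

theorem smooth_hasSum (s : ℝ) (hs : 0 < s) (w : ℕ) :
    HasSum (fun m : (w + 1).smoothNumbers => ((m : ℕ) : ℝ) ^ (-s))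
      (∏ p ∈ pw w, (1 - (p : ℝ) ^ (-s))⁻¹) := by
  have h := (EulerProduct.summable_and_hasSum_smoothNumbers_prod_primesBelow_geometric
    (f := smoothHom s) (fun {p} hp => by
      have hp1 : (1 : ℝ) < p := by exact_mod_cast hp.one_lt
      change ‖(p : ℝ) ^ (-s)‖ < 1
      rw [Real.norm_of_nonneg (Real.rpow_nonneg (by linarith) _)]
      exact Real.rpow_lt_one_of_one_lt_of_neg hp1 (by linarith)) (w + 1)).2
  exact h

theorem smooth_factor (x : ℝ) (h0 : 0 ≤ x) (h1 : x ≤ 3 / 4) :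
    (1 - x)⁻¹ ≤ Real.exp (4 * x) := by
  have h2 : 0 < 1 - x := by linarith
  rw [inv_le_comm₀ h2 (Real.exp_pos _), ← Real.exp_neg]
  have h3 : 1 + 4 * x ≤ Real.exp (4 * x) := by linarith [Real.add_one_le_exp (4 * x)]
  rw [Real.exp_neg, inv_le_comm₀ (Real.exp_pos _) h2]
  refine le_trans ?_ h3
  rw [inv_le_iff_one_le_mul₀ h2]
  nlinarith

theorem smooth_prod_le (w : ℕ) (c : ℝ) (hc0 : 0 < c) (hc : c ≤ 1 / 2) :
    ∏ p ∈ pw w, (1 - (p : ℝ) ^ (-(1 - c)))⁻¹ ≤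
      Real.exp (4 * ((w : ℝ) ^ c * (1 + Real.log w))) := by
  have h1 : ∀ p ∈ pw w, (1 - (p : ℝ) ^ (-(1 - c)))⁻¹ ≤ Real.exp (4 * (p : ℝ) ^ (-(1 - c))) := by
    intro p hp
    have hpp : p.Prime := (mem_filter.mp hp).2
    have hp2 : (2 : ℝ) ≤ p := by exact_mod_cast hpp.two_le
    apply smooth_factor
    · exact Real.rpow_nonneg (by linarith) _
    · calc (p : ℝ) ^ (-(1 - c)) ≤ (2 : ℝ) ^ (-(1 - c)) :=
            Real.rpow_le_rpow_of_nonpos (by norm_num) hp2 (by linarith)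
        _ ≤ (2 : ℝ) ^ (-(1 / 2 : ℝ)) :=
            Real.rpow_le_rpow_of_exponent_le (by norm_num) (by linarith)
        _ ≤ 3 / 4 := by
            rw [Real.rpow_neg (by norm_num), ← Real.sqrt_eq_rpow]
            rw [inv_le_comm₀ (by positivity) (by norm_num)]
            apply Real.le_sqrt_of_sq_le
            norm_num
  have h2 : ∀ p ∈ pw w, 0 ≤ (1 - (p : ℝ) ^ (-(1 - c)))⁻¹ := by
    intro p hp
    have hpp : p.Prime := (mem_filter.mp hp).2
    have hp1 : (1 : ℝ) < p := by exact_mod_cast hpp.one_lt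
    have := Real.rpow_lt_one_of_one_lt_of_neg hp1 (show -(1 - c) < 0 by linarith)
    exact inv_nonneg.mpr (by linarith)
  refine le_trans (prod_le_prod h2 h1) ?_
  rw [← Real.exp_sum, Real.exp_le_exp, ← mul_sum]
  apply mul_le_mul_of_nonneg_left _ (by norm_num)
  have h3 : ∑ p ∈ pw w, (p : ℝ) ^ (-(1 - c)) ≤ ∑ m ∈ range w, (((m + 1 : ℕ) : ℝ)) ^ (-(1 - c)) := by
    have h4 : pw w ⊆ (range w).image (fun m => m + 1) := by
      intro p hp
      obtain ⟨hp1, hp2⟩ := mem_filter.mp hp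
      rw [mem_range] at hp1
      rw [mem_image]
      exact ⟨p - 1, by rw [mem_range]; have := hp2.pos; omega, by have := hp2.pos; omega⟩
    refine le_trans (sum_le_sum_of_subset_of_nonneg h4 (fun m _ _ => by positivity)) ?_
    rw [sum_image (fun a _ b _ h => by simpa using h)]
  refine h3.trans ?_
  have h5 : ∀ m ∈ range w, (((m + 1 : ℕ) : ℝ)) ^ (-(1 - c)) ≤ (w : ℝ) ^ c * (((m + 1 : ℕ) : ℝ))⁻¹ := by
    intro m hm
    rw [mem_range] at hm
    have hm1 : (0 : ℝ) < ((m + 1 : ℕ) : ℝ) := by positivity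
    have : (((m + 1 : ℕ) : ℝ)) ^ (-(1 - c)) = (((m + 1 : ℕ) : ℝ)) ^ c * (((m + 1 : ℕ) : ℝ))⁻¹ := by
      rw [show -(1 - c) = c + (-1) by ring, Real.rpow_add hm1, Real.rpow_neg_one]
    rw [this]
    apply mul_le_mul_of_nonneg_right _ (by positivity)
    apply Real.rpow_le_rpow hm1.le _ hc0.le
    exact_mod_cast hm
  refine (sum_le_sum h5).trans ?_
  rw [← mul_sum]
  apply mul_le_mul_of_nonneg_left _ (by positivity)
  have h6 := harmonic_le_one_add_log w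
  unfold harmonic at h6
  push_cast at h6 ⊢
  exact h6

theorem smooth_prod_one_le (w : ℕ) : 1 ≤ ∏ p ∈ pw w, (1 - 1 / (p : ℝ))⁻¹ := by
  have h0 : (1 : ℝ) = ∏ p ∈ pw w, (1 : ℝ) := by simp
  conv_lhs => rw [h0]
  apply prod_le_prod (fun _ _ => zero_le_one)
  intro p hp
  have hpp : p.Prime := (mem_filter.mp hp).2
  have hp2 : (2 : ℝ) ≤ p := by exact_mod_cast hpp.two_le
  have h1 : 1 / (p : ℝ) ≤ 1 / 2 := one_div_le_one_div_of_le (by norm_num) hp2
  have h2 : 0 ≤ 1 / (p : ℝ) := by positivity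
  rw [one_le_inv₀ (by linarith)]
  linarith

theorem smooth_partial (w : ℕ) (X c : ℝ) (hX : 0 < X) (hc0 : 0 < c) (hc : c ≤ 1 / 2) :
    ∏ p ∈ pw w, (1 - 1 / (p : ℝ))⁻¹ ≤
      ∑ m ∈ (Icc 1 ⌊X⌋₊).filter (fun m => ∀ p ∈ m.primeFactors, p ≤ w), 1 / (m : ℝ) +
      X ^ (-c) * ∏ p ∈ pw w, (1 - (p : ℝ) ^ (-(1 - c)))⁻¹ := by
  classical
  set T := (Icc 1 ⌊X⌋₊).filter (fun m => ∀ p ∈ m.primeFactors, p ≤ w) with hT
  have h1 := smooth_hasSum 1 one_pos w
  have h2 := (smooth_hasSum (1 - c) (by linarith) w).mul_left (X ^ (-c))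
  have hTs : ∀ m ∈ T, m ∈ (w + 1).smoothNumbers := by
    intro m hm
    rw [hT, mem_filter, mem_Icc] at hm
    refine ⟨by omega, ?_⟩
    intro p hp
    have := hm.2 p (Nat.mem_primeFactors.mpr
      ⟨Nat.prime_of_mem_primeFactorsList hp, Nat.dvd_of_mem_primeFactorsList hp, by omega⟩)
    omega
  have h3 : HasSum (fun m : (w + 1).smoothNumbers => if (m : ℕ) ∈ T then 1 / ((m : ℕ) : ℝ) else 0)
      (∑ m ∈ T, 1 / (m : ℝ)) := by
    have h4 : HasSum (fun m : ℕ => if m ∈ T then 1 / (m : ℝ) else 0) (∑ m ∈ T, 1 / (m : ℝ)) := by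
      have h5 : ∑ m ∈ T, 1 / (m : ℝ) = ∑ m ∈ T, (if m ∈ T then 1 / (m : ℝ) else 0) :=
        sum_congr rfl (fun m hm => by rw [if_pos hm])
      rw [h5]
      exact hasSum_sum_of_ne_finset_zero (fun m hm => by rw [if_neg hm])
    have h6 := hasSum_subtype_iff_indicator (s := (w + 1).smoothNumbers)
      (f := fun m : ℕ => if m ∈ T then 1 / (m : ℝ) else 0) (a := ∑ m ∈ T, 1 / (m : ℝ))
    refine h6.mpr ?_
    convert h4 using 1
    funext m
    by_cases hm : m ∈ (w + 1).smoothNumbers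
    · rw [Set.indicator_of_mem hm]
    · rw [Set.indicator_of_notMem hm, if_neg (fun h => hm (hTs m h))]
  have h4 : ∏ p ∈ pw w, (1 - 1 / (p : ℝ))⁻¹ = ∏ p ∈ pw w, (1 - (p : ℝ) ^ (-(1 : ℝ)))⁻¹ := by
    apply prod_congr rfl
    intro p _
    rw [Real.rpow_neg_one, one_div]
  rw [h4]
  refine hasSum_le ?_ h1 (h3.add h2)
  intro m
  have hm0 : (m : ℕ) ≠ 0 := m.2.1
  have hmpos : (0 : ℝ) < ((m : ℕ) : ℝ) := by exact_mod_cast Nat.pos_of_ne_zero hm0
  by_cases hm : (m : ℕ) ∈ T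
  · simp only [if_pos hm]
    rw [Real.rpow_neg_one, one_div]
    have : 0 ≤ X ^ (-c) * ((m : ℕ) : ℝ) ^ (-(1 - c)) := by positivity
    linarith
  · simp only [if_neg hm, zero_add]
    have hXm : X < ((m : ℕ) : ℝ) := by
      by_contra hle
      apply hm
      rw [hT, mem_filter, mem_Icc]
      refine ⟨⟨Nat.pos_of_ne_zero hm0, Nat.le_floor (not_lt.mp hle)⟩, ?_⟩
      intro p hp
      have := m.2.2 p (Nat.mem_primeFactorsList hm0 |>.mpr
        ⟨Nat.prime_of_mem_primeFactors hp, Nat.dvd_of_mem_primeFactors hp⟩)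
      omega
    have h7 : ((m : ℕ) : ℝ) ^ (-(1 : ℝ)) = ((m : ℕ) : ℝ) ^ (-c) * ((m : ℕ) : ℝ) ^ (-(1 - c)) := by
      rw [← Real.rpow_add hmpos]
      congr 1
      ring
    rw [h7]
    apply mul_le_mul_of_nonneg_right _ (by positivity)
    exact Real.rpow_le_rpow_of_nonpos hX hXm.le (by linarith)

theorem smooth_asymp (B : ℕ) (δ : ℝ) (hδ : 0 < δ) (ε : ℝ) (hε : 0 < ε) : ∀ᶠ N : ℕ in atTop,
    ((N : ℝ) ^ δ) ^ (-(1 / (2 * (B : ℝ) + 2))) *
      Real.exp (4 * (((wN B N : ℕ) : ℝ) ^ (1 / (2 * (B : ℝ) + 2)) * (1 + Real.log (wN B N)))) ≤ ε := by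
  set c : ℝ := 1 / (2 * (B : ℝ) + 2) with hc
  have hB0 : (0 : ℝ) ≤ B := Nat.cast_nonneg B
  have hc0 : 0 < c := by positivity
  have hc1 : c ≤ 1 := by
    rw [hc, div_le_one (by positivity)]
    linarith
  have hBc : (B : ℝ) * c ≤ 1 / 2 := by
    rw [hc, mul_one_div, div_le_div_iff₀ (by positivity) (by norm_num)]
    linarith
  have hu : Tendsto (fun N : ℕ => (Real.log N) ^ (1 / 4 : ℝ)) atTop atTop :=
    (tendsto_rpow_atTop (by norm_num)).comp
      (Real.tendsto_log_atTop.comp tendsto_natCast_atTop_atTop)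
  filter_upwards [hu.eventually_ge_atTop 1,
    hu.eventually_ge_atTop ((16 + 32 * (B : ℝ) + |Real.log ε|) / (δ * c)),
    eventually_ge_atTop 1] with N hu1 hu2 hN1
  set u : ℝ := (Real.log N) ^ (1 / 4 : ℝ) with hudef
  have hN0 : (0 : ℝ) < N := by exact_mod_cast hN1
  have hL0 : 0 ≤ Real.log N := Real.log_nonneg (by exact_mod_cast hN1)
  have hLu : Real.log N = u ^ 4 := by
    rw [hudef, ← Real.rpow_natCast, ← Real.rpow_mul hL0]
    norm_num
  have hL1 : 1 ≤ Real.log N := by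
    rw [hLu]
    exact one_le_pow₀ hu1
  have hLhalf : (Real.log N) ^ (1 / 2 : ℝ) = u ^ 2 := by
    rw [hudef, ← Real.rpow_natCast, ← Real.rpow_mul hL0]
    norm_num
  have hLB1 : 1 ≤ Real.log N ^ B := one_le_pow₀ hL1
  have hw : ((wN B N : ℕ) : ℝ) ≤ 2 * Real.log N ^ B := by
    have := (Nat.ceil_lt_add_one (zero_le_one.trans hLB1)).le
    unfold wN
    linarith
  have hw1 : (1 : ℝ) ≤ ((wN B N : ℕ) : ℝ) := hLB1.trans (Nat.le_ceil _)
  have hwc : ((wN B N : ℕ) : ℝ) ^ c ≤ 2 * u ^ 2 := by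
    calc ((wN B N : ℕ) : ℝ) ^ c ≤ (2 * Real.log N ^ B) ^ c :=
          Real.rpow_le_rpow (by linarith) hw hc0.le
      _ = 2 ^ c * (Real.log N) ^ ((B : ℝ) * c) := by
          rw [Real.mul_rpow (by norm_num) (by positivity), ← Real.rpow_natCast,
            ← Real.rpow_mul hL0]
      _ ≤ 2 * u ^ 2 := by
          rw [← hLhalf]
          apply mul_le_mul _ _ (by positivity) (by norm_num)
          · calc (2 : ℝ) ^ c ≤ 2 ^ (1 : ℝ) :=
                  Real.rpow_le_rpow_of_exponent_le (by norm_num) hc1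
              _ = 2 := Real.rpow_one 2
          · exact Real.rpow_le_rpow_of_exponent_le hL1 hBc
  have hlogL : Real.log (Real.log N) ≤ 4 * u := by
    have := Real.log_le_rpow_div hL0 (show (0 : ℝ) < 1 / 4 by norm_num)
    rw [← hudef] at this
    linarith
  have hlogw : 1 + Real.log ((wN B N : ℕ) : ℝ) ≤ 2 * u + 4 * B * u := by
    have h1 : Real.log ((wN B N : ℕ) : ℝ) ≤ Real.log (2 * Real.log N ^ B) :=
      Real.log_le_log (by linarith) hw
    rw [Real.log_mul (by norm_num) (by positivity), Real.log_pow] at h1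
    have h2 : Real.log 2 ≤ 1 := by
      have := Real.log_two_lt_d9
      linarith
    have h3 : (B : ℝ) * Real.log (Real.log N) ≤ B * (4 * u) := mul_le_mul_of_nonneg_left hlogL hB0
    linarith
  have hlogw0 : 0 ≤ 1 + Real.log ((wN B N : ℕ) : ℝ) := by
    have := Real.log_nonneg hw1
    linarith
  have hE : 4 * (((wN B N : ℕ) : ℝ) ^ c * (1 + Real.log (wN B N))) ≤ (16 + 32 * (B : ℝ)) * u ^ 3 := by
    have h1 : ((wN B N : ℕ) : ℝ) ^ c * (1 + Real.log (wN B N)) ≤ (2 * u ^ 2) * (2 * u + 4 * B * u) :=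
      mul_le_mul hwc hlogw hlogw0 (by positivity)
    nlinarith
  have hNc : ((N : ℝ) ^ δ) ^ (-c) = Real.exp (-(δ * c) * u ^ 4) := by
    rw [← Real.rpow_mul hN0.le, Real.rpow_def_of_pos hN0, ← hLu]
    congr 1
    ring
  rw [hNc, ← Real.exp_add, ← Real.exp_log hε, Real.exp_le_exp]
  have hdc : 0 < δ * c := mul_pos hδ hc0
  have h5 : 16 + 32 * (B : ℝ) + |Real.log ε| ≤ δ * c * u := by
    rw [div_le_iff₀ hdc] at hu2
    linarith
  have hu3 : 1 ≤ u ^ 3 := one_le_pow₀ hu1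
  have h6 : (16 + 32 * (B : ℝ) + |Real.log ε|) * u ^ 3 ≤ δ * c * u * u ^ 3 :=
    mul_le_mul_of_nonneg_right h5 (by positivity)
  have h7 : |Real.log ε| ≤ |Real.log ε| * u ^ 3 := le_mul_of_one_le_right (abs_nonneg _) hu3
  have h8 := neg_abs_le (Real.log ε)
  nlinarith

theorem smooth_sum (B : ℕ) (δ : ℝ) (hδ : 0 < δ) (ε : ℝ) (hε : 0 < ε) : ∀ᶠ N : ℕ in atTop,
    (1 - ε) * ∏ p ∈ pw (wN B N), (1 - 1 / (p : ℝ))⁻¹ ≤
      ∑ m ∈ (Icc 1 ⌊(N : ℝ) ^ δ⌋₊).filter (fun m => ∀ p ∈ m.primeFactors, p ≤ wN B N),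
        1 / (m : ℝ) := by
  filter_upwards [smooth_asymp B δ hδ ε hε, eventually_gt_atTop 0] with N hN hN0
  have hc0 : (0 : ℝ) < 1 / (2 * (B : ℝ) + 2) := by positivity
  have hc : 1 / (2 * (B : ℝ) + 2) ≤ 1 / 2 := by
    apply one_div_le_one_div_of_le (by norm_num)
    have : (0 : ℝ) ≤ B := Nat.cast_nonneg B
    linarith
  have hX : 0 < (N : ℝ) ^ δ := Real.rpow_pos_of_pos (by exact_mod_cast hN0) _
  have h1 := smooth_partial (wN B N) ((N : ℝ) ^ δ) _ hX hc0 hc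
  have h2 := smooth_prod_le (wN B N) _ hc0 hc
  have h3 := smooth_prod_one_le (wN B N)
  have h4 : ((N : ℝ) ^ δ) ^ (-(1 / (2 * (B : ℝ) + 2))) *
      ∏ p ∈ pw (wN B N), (1 - (p : ℝ) ^ (-(1 - 1 / (2 * (B : ℝ) + 2))))⁻¹ ≤ ε :=
    le_trans (mul_le_mul_of_nonneg_left h2 (by positivity)) hN
  nlinarith

end Pool.Agent.SVB
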