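import Mathlib
import Pool.Agent.SVB.SmoothS
import Pool.Agent.SVB.PrimeW

set_option autoImplicit false

/-!
# Project SVB: Atom

r = m p with m <= N^(delta/2) w-smooth and p prime: eta(mp/N) <> 0 forces p >= N/(8m) > N^(1-delta) >= R and p > w, sg = -1 (omw of a smooth number is 0),
distinct pairs give distinct r. prime_wt with delta/2, smooth_sum with delta/2.
-/

namespace Pool.Agent.SVB

open Finset Filter Topology
open Pool.Agent.MT (IsWt Z1)

private theorem atom_omw_mul (w m p : ℕ) (hm : m ≠ 0) (hp : p ≠ 0) :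
    omw w (m * p) = omw w m + omw w p := by
  unfold omw
  have h := Nat.perm_primeFactorsList_mul hm hp
  rw [(h.filter _).length_eq, List.filter_append, List.length_append]

private theorem atom_omw_smooth (w m : ℕ) (h : ∀ p ∈ m.primeFactors, p ≤ w) : omw w m = 0 := by
  unfold omw
  rw [List.length_eq_zero_iff, List.filter_eq_nil_iff]
  intro p hp
  have := h p (by rw [Nat.mem_primeFactors_iff_mem_primeFactorsList]; exact hp)
  simpa using this

private theorem atom_omw_prime (w p : ℕ) (hp : p.Prime) (h : w < p) : omw w p = 1 := by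
  unfold omw
  rw [Nat.primeFactorsList_prime hp]
  simp [h]

private theorem atom_large (B : ℕ) (δ : ℝ) (hδ1 : δ < 1) : ∀ᶠ N : ℕ in atTop,
    (wN B N : ℝ) ≤ (N : ℝ) ^ (1 - δ) := by
  have hr : 0 < 1 - δ := by linarith
  have h1 := isLittleO_log_rpow_rpow_atTop (B : ℝ) hr
  have h2 := (h1.def (c := 1 / 2) (by norm_num)).and
    ((tendsto_rpow_atTop hr).eventually_ge_atTop 2)
  have h3 := (tendsto_natCast_atTop_atTop (R := ℝ)).eventually h2
  filter_upwards [h3, eventually_ge_atTop 1] with N hN hN1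
  obtain ⟨h4, h5⟩ := hN
  have hN1' : (1 : ℝ) ≤ N := by exact_mod_cast hN1
  have hlog : 0 ≤ Real.log N := Real.log_nonneg hN1'
  rw [Real.rpow_natCast, Real.norm_of_nonneg (by positivity), Real.norm_of_nonneg (by positivity)]
    at h4
  have h6 : (wN B N : ℝ) < Real.log N ^ B + 1 := Nat.ceil_lt_add_one (by positivity)
  linarith

theorem atom_sum (η : ℝ → ℝ) (hη : IsWt η) (B : ℕ) (δ : ℝ) (hδ : 0 < δ) (hδ1 : δ < 1) (ε : ℝ)
    (hε : 0 < ε) : ∀ᶠ N : ℕ in atTop, ∀ R : ℕ, (R : ℝ) ≤ (N : ℝ) ^ (1 - δ) →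
    (1 - ε) * ((Z1 η N / Real.log N) * ∏ p ∈ pw (wN B N), (1 - 1 / (p : ℝ))⁻¹) ≤
      aN η N (wN B N) R := by
  classical
  have hZ : ∀ N : ℕ, 0 ≤ Z1 η N := fun N => sum_nonneg fun n _ => hη.nonneg _
  have ha : ∀ N w R : ℕ, 0 ≤ aN η N w R := by
    intro N w R
    unfold aN
    exact sum_nonneg fun n _ => hη.nonneg _
  have hP : ∀ w : ℕ, 0 ≤ ∏ p ∈ pw w, (1 - 1 / (p : ℝ))⁻¹ := by
    intro w
    refine prod_nonneg fun p hp => ?_
    have hp2 : 2 ≤ p := ((mem_filter.1 hp).2).two_le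
    have hp2' : (2 : ℝ) ≤ p := by exact_mod_cast hp2
    have : 1 / (p : ℝ) ≤ 1 := by
      rw [div_le_one (by linarith)]
      linarith
    exact inv_nonneg.2 (by linarith)
  rcases le_or_gt 1 ε with h1 | h1
  · filter_upwards [eventually_ge_atTop 1] with N hN R _
    have hN1' : (1 : ℝ) ≤ N := by exact_mod_cast hN
    have hlog : 0 ≤ Real.log N := Real.log_nonneg hN1'
    refine le_trans ?_ (ha N _ R)
    refine mul_nonpos_of_nonpos_of_nonneg (by linarith) ?_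
    exact mul_nonneg (div_nonneg (hZ N) hlog) (hP _)
  have hδ2 : 0 < δ / 2 := by linarith
  have hd1 := prime_wt η hη (δ / 2) hδ2 (by linarith) (ε / 2) (by linarith)
  have hd2 := smooth_sum B (δ / 2) hδ2 (ε / 2) (by linarith)
  have hd3 := atom_large B δ hδ1
  have hd4 := (tendsto_natCast_atTop_atTop (R := ℝ)).eventually
    ((tendsto_rpow_atTop hδ2).eventually_ge_atTop 8)
  filter_upwards [hd1, hd2, hd3, hd4, eventually_ge_atTop 2] with N e1 e2 e3 e4 hN R hR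
  have hN2' : (2 : ℝ) ≤ N := by exact_mod_cast hN
  have hN0 : (0 : ℝ) < N := by linarith
  have hlog : 0 < Real.log N := Real.log_pos (by linarith)
  set w := wN B N with hw
  set T := (Icc 1 ⌊(N : ℝ) ^ (δ / 2)⌋₊).filter (fun m => ∀ p ∈ m.primeFactors, p ≤ w) with hT
  set P := (range (N + 1)).filter Nat.Prime with hPd
  -- size of the elements of `T`
  have hTle : ∀ m ∈ T, 0 < m ∧ (m : ℝ) ≤ (N : ℝ) ^ (δ / 2) := by
    intro m hm
    have h2 := (mem_filter.1 hm).1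
    rw [mem_Icc] at h2
    refine ⟨h2.1, ?_⟩
    have h3 : (m : ℝ) ≤ (⌊(N : ℝ) ^ (δ / 2)⌋₊ : ℝ) := by exact_mod_cast h2.2
    exact h3.trans (Nat.floor_le (by positivity))
  -- the primes are large
  have hpl : ∀ m ∈ T, ∀ p ∈ P, η (((m * p : ℕ) : ℝ) / N) ≠ 0 →
      (N : ℝ) ^ (1 - δ) < p ∧ m * p ≤ N := by
    intro m hm p _ hne
    obtain ⟨hm0, hmle⟩ := hTle m hm
    obtain ⟨h2, h3⟩ := hη.supp _ hne
    rw [lt_div_iff₀ hN0] at h2
    rw [div_lt_iff₀ hN0] at h3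
    constructor
    · push_cast at h2
      have h4 : (1 : ℝ) / 8 * N < (N : ℝ) ^ (δ / 2) * p :=
        h2.trans_le (mul_le_mul_of_nonneg_right hmle (Nat.cast_nonneg p))
      have h5 : (N : ℝ) = (N : ℝ) ^ (1 - δ) * ((N : ℝ) ^ (δ / 2) * (N : ℝ) ^ (δ / 2)) := by
        rw [← Real.rpow_add hN0, ← Real.rpow_add hN0]
        conv_lhs => rw [← Real.rpow_one (N : ℝ)]
        congr 1
        ring
      have h6 : 0 < (N : ℝ) ^ (δ / 2) := by positivity
      have h7 : 0 < (N : ℝ) ^ (1 - δ) := by positivity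
      have h8 : (N : ℝ) ^ (1 - δ) * (N : ℝ) ^ (δ / 2) ≤ (1 : ℝ) / 8 * N := by
        have h9 : 8 * ((N : ℝ) ^ (1 - δ) * (N : ℝ) ^ (δ / 2)) ≤
            (N : ℝ) ^ (δ / 2) * ((N : ℝ) ^ (1 - δ) * (N : ℝ) ^ (δ / 2)) :=
          mul_le_mul_of_nonneg_right e4 (by positivity)
        have h10 : (N : ℝ) ^ (δ / 2) * ((N : ℝ) ^ (1 - δ) * (N : ℝ) ^ (δ / 2)) =
            (N : ℝ) ^ (1 - δ) * ((N : ℝ) ^ (δ / 2) * (N : ℝ) ^ (δ / 2)) := by ring
        rw [← h5] at h10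
        linarith
      by_contra h11
      have h12 : (p : ℝ) ≤ (N : ℝ) ^ (1 - δ) := not_lt.1 h11
      have h13 : (N : ℝ) ^ (δ / 2) * p ≤ (N : ℝ) ^ (δ / 2) * (N : ℝ) ^ (1 - δ) :=
        mul_le_mul_of_nonneg_left h12 h6.le
      have h14 : (N : ℝ) ^ (δ / 2) * (N : ℝ) ^ (1 - δ) =
        (N : ℝ) ^ (1 - δ) * (N : ℝ) ^ (δ / 2) := mul_comm _ _
      linarith
    · have h4 : ((m * p : ℕ) : ℝ) ≤ N := by linarith
      exact_mod_cast h4
  -- the main inequality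
  have hmain : ∑ m ∈ T, ∑ p ∈ P, η (((m * p : ℕ) : ℝ) / N) ≤ aN η N w R := by
    rw [← sum_product' T P (fun m p => η (((m * p : ℕ) : ℝ) / N)),
      ← sum_filter_ne_zero]
    set S := (T ×ˢ P).filter (fun x => η (((x.1 * x.2 : ℕ) : ℝ) / N) ≠ 0) with hS
    have hSm : ∀ x ∈ S, x.1 ∈ T ∧ x.2 ∈ P ∧ η (((x.1 * x.2 : ℕ) : ℝ) / N) ≠ 0 := by
      intro x hx
      rw [hS, mem_filter, mem_product] at hx
      exact ⟨hx.1.1, hx.1.2, hx.2⟩
    have hw : ∀ x ∈ S, w < x.2 := by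
      intro x hx
      obtain ⟨h2, h3, h4⟩ := hSm x hx
      have := (hpl _ h2 _ h3 h4).1
      have h5 : (w : ℝ) < x.2 := lt_of_le_of_lt e3 this
      exact_mod_cast h5
    have hinj : Set.InjOn (fun x : ℕ × ℕ => x.1 * x.2) (S : Set (ℕ × ℕ)) := by
      intro x hx y hy hxy
      have hx' := hSm x hx
      have hy' := hSm y hy
      have hpx : x.2.Prime := (mem_filter.1 hx'.2.1).2
      have hpy : y.2.Prime := (mem_filter.1 hy'.2.1).2
      have hxy' : x.1 * x.2 = y.1 * y.2 := hxy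
      have h2 : x.2 ∣ y.1 * y.2 := ⟨x.1, by rw [← hxy']; ring⟩
      have h3 : x.2 = y.2 := by
        rcases hpx.dvd_mul.1 h2 with h | h
        · have h4 : x.2 ≤ w := (mem_filter.1 hy'.1).2 x.2
            (Nat.mem_primeFactors.2 ⟨hpx, h, (hTle _ hy'.1).1.ne'⟩)
          exact absurd (hw x hx) (not_lt.2 h4)
        · exact (Nat.prime_dvd_prime_iff_eq hpx hpy).1 h
      have h4 : x.1 = y.1 := by
        rw [h3] at hxy'
        exact Nat.eq_of_mul_eq_mul_right hpy.pos hxy'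
      exact Prod.ext h4 h3
    have h2 : ∑ x ∈ S, η (((x.1 * x.2 : ℕ) : ℝ) / N) =
        ∑ r ∈ S.image (fun x : ℕ × ℕ => x.1 * x.2), η ((r : ℝ) / N) := by
      rw [sum_image hinj]
    rw [h2]
    unfold aN
    refine sum_le_sum_of_subset_of_nonneg ?_ (fun r _ _ => hη.nonneg _)
    intro r hr
    obtain ⟨x, hx, rfl⟩ := mem_image.1 hr
    obtain ⟨hxT, hxP, hxn⟩ := hSm x hx
    obtain ⟨hb1, hb2⟩ := hpl _ hxT _ hxP hxn
    have hpx : x.2.Prime := (mem_filter.1 hxP).2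
    have hm0 := (hTle _ hxT).1
    rw [mem_filter, mem_range]
    refine ⟨by omega, Nat.mul_pos hm0 hpx.pos, hb2, ?_, ?_⟩
    · unfold sg
      rw [atom_omw_mul _ _ _ hm0.ne' hpx.ne_zero, atom_omw_smooth _ _ (mem_filter.1 hxT).2,
        atom_omw_prime _ _ hpx (hw x hx)]
      norm_num
    · intro q hq hqd
      rcases hq.dvd_mul.1 hqd with h | h
      · exact Or.inl ((mem_filter.1 hxT).2 q (Nat.mem_primeFactors.2 ⟨hq, h, hm0.ne'⟩))
      · right
        rw [(Nat.prime_dvd_prime_iff_eq hq hpx).1 h]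
        have h5 : (R : ℝ) < x.2 := lt_of_le_of_lt hR hb1
        exact_mod_cast h5
  refine le_trans ?_ hmain
  have h3 : ∑ m ∈ T, (1 - ε / 2) * (Z1 η N / (m * Real.log N)) ≤
      ∑ m ∈ T, ∑ p ∈ P, η (((m * p : ℕ) : ℝ) / N) :=
    sum_le_sum fun m hm => e1 m (hTle m hm).1 (hTle m hm).2
  refine le_trans ?_ h3
  have h4 : ∑ m ∈ T, (1 - ε / 2) * (Z1 η N / (m * Real.log N)) =
      (1 - ε / 2) * (Z1 η N / Real.log N) * ∑ m ∈ T, 1 / (m : ℝ) := by
    rw [mul_sum]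
    refine sum_congr rfl fun m hm => ?_
    have hm0 : (m : ℝ) ≠ 0 := by exact_mod_cast (hTle m hm).1.ne'
    field_simp
  rw [h4]
  have h5 : 0 ≤ (1 - ε / 2) * (Z1 η N / Real.log N) :=
    mul_nonneg (by linarith) (div_nonneg (hZ N) hlog.le)
  refine le_trans ?_ (mul_le_mul_of_nonneg_left e2 h5)
  set Q := ∏ p ∈ pw w, (1 - 1 / (p : ℝ))⁻¹ with hQ
  have hQ0 : 0 ≤ Q := hP w
  have h6 : 0 ≤ Z1 η N / Real.log N * Q := mul_nonneg (div_nonneg (hZ N) hlog.le) hQ0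
  have h7 : (1 - ε / 2) * (Z1 η N / Real.log N) * ((1 - ε / 2) * Q) =
      (1 - ε / 2) ^ 2 * (Z1 η N / Real.log N * Q) := by ring
  rw [h7]
  refine mul_le_mul_of_nonneg_right ?_ h6
  nlinarith [sq_nonneg (ε / 2)]

end Pool.Agent.SVB
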