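import Mathlib
import Pool.Agent.SVB.Defs

set_option autoImplicit false

/-!
# Project SVB: Coin

cc <= sum over pairs (i,j) and primes p > w dividing r_i and r_j. eta <= 1, eta(0) = 0, multiples of m in [1,N]: <= N/m.
p not dividing f_i f_j: <= N^3/(f1 f2 f3 p^2), sum over n > w of 1/n^2 <= 1/w. p | f_i (then p does not divide f_j): <= N^3/(f1 f2 f3 p) <= ../w, at most
log N/log 2 such p. Total (3 + 9 log N)/w.
-/

namespace Pool.Agent.SVB

open Finset Filter Topology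
open Pool.Agent.MT (IsWt Z1)

namespace CoinAux

/-- indicator of divisibility -/
noncomputable def dv (p r : ℕ) : ℝ := if p ∣ r then 1 else 0

theorem dv_nonneg (p r : ℕ) : 0 ≤ dv p r := by unfold dv; split_ifs <;> norm_num

/-- the positive multiples of `f` up to `N` -/
def TT (N f : ℕ) : Finset ℕ := (Ioc 0 N).filter (fun r => f ∣ r)

/-- the primes in `(w, N]` -/
def PP (w N : ℕ) : Finset ℕ := (Ioc w N).filter Nat.Prime

theorem card_TT (N f : ℕ) : ((TT N f).card : ℝ) ≤ N / f := by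
  unfold TT
  rw [Nat.Ioc_filter_dvd_card_eq_div]
  exact Nat.cast_div_le

theorem sum_dv (N f p : ℕ) : ∑ r ∈ TT N f, dv p r ≤ (N : ℝ) / (Nat.lcm f p : ℕ) := by
  have h1 : ∑ r ∈ TT N f, dv p r = ((TT N (Nat.lcm f p)).card : ℝ) := by
    unfold dv
    rw [Finset.sum_ite, Finset.sum_const_zero, add_zero, Finset.sum_const, nsmul_eq_mul, mul_one]
    congr 2
    unfold TT
    ext r
    simp only [Finset.mem_filter, Nat.lcm_dvd_iff]
    tauto
  rw [h1]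
  exact card_TT N _

theorem sum_range_eq (N f : ℕ) (h : ℕ → ℝ) (h0 : h 0 = 0) :
    ∑ r ∈ (range (N + 1)).filter (fun r => f ∣ r), h r = ∑ r ∈ TT N f, h r := by
  symm
  apply Finset.sum_subset
  · intro r hr
    unfold TT at hr
    simp only [Finset.mem_filter, Finset.mem_Ioc, Finset.mem_range] at hr ⊢
    exact ⟨by omega, hr.2⟩
  · intro r hr hr'
    unfold TT at hr'
    simp only [Finset.mem_filter, Finset.mem_Ioc, Finset.mem_range] at hr hr'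
    have : r = 0 := by
      by_contra hne
      exact hr' ⟨⟨by omega, by omega⟩, hr.2⟩
    rw [this, h0]

theorem cc_le {N w r₁ r₂ r₃ : ℕ} (h1 : r₁ ∈ Ioc 0 N) (h2 : r₂ ∈ Ioc 0 N) (_h3 : r₃ ∈ Ioc 0 N) :
    cc w r₁ r₂ r₃ ≤ ∑ p ∈ PP w N, (dv p r₁ * dv p r₂ + dv p r₁ * dv p r₃ + dv p r₂ * dv p r₃) := by
  have hnn : ∀ p, 0 ≤ dv p r₁ * dv p r₂ + dv p r₁ * dv p r₃ + dv p r₂ * dv p r₃ := by
    intro p
    have a := dv_nonneg p r₁
    have b := dv_nonneg p r₂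
    have c := dv_nonneg p r₃
    positivity
  by_cases h : Nc w r₁ r₂ r₃
  · have h4 : cc w r₁ r₂ r₃ = 0 := by unfold cc; rw [if_pos h]
    rw [h4]
    exact Finset.sum_nonneg fun p _ => hnn p
  · have h4 : cc w r₁ r₂ r₃ = 1 := by unfold cc; rw [if_neg h]
    rw [h4]
    unfold Nc at h
    push Not at h
    obtain ⟨p, hp, hwp, hd⟩ := h
    rw [Finset.mem_Ioc] at h1 h2
    have hmem : p ∈ PP w N ∧
        1 ≤ dv p r₁ * dv p r₂ + dv p r₁ * dv p r₃ + dv p r₂ * dv p r₃ := by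
      have a := dv_nonneg p r₁
      have b := dv_nonneg p r₂
      have c := dv_nonneg p r₃
      have key : ∀ r : ℕ, 0 < r → r ≤ N → p ∣ r → p ∈ PP w N := by
        intro r hr0 hrN hpr
        unfold PP
        rw [Finset.mem_filter, Finset.mem_Ioc]
        exact ⟨⟨hwp, (Nat.le_of_dvd hr0 hpr).trans hrN⟩, hp⟩
      by_cases c1 : p ∣ r₁ ∧ p ∣ r₂
      · refine ⟨key r₁ h1.1 h1.2 c1.1, ?_⟩
        have e1 : dv p r₁ = 1 := by unfold dv; rw [if_pos c1.1]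
        have e2 : dv p r₂ = 1 := by unfold dv; rw [if_pos c1.2]
        rw [e1, e2]; nlinarith
      · by_cases c2 : p ∣ r₁ ∧ p ∣ r₃
        · refine ⟨key r₁ h1.1 h1.2 c2.1, ?_⟩
          have e1 : dv p r₁ = 1 := by unfold dv; rw [if_pos c2.1]
          have e2 : dv p r₃ = 1 := by unfold dv; rw [if_pos c2.2]
          rw [e1, e2]; nlinarith
        · have c3 : p ∣ r₂ ∧ p ∣ r₃ := by
            have h5 := hd (fun x y => c1 ⟨x, y⟩) (fun x y => c2 ⟨x, y⟩)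
            exact h5
          refine ⟨key r₂ h2.1 h2.2 c3.1, ?_⟩
          have e1 : dv p r₂ = 1 := by unfold dv; rw [if_pos c3.1]
          have e2 : dv p r₃ = 1 := by unfold dv; rw [if_pos c3.2]
          rw [e1, e2]; nlinarith
    exact hmem.2.trans (Finset.single_le_sum
      (f := fun p => dv p r₁ * dv p r₂ + dv p r₁ * dv p r₃ + dv p r₂ * dv p r₃)
      (fun q _ => hnn q) hmem.1)

theorem card_primeFactors_le (f : ℕ) (hf : 0 < f) :
    (f.primeFactors.card : ℝ) ≤ Real.log f / Real.log 2 := by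
  have h1 : 2 ^ f.primeFactors.card ≤ f := by
    calc 2 ^ f.primeFactors.card ≤ ∏ p ∈ f.primeFactors, p :=
          Finset.pow_card_le_prod _ _ _ fun p hp => (Nat.prime_of_mem_primeFactors hp).two_le
      _ ≤ f := Nat.le_of_dvd hf (Nat.prod_primeFactors_dvd f)
  rw [le_div_iff₀ (Real.log_pos (by norm_num)), ← Real.log_pow]
  apply Real.log_le_log (by positivity)
  exact_mod_cast h1

theorem sum_div_le {w N f : ℕ} (hf : 0 < f) (hfN : f ≤ N) (hw : 1 ≤ w) :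
    ∑ p ∈ PP w N, (if p ∣ f then (1 : ℝ) / w else 0) ≤ Real.log N / Real.log 2 * (1 / w) := by
  rw [Finset.sum_ite, Finset.sum_const_zero, add_zero, Finset.sum_const, nsmul_eq_mul]
  have hw0 : (0 : ℝ) < w := by exact_mod_cast hw
  apply mul_le_mul_of_nonneg_right _ (by positivity)
  have h1 : ((PP w N).filter (fun p => p ∣ f)).card ≤ f.primeFactors.card := by
    apply Finset.card_le_card
    intro p hp
    unfold PP at hp
    simp only [Finset.mem_filter] at hp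
    exact Nat.mem_primeFactors.mpr ⟨hp.1.2, hp.2, hf.ne'⟩
  have h2 : ((((PP w N).filter (fun p => p ∣ f)).card : ℕ) : ℝ) ≤ f.primeFactors.card := by
    exact_mod_cast h1
  refine h2.trans ((card_primeFactors_le f hf).trans ?_)
  apply div_le_div_of_nonneg_right _ (Real.log_nonneg (by norm_num))
  apply Real.log_le_log (by exact_mod_cast hf)
  exact_mod_cast hfN

theorem sum_sq_le {w N : ℕ} (hw : 1 ≤ w) : ∑ p ∈ PP w N, (1 : ℝ) / (p : ℝ) ^ 2 ≤ 1 / w := by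
  have hw0 : (0 : ℝ) < w := by exact_mod_cast hw
  have h1 : ∑ p ∈ PP w N, (1 : ℝ) / (p : ℝ) ^ 2 ≤ ∑ p ∈ Ioc w N, (1 : ℝ) / (p : ℝ) ^ 2 :=
    Finset.sum_le_sum_of_subset_of_nonneg (Finset.filter_subset _ _) fun _ _ _ => by positivity
  refine h1.trans ?_
  rcases le_or_gt w N with h | h
  · have h2 := sum_Ioc_inv_sq_le_sub (α := ℝ) (k := w) (n := N) (by omega) h
    calc ∑ p ∈ Ioc w N, (1 : ℝ) / (p : ℝ) ^ 2 = ∑ p ∈ Ioc w N, ((p : ℝ) ^ 2)⁻¹ := by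
          refine Finset.sum_congr rfl fun p _ => one_div _
      _ ≤ (w : ℝ)⁻¹ - (N : ℝ)⁻¹ := h2
      _ ≤ 1 / w := by
          have : (0 : ℝ) ≤ (N : ℝ)⁻¹ := by positivity
          rw [one_div]; linarith
  · rw [Finset.Ioc_eq_empty (by omega), Finset.sum_empty]
    positivity

theorem lcm_of_not_dvd {f p : ℕ} (hp : p.Prime) (h : ¬ p ∣ f) : Nat.lcm f p = f * p :=
  Nat.Coprime.lcm_eq_mul ((Nat.Prime.coprime_iff_not_dvd hp).mpr h).symm

theorem pair_le {w N f f' : ℕ} (hf : 0 < f) (hf' : 0 < f') (hfN : f ≤ N) (hfN' : f' ≤ N)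
    (hw : 1 ≤ w) (hc : Nat.Coprime f f') :
    ∑ p ∈ PP w N, (1 : ℝ) / (Nat.lcm f p : ℕ) * (1 / (Nat.lcm f' p : ℕ)) ≤
      1 / (f * f') * ((1 + 2 * (Real.log N / Real.log 2)) * (1 / w)) := by
  have hw0 : (0 : ℝ) < w := by exact_mod_cast hw
  have hf0 : (0 : ℝ) < f := by exact_mod_cast hf
  have hf0' : (0 : ℝ) < f' := by exact_mod_cast hf'
  have h1 : ∀ p ∈ PP w N, (1 : ℝ) / (Nat.lcm f p : ℕ) * (1 / (Nat.lcm f' p : ℕ)) ≤
      1 / (f * f') * (1 / (p : ℝ) ^ 2 + (if p ∣ f then (1 : ℝ) / w else 0) +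
        (if p ∣ f' then (1 : ℝ) / w else 0)) := by
    intro p hp
    unfold PP at hp
    rw [Finset.mem_filter, Finset.mem_Ioc] at hp
    obtain ⟨⟨hwp, _⟩, hpp⟩ := hp
    have hp0 : (0 : ℝ) < p := by exact_mod_cast hpp.pos
    have hwp' : (w : ℝ) ≤ p := by exact_mod_cast hwp.le
    have hinv : (1 : ℝ) / p ≤ 1 / w := one_div_le_one_div_of_le hw0 hwp'
    by_cases c1 : p ∣ f
    · have c2 : ¬ p ∣ f' := fun h => hpp.one_lt.ne' (Nat.dvd_one.mp (hc ▸ Nat.dvd_gcd c1 h))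
      rw [if_pos c1, if_neg c2, lcm_of_not_dvd hpp c2, Nat.lcm_eq_left c1]
      push_cast
      calc (1 : ℝ) / f * (1 / (f' * p)) = 1 / (f * f') * (1 / p) := by field_simp
        _ ≤ 1 / (f * f') * (1 / (p : ℝ) ^ 2 + 1 / w + 0) := by
            apply mul_le_mul_of_nonneg_left _ (by positivity)
            have : (0 : ℝ) ≤ 1 / (p : ℝ) ^ 2 := by positivity
            linarith
    · by_cases c2 : p ∣ f'
      · rw [if_neg c1, if_pos c2, lcm_of_not_dvd hpp c1, Nat.lcm_eq_left c2]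
        push_cast
        calc (1 : ℝ) / (f * p) * (1 / f') = 1 / (f * f') * (1 / p) := by field_simp
          _ ≤ 1 / (f * f') * (1 / (p : ℝ) ^ 2 + 0 + 1 / w) := by
              apply mul_le_mul_of_nonneg_left _ (by positivity)
              have : (0 : ℝ) ≤ 1 / (p : ℝ) ^ 2 := by positivity
              linarith
      · rw [if_neg c1, if_neg c2, lcm_of_not_dvd hpp c1, lcm_of_not_dvd hpp c2]
        push_cast
        apply le_of_eq
        field_simp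
        ring
  calc _ ≤ ∑ p ∈ PP w N, 1 / ((f : ℝ) * f') * (1 / (p : ℝ) ^ 2 +
        (if p ∣ f then (1 : ℝ) / w else 0) + (if p ∣ f' then (1 : ℝ) / w else 0)) :=
        Finset.sum_le_sum h1
    _ = 1 / ((f : ℝ) * f') * (∑ p ∈ PP w N, 1 / (p : ℝ) ^ 2 +
        ∑ p ∈ PP w N, (if p ∣ f then (1 : ℝ) / w else 0) +
        ∑ p ∈ PP w N, (if p ∣ f' then (1 : ℝ) / w else 0)) := by
        rw [← Finset.mul_sum, Finset.sum_add_distrib, Finset.sum_add_distrib]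
    _ ≤ _ := by
        apply mul_le_mul_of_nonneg_left _ (by positivity)
        have a := sum_sq_le (w := w) (N := N) hw
        have b := sum_div_le (w := w) (N := N) hf hfN hw
        have c := sum_div_le (w := w) (N := N) hf' hfN' hw
        calc _ ≤ 1 / (w : ℝ) + Real.log N / Real.log 2 * (1 / w) +
              Real.log N / Real.log 2 * (1 / w) := add_le_add (add_le_add a b) c
          _ = _ := by ring

/-- the contribution of one pair -/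
theorem triple_le {w N f f' f'' : ℕ} (hf : 0 < f) (hf' : 0 < f') (hf'' : 0 < f'') (hfN : f ≤ N)
    (hfN' : f' ≤ N) (hw : 1 ≤ w) (hc : Nat.Coprime f f') :
    ∑ p ∈ PP w N, (∑ r ∈ TT N f, dv p r) * (∑ r ∈ TT N f', dv p r) * (TT N f'').card ≤
      (N : ℝ) ^ 3 / (f * f' * f'') * ((1 + 2 * (Real.log N / Real.log 2)) * (1 / w)) := by
  have hf0 : (0 : ℝ) < f := by exact_mod_cast hf
  have hf0' : (0 : ℝ) < f' := by exact_mod_cast hf'
  have hf0'' : (0 : ℝ) < f'' := by exact_mod_cast hf''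
  have hN0 : (0 : ℝ) ≤ N := Nat.cast_nonneg N
  have hs : ∀ g p : ℕ, 0 ≤ ∑ r ∈ TT N g, dv p r := fun g p =>
    Finset.sum_nonneg fun r _ => dv_nonneg p r
  calc _ ≤ ∑ p ∈ PP w N, ((N : ℝ) / (Nat.lcm f p : ℕ)) * ((N : ℝ) / (Nat.lcm f' p : ℕ)) *
        ((N : ℝ) / f'') := by
        refine Finset.sum_le_sum fun p _ => ?_
        apply mul_le_mul _ (card_TT N f'') (Nat.cast_nonneg _) (by positivity)
        exact mul_le_mul (sum_dv N f p) (sum_dv N f' p) (hs _ _) (by positivity)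
    _ = ((N : ℝ) ^ 3 / f'') *
        ∑ p ∈ PP w N, (1 : ℝ) / (Nat.lcm f p : ℕ) * (1 / (Nat.lcm f' p : ℕ)) := by
        rw [Finset.mul_sum]
        refine Finset.sum_congr rfl fun p _ => ?_
        ring
    _ ≤ ((N : ℝ) ^ 3 / f'') *
        (1 / (f * f') * ((1 + 2 * (Real.log N / Real.log 2)) * (1 / w))) :=
        mul_le_mul_of_nonneg_left (pair_le hf hf' hfN hfN' hw hc) (by positivity)
    _ = _ := by
        field_simp

end CoinAux

open CoinAux in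
theorem coin {η : ℝ → ℝ} (hη : IsWt η) {N w : ℕ} (hN : 1 ≤ N) (hw : 1 ≤ w) {f₁ f₂ f₃ : ℕ}
    (hf₁ : 0 < f₁) (hf₂ : 0 < f₂) (hf₃ : 0 < f₃) (h₁₂ : Nat.Coprime f₁ f₂)
    (h₁₃ : Nat.Coprime f₁ f₃) (h₂₃ : Nat.Coprime f₂ f₃) (hN₁ : f₁ ≤ N) (hN₂ : f₂ ≤ N)
    (hN₃ : f₃ ≤ N) :
    S3 η N f₁ f₂ f₃ (cc w) ≤ (N : ℝ) ^ 3 / (f₁ * f₂ * f₃) * (12 * (Real.log N + 1) / w) := by
  have hw0 : (0 : ℝ) < w := by exact_mod_cast hw
  have hf0₁ : (0 : ℝ) < f₁ := by exact_mod_cast hf₁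
  have hf0₂ : (0 : ℝ) < f₂ := by exact_mod_cast hf₂
  have hf0₃ : (0 : ℝ) < f₃ := by exact_mod_cast hf₃
  have hN0 : (0 : ℝ) < N := by exact_mod_cast hN
  have hη0 : η (((0 : ℕ) : ℝ) / N) = 0 := by
    by_contra h
    have := (hη.supp _ h).1
    simp at this
    linarith
  have hcc0 : ∀ a b c : ℕ, 0 ≤ cc w a b c := by
    intro a b c
    unfold cc
    split_ifs <;> norm_num
  have e1 : S3 η N f₁ f₂ f₃ (cc w) = ∑ r₁ ∈ TT N f₁, ∑ r₂ ∈ TT N f₂, ∑ r₃ ∈ TT N f₃,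
      η ((r₁ : ℝ) / N) * η ((r₂ : ℝ) / N) * η ((r₃ : ℝ) / N) * cc w r₁ r₂ r₃ := by
    unfold S3
    rw [sum_range_eq N f₁ (fun r₁ => ∑ r₂ ∈ (range (N + 1)).filter (fun r => f₂ ∣ r),
      ∑ r₃ ∈ (range (N + 1)).filter (fun r => f₃ ∣ r),
        η ((r₁ : ℝ) / N) * η ((r₂ : ℝ) / N) * η ((r₃ : ℝ) / N) * cc w r₁ r₂ r₃)
      (Finset.sum_eq_zero fun r₂ _ => Finset.sum_eq_zero fun r₃ _ => by rw [hη0]; ring)]
    refine Finset.sum_congr rfl fun r₁ _ => ?_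
    rw [sum_range_eq N f₂ (fun r₂ => ∑ r₃ ∈ (range (N + 1)).filter (fun r => f₃ ∣ r),
        η ((r₁ : ℝ) / N) * η ((r₂ : ℝ) / N) * η ((r₃ : ℝ) / N) * cc w r₁ r₂ r₃)
      (Finset.sum_eq_zero fun r₃ _ => by rw [hη0]; ring)]
    refine Finset.sum_congr rfl fun r₂ _ => ?_
    rw [sum_range_eq N f₃ (fun r₃ =>
        η ((r₁ : ℝ) / N) * η ((r₂ : ℝ) / N) * η ((r₃ : ℝ) / N) * cc w r₁ r₂ r₃)
      (by rw [hη0]; ring)]
  have hmemT : ∀ f r : ℕ, r ∈ TT N f → r ∈ Ioc 0 N := by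
    intro f r hr
    unfold TT at hr
    exact (Finset.mem_filter.mp hr).1
  have e2 : S3 η N f₁ f₂ f₃ (cc w) ≤ ∑ r₁ ∈ TT N f₁, ∑ r₂ ∈ TT N f₂, ∑ r₃ ∈ TT N f₃,
      ∑ p ∈ PP w N, (dv p r₁ * dv p r₂ + dv p r₁ * dv p r₃ + dv p r₂ * dv p r₃) := by
    rw [e1]
    refine Finset.sum_le_sum fun r₁ h1 => Finset.sum_le_sum fun r₂ h2 =>
      Finset.sum_le_sum fun r₃ h3 => ?_
    have a1 := hη.nonneg ((r₁ : ℝ) / N)
    have a2 := hη.nonneg ((r₂ : ℝ) / N)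
    have a3 := hη.nonneg ((r₃ : ℝ) / N)
    have b1 := hη.le_one ((r₁ : ℝ) / N)
    have b2 := hη.le_one ((r₂ : ℝ) / N)
    have b3 := hη.le_one ((r₃ : ℝ) / N)
    have hprod : η ((r₁ : ℝ) / N) * η ((r₂ : ℝ) / N) * η ((r₃ : ℝ) / N) ≤ 1 := by
      calc _ ≤ (1 : ℝ) * 1 * 1 := by gcongr
        _ = 1 := by ring
    calc _ ≤ 1 * cc w r₁ r₂ r₃ := mul_le_mul_of_nonneg_right hprod (hcc0 _ _ _)
      _ = cc w r₁ r₂ r₃ := one_mul _
      _ ≤ _ := cc_le (hmemT _ _ h1) (hmemT _ _ h2) (hmemT _ _ h3)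
  have e3 : ∑ r₁ ∈ TT N f₁, ∑ r₂ ∈ TT N f₂, ∑ r₃ ∈ TT N f₃,
      ∑ p ∈ PP w N, (dv p r₁ * dv p r₂ + dv p r₁ * dv p r₃ + dv p r₂ * dv p r₃) =
      (∑ p ∈ PP w N, (∑ r ∈ TT N f₁, dv p r) * (∑ r ∈ TT N f₂, dv p r) * (TT N f₃).card) +
      (∑ p ∈ PP w N, (∑ r ∈ TT N f₁, dv p r) * (∑ r ∈ TT N f₃, dv p r) * (TT N f₂).card) +
      (∑ p ∈ PP w N, (∑ r ∈ TT N f₂, dv p r) * (∑ r ∈ TT N f₃, dv p r) * (TT N f₁).card) := by
    have s1 : ∀ r₁ r₂ : ℕ, ∑ r₃ ∈ TT N f₃,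
        ∑ p ∈ PP w N, (dv p r₁ * dv p r₂ + dv p r₁ * dv p r₃ + dv p r₂ * dv p r₃) =
        ∑ p ∈ PP w N, (dv p r₁ * dv p r₂ * (TT N f₃).card +
          dv p r₁ * (∑ r ∈ TT N f₃, dv p r) + dv p r₂ * (∑ r ∈ TT N f₃, dv p r)) := by
      intro r₁ r₂
      rw [Finset.sum_comm]
      refine Finset.sum_congr rfl fun p _ => ?_
      rw [Finset.sum_add_distrib, Finset.sum_add_distrib, Finset.sum_const, nsmul_eq_mul,
        ← Finset.mul_sum, ← Finset.mul_sum]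
      ring
    have s2 : ∀ r₁ : ℕ, ∑ r₂ ∈ TT N f₂, ∑ r₃ ∈ TT N f₃,
        ∑ p ∈ PP w N, (dv p r₁ * dv p r₂ + dv p r₁ * dv p r₃ + dv p r₂ * dv p r₃) =
        ∑ p ∈ PP w N, (dv p r₁ * (∑ r ∈ TT N f₂, dv p r) * (TT N f₃).card +
          dv p r₁ * (∑ r ∈ TT N f₃, dv p r) * (TT N f₂).card +
          (∑ r ∈ TT N f₂, dv p r) * (∑ r ∈ TT N f₃, dv p r)) := by
      intro r₁
      rw [Finset.sum_congr rfl fun r₂ _ => s1 r₁ r₂, Finset.sum_comm]
      refine Finset.sum_congr rfl fun p _ => ?_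
      rw [Finset.sum_add_distrib, Finset.sum_add_distrib, Finset.sum_const, nsmul_eq_mul,
        ← Finset.sum_mul, ← Finset.sum_mul, ← Finset.mul_sum]
      ring
    rw [Finset.sum_congr rfl fun r₁ _ => s2 r₁, Finset.sum_comm, ← Finset.sum_add_distrib,
      ← Finset.sum_add_distrib]
    refine Finset.sum_congr rfl fun p _ => ?_
    rw [Finset.sum_add_distrib, Finset.sum_add_distrib, Finset.sum_const, nsmul_eq_mul,
      ← Finset.sum_mul, ← Finset.sum_mul, ← Finset.sum_mul, ← Finset.sum_mul]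
    ring
  have t1 := triple_le (w := w) (N := N) hf₁ hf₂ hf₃ hN₁ hN₂ hw h₁₂
  have t2 := triple_le (w := w) (N := N) hf₁ hf₃ hf₂ hN₁ hN₃ hw h₁₃
  have t3 := triple_le (w := w) (N := N) hf₂ hf₃ hf₁ hN₂ hN₃ hw h₂₃
  rw [e3] at e2
  refine e2.trans ((add_le_add (add_le_add t1 t2) t3).trans ?_)
  have g2 : (N : ℝ) ^ 3 / (f₁ * f₃ * f₂) = (N : ℝ) ^ 3 / (f₁ * f₂ * f₃) := by ring_nf
  have g3 : (N : ℝ) ^ 3 / (f₂ * f₃ * f₁) = (N : ℝ) ^ 3 / (f₁ * f₂ * f₃) := by ring_nf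
  rw [g2, g3]
  have hlog0 : 0 ≤ Real.log N := Real.log_nonneg (by exact_mod_cast hN)
  have hl2 : (1 : ℝ) / 2 < Real.log 2 := by linarith [Real.log_two_gt_d9]
  have hq : Real.log N / Real.log 2 ≤ 2 * Real.log N := by
    rw [div_le_iff₀ (by linarith)]
    nlinarith
  have hA : 0 ≤ (N : ℝ) ^ 3 / (f₁ * f₂ * f₃) := by positivity
  calc _ = (N : ℝ) ^ 3 / (f₁ * f₂ * f₃) *
        (3 * ((1 + 2 * (Real.log N / Real.log 2)) * (1 / w))) := by ring
    _ ≤ (N : ℝ) ^ 3 / (f₁ * f₂ * f₃) * (12 * (Real.log N + 1) / w) := by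
        apply mul_le_mul_of_nonneg_left _ hA
        rw [mul_one_div, mul_div_assoc', div_le_div_iff_of_pos_right hw0]
        linarith

end Pool.Agent.SVB
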