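import Mathlib
import Pool.Agent.SVB.Defs

set_option autoImplicit false

/-!
# Project SVB: Apr

Theta(B) = sum_(A subset B) c(A) >= 0. Moebius: |c(A)| <= sum_(B subset A) Theta(B). So sum g_A |c(A)| <= prod(1+g) sum_B g_B Theta(B).
And sum_A g_A c(A) = sum_B g_B prod_(p in S minus B)(1-g_p) Theta(B) >= prod(1-g) sum_B g_B Theta(B). (Induction on S is also possible.)
-/

namespace Pool.Agent.SVB

open Finset Filter Topology
open Pool.Agent.MT (IsWt Z1)

theorem apriori (S : Finset ℕ) (g : ℕ → ℝ) (hg : ∀ p ∈ S, 0 < g p ∧ g p < 1)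
    (c : Finset ℕ → ℝ) (hc : ∀ B, B ⊆ S → 0 ≤ ∑ A ∈ B.powerset, c A) :
    ∑ A ∈ S.powerset, (∏ p ∈ A, g p) * |c A| ≤
      (∏ p ∈ S, ((1 + g p) / (1 - g p))) * ∑ A ∈ S.powerset, (∏ p ∈ A, g p) * c A := by
  classical
  induction S using Finset.induction_on generalizing c with
  | empty =>
    have h := hc ∅ (Finset.Subset.refl _)
    simp only [Finset.powerset_empty, Finset.sum_singleton] at h
    simp [abs_of_nonneg h]
  | insert a s ha ih =>
    have hga := hg a (Finset.mem_insert_self a s)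
    have hgs : ∀ p ∈ s, 0 < g p ∧ g p < 1 := fun p hp => hg p (Finset.mem_insert_of_mem hp)
    have h0 := ih hgs c (fun B hB => hc B (hB.trans (Finset.subset_insert a s)))
    have h1 := ih hgs (fun A => c A + c (insert a A)) (fun B hB => by
      have haB : a ∉ B := fun h => ha (hB h)
      have h2 := hc (insert a B) (Finset.insert_subset_insert a hB)
      rw [Finset.sum_powerset_insert haB] at h2
      rw [Finset.sum_add_distrib]
      exact h2)
    have hprod : ∀ A ∈ s.powerset, ∏ p ∈ insert a A, g p = g a * ∏ p ∈ A, g p := by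
      intro A hA
      exact Finset.prod_insert fun h => ha (Finset.mem_powerset.mp hA h)
    rw [Finset.sum_powerset_insert ha, Finset.sum_powerset_insert ha, Finset.prod_insert ha]
    have e1 : ∑ A ∈ s.powerset, (∏ p ∈ insert a A, g p) * |c (insert a A)| =
        g a * ∑ A ∈ s.powerset, (∏ p ∈ A, g p) * |c (insert a A)| := by
      rw [Finset.mul_sum]
      refine Finset.sum_congr rfl fun A hA => ?_
      rw [hprod A hA]
      ring
    have e2 : ∑ A ∈ s.powerset, (∏ p ∈ insert a A, g p) * c (insert a A) =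
        g a * ∑ A ∈ s.powerset, (∏ p ∈ A, g p) * c (insert a A) := by
      rw [Finset.mul_sum]
      refine Finset.sum_congr rfl fun A hA => ?_
      rw [hprod A hA]
      ring
    rw [e1, e2]
    have hpos : ∀ A ∈ s.powerset, 0 ≤ ∏ p ∈ A, g p := fun A hA =>
      Finset.prod_nonneg fun p hp => (hgs p (Finset.mem_powerset.mp hA hp)).1.le
    have e3 : ∑ A ∈ s.powerset, (∏ p ∈ A, g p) * |c (insert a A)| ≤
        ∑ A ∈ s.powerset, (∏ p ∈ A, g p) * |c A + c (insert a A)| +
          ∑ A ∈ s.powerset, (∏ p ∈ A, g p) * |c A| := by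
      rw [← Finset.sum_add_distrib]
      refine Finset.sum_le_sum fun A hA => ?_
      rw [← mul_add]
      refine mul_le_mul_of_nonneg_left ?_ (hpos A hA)
      have h3 := abs_sub (c A + c (insert a A)) (c A)
      rwa [add_sub_cancel_left] at h3
    have e4 : ∑ A ∈ s.powerset, (∏ p ∈ A, g p) * (c A + c (insert a A)) =
        ∑ A ∈ s.powerset, (∏ p ∈ A, g p) * c A +
          ∑ A ∈ s.powerset, (∏ p ∈ A, g p) * c (insert a A) := by
      rw [← Finset.sum_add_distrib]
      exact Finset.sum_congr rfl fun A _ => mul_add _ _ _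
    rw [e4] at h1
    set P : ℝ := ∏ p ∈ s, ((1 + g p) / (1 - g p)) with hP
    set X : ℝ := ∑ A ∈ s.powerset, (∏ p ∈ A, g p) * |c A| with hX
    set X1 : ℝ := ∑ A ∈ s.powerset, (∏ p ∈ A, g p) * |c (insert a A)| with hX1
    set Y : ℝ := ∑ A ∈ s.powerset, (∏ p ∈ A, g p) * |c A + c (insert a A)| with hY
    set x : ℝ := ∑ A ∈ s.powerset, (∏ p ∈ A, g p) * c A with hx
    set x1 : ℝ := ∑ A ∈ s.powerset, (∏ p ∈ A, g p) * c (insert a A) with hx1
    have hYn : 0 ≤ Y := Finset.sum_nonneg fun A hA => mul_nonneg (hpos A hA) (abs_nonneg _)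
    have hZ : 0 ≤ P * (x + x1) := hYn.trans h1
    have hfac : (1 + g a) / (1 - g a) * P * (x + g a * x1) =
        (1 + g a) * (P * x) + (1 + g a) / (1 - g a) * g a * (P * (x + x1)) := by
      have : (1 : ℝ) - g a ≠ 0 := by linarith [hga.2]
      field_simp
      ring
    rw [hfac]
    have hq : g a ≤ (1 + g a) / (1 - g a) * g a := by
      have h5 : (1 : ℝ) ≤ (1 + g a) / (1 - g a) := by
        rw [le_div_iff₀ (by linarith [hga.2])]
        linarith [hga.1]
      nlinarith [hga.1]
    have h6 := mul_le_mul_of_nonneg_right hq hZ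
    have h7 := mul_le_mul_of_nonneg_left e3 hga.1.le
    have h8 := mul_le_mul_of_nonneg_left h0 (by linarith [hga.1] : (0 : ℝ) ≤ 1 + g a)
    have h9 := mul_le_mul_of_nonneg_left h1 hga.1.le
    linarith

end Pool.Agent.SVB
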