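import Mathlib
import Pool.Agent.SVB.Apr

set_option autoImplicit false

/-!
# Project SVB: Core

Let Theta(B) = sum_(A subset B) C(A) >= 0, B(r) = primes of SS w R dividing r1 r2 r3,
T = sum over r (all three in range(N+1), eta weights, r satisfying Nc) of F(r) Theta(B(r)).
Lower bound: keep only r with three atoms: B(r) empty, F >= V, and the atoms violating Nc cost at most
K S3(cc) <= K tau' Z^3 (hcoin with f = 1,1,1, needs 1 <= R). Upper bound: T = sum_A C(A) m(A), m(A) = sum_(r Nc, A subset B(r)) F.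
For prod A > R, C(A) = 0. Otherwise, since under Nc every p in A divides exactly one r_j, m(A) is the sum over the 3^|A|
ordered splittings A = A1 + A2 + A3 of S3(f1,f2,f3;F) - S3(f;cc F), f_j = prod A_j, so |m(A) - 3^|A| Z^3/prod A| <= 3^|A| (tau + K tau') Z^3/prod A.
Then apriori with g(p) = 3/p (p >= 11). Terms with some r_j = 0 vanish (eta(0) = 0).
-/

namespace Pool.Agent.SVB

open Finset Filter Topology
open Pool.Agent.MT (IsWt Z1)

/-- indicator of divisibility -/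
private noncomputable def cInd (f r : ℕ) : ℝ := if f ∣ r then 1 else 0

private def cX (N : ℕ) : Finset (ℕ × ℕ × ℕ) :=
  range (N + 1) ×ˢ (range (N + 1) ×ˢ range (N + 1))

private noncomputable def cOm (η : ℝ → ℝ) (N : ℕ) (x : ℕ × ℕ × ℕ) : ℝ :=
  η ((x.1 : ℝ) / N) * η ((x.2.1 : ℝ) / N) * η ((x.2.2 : ℝ) / N)

private theorem cS3 (η : ℝ → ℝ) (N f₁ f₂ f₃ : ℕ) (G : ℕ → ℕ → ℕ → ℝ) :
    S3 η N f₁ f₂ f₃ G = ∑ x ∈ cX N, cOm η N x *
      (cInd f₁ x.1 * cInd f₂ x.2.1 * cInd f₃ x.2.2 * G x.1 x.2.1 x.2.2) := by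
  unfold cX
  rw [Finset.sum_product]
  simp_rw [Finset.sum_product]
  unfold S3
  rw [Finset.sum_filter]
  refine Finset.sum_congr rfl fun r₁ _ => ?_
  by_cases h1 : f₁ ∣ r₁
  · rw [if_pos h1, Finset.sum_filter]
    refine Finset.sum_congr rfl fun r₂ _ => ?_
    by_cases h2 : f₂ ∣ r₂
    · rw [if_pos h2, Finset.sum_filter]
      refine Finset.sum_congr rfl fun r₃ _ => ?_
      by_cases h3 : f₃ ∣ r₃
      · rw [if_pos h3]
        simp only [cOm, cInd, if_pos h1, if_pos h2, if_pos h3]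
        ring
      · rw [if_neg h3]
        simp only [cOm, cInd, if_neg h3]
        ring
    · rw [if_neg h2]
      symm
      apply Finset.sum_eq_zero
      intro r₃ _
      simp only [cOm, cInd, if_neg h2]
      ring
  · rw [if_neg h1]
    symm
    apply Finset.sum_eq_zero
    intro r₂ _
    apply Finset.sum_eq_zero
    intro r₃ _
    simp only [cOm, cInd, if_neg h1]
    ring

private theorem cEta0 {η : ℝ → ℝ} (hη : IsWt η) (N : ℕ) : η (((0 : ℕ) : ℝ) / N) = 0 := by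
  by_contra h
  have h1 := (hη.supp _ h).1
  rw [Nat.cast_zero, zero_div] at h1
  linarith

private theorem cOm_nonneg {η : ℝ → ℝ} (hη : IsWt η) (N : ℕ) (x : ℕ × ℕ × ℕ) : 0 ≤ cOm η N x :=
  mul_nonneg (mul_nonneg (hη.nonneg _) (hη.nonneg _)) (hη.nonneg _)

private theorem cMono {η : ℝ → ℝ} (hη : IsWt η) (N : ℕ) (G H : ℕ × ℕ × ℕ → ℝ)
    (h : ∀ x : ℕ × ℕ × ℕ, 0 < x.1 → x.1 ≤ N → 0 < x.2.1 → x.2.1 ≤ N → 0 < x.2.2 → x.2.2 ≤ N →
      G x ≤ H x) :
    ∑ x ∈ cX N, cOm η N x * G x ≤ ∑ x ∈ cX N, cOm η N x * H x := by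
  refine Finset.sum_le_sum fun x hx => ?_
  rw [cX, Finset.mem_product, Finset.mem_product, Finset.mem_range, Finset.mem_range,
    Finset.mem_range] at hx
  obtain ⟨h1, h2, h3⟩ := hx
  have e0 := cEta0 hη N
  rcases Nat.eq_zero_or_pos x.1 with z | p1
  · have : cOm η N x = 0 := by
      rw [cOm, z, e0]
      ring
    rw [this]
    simp
  rcases Nat.eq_zero_or_pos x.2.1 with z | p2
  · have : cOm η N x = 0 := by
      rw [cOm, z, e0]
      ring
    rw [this]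
    simp
  rcases Nat.eq_zero_or_pos x.2.2 with z | p3
  · have : cOm η N x = 0 := by
      rw [cOm, z, e0]
      ring
    rw [this]
    simp
  exact mul_le_mul_of_nonneg_left (h x p1 (by omega) p2 (by omega) p3 (by omega))
    (cOm_nonneg hη N x)

private theorem cTri (A : Finset ℕ) (a b c : ℕ → ℝ) :
    ∏ p ∈ A, (a p + b p + c p) = ∑ A₁ ∈ A.powerset, ∑ A₂ ∈ (A \ A₁).powerset,
      (∏ p ∈ A₁, a p) * (∏ p ∈ A₂, b p) * (∏ p ∈ (A \ A₁) \ A₂, c p) := by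
  have h : ∏ p ∈ A, (a p + b p + c p) = ∏ p ∈ A, (a p + (b p + c p)) :=
    Finset.prod_congr rfl fun p _ => by ring
  rw [h, Finset.prod_add]
  refine Finset.sum_congr rfl fun A₁ _ => ?_
  rw [Finset.prod_add, Finset.mul_sum]
  refine Finset.sum_congr rfl fun A₂ _ => ?_
  ring

private theorem cProdInd (A : Finset ℕ) (hA : ∀ p ∈ A, p.Prime) (r : ℕ) :
    ∏ p ∈ A, cInd p r = cInd (∏ p ∈ A, p) r := by
  by_cases h : ∀ p ∈ A, p ∣ r
  · have h1 : (∏ p ∈ A, p) ∣ r := Finset.prod_primes_dvd r (fun p hp => (hA p hp).prime) h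
    rw [cInd, if_pos h1]
    exact Finset.prod_eq_one fun p hp => by rw [cInd, if_pos (h p hp)]
  · push Not at h
    obtain ⟨p, hp, hpr⟩ := h
    have h1 : ¬ (∏ p ∈ A, p) ∣ r := fun h => hpr ((Finset.dvd_prod_of_mem _ hp).trans h)
    rw [cInd, if_neg h1]
    exact Finset.prod_eq_zero hp (by rw [cInd, if_neg hpr])

private theorem cCoprime (A B : Finset ℕ) (hA : ∀ p ∈ A, p.Prime) (hB : ∀ p ∈ B, p.Prime)
    (hd : Disjoint A B) : Nat.Coprime (∏ p ∈ A, p) (∏ p ∈ B, p) := by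
  apply Nat.Coprime.prod_left
  intro p hp
  apply Nat.Coprime.prod_right
  intro q hq
  rw [Nat.coprime_primes (hA p hp) (hB q hq)]
  rintro rfl
  exact Finset.disjoint_left.1 hd hp hq

private theorem cSS {w R p : ℕ} (h : p ∈ SS w R) : p.Prime ∧ w < p ∧ p ≤ R := by
  rw [SS, Finset.mem_filter, Finset.mem_Ioc] at h
  exact ⟨h.2, h.1.1, h.1.2⟩

private theorem cCc0 {w r₁ r₂ r₃ : ℕ} (h : Nc w r₁ r₂ r₃) : cc w r₁ r₂ r₃ = 0 := by
  rw [cc, if_pos h]

private theorem cCc1 {w r₁ r₂ r₃ : ℕ} (h : ¬ Nc w r₁ r₂ r₃) : cc w r₁ r₂ r₃ = 1 := by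
  rw [cc, if_neg h]

/-- the primes of `S` dividing one of the three numbers -/
private def cB (w R : ℕ) (x : ℕ × ℕ × ℕ) : Finset ℕ :=
  (SS w R).filter fun p => p ∣ x.1 ∨ p ∣ x.2.1 ∨ p ∣ x.2.2

private theorem cNcInd {w R : ℕ} {x : ℕ × ℕ × ℕ} (h : Nc w x.1 x.2.1 x.2.2) {A : Finset ℕ}
    (hA : A ⊆ SS w R) :
    (if A ⊆ cB w R x then (1 : ℝ) else 0) =
      ∏ p ∈ A, (cInd p x.1 + cInd p x.2.1 + cInd p x.2.2) := by
  by_cases hs : A ⊆ cB w R x
  · rw [if_pos hs]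
    symm
    refine Finset.prod_eq_one fun p hp => ?_
    obtain ⟨hpp, hwp, -⟩ := cSS (hA hp)
    have h1 := h p hpp hwp
    have h2 := hs hp
    rw [cB, Finset.mem_filter] at h2
    unfold cInd
    rcases h2.2 with h3 | h3 | h3
    · have h4 : ¬ p ∣ x.2.1 := fun h4 => h1.1 ⟨h3, h4⟩
      have h5 : ¬ p ∣ x.2.2 := fun h5 => h1.2.1 ⟨h3, h5⟩
      rw [if_pos h3, if_neg h4, if_neg h5]
      norm_num
    · have h4 : ¬ p ∣ x.1 := fun h4 => h1.1 ⟨h4, h3⟩
      have h5 : ¬ p ∣ x.2.2 := fun h5 => h1.2.2 ⟨h3, h5⟩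
      rw [if_pos h3, if_neg h4, if_neg h5]
      norm_num
    · have h4 : ¬ p ∣ x.1 := fun h4 => h1.2.1 ⟨h4, h3⟩
      have h5 : ¬ p ∣ x.2.1 := fun h5 => h1.2.2 ⟨h5, h3⟩
      rw [if_pos h3, if_neg h4, if_neg h5]
      norm_num
  · rw [if_neg hs]
    rw [Finset.not_subset] at hs
    obtain ⟨p, hp, hpB⟩ := hs
    symm
    apply Finset.prod_eq_zero hp
    rw [cB, Finset.mem_filter] at hpB
    have h1 : ¬ (p ∣ x.1 ∨ p ∣ x.2.1 ∨ p ∣ x.2.2) := fun h1 => hpB ⟨hA hp, h1⟩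
    push Not at h1
    unfold cInd
    rw [if_neg h1.1, if_neg h1.2.1, if_neg h1.2.2]
    norm_num

/-- the moment of a splitting -/
private theorem cMom1 {η : ℝ → ℝ} (hη : IsWt η) {N w R : ℕ} {K τ τ' V : ℝ}
    {F : ℕ → ℕ → ℕ → ℝ} (hd : Dens η N w R K τ V F) (hK : 0 ≤ K)
    {f₁ f₂ f₃ : ℕ} (h₁ : 0 < f₁) (h₂ : 0 < f₂) (h₃ : 0 < f₃) (hR : f₁ * f₂ * f₃ ≤ R)
    (hcoin : S3 η N f₁ f₂ f₃ (cc w) ≤ τ' * (Z1 η N ^ 3 / (f₁ * f₂ * f₃))) :
    |∑ x ∈ cX N, cOm η N x * (F x.1 x.2.1 x.2.2 * (1 - cc w x.1 x.2.1 x.2.2) *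
      (cInd f₁ x.1 * cInd f₂ x.2.1 * cInd f₃ x.2.2)) - Z1 η N ^ 3 / (f₁ * f₂ * f₃)| ≤
      (τ + K * τ') * (Z1 η N ^ 3 / (f₁ * f₂ * f₃)) := by
  have hm := hd.mom f₁ f₂ f₃ h₁ h₂ h₃ hR
  have e : ∑ x ∈ cX N, cOm η N x * (F x.1 x.2.1 x.2.2 * (1 - cc w x.1 x.2.1 x.2.2) *
      (cInd f₁ x.1 * cInd f₂ x.2.1 * cInd f₃ x.2.2)) =
      S3 η N f₁ f₂ f₃ F - ∑ x ∈ cX N, cOm η N x *
        (cInd f₁ x.1 * cInd f₂ x.2.1 * cInd f₃ x.2.2 * (F x.1 x.2.1 x.2.2 *
          cc w x.1 x.2.1 x.2.2)) := by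
    rw [cS3, ← Finset.sum_sub_distrib]
    exact Finset.sum_congr rfl fun x _ => by ring
  have hind : ∀ f r : ℕ, 0 ≤ cInd f r := by
    intro f r
    unfold cInd
    split_ifs <;> norm_num
  have hcc : ∀ x : ℕ × ℕ × ℕ, 0 ≤ cc w x.1 x.2.1 x.2.2 := by
    intro x
    by_cases h : Nc w x.1 x.2.1 x.2.2
    · rw [cCc0 h]
    · rw [cCc1 h]
      norm_num
  have l0 : 0 ≤ ∑ x ∈ cX N, cOm η N x *
        (cInd f₁ x.1 * cInd f₂ x.2.1 * cInd f₃ x.2.2 * (F x.1 x.2.1 x.2.2 *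
          cc w x.1 x.2.1 x.2.2)) := by
    have h := cMono hη N (fun _ => 0) (fun x => cInd f₁ x.1 * cInd f₂ x.2.1 * cInd f₃ x.2.2 *
      (F x.1 x.2.1 x.2.2 * cc w x.1 x.2.1 x.2.2)) (by
        intro x p1 q1 p2 q2 p3 q3
        have := hd.nonneg x.1 x.2.1 x.2.2 p1 q1 p2 q2 p3 q3
        have h1 := hind f₁ x.1
        have h2 := hind f₂ x.2.1
        have h3 := hind f₃ x.2.2
        have h4 := hcc x
        positivity)
    simpa using h
  have l1 : ∑ x ∈ cX N, cOm η N x *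
        (cInd f₁ x.1 * cInd f₂ x.2.1 * cInd f₃ x.2.2 * (F x.1 x.2.1 x.2.2 *
          cc w x.1 x.2.1 x.2.2)) ≤ K * S3 η N f₁ f₂ f₃ (cc w) := by
    have h := cMono hη N (fun x => cInd f₁ x.1 * cInd f₂ x.2.1 * cInd f₃ x.2.2 *
      (F x.1 x.2.1 x.2.2 * cc w x.1 x.2.1 x.2.2)) (fun x => K * (cInd f₁ x.1 * cInd f₂ x.2.1 *
        cInd f₃ x.2.2 * cc w x.1 x.2.1 x.2.2)) (by
        intro x p1 q1 p2 q2 p3 q3
        have := hd.le x.1 x.2.1 x.2.2 p1 q1 p2 q2 p3 q3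
        have h1 := hind f₁ x.1
        have h2 := hind f₂ x.2.1
        have h3 := hind f₃ x.2.2
        have h4 := hcc x
        have h5 : 0 ≤ cInd f₁ x.1 * cInd f₂ x.2.1 * cInd f₃ x.2.2 * cc w x.1 x.2.1 x.2.2 := by
          positivity
        have h6 := mul_le_mul_of_nonneg_left this h5
        linarith)
    refine h.trans (le_of_eq ?_)
    rw [cS3, Finset.mul_sum]
    exact Finset.sum_congr rfl fun x _ => by ring
  have l2 : K * S3 η N f₁ f₂ f₃ (cc w) ≤ K * (τ' * (Z1 η N ^ 3 / (f₁ * f₂ * f₃))) :=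
    mul_le_mul_of_nonneg_left hcoin hK
  rw [e, abs_le]
  rw [abs_le] at hm
  constructor
  · linarith [hm.1]
  · linarith [hm.2]

/-- the moment of a set of primes -/
private theorem cMomA {η : ℝ → ℝ} (hη : IsWt η) {N w R : ℕ} {K τ τ' V : ℝ}
    {F : ℕ → ℕ → ℕ → ℝ} (hd : Dens η N w R K τ V F) (hK : 0 ≤ K)
    (hcoin : ∀ f₁ f₂ f₃ : ℕ, 0 < f₁ → 0 < f₂ → 0 < f₃ → Nat.Coprime f₁ f₂ → Nat.Coprime f₁ f₃ →
      Nat.Coprime f₂ f₃ → f₁ * f₂ * f₃ ≤ R →
      S3 η N f₁ f₂ f₃ (cc w) ≤ τ' * (Z1 η N ^ 3 / (f₁ * f₂ * f₃)))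
    (A : Finset ℕ) (hA : A ⊆ SS w R) (hAR : ∏ p ∈ A, p ≤ R) :
    |∑ x ∈ cX N, cOm η N x * (F x.1 x.2.1 x.2.2 * (1 - cc w x.1 x.2.1 x.2.2) *
      (if A ⊆ cB w R x then (1 : ℝ) else 0)) - (∏ p ∈ A, 3 / (p : ℝ)) * Z1 η N ^ 3| ≤
      (τ + K * τ') * ((∏ p ∈ A, 3 / (p : ℝ)) * Z1 η N ^ 3) := by
  have hpr : ∀ p ∈ A, p.Prime := fun p hp => (cSS (hA hp)).1
  have e1 : ∑ x ∈ cX N, cOm η N x * (F x.1 x.2.1 x.2.2 * (1 - cc w x.1 x.2.1 x.2.2) *
      (if A ⊆ cB w R x then (1 : ℝ) else 0)) =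
      ∑ A₁ ∈ A.powerset, ∑ A₂ ∈ (A \ A₁).powerset, ∑ x ∈ cX N, cOm η N x *
        (F x.1 x.2.1 x.2.2 * (1 - cc w x.1 x.2.1 x.2.2) *
        (cInd (∏ p ∈ A₁, p) x.1 * cInd (∏ p ∈ A₂, p) x.2.1 *
          cInd (∏ p ∈ (A \ A₁) \ A₂, p) x.2.2)) := by
    have e2 : ∀ x : ℕ × ℕ × ℕ, cOm η N x * (F x.1 x.2.1 x.2.2 * (1 - cc w x.1 x.2.1 x.2.2) *
      (if A ⊆ cB w R x then (1 : ℝ) else 0)) = ∑ A₁ ∈ A.powerset, ∑ A₂ ∈ (A \ A₁).powerset,
        cOm η N x * (F x.1 x.2.1 x.2.2 * (1 - cc w x.1 x.2.1 x.2.2) *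
        (cInd (∏ p ∈ A₁, p) x.1 * cInd (∏ p ∈ A₂, p) x.2.1 *
          cInd (∏ p ∈ (A \ A₁) \ A₂, p) x.2.2)) := by
      intro x
      by_cases hn : Nc w x.1 x.2.1 x.2.2
      · rw [cNcInd hn hA, cTri, Finset.mul_sum, Finset.mul_sum]
        refine Finset.sum_congr rfl fun A₁ h1 => ?_
        rw [Finset.mul_sum, Finset.mul_sum]
        refine Finset.sum_congr rfl fun A₂ h2 => ?_
        rw [Finset.mem_powerset] at h1 h2
        rw [cProdInd A₁ (fun p hp => hpr p (h1 hp)),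
          cProdInd A₂ (fun p hp => hpr p (Finset.mem_sdiff.1 (h2 hp)).1),
          cProdInd _ (fun p hp => hpr p (Finset.mem_sdiff.1 (Finset.mem_sdiff.1 hp).1).1)]
      · rw [cCc1 hn]
        simp
    rw [Finset.sum_congr rfl fun x _ => e2 x, Finset.sum_comm]
    refine Finset.sum_congr rfl fun A₁ _ => ?_
    rw [Finset.sum_comm]
  have e3 : (∏ p ∈ A, 3 / (p : ℝ)) = ∑ A₁ ∈ A.powerset, ∑ A₂ ∈ (A \ A₁).powerset,
      1 / (((∏ p ∈ A₁, p : ℕ) : ℝ) * ((∏ p ∈ A₂, p : ℕ) : ℝ) *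
        ((∏ p ∈ (A \ A₁) \ A₂, p : ℕ) : ℝ)) := by
    have h1 : (∏ p ∈ A, 3 / (p : ℝ)) = ∏ p ∈ A, (1 / (p : ℝ) + 1 / (p : ℝ) + 1 / (p : ℝ)) :=
      Finset.prod_congr rfl fun p _ => by ring
    rw [h1, cTri]
    refine Finset.sum_congr rfl fun A₁ _ => Finset.sum_congr rfl fun A₂ _ => ?_
    push_cast
    rw [Finset.prod_div_distrib, Finset.prod_div_distrib, Finset.prod_div_distrib]
    simp only [Finset.prod_const_one]
    rw [div_mul_div_comm, div_mul_div_comm]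
    norm_num
  rw [e1, e3, Finset.sum_mul, ← Finset.sum_sub_distrib, Finset.mul_sum]
  refine (Finset.abs_sum_le_sum_abs _ _).trans (Finset.sum_le_sum fun A₁ h1 => ?_)
  rw [Finset.sum_mul, ← Finset.sum_sub_distrib, Finset.mul_sum]
  refine (Finset.abs_sum_le_sum_abs _ _).trans (Finset.sum_le_sum fun A₂ h2 => ?_)
  rw [Finset.mem_powerset] at h1 h2
  have p1 : ∀ p ∈ A₁, p.Prime := fun p hp => hpr p (h1 hp)
  have p2 : ∀ p ∈ A₂, p.Prime := fun p hp => hpr p (Finset.mem_sdiff.1 (h2 hp)).1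
  have p3 : ∀ p ∈ (A \ A₁) \ A₂, p.Prime :=
    fun p hp => hpr p (Finset.mem_sdiff.1 (Finset.mem_sdiff.1 hp).1).1
  have d12 : Disjoint A₁ A₂ := by
    rw [Finset.disjoint_left]
    intro p hp hp2
    exact (Finset.mem_sdiff.1 (h2 hp2)).2 hp
  have d13 : Disjoint A₁ ((A \ A₁) \ A₂) := by
    rw [Finset.disjoint_left]
    intro p hp hp2
    exact (Finset.mem_sdiff.1 (Finset.mem_sdiff.1 hp2).1).2 hp
  have d23 : Disjoint A₂ ((A \ A₁) \ A₂) := by
    rw [Finset.disjoint_left]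
    intro p hp hp2
    exact (Finset.mem_sdiff.1 hp2).2 hp
  have hprod : (∏ p ∈ A₁, p) * (∏ p ∈ A₂, p) * (∏ p ∈ (A \ A₁) \ A₂, p) = ∏ p ∈ A, p := by
    rw [mul_assoc, mul_comm (∏ p ∈ A₂, p), Finset.prod_sdiff h2, mul_comm, Finset.prod_sdiff h1]
  have q1 : 0 < ∏ p ∈ A₁, p := Finset.prod_pos fun p hp => (p1 p hp).pos
  have q2 : 0 < ∏ p ∈ A₂, p := Finset.prod_pos fun p hp => (p2 p hp).pos
  have q3 : 0 < ∏ p ∈ (A \ A₁) \ A₂, p := Finset.prod_pos fun p hp => (p3 p hp).pos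
  have hR' : (∏ p ∈ A₁, p) * (∏ p ∈ A₂, p) * (∏ p ∈ (A \ A₁) \ A₂, p) ≤ R := by
    rw [hprod]
    exact hAR
  have h := cMom1 hη hd hK q1 q2 q3 hR' (hcoin _ _ _ q1 q2 q3 (cCoprime _ _ p1 p2 d12)
    (cCoprime _ _ p1 p3 d13) (cCoprime _ _ p2 p3 d23) hR')
  rw [one_div_mul_eq_div]
  exact h

theorem core {η : ℝ → ℝ} (hη : IsWt η) {N w R : ℕ} {K τ τ' V : ℝ} {F : ℕ → ℕ → ℕ → ℝ}
    (hd : Dens η N w R K τ V F) (hw : 7 ≤ w) (hR : 1 ≤ R) (hK : 0 ≤ K) (hV : 0 ≤ V) (hτ : 0 ≤ τ) (hτ' : 0 ≤ τ')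
    (hcoin : ∀ f₁ f₂ f₃ : ℕ, 0 < f₁ → 0 < f₂ → 0 < f₃ → Nat.Coprime f₁ f₂ → Nat.Coprime f₁ f₃ →
      Nat.Coprime f₂ f₃ → f₁ * f₂ * f₃ ≤ R →
      S3 η N f₁ f₂ f₃ (cc w) ≤ τ' * (Z1 η N ^ 3 / (f₁ * f₂ * f₃)))
    (C : Finset ℕ → ℝ) (hC0 : ∀ B, B ⊆ SS w R → 0 ≤ ∑ A ∈ B.powerset, C A)
    (hC1 : ∀ A, A ⊆ SS w R → R < ∏ p ∈ A, p → C A = 0) :
    C ∅ * (V * aN η N w R ^ 3 - K * τ' * Z1 η N ^ 3) ≤
      Z1 η N ^ 3 * (1 + (τ + K * τ') * QQ w R) *
        ∑ A ∈ (SS w R).powerset, (∏ p ∈ A, 3 / (p : ℝ)) * C A := by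
  classical
  set T : ℝ := ∑ x ∈ cX N, cOm η N x * (F x.1 x.2.1 x.2.2 * (1 - cc w x.1 x.2.1 x.2.2) *
    ∑ A ∈ (cB w R x).powerset, C A) with hT
  have hZ : 0 ≤ Z1 η N := Finset.sum_nonneg fun n _ => hη.nonneg _
  have hC : 0 ≤ C ∅ := by
    have := hC0 ∅ (Finset.empty_subset _)
    simpa using this
  have hccn : ∀ x : ℕ × ℕ × ℕ, 0 ≤ 1 - cc w x.1 x.2.1 x.2.2 := by
    intro x
    by_cases h : Nc w x.1 x.2.1 x.2.2
    · rw [cCc0 h]
      norm_num
    · rw [cCc1 h]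
      norm_num
  -- lower bound
  have hlow : C ∅ * (V * aN η N w R ^ 3 - K * τ' * Z1 η N ^ 3) ≤ T := by
    set at3 : ℕ × ℕ × ℕ → ℝ := fun x =>
      (if IsAt N w R x.1 then 1 else 0) * (if IsAt N w R x.2.1 then 1 else 0) *
        (if IsAt N w R x.2.2 then 1 else 0) with hat
    have hat01 : ∀ x, (at3 x = 1 ∧ IsAt N w R x.1 ∧ IsAt N w R x.2.1 ∧ IsAt N w R x.2.2) ∨
        at3 x = 0 := by
      intro x
      simp only [hat]
      by_cases h1 : IsAt N w R x.1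
      · by_cases h2 : IsAt N w R x.2.1
        · by_cases h3 : IsAt N w R x.2.2
          · left
            rw [if_pos h1, if_pos h2, if_pos h3]
            exact ⟨by norm_num, h1, h2, h3⟩
          · right
            rw [if_neg h3]
            ring
        · right
          rw [if_neg h2]
          ring
      · right
        rw [if_neg h1]
        ring
    have ha : V * aN η N w R ^ 3 = ∑ x ∈ cX N, cOm η N x * (V * at3 x) := by
      have h1 : aN η N w R = ∑ r ∈ range (N + 1), η ((r : ℝ) / N) *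
          (if IsAt N w R r then 1 else 0) := by
        rw [aN, Finset.sum_filter]
        refine Finset.sum_congr rfl fun r _ => ?_
        split_ifs <;> simp
      have h2 : aN η N w R ^ 3 = ∑ x ∈ cX N, cOm η N x * at3 x := by
        rw [cX, Finset.sum_product]
        simp_rw [Finset.sum_product]
        have h3 : aN η N w R ^ 3 = aN η N w R * (aN η N w R * aN η N w R) := by ring
        rw [h3, h1, Finset.sum_mul_sum, Finset.sum_mul_sum]
        refine Finset.sum_congr rfl fun r₁ _ => ?_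
        rw [← Finset.mul_sum, Finset.mul_sum]
        refine Finset.sum_congr rfl fun r₂ _ => ?_
        rw [Finset.mul_sum]
        refine Finset.sum_congr rfl fun r₃ _ => ?_
        simp only [cOm, hat]
        ring
      rw [h2, Finset.mul_sum]
      exact Finset.sum_congr rfl fun x _ => by ring
    have hS : S3 η N 1 1 1 (cc w) ≤ τ' * Z1 η N ^ 3 := by
      have := hcoin 1 1 1 one_pos one_pos one_pos (Nat.coprime_one_left 1)
        (Nat.coprime_one_left 1) (Nat.coprime_one_left 1) (by omega)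
      simpa using this
    have hcs : S3 η N 1 1 1 (cc w) = ∑ x ∈ cX N, cOm η N x * cc w x.1 x.2.1 x.2.2 := by
      rw [cS3]
      refine Finset.sum_congr rfl fun x _ => ?_
      simp [cInd]
    have h1 : V * aN η N w R ^ 3 - K * τ' * Z1 η N ^ 3 ≤
        ∑ x ∈ cX N, cOm η N x * (F x.1 x.2.1 x.2.2 * (1 - cc w x.1 x.2.1 x.2.2) * at3 x) := by
      have h2 := cMono hη N (fun x => V * at3 x - K * cc w x.1 x.2.1 x.2.2)
        (fun x => F x.1 x.2.1 x.2.2 * (1 - cc w x.1 x.2.1 x.2.2) * at3 x) (by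
          intro x p1 q1 p2 q2 p3 q3
          rcases hat01 x with ⟨h3, a1, a2, a3⟩ | h3
          · rw [h3]
            have h4 := hd.atom _ _ _ a1 a2 a3
            have h5 := hd.le x.1 x.2.1 x.2.2 p1 q1 p2 q2 p3 q3
            by_cases hn : Nc w x.1 x.2.1 x.2.2
            · rw [cCc0 hn]
              linarith
            · rw [cCc1 hn]
              linarith
          · rw [h3]
            have h4 : 0 ≤ cc w x.1 x.2.1 x.2.2 := by
              by_cases h : Nc w x.1 x.2.1 x.2.2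
              · rw [cCc0 h]
              · rw [cCc1 h]
                norm_num
            have h5 := mul_nonneg hK h4
            linarith)
      refine le_trans ?_ h2
      simp_rw [mul_sub]
      rw [Finset.sum_sub_distrib, ← ha]
      have h3 : ∑ x ∈ cX N, cOm η N x * (K * cc w x.1 x.2.1 x.2.2) ≤ K * τ' * Z1 η N ^ 3 := by
        have h4 : ∑ x ∈ cX N, cOm η N x * (K * cc w x.1 x.2.1 x.2.2) =
            K * S3 η N 1 1 1 (cc w) := by
          rw [hcs, Finset.mul_sum]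
          exact Finset.sum_congr rfl fun x _ => by ring
        rw [h4]
        have := mul_le_mul_of_nonneg_left hS hK
        linarith
      linarith
    refine (mul_le_mul_of_nonneg_left h1 hC).trans ?_
    have h2 := cMono hη N (fun x => C ∅ * (F x.1 x.2.1 x.2.2 * (1 - cc w x.1 x.2.1 x.2.2) * at3 x))
      (fun x => F x.1 x.2.1 x.2.2 * (1 - cc w x.1 x.2.1 x.2.2) *
        ∑ A ∈ (cB w R x).powerset, C A) (by
          intro x p1 q1 p2 q2 p3 q3
          have hF := hd.nonneg x.1 x.2.1 x.2.2 p1 q1 p2 q2 p3 q3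
          rcases hat01 x with ⟨h3, a1, a2, a3⟩ | h3
          · have hB : cB w R x = ∅ := by
              rw [Finset.eq_empty_iff_forall_notMem]
              intro p hp
              rw [cB, Finset.mem_filter] at hp
              obtain ⟨hpp, hwp, hpR⟩ := cSS hp.1
              rcases hp.2 with h | h | h
              · have := a1.2.2.2 p hpp h
                omega
              · have := a2.2.2.2 p hpp h
                omega
              · have := a3.2.2.2 p hpp h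
                omega
            rw [hB, h3]
            simp only [Finset.powerset_empty, Finset.sum_singleton]
            linarith
          · rw [h3]
            have h5 := mul_nonneg (mul_nonneg hF (hccn x)) (hC0 (cB w R x) (Finset.filter_subset _ _))
            linarith)
    refine le_trans (le_of_eq ?_) h2
    rw [Finset.mul_sum]
    exact Finset.sum_congr rfl fun x _ => by ring
  -- upper bound
  have hTm : T = ∑ A ∈ (SS w R).powerset, C A * ∑ x ∈ cX N, cOm η N x *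
      (F x.1 x.2.1 x.2.2 * (1 - cc w x.1 x.2.1 x.2.2) *
        (if A ⊆ cB w R x then (1 : ℝ) else 0)) := by
    have h1 : ∀ x : ℕ × ℕ × ℕ, ∑ A ∈ (cB w R x).powerset, C A =
        ∑ A ∈ (SS w R).powerset, C A * (if A ⊆ cB w R x then (1 : ℝ) else 0) := by
      intro x
      have h2 : (cB w R x).powerset = (SS w R).powerset.filter (fun A => A ⊆ cB w R x) := by
        ext A
        rw [Finset.mem_filter, Finset.mem_powerset, Finset.mem_powerset]
        exact ⟨fun h => ⟨h.trans (Finset.filter_subset _ _), h⟩, fun h => h.2⟩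
      rw [h2, Finset.sum_filter]
      refine Finset.sum_congr rfl fun A _ => ?_
      split_ifs <;> simp
    rw [hT]
    simp_rw [h1, Finset.mul_sum]
    rw [Finset.sum_comm]
    refine Finset.sum_congr rfl fun A _ => Finset.sum_congr rfl fun x _ => ?_
    ring
  have hg : ∀ p ∈ SS w R, (0 : ℝ) < 3 / (p : ℝ) ∧ 3 / (p : ℝ) < 1 := by
    intro p hp
    obtain ⟨-, hwp, -⟩ := cSS hp
    have h1 : (7 : ℝ) < p := by
      have : 7 < p := by omega
      exact_mod_cast this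
    constructor
    · positivity
    · rw [div_lt_one (by linarith)]
      linarith
  have hap := apriori (SS w R) (fun p => 3 / (p : ℝ)) hg C hC0
  have hup : T ≤ Z1 η N ^ 3 * (1 + (τ + K * τ') * QQ w R) *
        ∑ A ∈ (SS w R).powerset, (∏ p ∈ A, 3 / (p : ℝ)) * C A := by
    have hterm : ∀ A ∈ (SS w R).powerset, C A * ∑ x ∈ cX N, cOm η N x *
      (F x.1 x.2.1 x.2.2 * (1 - cc w x.1 x.2.1 x.2.2) *
        (if A ⊆ cB w R x then (1 : ℝ) else 0)) ≤
        Z1 η N ^ 3 * ((∏ p ∈ A, 3 / (p : ℝ)) * C A) +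
          (τ + K * τ') * Z1 η N ^ 3 * ((∏ p ∈ A, 3 / (p : ℝ)) * |C A|) := by
      intro A hA
      rw [Finset.mem_powerset] at hA
      by_cases hAR : ∏ p ∈ A, p ≤ R
      · have h1 := cMomA hη hd hK hcoin A hA hAR
        set m : ℝ := ∑ x ∈ cX N, cOm η N x *
          (F x.1 x.2.1 x.2.2 * (1 - cc w x.1 x.2.1 x.2.2) *
          (if A ⊆ cB w R x then (1 : ℝ) else 0)) with hm
        set P : ℝ := ∏ p ∈ A, 3 / (p : ℝ) with hP
        have h2 : C A * m = C A * (P * Z1 η N ^ 3) + C A * (m - P * Z1 η N ^ 3) := by ring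
        have h3 : C A * (m - P * Z1 η N ^ 3) ≤
            |C A| * ((τ + K * τ') * (P * Z1 η N ^ 3)) := by
          refine (le_abs_self _).trans ?_
          rw [abs_mul]
          exact mul_le_mul_of_nonneg_left h1 (abs_nonneg _)
        rw [h2]
        linarith
      · rw [hC1 A hA (by omega)]
        simp
    rw [hTm]
    refine (Finset.sum_le_sum hterm).trans ?_
    rw [Finset.sum_add_distrib, ← Finset.mul_sum, ← Finset.mul_sum]
    have h1 : 0 ≤ (τ + K * τ') * Z1 η N ^ 3 := by positivity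
    have h2 := mul_le_mul_of_nonneg_left hap h1
    have h3 : (∏ p ∈ SS w R, ((1 + 3 / (p : ℝ)) / (1 - 3 / (p : ℝ)))) = QQ w R := rfl
    rw [h3] at h2
    refine (add_le_add_right h2 _).trans (le_of_eq ?_)
    ring
  exact hlow.trans hup

end Pool.Agent.SVB
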