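import Mathlib
import Pool.Agent.SVB.Defs

set_option autoImplicit false

/-!
# Project SVB: FFb

XX N r <= 2 for 0 < r <= N (three distinct primes with p^3 > N would give r > N). hh in {-1, 1/l-1, 2/l-1}, |hh| <= 2/l-1 <= 3,
kap (2/l-1)^3 = 1, so |kap hh hh hh| <= 1. (1-sg) in {0,2}. Atom: XX = 0, hh = -1, sg = -1.
-/

namespace Pool.Agent.SVB

open Finset Filter Topology
open Pool.Agent.MT (IsWt Z1)

theorem FFb_XX_le {N r : ℕ} (hr : 0 < r) (hr' : r ≤ N) : XX N r ≤ 2 := by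
  unfold XX
  by_contra hcon
  push Not at hcon
  obtain ⟨a, ha, b, hb, c, hc, hab, hac, hbc⟩ := Finset.two_lt_card.mp hcon
  simp only [II, mem_filter] at ha hb hc
  obtain ⟨⟨_, hpa, ha3, _⟩, hda⟩ := ha
  obtain ⟨⟨_, hpb, hb3, _⟩, hdb⟩ := hb
  obtain ⟨⟨_, hpc, hc3, _⟩, hdc⟩ := hc
  have cab : Nat.Coprime a b := (Nat.coprime_primes hpa hpb).mpr hab
  have cac : Nat.Coprime a c := (Nat.coprime_primes hpa hpc).mpr hac
  have cbc : Nat.Coprime b c := (Nat.coprime_primes hpb hpc).mpr hbc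
  have h1 : a * b ∣ r := Nat.Coprime.mul_dvd_of_dvd_of_dvd cab hda hdb
  have h2 : a * b * c ∣ r :=
    Nat.Coprime.mul_dvd_of_dvd_of_dvd (Nat.Coprime.mul_left cac cbc) h1 hdc
  have h3 : a * b * c ≤ N := (Nat.le_of_dvd hr h2).trans hr'
  have h4 : (a * b * c) ^ 3 ≤ N ^ 3 := Nat.pow_le_pow_left h3 3
  have hN : 0 < N := lt_of_lt_of_le hr hr'
  have h5 : N * N < a ^ 3 * b ^ 3 := Nat.mul_lt_mul'' ha3 hb3
  have h6 : N * N * N < a ^ 3 * b ^ 3 * c ^ 3 := Nat.mul_lt_mul'' h5 hc3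
  have h7 : (a * b * c) ^ 3 = a ^ 3 * b ^ 3 * c ^ 3 := by ring
  have h8 : N ^ 3 = N * N * N := by ring
  omega

theorem FFb_hh_le {N r : ℕ} (h1 : 1 / 2 ≤ ell N) (h2 : ell N ≤ 1) (hr : 0 < r) (hr' : r ≤ N) :
    |hh N r| ≤ (2 - ell N) / ell N := by
  have hl : 0 < ell N := by linarith
  have hX : (XX N r : ℝ) ≤ 2 := by exact_mod_cast FFb_XX_le hr hr'
  have hX0 : (0 : ℝ) ≤ XX N r := Nat.cast_nonneg _
  unfold hh
  rw [abs_le]
  have e : (XX N r : ℝ) / ell N - 1 = (XX N r - ell N) / ell N := by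
    field_simp
  rw [e, ← neg_div]
  constructor
  · apply div_le_div_of_nonneg_right _ hl.le
    linarith
  · apply div_le_div_of_nonneg_right _ hl.le
    linarith

theorem FFb_sg (w r : ℕ) : sg w r = 1 ∨ sg w r = -1 := by
  unfold sg
  exact neg_one_pow_eq_or ℝ _

theorem FF_nonneg {N w r₁ r₂ r₃ : ℕ} (h1 : 1 / 2 ≤ ell N) (h2 : ell N ≤ 1) (hr₁ : 0 < r₁)
    (hr₁' : r₁ ≤ N) (hr₂ : 0 < r₂) (hr₂' : r₂ ≤ N) (hr₃ : 0 < r₃) (hr₃' : r₃ ≤ N) :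
    0 ≤ FF N w r₁ r₂ r₃ ∧ FF N w r₁ r₂ r₃ ≤ 16 := by
  have hl : 0 < ell N := by linarith
  have hl2 : 0 < 2 - ell N := by linarith
  have a1 := FFb_hh_le h1 h2 hr₁ hr₁'
  have a2 := FFb_hh_le h1 h2 hr₂ hr₂'
  have a3 := FFb_hh_le h1 h2 hr₃ hr₃'
  set c : ℝ := (2 - ell N) / ell N with hc
  have hc0 : 0 < c := div_pos hl2 hl
  have hk : kap N * (c * c * c) = 1 := by
    unfold kap
    rw [hc]
    field_simp
  have hk0 : 0 ≤ kap N := by
    unfold kap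
    positivity
  have hA : |hh N r₁ * hh N r₂ * hh N r₃| ≤ c * c * c := by
    rw [abs_mul, abs_mul]
    have b1 : |hh N r₁| * |hh N r₂| ≤ c * c :=
      mul_le_mul a1 a2 (abs_nonneg _) hc0.le
    exact mul_le_mul b1 a3 (abs_nonneg _) (by positivity)
  have hB : |kap N * (hh N r₁ * hh N r₂ * hh N r₃)| ≤ 1 := by
    rw [abs_mul, abs_of_nonneg hk0]
    calc kap N * |hh N r₁ * hh N r₂ * hh N r₃| ≤ kap N * (c * c * c) :=
          mul_le_mul_of_nonneg_left hA hk0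
      _ = 1 := hk
  rw [abs_le] at hB
  obtain ⟨hB1, hB2⟩ := hB
  unfold FF
  set t : ℝ := kap N * (hh N r₁ * hh N r₂ * hh N r₃) with ht
  rcases FFb_sg w r₁ with e1 | e1 <;> rcases FFb_sg w r₂ with e2 | e2 <;>
    rcases FFb_sg w r₃ with e3 | e3 <;> rw [e1, e2, e3] <;> constructor <;> nlinarith

theorem hh_abs {N r : ℕ} (h1 : 1 / 2 ≤ ell N) (h2 : ell N ≤ 1) (hr : 0 < r) (hr' : r ≤ N) :
    |hh N r| ≤ 3 := by
  have hl : 0 < ell N := by linarith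
  refine (FFb_hh_le h1 h2 hr hr').trans ?_
  rw [div_le_iff₀ hl]
  linarith

theorem FFb_atom_hh {N w R r : ℕ} (h : ∀ p ∈ II N, w < p ∧ p ≤ R) (h₁ : IsAt N w R r) :
    hh N r = -1 := by
  have : XX N r = 0 := by
    unfold XX
    rw [Finset.card_eq_zero, Finset.filter_eq_empty_iff]
    intro p hp hd
    obtain ⟨a, b⟩ := h p hp
    have hpp : p.Prime := by
      simp only [II, mem_filter] at hp
      exact hp.2.1
    rcases h₁.2.2.2 p hpp hd with c | c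
    · omega
    · omega
  unfold hh
  rw [this]
  simp

theorem FF_atom {N w R r₁ r₂ r₃ : ℕ} (h : ∀ p ∈ II N, w < p ∧ p ≤ R) (h₁ : IsAt N w R r₁)
    (h₂ : IsAt N w R r₂) (h₃ : IsAt N w R r₃) : FF N w r₁ r₂ r₃ = 8 * (1 + kap N) := by
  unfold FF
  rw [h₁.2.2.1, h₂.2.2.1, h₃.2.2.1, FFb_atom_hh h h₁, FFb_atom_hh h h₂, FFb_atom_hh h h₃]
  ring

end Pool.Agent.SVB
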