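import Mathlib
import Pool.Agent.SVB.Defs
import Pool.Agent.PC.PNTAP

set_option autoImplicit false

/-!
# Project SVB: Ell

Sum of 1/p over N^(1/3) < p <= N^(2/3) tends to log 2. PNT: Pool.Agent.PC.PNT.th_tendsto 1 0 and
discrete Abel summation against g n = 1 / (n log n), whose sums are compared with log log.
-/

namespace Pool.Agent.SVB

open Finset Filter Topology
open Pool.Agent.MT (IsWt Z1)

namespace EllAux

noncomputable def g (n : ℕ) : ℝ := 1 / (n * Real.log n)

theorem g_nonneg (n : ℕ) : 0 ≤ g n := by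
  unfold g
  have : 0 ≤ Real.log (n : ℝ) := Real.log_natCast_nonneg n
  positivity

theorem g_anti {n : ℕ} (hn : 2 ≤ n) : g (n + 1) ≤ g n := by
  unfold g
  have h1 : (2 : ℝ) ≤ n := by exact_mod_cast hn
  have h2 : 0 < Real.log (n : ℝ) := Real.log_pos (by linarith)
  have h3 : Real.log (n : ℝ) ≤ Real.log ((n + 1 : ℕ) : ℝ) :=
    Real.log_le_log (by linarith) (by push_cast; linarith)
  apply one_div_le_one_div_of_le (by positivity)
  push_cast at h3 ⊢
  have : (n : ℝ) ≤ n + 1 := by linarith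
  gcongr

theorem abel (c : ℕ → ℝ) (A B : ℕ) (h : A ≤ B) :
    ∑ k ∈ Ioc A B, c k * g k =
      (∑ k ∈ range (B + 1), c k) * g B - (∑ k ∈ range (A + 1), c k) * g A
      + ∑ k ∈ Ico A B, (∑ j ∈ range (k + 1), c j) * (g k - g (k + 1)) := by
  induction B, h using Nat.le_induction with
  | base => simp
  | succ B hB ih =>
    rw [sum_Ioc_succ_top (by omega), ih, sum_Ico_succ_top hB, sum_range_succ c (B + 1)]
    ring

theorem abel_bound (c : ℕ → ℝ) (A B : ℕ) (h : A ≤ B) (hA : 2 ≤ A) (ε : ℝ)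
    (hE : ∀ n : ℕ, A ≤ n → |∑ k ∈ range n, c k| ≤ ε * n) :
    |∑ k ∈ Ioc A B, c k * g k| ≤ ε * (2 * ((A + 1 : ℕ) : ℝ) * g A + ∑ k ∈ Ioc A B, g k) := by
  have h1 := abel (fun _ => (1 : ℝ)) A B h
  simp only [one_mul, sum_const, card_range, nsmul_eq_mul, mul_one] at h1
  rw [abel c A B h]
  have h2 : |(∑ k ∈ range (B + 1), c k) * g B| ≤ ε * ((B + 1 : ℕ) : ℝ) * g B := by
    rw [abs_mul, abs_of_nonneg (g_nonneg B)]
    exact mul_le_mul_of_nonneg_right (hE _ (by omega)) (g_nonneg B)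
  have h3 : |(∑ k ∈ range (A + 1), c k) * g A| ≤ ε * ((A + 1 : ℕ) : ℝ) * g A := by
    rw [abs_mul, abs_of_nonneg (g_nonneg A)]
    exact mul_le_mul_of_nonneg_right (hE _ (by omega)) (g_nonneg A)
  have h4 : |∑ k ∈ Ico A B, (∑ j ∈ range (k + 1), c j) * (g k - g (k + 1))| ≤
      ∑ k ∈ Ico A B, ε * ((k + 1 : ℕ) : ℝ) * (g k - g (k + 1)) := by
    refine (abs_sum_le_sum_abs _ _).trans (sum_le_sum fun k hk => ?_)
    have hk' := mem_Ico.1 hk
    have hg : 0 ≤ g k - g (k + 1) := sub_nonneg.2 (g_anti (by omega))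
    rw [abs_mul, abs_of_nonneg hg]
    exact mul_le_mul_of_nonneg_right (hE _ (by omega)) hg
  have h5 : ∑ k ∈ Ico A B, ε * ((k + 1 : ℕ) : ℝ) * (g k - g (k + 1)) =
      ε * ∑ k ∈ Ico A B, ((k + 1 : ℕ) : ℝ) * (g k - g (k + 1)) := by
    rw [mul_sum]
    refine sum_congr rfl fun k _ => by ring
  have h6 : |(∑ k ∈ range (B + 1), c k) * g B - (∑ k ∈ range (A + 1), c k) * g A
      + ∑ k ∈ Ico A B, (∑ j ∈ range (k + 1), c j) * (g k - g (k + 1))| ≤
      |(∑ k ∈ range (B + 1), c k) * g B| + |(∑ k ∈ range (A + 1), c k) * g A|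
      + |∑ k ∈ Ico A B, (∑ j ∈ range (k + 1), c j) * (g k - g (k + 1))| :=
    (abs_add_le _ _).trans (add_le_add_left (abs_sub _ _) _)
  refine h6.trans ?_
  have h7 : ε * ((B + 1 : ℕ) : ℝ) * g B + ε * ((A + 1 : ℕ) : ℝ) * g A
      + ε * ∑ k ∈ Ico A B, ((k + 1 : ℕ) : ℝ) * (g k - g (k + 1)) =
      ε * (2 * ((A + 1 : ℕ) : ℝ) * g A + ∑ k ∈ Ioc A B, g k) := by
    rw [h1]; ring
  rw [← h7, ← h5]
  linarith

/-- Mean value estimates for `log log`. -/
theorem loglog_le {x y : ℝ} (hx : 1 < x) (hxy : x ≤ y) :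
    Real.log (Real.log y) - Real.log (Real.log x) ≤ (y - x) / (x * Real.log x) := by
  have hlx : 0 < Real.log x := Real.log_pos hx
  have hly : 0 < Real.log y := Real.log_pos (by linarith)
  have hx0 : 0 < x := by linarith
  have h1 : Real.log y - Real.log x ≤ (y - x) / x := by
    rw [← Real.log_div (by linarith) (by linarith)]
    refine (Real.log_le_sub_one_of_pos (div_pos (by linarith) (by linarith))).trans (le_of_eq ?_)
    field_simp
  rw [← Real.log_div hly.ne' hlx.ne']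
  refine (Real.log_le_sub_one_of_pos (div_pos hly hlx)).trans ?_
  have h2 : Real.log y / Real.log x - 1 = (Real.log y - Real.log x) / Real.log x := by
    field_simp
  rw [h2, ← div_div]
  exact div_le_div_of_nonneg_right h1 hlx.le

theorem le_loglog {x y : ℝ} (hx : 1 < x) (hxy : x ≤ y) :
    (y - x) / (y * Real.log y) ≤ Real.log (Real.log y) - Real.log (Real.log x) := by
  have hlx : 0 < Real.log x := Real.log_pos hx
  have hly : 0 < Real.log y := Real.log_pos (by linarith)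
  have hx0 : 0 < x := by linarith
  have hy0 : 0 < y := by linarith
  have h1 : Real.log x - Real.log y ≤ (x - y) / y := by
    rw [← Real.log_div (by linarith) (by linarith)]
    refine (Real.log_le_sub_one_of_pos (div_pos (by linarith) (by linarith))).trans (le_of_eq ?_)
    field_simp
  have h0 : Real.log (Real.log x) - Real.log (Real.log y) ≤ (x - y) / (y * Real.log y) := by
    rw [← Real.log_div hlx.ne' hly.ne']
    refine (Real.log_le_sub_one_of_pos (div_pos hlx hly)).trans ?_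
    have h2 : Real.log x / Real.log y - 1 = (Real.log x - Real.log y) / Real.log y := by
      field_simp
    rw [h2, ← div_div]
    exact div_le_div_of_nonneg_right h1 hly.le
  have h3 : (x - y) / (y * Real.log y) = - ((y - x) / (y * Real.log y)) := by ring
  linarith

theorem sum_g_le {A B : ℕ} (hA : 2 ≤ A) (h : A ≤ B) :
    ∑ k ∈ Ioc A B, g k ≤ Real.log (Real.log B) - Real.log (Real.log A) := by
  induction B, h using Nat.le_induction with
  | base => simp
  | succ B hB ih =>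
    rw [sum_Ioc_succ_top (by omega)]
    have h1 : (1 : ℝ) < B := by exact_mod_cast (by omega : 1 < B)
    have := le_loglog (x := (B : ℝ)) (y := ((B + 1 : ℕ) : ℝ)) h1 (by push_cast; linarith)
    have h2 : (((B + 1 : ℕ) : ℝ) - B) / (((B + 1 : ℕ) : ℝ) * Real.log ((B + 1 : ℕ) : ℝ)) =
      g (B + 1) := by unfold g; push_cast; ring
    rw [h2] at this
    linarith

theorem le_sum_g {A B : ℕ} (hA : 2 ≤ A) (h : A ≤ B) :
    Real.log (Real.log ((B + 1 : ℕ) : ℝ)) - Real.log (Real.log ((A + 1 : ℕ) : ℝ)) ≤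
      ∑ k ∈ Ioc A B, g k := by
  induction B, h using Nat.le_induction with
  | base => simp
  | succ B hB ih =>
    rw [sum_Ioc_succ_top (by omega)]
    have h1 : (1 : ℝ) < ((B + 1 : ℕ) : ℝ) := by exact_mod_cast (by omega : 1 < B + 1)
    have := loglog_le (x := ((B + 1 : ℕ) : ℝ)) (y := ((B + 1 + 1 : ℕ) : ℝ)) h1
      (by push_cast; linarith)
    have h2 : (((B + 1 + 1 : ℕ) : ℝ) - ((B + 1 : ℕ) : ℝ)) /
        (((B + 1 : ℕ) : ℝ) * Real.log ((B + 1 : ℕ) : ℝ)) =
      g (B + 1) := by unfold g; push_cast; ring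
    rw [h2] at this
    linarith

/-- The weights. -/
noncomputable def u (n : ℕ) : ℝ := if n.Prime then Real.log n else 0

theorem th_eq (n : ℕ) : Pool.Agent.PC.PNT.th 1 0 n = ∑ k ∈ range n, u k := by
  unfold Pool.Agent.PC.PNT.th u
  rw [← sum_filter]
  refine sum_congr ?_ fun _ _ => rfl
  ext p
  simp [Nat.mod_one]

theorem E_small (ε : ℝ) (hε : 0 < ε) :
    ∀ᶠ n : ℕ in atTop, |∑ k ∈ range n, (u k - 1)| ≤ ε * n := by
  have h := Pool.Agent.PC.PNT.th_tendsto 1 0 one_pos (Nat.coprime_one_right 0)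
  rw [Nat.totient_one, Nat.cast_one, div_one] at h
  have h2 := (Metric.tendsto_nhds.1 h) ε hε
  filter_upwards [h2, eventually_gt_atTop 0] with n hn hn0
  have hn0' : (0 : ℝ) < n := by exact_mod_cast hn0
  rw [Real.dist_eq, th_eq] at hn
  have h3 : ∑ k ∈ range n, (u k - 1) = ((∑ k ∈ range n, u k) / n - 1) * n := by
    rw [sum_sub_distrib]
    simp only [sum_const, card_range, nsmul_eq_mul, mul_one]
    field_simp
  rw [h3, abs_mul, abs_of_pos hn0']
  exact mul_le_mul_of_nonneg_right hn.le hn0'.le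

/-- The cube root. -/
noncomputable def cr (N : ℕ) : ℝ := (N : ℝ) ^ (1 / 3 : ℝ)

theorem cr_nonneg (N : ℕ) : 0 ≤ cr N := Real.rpow_nonneg (Nat.cast_nonneg _) _

theorem cr_pow (N : ℕ) : cr N ^ 3 = N := by
  unfold cr
  rw [← Real.rpow_natCast, ← Real.rpow_mul (Nat.cast_nonneg _)]
  norm_num

theorem cr_tendsto : Tendsto cr atTop atTop :=
  (tendsto_rpow_atTop (by norm_num : (0 : ℝ) < 1 / 3)).comp tendsto_natCast_atTop_atTop

theorem ell_eq (N : ℕ) (hN : 1 ≤ N) :
    ell N = ∑ k ∈ Ioc ⌊cr N⌋₊ ⌊cr N ^ 2⌋₊, u k * g k := by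
  have hc := cr_nonneg N
  have h0 : ell N = ∑ k ∈ (Ioc ⌊cr N⌋₊ ⌊cr N ^ 2⌋₊).filter Nat.Prime, 1 / (k : ℝ) := by
    unfold ell
    refine sum_congr ?_ fun _ _ => rfl
    ext p
    unfold II
    simp only [mem_filter, mem_range, mem_Ioc]
    have h1 : N < p ^ 3 ↔ ⌊cr N⌋₊ < p := by
      rw [Nat.floor_lt hc, ← pow_lt_pow_iff_left₀ hc (Nat.cast_nonneg p) (three_ne_zero), cr_pow]
      exact_mod_cast Iff.rfl
    have h2 : p ^ 3 ≤ N ^ 2 ↔ p ≤ ⌊cr N ^ 2⌋₊ := by
      rw [Nat.le_floor_iff (by positivity),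
        ← pow_le_pow_iff_left₀ (Nat.cast_nonneg p) (by positivity : 0 ≤ cr N ^ 2) (three_ne_zero),
        ← pow_mul, mul_comm 2 3, pow_mul, cr_pow]
      exact_mod_cast Iff.rfl
    constructor
    · rintro ⟨_, hp, ha, hb⟩
      exact ⟨⟨h1.1 ha, h2.1 hb⟩, hp⟩
    · rintro ⟨⟨ha, hb⟩, hp⟩
      have hb' := h2.2 hb
      refine ⟨?_, hp, h1.2 ha, hb'⟩
      by_contra hcon
      have h3 : N ≤ p := by omega
      have h4 : N ^ 2 * N ≤ p ^ 3 := by
        calc N ^ 2 * N = N ^ 3 := by ring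
          _ ≤ p ^ 3 := Nat.pow_le_pow_left h3 3
      have h5 : N + 1 ≤ p := by omega
      have h6 : (N + 1) ^ 3 ≤ p ^ 3 := Nat.pow_le_pow_left h5 3
      have h7 : N ^ 2 < (N + 1) ^ 3 := by nlinarith
      omega
  rw [h0, sum_filter]
  refine sum_congr rfl fun k hk => ?_
  unfold u g
  split_ifs with hp
  · have h1 : (1 : ℝ) < k := by exact_mod_cast hp.one_lt
    have h2 : 0 < Real.log (k : ℝ) := Real.log_pos h1
    have h3 : (0 : ℝ) < k := by linarith
    field_simp
  · simp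

theorem aux_tendsto (s : ℝ) :
    Tendsto (fun x : ℝ => Real.log (2 * x) - Real.log (x + s)) atTop (𝓝 (Real.log 2)) := by
  have h1 : Tendsto (fun x : ℝ => s / x) atTop (𝓝 0) := tendsto_const_nhds.div_atTop tendsto_id
  have h2 : Tendsto (fun x : ℝ => Real.log 2 - Real.log (1 + s / x)) atTop
      (𝓝 (Real.log 2 - Real.log (1 + 0))) := by
    refine tendsto_const_nhds.sub ?_
    refine (Real.continuousAt_log (by norm_num)).tendsto.comp ?_
    exact tendsto_const_nhds.add h1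
  rw [add_zero, Real.log_one, sub_zero] at h2
  refine h2.congr' ?_
  filter_upwards [eventually_gt_atTop 0, eventually_gt_atTop (-s)] with x hx hxs
  have h3 : 1 + s / x = (x + s) / x := by field_simp
  rw [h3, Real.log_mul (by norm_num) hx.ne', Real.log_div (by linarith) hx.ne']
  ring

theorem sum_g_tendsto :
    Tendsto (fun N : ℕ => ∑ k ∈ Ioc ⌊cr N⌋₊ ⌊cr N ^ 2⌋₊, g k) atTop (𝓝 (Real.log 2)) := by
  have hlog : Tendsto (fun N : ℕ => Real.log (cr N)) atTop atTop :=
    Real.tendsto_log_atTop.comp cr_tendsto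
  have hlo := (aux_tendsto (Real.log 2)).comp hlog
  have hup := (aux_tendsto (-Real.log 2)).comp hlog
  refine tendsto_of_tendsto_of_tendsto_of_le_of_le' hlo hup ?_ ?_
  · filter_upwards [cr_tendsto.eventually_ge_atTop 4] with N hN
    simp only [Function.comp]
    set x := cr N with hx
    have hA : 2 ≤ ⌊x⌋₊ := Nat.le_floor (by push_cast; linarith)
    have hAB : ⌊x⌋₊ ≤ ⌊x ^ 2⌋₊ := Nat.floor_le_floor (by nlinarith)
    refine le_trans ?_ (le_sum_g hA hAB)
    have h1 : x ^ 2 ≤ ((⌊x ^ 2⌋₊ + 1 : ℕ) : ℝ) := by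
      push_cast; exact (Nat.lt_floor_add_one (x ^ 2)).le
    have h2 : ((⌊x⌋₊ + 1 : ℕ) : ℝ) ≤ 2 * x := by
      push_cast
      have := Nat.floor_le (show (0 : ℝ) ≤ x by linarith)
      linarith
    have hA' : (2 : ℝ) ≤ (⌊x⌋₊ : ℝ) := by exact_mod_cast hA
    have h3 : Real.log (2 * Real.log x) ≤
        Real.log (Real.log ((⌊x ^ 2⌋₊ + 1 : ℕ) : ℝ)) := by
      apply Real.log_le_log
      · have : 0 < Real.log x := Real.log_pos (by linarith)
        positivity
      · have := Real.log_le_log (by positivity) h1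
        rw [Real.log_pow] at this
        exact_mod_cast this
    have h4 : Real.log (Real.log ((⌊x⌋₊ + 1 : ℕ) : ℝ)) ≤ Real.log (Real.log x + Real.log 2) := by
      apply Real.log_le_log
      · apply Real.log_pos
        push_cast
        linarith
      · have := Real.log_le_log (by positivity) h2
        rw [Real.log_mul (by norm_num) (by linarith)] at this
        linarith
    linarith
  · filter_upwards [cr_tendsto.eventually_ge_atTop 4] with N hN
    simp only [Function.comp]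
    set x := cr N with hx
    have hA : 2 ≤ ⌊x⌋₊ := Nat.le_floor (by push_cast; linarith)
    have hAB : ⌊x⌋₊ ≤ ⌊x ^ 2⌋₊ := Nat.floor_le_floor (by nlinarith)
    refine (sum_g_le hA hAB).trans ?_
    have h1 : ((⌊x ^ 2⌋₊ : ℕ) : ℝ) ≤ x ^ 2 := Nat.floor_le (by positivity)
    have h2 : x / 2 ≤ ((⌊x⌋₊ : ℕ) : ℝ) := by
      have := Nat.lt_floor_add_one x
      linarith
    have hA' : (2 : ℝ) ≤ (⌊x⌋₊ : ℝ) := by exact_mod_cast hA
    have hB' : (2 : ℝ) ≤ (⌊x ^ 2⌋₊ : ℝ) := by exact_mod_cast (hA.trans hAB)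
    have h3 : Real.log (Real.log (⌊x ^ 2⌋₊ : ℝ)) ≤ Real.log (2 * Real.log x) := by
      apply Real.log_le_log
      · exact Real.log_pos (by linarith)
      · have := Real.log_le_log (by linarith) h1
        rw [Real.log_pow] at this
        exact_mod_cast this
    have h4 : Real.log (Real.log x + -Real.log 2) ≤ Real.log (Real.log (⌊x⌋₊ : ℝ)) := by
      have h5 : Real.log x + -Real.log 2 = Real.log (x / 2) := by
        rw [Real.log_div (by linarith) (by norm_num)]; ring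
      rw [h5]
      apply Real.log_le_log
      · exact Real.log_pos (by linarith)
      · exact Real.log_le_log (by linarith) h2
    linarith

end EllAux

open EllAux in
theorem ell_lim : Tendsto ell atTop (𝓝 (Real.log 2)) := by
  have h1 : Tendsto (fun N : ℕ => ∑ k ∈ Ioc ⌊cr N⌋₊ ⌊cr N ^ 2⌋₊, (u k - 1) * g k) atTop
      (𝓝 0) := by
    rw [Metric.tendsto_nhds]
    intro ε hε
    have hb : ∀ᶠ N : ℕ in atTop, ∑ k ∈ Ioc ⌊cr N⌋₊ ⌊cr N ^ 2⌋₊, g k < 2 :=
      sum_g_tendsto.eventually_lt_const (by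
        have := Real.log_two_lt_d9
        linarith)
    have hE := E_small (ε / 20) (by positivity)
    obtain ⟨n0, hn0⟩ := eventually_atTop.1 hE
    filter_upwards [hb, cr_tendsto.eventually_ge_atTop 4,
      cr_tendsto.eventually_ge_atTop (n0 : ℝ)] with N hN h4 hn
    set x := cr N with hx
    have hA : 2 ≤ ⌊x⌋₊ := Nat.le_floor (by push_cast; linarith)
    have hAn : n0 ≤ ⌊x⌋₊ := Nat.le_floor hn
    have hAB : ⌊x⌋₊ ≤ ⌊x ^ 2⌋₊ := Nat.floor_le_floor (by nlinarith)
    have := abel_bound (fun k => u k - 1) ⌊x⌋₊ ⌊x ^ 2⌋₊ hAB hA (ε / 20)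
      (fun n hn => hn0 n (hAn.trans hn))
    rw [Real.dist_eq, sub_zero]
    refine this.trans_lt ?_
    have hA' : (2 : ℝ) ≤ (⌊x⌋₊ : ℝ) := by exact_mod_cast hA
    have hlog : (1 / 2 : ℝ) ≤ Real.log (⌊x⌋₊ : ℝ) := by
      have h5 := Real.log_le_log (by norm_num) hA'
      have := Real.log_two_gt_d9
      linarith
    have h6 : 2 * ((⌊x⌋₊ + 1 : ℕ) : ℝ) * g ⌊x⌋₊ ≤ 8 := by
      unfold g
      rw [mul_one_div, div_le_iff₀ (by positivity)]
      push_cast
      nlinarith
    have : ε / 20 * (2 * ((⌊x⌋₊ + 1 : ℕ) : ℝ) * g ⌊x⌋₊ + ∑ k ∈ Ioc ⌊x⌋₊ ⌊x ^ 2⌋₊, g k) ≤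
        ε / 20 * (8 + 2) := by
      apply mul_le_mul_of_nonneg_left _ (by positivity)
      linarith
    linarith
  have h2 := h1.add sum_g_tendsto
  rw [zero_add] at h2
  refine h2.congr' ?_
  filter_upwards [eventually_ge_atTop 1] with N hN
  rw [ell_eq N hN, ← sum_add_distrib]
  refine sum_congr rfl fun k _ => by ring

end Pool.Agent.SVB
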