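import Mathlib
import Pool.Agent.SVB.LiouW
import Pool.Agent.MT.Wt

set_option autoImplicit false

/-!
# Project SVB: SOne

S1_one: f divides r iff r % f = 0, MT.Wt wt_sum_ap. S1_sg: r = f m, sg multiplicative, sum over m <= N/f of sg(m) eta(m/X), X = N/f >= N^delta real,
liou_w with A+1, B+1 (log X >= delta log N, w = ceil((log N)^B) <= (log X)^(B+1) + 2 eventually), Z1 >= N/4 (MT.Wt Z1_bounds).
-/

namespace Pool.Agent.SVB

open Finset Filter Topology
open Pool.Agent.MT (IsWt Z1)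

theorem S1_one (η : ℝ → ℝ) (hη : IsWt η) : ∃ C : ℝ, 0 < C ∧ ∀ N f : ℕ, 1 ≤ N → 1 ≤ f →
    |S1 η N f (fun _ => 1) - Z1 η N / f| ≤ C := by
  obtain ⟨C, hC, h⟩ := Pool.Agent.MT.wt_sum_ap η hη
  refine ⟨C, hC, fun N f hN hf => ?_⟩
  have h1 := h N f 0 hN hf
  have h2 : S1 η N f (fun _ => 1) =
      ∑ n ∈ (range (N + 1)).filter (fun n => n % f = 0 % f), η ((n : ℝ) / N) := by
    unfold S1
    simp only [mul_one]
    refine sum_congr ?_ fun _ _ => rfl
    ext r
    rw [mem_filter, mem_filter, Nat.zero_mod, Nat.dvd_iff_mod_eq_zero]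
  rw [h2]
  exact h1

namespace SOneAux

theorem omw_mul (w : ℕ) {a b : ℕ} (ha : a ≠ 0) (hb : b ≠ 0) :
    omw w (a * b) = omw w a + omw w b := by
  unfold omw
  rw [← List.length_append, ← List.filter_append]
  exact ((Nat.perm_primeFactorsList_mul ha hb).filter _).length_eq

theorem sg_mul (w : ℕ) {a b : ℕ} (ha : a ≠ 0) (hb : b ≠ 0) :
    sg w (a * b) = sg w a * sg w b := by
  unfold sg
  rw [omw_mul w ha hb, pow_add]

theorem abs_sg (w a : ℕ) : |sg w a| = 1 := by
  unfold sg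
  rw [abs_pow, abs_neg, abs_one, one_pow]

theorem S1_sg_eq (η : ℝ → ℝ) (hη : IsWt η) (N f w : ℕ) (hN : 1 ≤ N) (hf : 0 < f) :
    S1 η N f (sg w) = sg w f *
      ∑ m ∈ range (⌊(N : ℝ) / f⌋₊ + 1), sg w m * η ((m : ℝ) / ((N : ℝ) / f)) := by
  have hfR : (0 : ℝ) < f := by exact_mod_cast hf
  have hNR : (0 : ℝ) < N := by exact_mod_cast hN
  unfold S1
  rw [Nat.floor_div_eq_div]
  have himg : (range (N + 1)).filter (fun r => f ∣ r) =
      (range (N / f + 1)).image (fun m => f * m) := by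
    ext r
    simp only [mem_filter, mem_range, mem_image]
    constructor
    · rintro ⟨h1, m, rfl⟩
      refine ⟨m, ?_, rfl⟩
      rw [Nat.lt_succ_iff, Nat.le_div_iff_mul_le hf]
      nlinarith
    · rintro ⟨m, hm, rfl⟩
      refine ⟨?_, dvd_mul_right _ _⟩
      rw [Nat.lt_succ_iff, Nat.le_div_iff_mul_le hf] at hm
      nlinarith
  rw [himg, sum_image (by
    intro a _ b _ hab
    exact Nat.eq_of_mul_eq_mul_left hf hab), mul_sum]
  refine sum_congr rfl fun m _ => ?_
  have harg : (((f * m : ℕ) : ℝ) / N) = (m : ℝ) / ((N : ℝ) / f) := by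
    push_cast
    field_simp
  rw [harg]
  rcases Nat.eq_zero_or_pos m with hm | hm
  · subst hm
    have : η (((0 : ℕ) : ℝ) / ((N : ℝ) / f)) = 0 := by
      apply Pool.Agent.MT.wt_zero_of_small η hη
      simp
    rw [this]
    ring
  · rw [sg_mul w hf.ne' hm.ne']
    ring

end SOneAux

open SOneAux in
theorem S1_sg (η : ℝ → ℝ) (hη : IsWt η) (δ : ℝ) (hδ : 0 < δ) (A B : ℕ) : ∀ᶠ N : ℕ in atTop,
    ∀ f : ℕ, 0 < f → (f : ℝ) ≤ (N : ℝ) ^ (1 - δ) →
    |S1 η N f (sg (wN B N))| ≤ (Z1 η N / f) / Real.log N ^ A := by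
  obtain ⟨C, hC, hliou⟩ := liou_w η hη (A + 1) (B + 1)
  have hlogN : Tendsto (fun N : ℕ => Real.log (N : ℝ)) atTop atTop :=
    Real.tendsto_log_atTop.comp tendsto_natCast_atTop_atTop
  have hpow : Tendsto (fun N : ℕ => (N : ℝ) ^ δ) atTop atTop :=
    (tendsto_rpow_atTop hδ).comp tendsto_natCast_atTop_atTop
  filter_upwards [eventually_ge_atTop 16, hpow.eventually_ge_atTop 2,
    hlogN.eventually_ge_atTop 1, hlogN.eventually_ge_atTop (1 / δ ^ (B + 1)),
    hlogN.eventually_ge_atTop (4 * C / δ ^ (A + 1))] with N hN hN2 hl1 hl2 hl3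
  intro f hf hfN
  have hfR : (0 : ℝ) < f := by exact_mod_cast hf
  have hNR : (0 : ℝ) < N := by exact_mod_cast (by omega : 0 < N)
  set X : ℝ := (N : ℝ) / f with hX
  set L : ℝ := Real.log (N : ℝ) with hL
  have hL0 : 0 < L := by linarith
  have hXN : (N : ℝ) ^ δ ≤ X := by
    rw [hX, le_div_iff₀ hfR]
    calc (N : ℝ) ^ δ * f ≤ (N : ℝ) ^ δ * (N : ℝ) ^ (1 - δ) :=
          mul_le_mul_of_nonneg_left hfN (Real.rpow_nonneg hNR.le _)
      _ = N := by
          rw [← Real.rpow_add hNR]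
          norm_num
  have hX2 : 2 ≤ X := hN2.trans hXN
  have hX0 : 0 < X := by linarith
  have hlX : δ * L ≤ Real.log X := by
    have := Real.log_le_log (Real.rpow_pos_of_pos hNR δ) hXN
    rwa [Real.log_rpow hNR] at this
  have hdL : 0 < δ * L := by positivity
  have hw : ((wN B N : ℕ) : ℝ) ≤ Real.log X ^ (B + 1) + 2 := by
    unfold wN
    have h1 : ((⌈Real.log (N : ℝ) ^ B⌉₊ : ℕ) : ℝ) < Real.log (N : ℝ) ^ B + 1 :=
      Nat.ceil_lt_add_one (by positivity)
    have h2 : Real.log (N : ℝ) ^ B ≤ Real.log X ^ (B + 1) := by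
      calc Real.log (N : ℝ) ^ B = L ^ B * 1 := by rw [mul_one]
        _ ≤ L ^ B * (δ ^ (B + 1) * L) := by
            apply mul_le_mul_of_nonneg_left _ (by positivity)
            have := mul_le_mul_of_nonneg_left hl2 (by positivity : 0 ≤ δ ^ (B + 1))
            rwa [mul_one_div, div_self (by positivity)] at this
        _ = (δ * L) ^ (B + 1) := by ring
        _ ≤ Real.log X ^ (B + 1) := pow_le_pow_left₀ hdL.le hlX _
    linarith
  have h1 := hliou X (wN B N) hX2 hw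
  rw [S1_sg_eq η hη N f (wN B N) (by omega) hf, abs_mul, abs_sg, one_mul]
  refine h1.trans ?_
  have hZ := (Pool.Agent.MT.Z1_bounds η hη N hN).1
  have h2 : C * X / Real.log X ^ (A + 1) ≤ C * X / (δ * L) ^ (A + 1) := by
    apply div_le_div_of_nonneg_left (by positivity) (by positivity)
    exact pow_le_pow_left₀ hdL.le hlX _
  have h3 : C * X / (δ * L) ^ (A + 1) ≤ (X / 4) / L ^ A := by
    rw [div_le_div_iff₀ (by positivity) (by positivity)]
    have h4 : 4 * C ≤ L * δ ^ (A + 1) := by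
      rwa [div_le_iff₀ (by positivity)] at hl3
    have h5 : (δ * L) ^ (A + 1) = (L * δ ^ (A + 1)) * L ^ A := by ring
    rw [h5]
    have h6 : 0 ≤ X * L ^ A := by positivity
    nlinarith
  have h4 : (X / 4) / L ^ A ≤ (Z1 η N / f) / L ^ A := by
    apply div_le_div_of_nonneg_right _ (by positivity)
    rw [hX, div_div, div_le_div_iff₀ (by positivity) hfR]
    nlinarith
  exact h2.trans (h3.trans h4)

end Pool.Agent.SVB
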