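import Mathlib
import Pool.Agent.SVB.SOne
import Pool.Agent.SVB.Ell

set_option autoImplicit false

/-!
# Project SVB: SHh

For f^3 <= N^(1-delta) no prime of II N divides f. XX N r = sum over p in II N of the indicator of p | r, so
S_f(XX) = sum_p S_(fp)(1) = sum_p (Z/(fp) + O(1)) = Z ell/f + O(|II N|), |II N| <= N^(2/3), and Z/f >= N^(2/3+delta/3)/4.
S_f(sg XX) = sum_p S_(fp)(sg), fp <= N^(1-delta/3): S1_sg with delta/3 and A+1; ell in [1/2,1] eventually.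
-/

namespace Pool.Agent.SVB

open Finset Filter Topology
open Pool.Agent.MT (IsWt Z1)

/-- exchange of summation -/
private theorem shh_swap (η : ℝ → ℝ) (N f : ℕ) (hcop : ∀ p ∈ II N, Nat.Coprime f p) (g : ℕ → ℝ) :
    S1 η N f (fun r => g r * XX N r) = ∑ p ∈ II N, S1 η N (f * p) g := by
  unfold S1
  have h1 : ∀ r : ℕ, η ((r : ℝ) / N) * (g r * XX N r) =
      ∑ p ∈ II N, if p ∣ r then η ((r : ℝ) / N) * g r else 0 := by
    intro r
    rw [← Finset.sum_filter, Finset.sum_const, nsmul_eq_mul]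
    unfold XX
    ring
  rw [Finset.sum_congr rfl (fun r _ => h1 r), Finset.sum_comm]
  apply Finset.sum_congr rfl
  intro p hp
  rw [← Finset.sum_filter, Finset.filter_filter]
  apply Finset.sum_congr _ fun _ _ => rfl
  apply Finset.filter_congr
  intro r _
  constructor
  · rintro ⟨h2, h3⟩
    exact Nat.Coprime.mul_dvd_of_dvd_of_dvd (hcop p hp) h2 h3
  · intro h2
    exact ⟨(Nat.dvd_mul_right f p).trans h2, (Nat.dvd_mul_left p f).trans h2⟩

private theorem shh_card {N : ℕ} (hN : 1 ≤ N) : ((II N).card : ℝ) ≤ (N : ℝ) ^ ((2 : ℝ) / 3) := by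
  have hN' : (0 : ℝ) < N := by exact_mod_cast hN
  have h1 : II N ⊆ Icc 1 ⌊(N : ℝ) ^ ((2 : ℝ) / 3)⌋₊ := by
    intro p hp
    unfold II at hp
    rw [mem_filter] at hp
    obtain ⟨_, hpp, _, hp3⟩ := hp
    rw [mem_Icc]
    refine ⟨hpp.one_lt.le, Nat.le_floor ?_⟩
    have h2 : ((p : ℝ) ^ 3) ≤ (N : ℝ) ^ 2 := by exact_mod_cast hp3
    have h3 : (p : ℝ) = ((p : ℝ) ^ 3) ^ ((1 : ℝ) / 3) := by
      rw [← Real.rpow_natCast, ← Real.rpow_mul (Nat.cast_nonneg p)]
      norm_num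
    rw [h3]
    calc ((p : ℝ) ^ 3) ^ ((1 : ℝ) / 3) ≤ ((N : ℝ) ^ 2) ^ ((1 : ℝ) / 3) :=
          Real.rpow_le_rpow (by positivity) h2 (by norm_num)
      _ = (N : ℝ) ^ ((2 : ℝ) / 3) := by
          rw [← Real.rpow_natCast, ← Real.rpow_mul hN'.le]
          norm_num
  have h2 := Finset.card_le_card h1
  rw [Nat.card_Icc] at h2
  have h3 : ((II N).card : ℝ) ≤ (⌊(N : ℝ) ^ ((2 : ℝ) / 3)⌋₊ : ℝ) := by
    exact_mod_cast (by omega : (II N).card ≤ ⌊(N : ℝ) ^ ((2 : ℝ) / 3)⌋₊)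
  exact h3.trans (Nat.floor_le (Real.rpow_nonneg hN'.le _))

private theorem shh_log {δ C : ℝ} (hδ : 0 < δ) (hC : 0 < C) (A : ℕ) : ∀ᶠ N : ℕ in atTop,
    12 * C * Real.log N ^ (A + 1) ≤ (N : ℝ) ^ (δ / 3) := by
  have h1 := (isLittleO_log_rpow_rpow_atTop ((A + 1 : ℕ) : ℝ) (by positivity : 0 < δ / 3)).bound
    (c := 1 / (12 * C)) (by positivity)
  have h2 := tendsto_natCast_atTop_atTop.eventually h1
  filter_upwards [h2, eventually_ge_atTop 3] with N hN hN3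
  have hN' : (1 : ℝ) ≤ N := by exact_mod_cast (by omega : 1 ≤ N)
  have hlog : 0 ≤ Real.log N := Real.log_nonneg hN'
  rw [Real.norm_of_nonneg (Real.rpow_nonneg hlog _),
    Real.norm_of_nonneg (Real.rpow_nonneg (by linarith) _), Real.rpow_natCast] at hN
  calc 12 * C * Real.log N ^ (A + 1) ≤ 12 * C * (1 / (12 * C) * (N : ℝ) ^ (δ / 3)) :=
        mul_le_mul_of_nonneg_left hN (by positivity)
    _ = (N : ℝ) ^ (δ / 3) := by field_simp

theorem S1_hh (η : ℝ → ℝ) (hη : IsWt η) (δ : ℝ) (hδ : 0 < δ) (A B : ℕ) : ∀ᶠ N : ℕ in atTop,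
    ∀ f : ℕ, 0 < f → (f : ℝ) ^ 3 ≤ (N : ℝ) ^ (1 - δ) →
    |S1 η N f (fun r => (1 - sg (wN B N) r) * hh N r)| ≤ (Z1 η N / f) / Real.log N ^ A := by
  obtain ⟨C, hC, hone⟩ := S1_one η hη
  have hell : ∀ᶠ N : ℕ in atTop, 1 / 2 < ell N :=
    ell_lim.eventually (lt_mem_nhds (by
      have := Real.log_two_gt_d9
      linarith))
  have hlog3 : ∀ᶠ N : ℕ in atTop, 3 ≤ Real.log N :=
    (Real.tendsto_log_atTop.comp tendsto_natCast_atTop_atTop).eventually_ge_atTop 3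
  filter_upwards [S1_sg η hη (δ / 3) (by positivity) (A + 1) B, hell, hlog3, shh_log hδ hC A,
    eventually_ge_atTop 16] with N hsg hellN hlogN hpow hN16 f hf hf3
  have hN0 : (0 : ℝ) < N := by exact_mod_cast (by omega : 0 < N)
  have hN1 : (1 : ℝ) ≤ N := by exact_mod_cast (by omega : 1 ≤ N)
  have hfR : (0 : ℝ) < f := by exact_mod_cast hf
  have hZ := Pool.Agent.MT.Z1_bounds η hη N hN16
  have hell0 : 0 < ell N := by linarith
  set L : ℝ := Real.log N with hL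
  have hL0 : 0 < L := by linarith
  -- size of `f`
  have hfle : (f : ℝ) ≤ (N : ℝ) ^ ((1 - δ) / 3) := by
    have h3 : (f : ℝ) = ((f : ℝ) ^ 3) ^ ((1 : ℝ) / 3) := by
      rw [← Real.rpow_natCast, ← Real.rpow_mul hfR.le]
      norm_num
    rw [h3]
    calc ((f : ℝ) ^ 3) ^ ((1 : ℝ) / 3) ≤ ((N : ℝ) ^ (1 - δ)) ^ ((1 : ℝ) / 3) :=
          Real.rpow_le_rpow (by positivity) hf3 (by norm_num)
      _ = (N : ℝ) ^ ((1 - δ) / 3) := by
          rw [← Real.rpow_mul hN0.le]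
          congr 1
          ring
  have hfle1 : (f : ℝ) ≤ (N : ℝ) ^ (1 - δ / 3) :=
    hfle.trans (Real.rpow_le_rpow_of_exponent_le hN1 (by linarith))
  -- the primes of `II N` do not divide `f`
  have hcop : ∀ p ∈ II N, Nat.Coprime f p := by
    intro p hp
    unfold II at hp
    rw [mem_filter] at hp
    obtain ⟨_, hpp, hp3, _⟩ := hp
    rw [Nat.coprime_comm, hpp.coprime_iff_not_dvd]
    intro hdvd
    have h1 : p ≤ f := Nat.le_of_dvd hf hdvd
    have h2 : (p : ℝ) ^ 3 ≤ (f : ℝ) ^ 3 := by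
      apply pow_le_pow_left₀ (Nat.cast_nonneg p)
      exact_mod_cast h1
    have h3 : (N : ℝ) ^ (1 - δ) ≤ N := by
      calc (N : ℝ) ^ (1 - δ) ≤ (N : ℝ) ^ (1 : ℝ) :=
            Real.rpow_le_rpow_of_exponent_le hN1 (by linarith)
        _ = N := Real.rpow_one _
    have h4 : (N : ℝ) < (p : ℝ) ^ 3 := by exact_mod_cast hp3
    linarith
  have hprime : ∀ p ∈ II N, 0 < p ∧ ((f * p : ℕ) : ℝ) ≤ (N : ℝ) ^ (1 - δ / 3) := by
    intro p hp
    unfold II at hp
    rw [mem_filter] at hp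
    obtain ⟨_, hpp, _, hp3⟩ := hp
    refine ⟨hpp.pos, ?_⟩
    have h1 : (p : ℝ) ^ 3 ≤ (N : ℝ) ^ 2 := by exact_mod_cast hp3
    have h2 : (((f * p : ℕ) : ℝ)) ^ 3 ≤ (N : ℝ) ^ (3 - δ) := by
      push_cast
      rw [mul_pow]
      calc (f : ℝ) ^ 3 * (p : ℝ) ^ 3 ≤ (N : ℝ) ^ (1 - δ) * (N : ℝ) ^ 2 :=
            mul_le_mul hf3 h1 (by positivity) (Real.rpow_nonneg hN0.le _)
        _ = (N : ℝ) ^ (3 - δ) := by
            rw [← Real.rpow_natCast (N : ℝ) 2, ← Real.rpow_add hN0]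
            congr 1
            push_cast
            ring
    have h3 : ((f * p : ℕ) : ℝ) = (((f * p : ℕ) : ℝ) ^ 3) ^ ((1 : ℝ) / 3) := by
      rw [← Real.rpow_natCast, ← Real.rpow_mul (Nat.cast_nonneg _)]
      norm_num
    rw [h3]
    calc (((f * p : ℕ) : ℝ) ^ 3) ^ ((1 : ℝ) / 3) ≤ ((N : ℝ) ^ (3 - δ)) ^ ((1 : ℝ) / 3) :=
          Real.rpow_le_rpow (by positivity) h2 (by norm_num)
      _ = (N : ℝ) ^ (1 - δ / 3) := by
          rw [← Real.rpow_mul hN0.le]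
          congr 1
          ring
  set Z : ℝ := Z1 η N with hZdef
  have hZ0 : 0 ≤ Z := Pool.Agent.MT.Z1_nonneg η hη N
  set E : ℝ := (Z / f) / L ^ (A + 1) with hE
  have hE0 : 0 ≤ E := by positivity
  -- decomposition
  have hdec : S1 η N f (fun r => (1 - sg (wN B N) r) * hh N r) =
      (S1 η N f (fun r => (1 : ℝ) * XX N r) - S1 η N f (fun r => sg (wN B N) r * XX N r)) / ell N
      - S1 η N f (fun _ => 1) + S1 η N f (sg (wN B N)) := by
    unfold S1 hh
    rw [← Finset.sum_sub_distrib, Finset.sum_div, ← Finset.sum_sub_distrib,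
      ← Finset.sum_add_distrib]
    apply Finset.sum_congr rfl
    intro r _
    field_simp
    ring
  -- first sum
  have h1 : |S1 η N f (fun r => (1 : ℝ) * XX N r) - Z * ell N / f| ≤ C * (N : ℝ) ^ ((2 : ℝ) / 3) := by
    rw [shh_swap η N f hcop (fun _ => (1 : ℝ))]
    have e1 : Z * ell N / f = ∑ p ∈ II N, Z / ((f * p : ℕ) : ℝ) := by
      unfold ell
      rw [Finset.mul_sum, Finset.sum_div]
      apply Finset.sum_congr rfl
      intro p hp
      have := (hprime p hp).1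
      have hp0 : (p : ℝ) ≠ 0 := by exact_mod_cast this.ne'
      push_cast
      field_simp
    rw [e1, ← Finset.sum_sub_distrib]
    refine (Finset.abs_sum_le_sum_abs _ _).trans ?_
    calc ∑ p ∈ II N, |S1 η N (f * p) (fun _ => 1) - Z / ((f * p : ℕ) : ℝ)|
        ≤ ∑ p ∈ II N, C := Finset.sum_le_sum fun p hp =>
          hone N (f * p) (by omega) (Nat.mul_pos hf (hprime p hp).1)
      _ = (II N).card * C := by rw [Finset.sum_const, nsmul_eq_mul]
      _ ≤ (N : ℝ) ^ ((2 : ℝ) / 3) * C :=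
          mul_le_mul_of_nonneg_right (shh_card (by omega)) hC.le
      _ = _ := mul_comm _ _
  -- second sum
  have h2 : |S1 η N f (fun r => sg (wN B N) r * XX N r)| ≤ E * ell N := by
    rw [shh_swap η N f hcop (sg (wN B N))]
    refine (Finset.abs_sum_le_sum_abs _ _).trans ?_
    unfold ell
    rw [Finset.mul_sum]
    apply Finset.sum_le_sum
    intro p hp
    have h3 := hsg (f * p) (Nat.mul_pos hf (hprime p hp).1) (hprime p hp).2
    refine h3.trans (le_of_eq ?_)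
    have := (hprime p hp).1
    have hp0 : (p : ℝ) ≠ 0 := by exact_mod_cast this.ne'
    rw [hE]
    push_cast
    field_simp
  have h3 : |S1 η N f (fun _ => 1) - Z / f| ≤ C := hone N f (by omega) hf
  have h4 : |S1 η N f (sg (wN B N))| ≤ E := hsg f hf hfle1
  -- the error terms
  have h5 : 3 * C * (N : ℝ) ^ ((2 : ℝ) / 3) ≤ E := by
    rw [hE, le_div_iff₀ (by positivity), le_div_iff₀ hfR]
    have h6 : (N : ℝ) ^ ((2 : ℝ) / 3) * (N : ℝ) ^ (δ / 3) * (N : ℝ) ^ ((1 - δ) / 3) = N := by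
      rw [← Real.rpow_add hN0, ← Real.rpow_add hN0]
      have : (2 : ℝ) / 3 + δ / 3 + (1 - δ) / 3 = 1 := by ring
      rw [this, Real.rpow_one]
    have h7 : 3 * C * (N : ℝ) ^ ((2 : ℝ) / 3) * L ^ (A + 1) * f ≤
        (N : ℝ) ^ ((2 : ℝ) / 3) * (N : ℝ) ^ (δ / 3) * (N : ℝ) ^ ((1 - δ) / 3) / 4 := by
      have h8 : 3 * C * L ^ (A + 1) ≤ (N : ℝ) ^ (δ / 3) / 4 := by linarith
      calc 3 * C * (N : ℝ) ^ ((2 : ℝ) / 3) * L ^ (A + 1) * f
          = (N : ℝ) ^ ((2 : ℝ) / 3) * (3 * C * L ^ (A + 1)) * f := by ring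
        _ ≤ (N : ℝ) ^ ((2 : ℝ) / 3) * ((N : ℝ) ^ (δ / 3) / 4) * (N : ℝ) ^ ((1 - δ) / 3) := by
            apply mul_le_mul _ hfle hfR.le (by positivity)
            exact mul_le_mul_of_nonneg_left h8 (by positivity)
        _ = _ := by ring
    rw [h6] at h7
    linarith [hZ.1]
  have hN23 : 1 ≤ (N : ℝ) ^ ((2 : ℝ) / 3) := Real.one_le_rpow hN1 (by norm_num)
  have h9 : |S1 η N f (fun r => (1 - sg (wN B N) r) * hh N r)| ≤ 3 * E := by
    rw [hdec]
    have e1 : (S1 η N f (fun r => (1 : ℝ) * XX N r) -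
        S1 η N f (fun r => sg (wN B N) r * XX N r)) / ell N - S1 η N f (fun _ => 1) +
        S1 η N f (sg (wN B N)) =
        (S1 η N f (fun r => (1 : ℝ) * XX N r) - Z * ell N / f) / ell N -
        S1 η N f (fun r => sg (wN B N) r * XX N r) / ell N -
        (S1 η N f (fun _ => 1) - Z / f) + S1 η N f (sg (wN B N)) := by
      field_simp
      ring
    rw [e1]
    have a1 : |(S1 η N f (fun r => (1 : ℝ) * XX N r) - Z * ell N / f) / ell N| ≤
        2 * C * (N : ℝ) ^ ((2 : ℝ) / 3) := by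
      rw [abs_div, abs_of_pos hell0, div_le_iff₀ hell0]
      have : C * (N : ℝ) ^ ((2 : ℝ) / 3) ≤ 2 * C * (N : ℝ) ^ ((2 : ℝ) / 3) * ell N := by
        have h10 : 0 ≤ C * (N : ℝ) ^ ((2 : ℝ) / 3) := by positivity
        nlinarith
      exact h1.trans this
    have a2 : |S1 η N f (fun r => sg (wN B N) r * XX N r) / ell N| ≤ E := by
      rw [abs_div, abs_of_pos hell0, div_le_iff₀ hell0]
      exact h2
    have a3 : C ≤ C * (N : ℝ) ^ ((2 : ℝ) / 3) := le_mul_of_one_le_right hC.le hN23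
    calc _ ≤ |(S1 η N f (fun r => (1 : ℝ) * XX N r) - Z * ell N / f) / ell N| +
          |S1 η N f (fun r => sg (wN B N) r * XX N r) / ell N| +
          |S1 η N f (fun _ => 1) - Z / f| + |S1 η N f (sg (wN B N))| := by
          refine (abs_add_le _ _).trans (add_le_add ?_ le_rfl)
          refine (abs_sub _ _).trans (add_le_add ?_ le_rfl)
          exact abs_sub _ _
      _ ≤ 3 * E := by linarith
  refine h9.trans ?_
  rw [hE, pow_succ, ← div_div]
  rw [← mul_div_assoc, div_le_iff₀ hL0]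
  have h10 : 0 ≤ Z / f / L ^ A := by positivity
  nlinarith

end Pool.Agent.SVB
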