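import Mathlib
import Pool.Agent.SVB.SHh
import Pool.Agent.SVB.FFb

set_option autoImplicit false

/-!
# Project SVB: DensOne

F = prod(1-sg) - kap prod((1-sg) hh). S3 of a product function is the product of three S1.
S_f(1-sg) = (Z/f)(1 + O((log N)^(-A-1))) for f <= N^(1-delta) (S1_one: the O(1) is <= (Z/f) N^(-delta) 4C). The smallest f_j has
f_j^3 <= f1 f2 f3 <= R <= N^(1-delta): S1_hh; the other two factors are bounded by 6 N/f_j <= 24 Z/f_j (hh_abs). kap <= 1, eventually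
1/2 <= ell <= 1 (Ell). Atoms: II N is contained in (wN, R] eventually since N^(2/3) <= N^(3/4) <= R and wN < N^(1/3).
-/

namespace Pool.Agent.SVB

open Finset Filter Topology
open Pool.Agent.MT (IsWt Z1)

theorem do_growth (K : ℝ) (k : ℕ) {s : ℝ} (hs : 0 < s) :
    ∀ᶠ N : ℕ in atTop, K * Real.log N ^ k ≤ (N : ℝ) ^ s := by
  have h := (isLittleO_log_rpow_rpow_atTop (k : ℝ) hs).const_mul_left K
  have h2 := h.bound (c := 1) one_pos
  have h3 : ∀ᶠ x : ℝ in atTop, K * Real.log x ^ k ≤ x ^ s := by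
    filter_upwards [h2, eventually_ge_atTop (0 : ℝ)] with x hx hx0
    rw [one_mul, Real.norm_of_nonneg (Real.rpow_nonneg hx0 s), Real.rpow_natCast] at hx
    exact (le_abs_self _).trans hx
  exact tendsto_natCast_atTop_atTop.eventually h3

theorem do_S3_prod (η : ℝ → ℝ) (N f₁ f₂ f₃ : ℕ) (g₁ g₂ g₃ : ℕ → ℝ) :
    S3 η N f₁ f₂ f₃ (fun a b c => g₁ a * g₂ b * g₃ c) =
      S1 η N f₁ g₁ * S1 η N f₂ g₂ * S1 η N f₃ g₃ := by
  unfold S3 S1
  rw [Finset.sum_mul_sum, Finset.sum_mul]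
  apply Finset.sum_congr rfl
  intro a _
  rw [Finset.sum_mul]
  apply Finset.sum_congr rfl
  intro b _
  rw [Finset.mul_sum]
  apply Finset.sum_congr rfl
  intro c _
  ring

theorem do_S3_sub (η : ℝ → ℝ) (N f₁ f₂ f₃ : ℕ) (G H : ℕ → ℕ → ℕ → ℝ) (κ : ℝ) :
    S3 η N f₁ f₂ f₃ (fun a b c => G a b c - κ * H a b c) =
      S3 η N f₁ f₂ f₃ G - κ * S3 η N f₁ f₂ f₃ H := by
  unfold S3
  rw [Finset.mul_sum, ← Finset.sum_sub_distrib]
  apply Finset.sum_congr rfl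
  intro a _
  rw [Finset.mul_sum, ← Finset.sum_sub_distrib]
  apply Finset.sum_congr rfl
  intro b _
  rw [Finset.mul_sum, ← Finset.sum_sub_distrib]
  apply Finset.sum_congr rfl
  intro c _
  ring

theorem do_FF (N w : ℕ) : FF N w = fun a b c =>
    ((1 - sg w a) * (1 - sg w b) * (1 - sg w c)) -
      kap N * (((1 - sg w a) * hh N a) * ((1 - sg w b) * hh N b) * ((1 - sg w c) * hh N c)) := by
  funext a b c
  unfold FF
  ring

theorem do_S1_sub (η : ℝ → ℝ) (N f w : ℕ) :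
    S1 η N f (fun r => 1 - sg w r) = S1 η N f (fun _ => 1) - S1 η N f (sg w) := by
  unfold S1
  rw [← Finset.sum_sub_distrib]
  apply Finset.sum_congr rfl
  intro a _
  ring

theorem do_sg_abs (w r : ℕ) : |sg w r| = 1 := by
  unfold sg
  exact abs_neg_one_pow _

/-- Crude bound for the null function. -/
theorem do_hh_crude {η : ℝ → ℝ} (hη : IsWt η) {N w : ℕ} (f : ℕ) (h1 : 1 / 2 ≤ ell N)
    (h2 : ell N ≤ 1) :
    |S1 η N f (fun r => (1 - sg w r) * hh N r)| ≤ 6 * S1 η N f (fun _ => 1) := by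
  unfold S1
  rw [Finset.mul_sum]
  refine (Finset.abs_sum_le_sum_abs _ _).trans ?_
  apply Finset.sum_le_sum
  intro r hr
  rw [mem_filter, mem_range] at hr
  have hη0 := hη.nonneg ((r : ℝ) / N)
  rcases Nat.eq_zero_or_pos r with h0 | h0
  · subst h0
    have h3 : η (((0 : ℕ) : ℝ) / N) = 0 := by
      by_contra h4
      have h5 := (hη.supp _ h4).1
      simp at h5
      linarith
    rw [h3]
    simp
  · have h3 : |hh N r| ≤ 3 := hh_abs h1 h2 h0 (by omega)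
    have h4 : |1 - sg w r| ≤ 2 := by
      have h5 := do_sg_abs w r
      calc |1 - sg w r| ≤ |(1 : ℝ)| + |sg w r| := abs_sub _ _
        _ = 2 := by rw [h5, abs_one]; norm_num
    rw [abs_mul, abs_mul, abs_of_nonneg hη0]
    have h6 : |1 - sg w r| * |hh N r| ≤ 2 * 3 :=
      mul_le_mul h4 h3 (abs_nonneg _) (by norm_num)
    nlinarith

theorem do_prod_diff {z₁ z₂ z₃ a₁ a₂ a₃ ε : ℝ} (hz₁ : 0 < z₁) (hz₂ : 0 < z₂) (hz₃ : 0 < z₃)
    (hε0 : 0 ≤ ε) (hε : ε ≤ 1) (h₁ : |a₁ - z₁| ≤ ε * z₁) (h₂ : |a₂ - z₂| ≤ ε * z₂)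
    (h₃ : |a₃ - z₃| ≤ ε * z₃) :
    |a₁ * a₂ * a₃ - z₁ * z₂ * z₃| ≤ 7 * ε * (z₁ * z₂ * z₃) := by
  have b₂ : |a₂| ≤ 2 * z₂ := by
    have h4 : |a₂| ≤ |a₂ - z₂| + |z₂| := by
      have := abs_add_le (a₂ - z₂) z₂
      rwa [sub_add_cancel] at this
    rw [abs_of_pos hz₂] at h4
    nlinarith
  have b₃ : |a₃| ≤ 2 * z₃ := by
    have h4 : |a₃| ≤ |a₃ - z₃| + |z₃| := by
      have := abs_add_le (a₃ - z₃) z₃
      rwa [sub_add_cancel] at this
    rw [abs_of_pos hz₃] at h4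
    nlinarith
  have e : a₁ * a₂ * a₃ - z₁ * z₂ * z₃ =
      (a₁ - z₁) * a₂ * a₃ + z₁ * (a₂ - z₂) * a₃ + z₁ * z₂ * (a₃ - z₃) := by ring
  have t₁ : |(a₁ - z₁) * a₂ * a₃| ≤ (ε * z₁) * (2 * z₂) * (2 * z₃) := by
    rw [abs_mul, abs_mul]
    exact mul_le_mul (mul_le_mul h₁ b₂ (abs_nonneg _) (by positivity)) b₃ (abs_nonneg _)
      (by positivity)
  have t₂ : |z₁ * (a₂ - z₂) * a₃| ≤ z₁ * (ε * z₂) * (2 * z₃) := by
    rw [abs_mul, abs_mul, abs_of_pos hz₁]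
    exact mul_le_mul (mul_le_mul_of_nonneg_left h₂ hz₁.le) b₃ (abs_nonneg _) (by positivity)
  have t₃ : |z₁ * z₂ * (a₃ - z₃)| ≤ z₁ * z₂ * (ε * z₃) := by
    rw [abs_mul, abs_of_pos (mul_pos hz₁ hz₂)]
    exact mul_le_mul_of_nonneg_left h₃ (by positivity)
  rw [e]
  calc |(a₁ - z₁) * a₂ * a₃ + z₁ * (a₂ - z₂) * a₃ + z₁ * z₂ * (a₃ - z₃)|
      ≤ |(a₁ - z₁) * a₂ * a₃| + |z₁ * (a₂ - z₂) * a₃| + |z₁ * z₂ * (a₃ - z₃)| :=
        abs_add_three _ _ _
    _ ≤ (ε * z₁) * (2 * z₂) * (2 * z₃) + z₁ * (ε * z₂) * (2 * z₃) + z₁ * z₂ * (ε * z₃) := by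
        linarith
    _ = 7 * ε * (z₁ * z₂ * z₃) := by ring

theorem do_prod_small {z₁ z₂ z₃ b₁ b₂ b₃ ε : ℝ} (hz₁ : 0 < z₁) (hz₂ : 0 < z₂) (hz₃ : 0 < z₃)
    (hε0 : 0 ≤ ε) (c₁ : |b₁| ≤ 12 * z₁) (c₂ : |b₂| ≤ 12 * z₂) (c₃ : |b₃| ≤ 12 * z₃)
    (h : |b₁| ≤ ε * z₁ ∨ |b₂| ≤ ε * z₂ ∨ |b₃| ≤ ε * z₃) :
    |b₁ * b₂ * b₃| ≤ 144 * ε * (z₁ * z₂ * z₃) := by
  rw [abs_mul, abs_mul]
  rcases h with h | h | h
  · calc |b₁| * |b₂| * |b₃| ≤ (ε * z₁) * (12 * z₂) * (12 * z₃) :=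
          mul_le_mul (mul_le_mul h c₂ (abs_nonneg _) (by positivity)) c₃ (abs_nonneg _)
            (by positivity)
      _ = 144 * ε * (z₁ * z₂ * z₃) := by ring
  · calc |b₁| * |b₂| * |b₃| ≤ (12 * z₁) * (ε * z₂) * (12 * z₃) :=
          mul_le_mul (mul_le_mul c₁ h (abs_nonneg _) (by positivity)) c₃ (abs_nonneg _)
            (by positivity)
      _ = 144 * ε * (z₁ * z₂ * z₃) := by ring
  · calc |b₁| * |b₂| * |b₃| ≤ (12 * z₁) * (12 * z₂) * (ε * z₃) :=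
          mul_le_mul (mul_le_mul c₁ c₂ (abs_nonneg _) (by positivity)) h (abs_nonneg _)
            (by positivity)
      _ = 144 * ε * (z₁ * z₂ * z₃) := by ring

theorem do_min_cube (f₁ f₂ f₃ : ℕ) :
    f₁ ^ 3 ≤ f₁ * f₂ * f₃ ∨ f₂ ^ 3 ≤ f₁ * f₂ * f₃ ∨ f₃ ^ 3 ≤ f₁ * f₂ * f₃ := by
  rcases le_total f₁ f₂ with h12 | h12
  · rcases le_total f₁ f₃ with h13 | h13
    · left
      calc f₁ ^ 3 = f₁ * f₁ * f₁ := by ring
        _ ≤ f₁ * f₂ * f₃ := Nat.mul_le_mul (Nat.mul_le_mul_left _ h12) h13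
    · right; right
      calc f₃ ^ 3 = f₃ * f₃ * f₃ := by ring
        _ ≤ f₁ * f₂ * f₃ := Nat.mul_le_mul_right _ (Nat.mul_le_mul h13 (h13.trans h12))
  · rcases le_total f₂ f₃ with h23 | h23
    · right; left
      calc f₂ ^ 3 = f₂ * f₂ * f₂ := by ring
        _ ≤ f₁ * f₂ * f₃ := Nat.mul_le_mul (Nat.mul_le_mul_right _ h12) h23
    · right; right
      calc f₃ ^ 3 = f₃ * f₃ * f₃ := by ring
        _ ≤ f₁ * f₂ * f₃ := Nat.mul_le_mul_right _ (Nat.mul_le_mul (h23.trans h12) h23)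

theorem dens_one (η : ℝ → ℝ) (hη : IsWt η) (δ : ℝ) (hδ : 0 < δ) (hδ1 : δ < 1 / 4) (A B : ℕ) :
    ∀ᶠ N : ℕ in atTop, ∀ R : ℕ, (N : ℝ) ^ (3 / 4 : ℝ) ≤ R → (R : ℝ) ≤ (N : ℝ) ^ (1 - δ) →
    Dens η N (wN B N) R 16 (1 / Real.log N ^ A) (8 * (1 + kap N)) (FF N (wN B N)) := by
  obtain ⟨C, hC, hone⟩ := S1_one η hη
  have hell : ∀ᶠ N : ℕ in atTop, 1 / 2 ≤ ell N ∧ ell N ≤ 1 := by
    have h1 : (1 : ℝ) / 2 < Real.log 2 := by
      have := Real.log_two_gt_d9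
      linarith
    have h2 : Real.log 2 < 1 := by
      have := Real.log_two_lt_d9
      linarith
    have h3 := ell_lim.eventually_const_lt h1
    have h4 := ell_lim.eventually_lt_const h2
    filter_upwards [h3, h4] with N h5 h6
    exact ⟨h5.le, h6.le⟩
  have hlog : Tendsto (fun N : ℕ => Real.log N) atTop atTop :=
    Real.tendsto_log_atTop.comp tendsto_natCast_atTop_atTop
  filter_upwards [S1_sg η hη δ hδ (A + 1) B, S1_hh η hη δ hδ (A + 1) B, hell,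
    do_growth (4 * C) (A + 1) hδ, do_growth 8 (3 * B) one_pos, hlog.eventually_ge_atTop 158,
    eventually_ge_atTop 16] with N hsg hhh hell hg1 hg2 hL hN16
  intro R hR1 hR2
  have hN0 : (0 : ℝ) < N := by exact_mod_cast (by omega : 0 < N)
  have hN1 : (1 : ℝ) ≤ N := by exact_mod_cast (by omega : 1 ≤ N)
  have hL0 : 0 < Real.log N := by linarith
  have hL1 : 1 ≤ Real.log N := by linarith
  have hLA : 0 < Real.log N ^ (A + 1) := by positivity
  obtain ⟨hZ1, _⟩ := Pool.Agent.MT.Z1_bounds η hη N hN16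
  have hZ0 : 0 < Z1 η N := by linarith
  refine ⟨?_, ?_, ?_, ?_⟩
  · intro r₁ r₂ r₃ h₁ h₁' h₂ h₂' h₃ h₃'
    exact (FF_nonneg hell.1 hell.2 h₁ h₁' h₂ h₂' h₃ h₃').1
  · intro r₁ r₂ r₃ h₁ h₁' h₂ h₂' h₃ h₃'
    exact (FF_nonneg hell.1 hell.2 h₁ h₁' h₂ h₂' h₃ h₃').2
  · intro f₁ f₂ f₃ hf₁ hf₂ hf₃ hfR
    -- bounds valid for every factor
    have hkey : ∀ f : ℕ, 0 < f → (f : ℝ) ≤ (N : ℝ) ^ (1 - δ) →
        0 < Z1 η N / f ∧ C ≤ (Z1 η N / f) / Real.log N ^ (A + 1) := by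
      intro f hf hfN
      have hf0 : (0 : ℝ) < f := by exact_mod_cast hf
      refine ⟨by positivity, ?_⟩
      have h1 : (N : ℝ) ^ δ / 4 ≤ Z1 η N / f := by
        rw [div_le_div_iff₀ (by norm_num) hf0]
        have h2 : (N : ℝ) ^ δ * f ≤ (N : ℝ) ^ δ * (N : ℝ) ^ (1 - δ) :=
          mul_le_mul_of_nonneg_left hfN (Real.rpow_nonneg hN0.le _)
        rw [← Real.rpow_add hN0] at h2
        have h3 : δ + (1 - δ) = 1 := by ring
        rw [h3, Real.rpow_one] at h2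
        linarith
      rw [le_div_iff₀ hLA]
      linarith
    have hle : ∀ f : ℕ, f ≤ f₁ * f₂ * f₃ → (f : ℝ) ≤ (N : ℝ) ^ (1 - δ) := by
      intro f hf
      have h1 : (f : ℝ) ≤ R := by exact_mod_cast hf.trans hfR
      exact h1.trans hR2
    have l₁ : f₁ ≤ f₁ * f₂ * f₃ := by
      calc f₁ = f₁ * 1 * 1 := by ring
        _ ≤ f₁ * f₂ * f₃ := Nat.mul_le_mul (Nat.mul_le_mul_left _ hf₂) hf₃
    have l₂ : f₂ ≤ f₁ * f₂ * f₃ := by
      calc f₂ = 1 * f₂ * 1 := by ring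
        _ ≤ f₁ * f₂ * f₃ := Nat.mul_le_mul (Nat.mul_le_mul_right _ hf₁) hf₃
    have l₃ : f₃ ≤ f₁ * f₂ * f₃ := by
      calc f₃ = 1 * 1 * f₃ := by ring
        _ ≤ f₁ * f₂ * f₃ := Nat.mul_le_mul_right _ (Nat.mul_le_mul hf₁ hf₂)
    have ha : ∀ f : ℕ, 0 < f → (f : ℝ) ≤ (N : ℝ) ^ (1 - δ) →
        |S1 η N f (fun r => 1 - sg (wN B N) r) - Z1 η N / f| ≤
          2 / Real.log N ^ (A + 1) * (Z1 η N / f) := by
      intro f hf hfN
      obtain ⟨_, h2⟩ := hkey f hf hfN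
      have h3 := hone N f (by omega) hf
      have h4 := hsg f hf hfN
      rw [do_S1_sub]
      have h5 : |S1 η N f (fun _ => 1) - S1 η N f (sg (wN B N)) - Z1 η N / f| ≤
          |S1 η N f (fun _ => 1) - Z1 η N / f| + |S1 η N f (sg (wN B N))| := by
        have h6 : S1 η N f (fun _ => 1) - S1 η N f (sg (wN B N)) - Z1 η N / f =
            (S1 η N f (fun _ => 1) - Z1 η N / f) - S1 η N f (sg (wN B N)) := by ring
        rw [h6]
        exact abs_sub _ _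
      have h7 : 2 / Real.log N ^ (A + 1) * (Z1 η N / f) =
          (Z1 η N / f) / Real.log N ^ (A + 1) + (Z1 η N / f) / Real.log N ^ (A + 1) := by ring
      rw [h7]
      linarith
    have hb : ∀ f : ℕ, 0 < f → (f : ℝ) ≤ (N : ℝ) ^ (1 - δ) →
        |S1 η N f (fun r => (1 - sg (wN B N) r) * hh N r)| ≤ 12 * (Z1 η N / f) := by
      intro f hf hfN
      obtain ⟨h1, h2⟩ := hkey f hf hfN
      have h3 := hone N f (by omega) hf
      have h4 := do_hh_crude hη (w := wN B N) f hell.1 hell.2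
      have h5 := (abs_le.mp h3).2
      have h6 : (Z1 η N / f) / Real.log N ^ (A + 1) ≤ Z1 η N / f :=
        div_le_self h1.le (one_le_pow₀ hL1)
      linarith
    have hc : ∀ f : ℕ, 0 < f → f ^ 3 ≤ f₁ * f₂ * f₃ →
        |S1 η N f (fun r => (1 - sg (wN B N) r) * hh N r)| ≤
          1 / Real.log N ^ (A + 1) * (Z1 η N / f) := by
      intro f hf hf3
      have h1 : (f : ℝ) ^ 3 ≤ (N : ℝ) ^ (1 - δ) := by
        have h2 : ((f ^ 3 : ℕ) : ℝ) ≤ R := by exact_mod_cast hf3.trans hfR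
        push_cast at h2
        exact h2.trans hR2
      have h3 := hhh f hf h1
      rw [one_div_mul_eq_div]
      exact h3
    have z₁ := (hkey f₁ hf₁ (hle f₁ l₁)).1
    have z₂ := (hkey f₂ hf₂ (hle f₂ l₂)).1
    have z₃ := (hkey f₃ hf₃ (hle f₃ l₃)).1
    have hε : 2 / Real.log N ^ (A + 1) ≤ 1 := by
      rw [div_le_one hLA]
      calc (2 : ℝ) ≤ Real.log N := by linarith
        _ = Real.log N ^ 1 := (pow_one _).symm
        _ ≤ Real.log N ^ (A + 1) := pow_le_pow_right₀ hL1 (by omega)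
    have hZZ : Z1 η N ^ 3 / (f₁ * f₂ * f₃) = (Z1 η N / f₁) * (Z1 η N / f₂) * (Z1 η N / f₃) := by
      have g₁ : (f₁ : ℝ) ≠ 0 := by exact_mod_cast hf₁.ne'
      have g₂ : (f₂ : ℝ) ≠ 0 := by exact_mod_cast hf₂.ne'
      have g₃ : (f₃ : ℝ) ≠ 0 := by exact_mod_cast hf₃.ne'
      field_simp
    have hkap0 : 0 ≤ kap N := by
      unfold kap
      have h1 : 0 ≤ ell N := by linarith [hell.1]
      have h2 : 0 ≤ 2 - ell N := by linarith [hell.2]
      positivity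
    have hkap1 : kap N ≤ 1 := by
      unfold kap
      have h1 : 0 ≤ ell N := by linarith [hell.1]
      have h2 : 0 < 2 - ell N := by linarith [hell.2]
      apply pow_le_one₀ (by positivity)
      rw [div_le_one h2]
      linarith [hell.2]
    have d₁ := do_prod_diff z₁ z₂ z₃ (by positivity) hε (ha f₁ hf₁ (hle f₁ l₁))
      (ha f₂ hf₂ (hle f₂ l₂)) (ha f₃ hf₃ (hle f₃ l₃))
    have d₂ := do_prod_small (ε := 1 / Real.log N ^ (A + 1)) z₁ z₂ z₃ (by positivity)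
      (hb f₁ hf₁ (hle f₁ l₁)) (hb f₂ hf₂ (hle f₂ l₂)) (hb f₃ hf₃ (hle f₃ l₃)) (by
        rcases do_min_cube f₁ f₂ f₃ with h | h | h
        · exact Or.inl (hc f₁ hf₁ h)
        · exact Or.inr (Or.inl (hc f₂ hf₂ h))
        · exact Or.inr (Or.inr (hc f₃ hf₃ h)))
    have e : S3 η N f₁ f₂ f₃ (FF N (wN B N)) =
        S1 η N f₁ (fun r => 1 - sg (wN B N) r) * S1 η N f₂ (fun r => 1 - sg (wN B N) r) *
          S1 η N f₃ (fun r => 1 - sg (wN B N) r) -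
        kap N * (S1 η N f₁ (fun r => (1 - sg (wN B N) r) * hh N r) *
          S1 η N f₂ (fun r => (1 - sg (wN B N) r) * hh N r) *
          S1 η N f₃ (fun r => (1 - sg (wN B N) r) * hh N r)) := by
      rw [do_FF, do_S3_sub η N f₁ f₂ f₃
        (fun a b c => (1 - sg (wN B N) a) * (1 - sg (wN B N) b) * (1 - sg (wN B N) c))
        (fun a b c => ((1 - sg (wN B N) a) * hh N a) * ((1 - sg (wN B N) b) * hh N b) *
          ((1 - sg (wN B N) c) * hh N c)) (kap N),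
        do_S3_prod η N f₁ f₂ f₃ (fun r => 1 - sg (wN B N) r) (fun r => 1 - sg (wN B N) r)
          (fun r => 1 - sg (wN B N) r),
        do_S3_prod η N f₁ f₂ f₃ (fun r => (1 - sg (wN B N) r) * hh N r)
          (fun r => (1 - sg (wN B N) r) * hh N r) (fun r => (1 - sg (wN B N) r) * hh N r)]
    rw [e, hZZ]
    set Z := (Z1 η N / f₁) * (Z1 η N / f₂) * (Z1 η N / f₃) with hZdef
    have hZp : 0 < Z := by positivity
    set P := S1 η N f₁ (fun r => 1 - sg (wN B N) r) * S1 η N f₂ (fun r => 1 - sg (wN B N) r) *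
          S1 η N f₃ (fun r => 1 - sg (wN B N) r)
    set Q := S1 η N f₁ (fun r => (1 - sg (wN B N) r) * hh N r) *
          S1 η N f₂ (fun r => (1 - sg (wN B N) r) * hh N r) *
          S1 η N f₃ (fun r => (1 - sg (wN B N) r) * hh N r)
    have h1 : |P - kap N * Q - Z| ≤ |P - Z| + |kap N * Q| := by
      have h2 : P - kap N * Q - Z = (P - Z) - kap N * Q := by ring
      rw [h2]
      exact abs_sub _ _
    have h3 : |kap N * Q| ≤ |Q| := by
      rw [abs_mul, abs_of_nonneg hkap0]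
      nlinarith [abs_nonneg Q]
    have h4 : 7 * (2 / Real.log N ^ (A + 1)) * Z + 144 * (1 / Real.log N ^ (A + 1)) * Z =
        158 / Real.log N ^ (A + 1) * Z := by ring
    have h5 : 158 / Real.log N ^ (A + 1) ≤ 1 / Real.log N ^ A := by
      rw [div_le_div_iff₀ hLA (by positivity), pow_succ]
      have : 0 < Real.log N ^ A := by positivity
      nlinarith
    have h6 : 158 / Real.log N ^ (A + 1) * Z ≤ 1 / Real.log N ^ A * Z :=
      mul_le_mul_of_nonneg_right h5 hZp.le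
    linarith
  · intro r₁ r₂ r₃ a₁ a₂ a₃
    refine le_of_eq (FF_atom ?_ a₁ a₂ a₃).symm
    intro p hp
    unfold II at hp
    rw [mem_filter, mem_range] at hp
    obtain ⟨_, _, hp1, hp2⟩ := hp
    constructor
    · by_contra hcon
      push Not at hcon
      have h1 : (wN B N : ℝ) ≤ 2 * Real.log N ^ B := by
        have h2 : (wN B N : ℝ) < Real.log N ^ B + 1 := by
          unfold wN
          exact Nat.ceil_lt_add_one (by positivity)
        have h3 : 1 ≤ Real.log N ^ B := one_le_pow₀ hL1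
        linarith
      have h4 : (wN B N : ℝ) ^ 3 ≤ N := by
        calc (wN B N : ℝ) ^ 3 ≤ (2 * Real.log N ^ B) ^ 3 :=
              pow_le_pow_left₀ (Nat.cast_nonneg _) h1 3
          _ = 8 * Real.log N ^ (3 * B) := by
              rw [mul_pow, ← pow_mul, mul_comm B 3]
              norm_num
          _ ≤ (N : ℝ) ^ (1 : ℝ) := hg2
          _ = N := Real.rpow_one _
      have h5 : (p : ℝ) ^ 3 ≤ (wN B N : ℝ) ^ 3 :=
        pow_le_pow_left₀ (Nat.cast_nonneg _) (by exact_mod_cast hcon) 3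
      have h6 : (N : ℝ) < (p : ℝ) ^ 3 := by exact_mod_cast hp1
      linarith
    · have h1 : (p : ℝ) ^ 3 ≤ (N : ℝ) ^ 2 := by exact_mod_cast hp2
      have h2 : (N : ℝ) ^ 2 ≤ ((N : ℝ) ^ (3 / 4 : ℝ)) ^ 3 := by
        rw [← Real.rpow_natCast ((N : ℝ) ^ (3 / 4 : ℝ)) 3, ← Real.rpow_mul hN0.le,
          ← Real.rpow_natCast (N : ℝ) 2]
        apply Real.rpow_le_rpow_of_exponent_le hN1
        norm_num
      have h3 : (p : ℝ) ≤ (N : ℝ) ^ (3 / 4 : ℝ) :=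
        le_of_pow_le_pow_left₀ (by norm_num) (Real.rpow_nonneg hN0.le _) (h1.trans h2)
      exact_mod_cast h3.trans hR1

end Pool.Agent.SVB
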