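import Mathlib
import Pool.Agent.SVB.Defs

set_option autoImplicit false

/-!
# Project SVB: Crt

Chinese remainder: n = a mod prod pw, n = 0 mod p for p in B, n = 1 mod p for p in SS minus B (p >= 11 does not divide 1, 1+u in {3,5}, 7). Add the period to get n > 0.
-/

namespace Pool.Agent.SVB

open Finset Filter Topology
open Pool.Agent.MT (IsWt Z1)

theorem crt_set {w R u : ℕ} (hw : 7 ≤ w) (hu : u = 2 ∨ u = 4) (a : ℕ) {B : Finset ℕ}
    (hB : B ⊆ SS w R) : ∃ n : ℕ, 0 < n ∧ n ≡ a [MOD ∏ p ∈ pw w, p] ∧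
      ∀ p ∈ SS w R, (p ∣ n * (n + u) * (n + 6) ↔ p ∈ B) := by
  classical
  have hco : Set.Pairwise (SS w R : Set ℕ) (Function.onFun Nat.Coprime (fun p => p)) := by
    intro p hp q hq hpq
    exact (Nat.coprime_primes (Finset.mem_filter.1 hp).2 (Finset.mem_filter.1 hq).2).2 hpq
  have hne : ∀ p ∈ SS w R, (fun p => p) p ≠ 0 := fun p hp => (Finset.mem_filter.1 hp).2.ne_zero
  obtain ⟨k, hk⟩ := Nat.chineseRemainderOfFinset (fun p => if p ∈ B then 0 else 1) (fun p => p)
    (SS w R) hne hco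
  set P := ∏ p ∈ pw w, p with hP
  set Q := ∏ p ∈ SS w R, p with hQ
  have hPQ : Nat.Coprime P Q := by
    rw [hP, hQ]
    refine Nat.Coprime.prod_left fun p hp => Nat.Coprime.prod_right fun q hq => ?_
    have h1 := Finset.mem_filter.1 hp
    have h2 := Finset.mem_filter.1 hq
    have h3 := Finset.mem_range.1 h1.1
    have h4 := (Finset.mem_Ioc.1 h2.1).1
    exact (Nat.coprime_primes h1.2 h2.2).2 (by omega)
  have hPpos : 0 < P := Finset.prod_pos fun p hp => (Finset.mem_filter.1 hp).2.pos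
  have hQpos : 0 < Q := Finset.prod_pos fun p hp => (Finset.mem_filter.1 hp).2.pos
  obtain ⟨n0, hn1, hn2⟩ := Nat.chineseRemainder hPQ a k
  refine ⟨n0 + P * Q, by positivity, ?_, ?_⟩
  · have h1 : n0 + P * Q ≡ n0 [MOD P] := by
      rw [Nat.ModEq, Nat.add_mul_mod_self_left]
    exact h1.trans hn1
  · intro p hp
    have hpr := (Finset.mem_filter.1 hp).2
    have hpw := (Finset.mem_Ioc.1 (Finset.mem_filter.1 hp).1).1
    have hpQ : p ∣ Q := Finset.dvd_prod_of_mem _ hp
    have h1 : n0 + P * Q ≡ (if p ∈ B then 0 else 1) [MOD p] := by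
      have e1 : n0 + P * Q ≡ n0 [MOD Q] := by
        rw [Nat.ModEq, mul_comm P Q, Nat.add_mul_mod_self_left]
      exact ((e1.trans hn2).of_dvd hpQ).trans (hk p hp)
    by_cases hpB : p ∈ B
    · rw [if_pos hpB] at h1
      have h2 : p ∣ n0 + P * Q := (Nat.modEq_zero_iff_dvd).1 h1
      exact ⟨fun _ => hpB, fun _ => (h2.mul_right _).mul_right _⟩
    · rw [if_neg hpB] at h1
      refine ⟨fun h => absurd ?_ hpB, fun h => absurd h hpB⟩
      exfalso
      have h2 : (n0 + P * Q) * (n0 + P * Q + u) * (n0 + P * Q + 6) ≡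
          1 * (1 + u) * (1 + 6) [MOD p] :=
        (h1.mul (h1.add_right u)).mul (h1.add_right 6)
      have h3 : p ∣ 1 * (1 + u) * (1 + 6) := (h2.dvd_iff (dvd_refl p)).1 h
      have h4 : p ∣ (1 + u) * 7 := by simpa using h3
      rcases (Nat.Prime.dvd_mul hpr).1 h4 with h5 | h5
      · have h6 := Nat.le_of_dvd (by omega) h5
        rcases hu with h | h <;> omega
      · have h6 := Nat.le_of_dvd (by norm_num) h5
        omega

end Pool.Agent.SVB
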