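import Mathlib
import Pool.Agent.SVB.Defs

set_option autoImplicit false

/-!
# Project SVB: Rho

Chinese remainder theorem. Helper95/UA/Defs.lean (team-store helper95_UA_Defs.lean) has crt_card, card_good which may help.
-/

namespace Pool.Agent.SVB

open Finset Filter Topology
open Pool.Agent.MT (IsWt Z1)

theorem rho_mod (u d n : ℕ) :
    d ∣ n * (n + u) * (n + 6) ↔ d ∣ (n % d) * (n % d + u) * (n % d + 6) := by
  have h : n * (n + u) * (n + 6) ≡ (n % d) * (n % d + u) * (n % d + 6) [MOD d] := by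
    have h1 : n ≡ n % d [MOD d] := (Nat.mod_modEq n d).symm
    exact (h1.mul (h1.add_right u)).mul (h1.add_right 6)
  exact h.dvd_iff (dvd_refl d)

theorem rho_mod' (u : ℕ) {d e : ℕ} (n : ℕ) (h : d ∣ e) :
    d ∣ n * (n + u) * (n + 6) ↔ d ∣ (n % e) * (n % e + u) * (n % e + 6) := by
  rw [rho_mod u d n, rho_mod u d (n % e), Nat.mod_mod_of_dvd _ h]

theorem rho_mul {u d e : ℕ} (hd : 0 < d) (he : 0 < e) (h : Nat.Coprime d e) :
    rho u (d * e) = rho u d * rho u e := by
  unfold rho
  rw [← card_product]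
  refine Finset.card_nbij' (fun n => (n % d, n % e))
    (fun ab => (Nat.chineseRemainder h ab.1 ab.2 : ℕ)) ?_ ?_ ?_ ?_
  · intro n hn
    rw [mem_coe, mem_filter, mem_range] at hn
    rw [mem_coe, mem_product, mem_filter, mem_filter, mem_range, mem_range]
    exact ⟨⟨Nat.mod_lt _ hd, (rho_mod u d n).1 ((dvd_mul_right d e).trans hn.2)⟩,
      ⟨Nat.mod_lt _ he, (rho_mod u e n).1 ((dvd_mul_left e d).trans hn.2)⟩⟩
  · intro ab hab
    rw [mem_coe, mem_product, mem_filter, mem_filter, mem_range, mem_range] at hab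
    rw [mem_coe, mem_filter, mem_range]
    have h1 := (Nat.chineseRemainder h ab.1 ab.2).2
    refine ⟨Nat.chineseRemainder_lt_mul h ab.1 ab.2 hd.ne' he.ne', ?_⟩
    refine Nat.Coprime.mul_dvd_of_dvd_of_dvd h ?_ ?_
    · have h2 := h1.1
      unfold Nat.ModEq at h2
      rw [rho_mod, h2, Nat.mod_eq_of_lt hab.1.1]
      exact hab.1.2
    · have h2 := h1.2
      unfold Nat.ModEq at h2
      rw [rho_mod, h2, Nat.mod_eq_of_lt hab.2.1]
      exact hab.2.2
  · intro n hn
    rw [mem_coe, mem_filter, mem_range] at hn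
    have h1 := (Nat.chineseRemainder h (n % d) (n % e)).2
    have h2 : ((Nat.chineseRemainder h (n % d) (n % e) : ℕ)) ≡ n [MOD d * e] :=
      (Nat.modEq_and_modEq_iff_modEq_mul h).1 ⟨h1.1.trans (Nat.mod_modEq n d),
        h1.2.trans (Nat.mod_modEq n e)⟩
    exact Nat.ModEq.eq_of_lt_of_lt h2
      (Nat.chineseRemainder_lt_mul h _ _ hd.ne' he.ne') hn.1
  · intro ab hab
    rw [mem_coe, mem_product, mem_filter, mem_filter, mem_range, mem_range] at hab
    have h1 := (Nat.chineseRemainder h ab.1 ab.2).2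
    have h2 : (Nat.chineseRemainder h ab.1 ab.2 : ℕ) % d = ab.1 % d := h1.1
    have h3 : (Nat.chineseRemainder h ab.1 ab.2 : ℕ) % e = ab.2 % e := h1.2
    exact Prod.ext (h2.trans (Nat.mod_eq_of_lt hab.1.1)) (h3.trans (Nat.mod_eq_of_lt hab.2.1))

theorem rho_two {u : ℕ} (hu : u = 2 ∨ u = 4) : rho u 2 = 1 := by
  rcases hu with rfl | rfl <;> decide

theorem rho_three {u : ℕ} (hu : u = 2 ∨ u = 4) : rho u 3 = 2 := by
  rcases hu with rfl | rfl <;> decide

theorem rho_prime {u p : ℕ} (hu : u = 2 ∨ u = 4) (hp : p.Prime) (h : 3 < p) : rho u p = 3 := by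
  classical
  have : Fact p.Prime := ⟨hp⟩
  have hndvd : ∀ k : ℕ, 0 < k → k < 5 → ((k : ℕ) : ZMod p) ≠ 0 := by
    intro k hk hk5 hz
    rw [ZMod.natCast_eq_zero_iff] at hz
    have h1 := Nat.le_of_dvd hk hz
    have h2 : p = 4 := by omega
    rw [h2] at hp
    exact absurd hp (by norm_num)
  have h6 : ((6 : ℕ) : ZMod p) ≠ 0 := by
    intro hz
    have h1 : ((6 : ℕ) : ZMod p) = ((2 : ℕ) : ZMod p) * ((3 : ℕ) : ZMod p) := by norm_num
    rw [h1] at hz
    rcases mul_eq_zero.1 hz with h2 | h2
    · exact hndvd 2 (by norm_num) (by norm_num) h2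
    · exact hndvd 3 (by norm_num) (by norm_num) h2
  have huz : ((u : ℕ) : ZMod p) ≠ 0 := hndvd u (by omega) (by omega)
  have hu6 : ((u : ℕ) : ZMod p) ≠ ((6 : ℕ) : ZMod p) := by
    intro hz
    have h1 : (((6 - u : ℕ)) : ZMod p) = 0 := by
      rw [Nat.cast_sub (by omega), hz, sub_self]
    exact hndvd (6 - u) (by omega) (by omega) h1
  have hcard : (({0, -(u : ZMod p), -((6 : ℕ) : ZMod p)} : Finset (ZMod p))).card = 3 := by
    rw [Finset.card_eq_three]
    refine ⟨0, -(u : ZMod p), -((6 : ℕ) : ZMod p), ?_, ?_, ?_, rfl⟩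
    · exact fun hc => huz (neg_eq_zero.1 hc.symm)
    · exact fun hc => h6 (neg_eq_zero.1 hc.symm)
    · exact fun hc => hu6 (neg_injective hc)
  rw [← hcard]
  unfold rho
  refine Finset.card_nbij' (fun n => (n : ZMod p)) (fun x => ZMod.val x) ?_ ?_ ?_ ?_
  · intro n hn
    rw [mem_coe, mem_filter, mem_range] at hn
    have h1 : ((n * (n + u) * (n + 6) : ℕ) : ZMod p) = 0 := by
      rw [ZMod.natCast_eq_zero_iff]
      exact hn.2
    rw [Nat.cast_mul, Nat.cast_mul, Nat.cast_add, Nat.cast_add] at h1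
    rw [mem_coe, mem_insert, mem_insert, mem_singleton]
    rcases mul_eq_zero.1 h1 with h2 | h2
    · rcases mul_eq_zero.1 h2 with h3 | h3
      · exact Or.inl h3
      · exact Or.inr (Or.inl (eq_neg_of_add_eq_zero_left h3))
    · exact Or.inr (Or.inr (eq_neg_of_add_eq_zero_left h2))
  · intro x hx
    rw [mem_coe, mem_insert, mem_insert, mem_singleton] at hx
    rw [mem_coe, mem_filter, mem_range]
    refine ⟨ZMod.val_lt x, ?_⟩
    rw [← ZMod.natCast_eq_zero_iff, Nat.cast_mul, Nat.cast_mul, Nat.cast_add, Nat.cast_add,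
      ZMod.natCast_zmod_val]
    rcases hx with h1 | h1 | h1
    · rw [h1]; ring
    · rw [h1]; ring
    · rw [h1]; ring
  · intro n hn
    rw [mem_coe, mem_filter, mem_range] at hn
    exact ZMod.val_cast_of_lt hn.1
  · intro x _
    exact ZMod.natCast_zmod_val x

/-- In a full period the number of solutions is proportional to `rho`. -/
theorem rho_period {u d m : ℕ} (hd : 0 < d) :
    ((range (d * m)).filter (fun n => d ∣ n * (n + u) * (n + 6))).card = m * rho u d := by
  have hper : Function.Periodic (fun n : ℕ => d ∣ n * (n + u) * (n + 6)) d := by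
    intro n
    simp only [eq_iff_iff]
    rw [rho_mod u d (n + d), rho_mod u d n, Nat.add_mod_right]
  have h1 : ∀ k, ((Ico k (k + d)).filter (fun n => d ∣ n * (n + u) * (n + 6))).card =
      rho u d := by
    intro k
    have e1 := Nat.filter_Ico_card_eq_of_periodic k d _ hper
    have e2 := Nat.filter_Ico_card_eq_of_periodic 0 d _ hper
    rw [e1, ← e2, zero_add]
    unfold rho
    rw [Finset.range_eq_Ico]
  induction m with
  | zero => simp
  | succ m ih =>
    have h2 : range (d * (m + 1)) = range (d * m) ∪ Ico (d * m) (d * m + d) := by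
      rw [mul_add, mul_one, Finset.range_eq_Ico, Finset.range_eq_Ico,
        Finset.Ico_union_Ico_eq_Ico (Nat.zero_le _) (Nat.le_add_right _ _)]
    rw [h2, filter_union, card_union_of_disjoint, ih, h1]
    · ring
    · refine disjoint_filter_filter ?_
      rw [Finset.range_eq_Ico]
      exact Finset.Ico_disjoint_Ico_consecutive _ _ _

theorem rho_crt (D : Finset ℕ) (hD : ∀ p ∈ D, p.Prime) (Ω : ℕ → Finset ℕ)
    (hΩ : ∀ p ∈ D, Ω p ⊆ range p) :
    ((range (∏ p ∈ D, p)).filter (fun e => ∀ p ∈ D, e % p ∈ Ω p)).card = ∏ p ∈ D, (Ω p).card := by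
  classical
  induction D using Finset.induction_on with
  | empty => simp
  | insert q D hq ih =>
    have hD' : ∀ p ∈ D, p.Prime := fun p hp => hD p (mem_insert_of_mem hp)
    have hqp : q.Prime := hD q (mem_insert_self _ _)
    specialize ih hD' (fun p hp => hΩ p (mem_insert_of_mem hp))
    rw [prod_insert hq, prod_insert hq, ← ih, ← card_product]
    set M := ∏ p ∈ D, p with hM
    have hMpos : 0 < M := Finset.prod_pos fun p hp => (hD' p hp).pos
    have hco : Nat.Coprime q M := by
      rw [hM]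
      apply Nat.Coprime.prod_right
      intro p hp
      exact (Nat.coprime_primes hqp (hD' p hp)).2 (fun h => hq (h ▸ hp))
    refine Finset.card_nbij' (fun e => (e % q, e % M))
      (fun ab => (Nat.chineseRemainder hco ab.1 ab.2 : ℕ)) ?_ ?_ ?_ ?_
    · intro e he
      simp only [coe_filter, mem_range, Set.mem_ofPred_eq, mem_insert, forall_eq_or_imp] at he
      simp only [coe_product, coe_filter, mem_range, Set.mem_prod, mem_coe, Set.mem_ofPred_eq]
      refine ⟨he.2.1, Nat.mod_lt _ hMpos, ?_⟩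
      intro p hp
      rw [Nat.mod_mod_of_dvd _ (dvd_prod_of_mem _ hp)]
      exact he.2.2 p hp
    · intro ab hab
      simp only [coe_product, coe_filter, mem_range, Set.mem_prod, mem_coe,
        Set.mem_ofPred_eq] at hab
      simp only [coe_filter, mem_range, Set.mem_ofPred_eq, mem_insert, forall_eq_or_imp]
      have h1 := (Nat.chineseRemainder hco ab.1 ab.2).2
      refine ⟨Nat.chineseRemainder_lt_mul hco ab.1 ab.2 hqp.pos.ne' hMpos.ne', ?_, ?_⟩
      · have h2 := h1.1
        unfold Nat.ModEq at h2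
        rw [h2, Nat.mod_eq_of_lt (mem_range.1 (hΩ q (mem_insert_self _ _) hab.1))]
        exact hab.1
      · intro p hp
        have h2 := h1.2.of_dvd (dvd_prod_of_mem (fun p => p) hp)
        unfold Nat.ModEq at h2
        rw [h2]
        exact hab.2.2 p hp
    · intro e he
      rw [mem_coe, mem_filter, mem_range] at he
      have h1 := (Nat.chineseRemainder hco (e % q) (e % M)).2
      have h2 : ((Nat.chineseRemainder hco (e % q) (e % M) : ℕ)) ≡ e [MOD q * M] :=
        (Nat.modEq_and_modEq_iff_modEq_mul hco).1 ⟨h1.1.trans (Nat.mod_modEq e q),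
          h1.2.trans (Nat.mod_modEq e M)⟩
      exact Nat.ModEq.eq_of_lt_of_lt h2
        (Nat.chineseRemainder_lt_mul hco _ _ hqp.pos.ne' hMpos.ne') he.1
    · intro ab hab
      rw [mem_coe, mem_product, mem_filter, mem_range] at hab
      have h1 := (Nat.chineseRemainder hco ab.1 ab.2).2
      have h2 : (Nat.chineseRemainder hco ab.1 ab.2 : ℕ) % q = ab.1 % q := h1.1
      have h3 : (Nat.chineseRemainder hco ab.1 ab.2 : ℕ) % M = ab.2 % M := h1.2
      exact Prod.ext
        (h2.trans (Nat.mod_eq_of_lt (mem_range.1 (hΩ q (mem_insert_self _ _) hab.1))))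
        (h3.trans (Nat.mod_eq_of_lt hab.2.1))

theorem coprime_count {u : ℕ} (T : Finset ℕ) (hT : ∀ p ∈ T, p.Prime) :
    ((range (∏ p ∈ T, p)).filter (fun n => ∀ p ∈ T, ¬ p ∣ n * (n + u) * (n + 6))).card =
      ∏ p ∈ T, (p - rho u p) := by
  have h1 := rho_crt T hT (fun p => (range p).filter (fun n => ¬ p ∣ n * (n + u) * (n + 6)))
    (fun p _ => filter_subset _ _)
  have h2 : ∀ p, ((range p).filter (fun n => ¬ p ∣ n * (n + u) * (n + 6))).card =
      p - rho u p := by
    intro p
    have h3 := card_filter_add_card_filter_not (s := range p) (fun n => p ∣ n * (n + u) * (n + 6))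
    rw [card_range] at h3
    unfold rho
    omega
  simp only [h2] at h1
  rw [← h1]
  congr 1
  ext n
  rw [mem_filter, mem_filter]
  refine and_congr_right fun _ => forall₂_congr fun p hp => ?_
  rw [mem_filter, mem_range]
  constructor
  · intro h
    exact ⟨Nat.mod_lt _ (hT p hp).pos, fun hd => h ((rho_mod u p n).2 hd)⟩
  · intro h hd
    exact h.2 ((rho_mod u p n).1 hd)

end Pool.Agent.SVB
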