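import Mathlib
import Pool.Agent.SVB.Crt
import Pool.Agent.SVB.Rho

set_option autoImplicit false

/-!
# Project SVB: Sieve

C(A) = sum_(a < W) sum_(e | W, e prod A <= R) lam(e prod A) [e | a(a+u)(a+6)], W = prod pw w.
sum_(A subset B) C(A) = sum_a th(n(a,B)) >= 0 with n(a,B) from crt_set: the squarefree d <= R dividing n(n+u)(n+6) are the e prod A with e | W, e | a(a+u)(a+6)
and A subset B. C(empty) = sum_a th(n(a,empty)) >= number of a < W with a(a+u)(a+6) prime to W (coprime_count). Last identity: rho_period, rho_mul, rho_prime: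
rho(e prod A) = rho(e) 3^|A|. (If R < w the set SS w R is empty, nothing special.)
-/

namespace Pool.Agent.SVB

open Finset Filter Topology
open Pool.Agent.MT (IsWt Z1)

lemma sieve_pw {w p : ℕ} : p ∈ pw w ↔ p ≤ w ∧ p.Prime := by
  unfold pw
  rw [Finset.mem_filter, Finset.mem_range, Nat.lt_succ_iff]

lemma sieve_SS {w R p : ℕ} : p ∈ SS w R ↔ (w < p ∧ p ≤ R) ∧ p.Prime := by
  unfold SS
  rw [Finset.mem_filter, Finset.mem_Ioc]

lemma sieve_dvd_W {w p : ℕ} (hp : p.Prime) (h : p ∣ ∏ q ∈ pw w, q) : p ≤ w := by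
  rw [hp.prime.dvd_finsetProd_iff] at h
  obtain ⟨q, hq, hpq⟩ := h
  rw [sieve_pw] at hq
  rw [(Nat.prime_dvd_prime_iff_eq hp hq.2).1 hpq]
  exact hq.1

lemma sieve_dvd_A {w R p : ℕ} {A : Finset ℕ} (hA : A ⊆ SS w R) (hp : p.Prime) :
    p ∣ ∏ q ∈ A, q ↔ p ∈ A := by
  constructor
  · intro h
    rw [hp.prime.dvd_finsetProd_iff] at h
    obtain ⟨q, hq, hpq⟩ := h
    rw [(Nat.prime_dvd_prime_iff_eq hp (sieve_SS.1 (hA hq)).2).1 hpq]
    exact hq
  · intro h
    exact Finset.dvd_prod_of_mem _ h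

lemma sieve_W_pos (w : ℕ) : 0 < ∏ q ∈ pw w, q :=
  Finset.prod_pos fun q hq => (sieve_pw.1 hq).2.pos

lemma sieve_A_pos {w R : ℕ} {A : Finset ℕ} (hA : A ⊆ SS w R) : 0 < ∏ q ∈ A, q :=
  Finset.prod_pos fun q hq => (sieve_SS.1 (hA hq)).2.pos

lemma sieve_sqf {s : Finset ℕ} (hs : ∀ p ∈ s, p.Prime) : Squarefree (∏ q ∈ s, q) := by
  classical
  induction s using Finset.induction_on with
  | empty => simp
  | insert p s hp ih =>
    rw [Finset.prod_insert hp, Nat.squarefree_mul_iff]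
    refine ⟨?_, (hs p (Finset.mem_insert_self _ _)).squarefree,
      ih fun q hq => hs q (Finset.mem_insert_of_mem hq)⟩
    refine Nat.Coprime.prod_right fun q hq => ?_
    rw [Nat.coprime_primes (hs p (Finset.mem_insert_self _ _))
      (hs q (Finset.mem_insert_of_mem hq))]
    rintro rfl
    exact hp hq

lemma sieve_coprime {w R e : ℕ} {A : Finset ℕ} (hA : A ⊆ SS w R) (he : e ∣ ∏ q ∈ pw w, q) :
    Nat.Coprime e (∏ q ∈ A, q) := by
  apply Nat.Coprime.coprime_dvd_left he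
  rw [Nat.coprime_comm]
  refine Nat.Coprime.prod_left fun p hp => ?_
  refine Nat.Coprime.prod_right fun q hq => ?_
  have h1 := sieve_SS.1 (hA hp)
  have h2 := sieve_pw.1 hq
  rw [Nat.coprime_primes h1.2 h2.2]
  omega

/-- squarefree numbers as products -/
lemma sieve_sum (w R : ℕ) (f : ℕ → ℝ) :
    ∑ d ∈ (Icc 1 R).filter Squarefree, f d =
      ∑ A ∈ (SS w R).powerset, ∑ e ∈ (∏ p ∈ pw w, p).divisors.filter
        (fun e => e * ∏ p ∈ A, p ≤ R), f (e * ∏ p ∈ A, p) := by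
  classical
  rw [Finset.sum_sigma']
  symm
  refine Finset.sum_bij (fun z _ => z.2 * ∏ p ∈ z.1, p) ?_ ?_ ?_ ?_
  · rintro ⟨A, e⟩ hz
    simp only [Finset.mem_sigma, Finset.mem_powerset, Finset.mem_filter, Nat.mem_divisors] at hz
    obtain ⟨hA, ⟨he, -⟩, hR⟩ := hz
    simp only [Finset.mem_filter, Finset.mem_Icc]
    refine ⟨⟨?_, hR⟩, ?_⟩
    · exact Nat.mul_pos (Nat.pos_of_dvd_of_pos he (sieve_W_pos w)) (sieve_A_pos hA)
    · rw [Nat.squarefree_mul_iff]
      exact ⟨sieve_coprime hA he,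
        (sieve_sqf fun p hp => (sieve_pw.1 hp).2).squarefree_of_dvd he,
        sieve_sqf fun p hp => (sieve_SS.1 (hA hp)).2⟩
  · rintro ⟨A, e⟩ hz ⟨A', e'⟩ hz' h
    simp only [Finset.mem_sigma, Finset.mem_powerset, Finset.mem_filter, Nat.mem_divisors]
      at hz hz'
    obtain ⟨hA, ⟨he, -⟩, hR⟩ := hz
    obtain ⟨hA', ⟨he', -⟩, hR'⟩ := hz'
    have key : ∀ (A A' : Finset ℕ) (e e' : ℕ), A ⊆ SS w R → A' ⊆ SS w R →
        e ∣ ∏ p ∈ pw w, p → e' ∣ ∏ p ∈ pw w, p →
        e * ∏ p ∈ A, p = e' * ∏ p ∈ A', p → A ⊆ A' := by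
      intro A A' e e' hA hA' he he' h p hp
      have hp1 := sieve_SS.1 (hA hp)
      have h1 : p ∣ e' * ∏ p ∈ A', p := by
        rw [← h]
        exact Dvd.dvd.mul_left (Finset.dvd_prod_of_mem _ hp) _
      rcases (Nat.Prime.dvd_mul hp1.2).1 h1 with h2 | h2
      · have := sieve_dvd_W hp1.2 (h2.trans he')
        omega
      · exact (sieve_dvd_A hA' hp1.2).1 h2
    have hAA : A = A' := Finset.Subset.antisymm (key A A' e e' hA hA' he he' h)
      (key A' A e' e hA' hA he' he h.symm)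
    subst hAA
    have hee : e = e' := Nat.eq_of_mul_eq_mul_right (sieve_A_pos hA) h
    rw [hee]
  · intro d hd
    simp only [Finset.mem_filter, Finset.mem_Icc] at hd
    obtain ⟨⟨hd1, hdR⟩, hsq⟩ := hd
    have hprod : (∏ p ∈ d.primeFactors.filter (fun p => ¬ w < p), p) *
        ∏ p ∈ d.primeFactors.filter (fun p => w < p), p = d := by
      rw [mul_comm, Finset.prod_filter_mul_prod_filter_not]
      exact Nat.prod_primeFactors_of_squarefree hsq
    refine ⟨⟨d.primeFactors.filter (fun p => w < p),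
      ∏ p ∈ d.primeFactors.filter (fun p => ¬ w < p), p⟩, ?_, hprod⟩
    simp only [Finset.mem_sigma, Finset.mem_powerset, Finset.mem_filter, Nat.mem_divisors]
    refine ⟨?_, ⟨?_, (sieve_W_pos w).ne'⟩, ?_⟩
    · intro p hp
      rw [Finset.mem_filter] at hp
      rw [sieve_SS]
      exact ⟨⟨hp.2, (Nat.le_of_mem_primeFactors hp.1).trans hdR⟩,
        Nat.prime_of_mem_primeFactors hp.1⟩
    · apply Finset.prod_dvd_prod_of_subset
      intro p hp
      rw [Finset.mem_filter, not_lt] at hp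
      exact sieve_pw.2 ⟨hp.2, Nat.prime_of_mem_primeFactors hp.1⟩
    · rw [hprod]
      exact hdR
  · rintro ⟨A, e⟩ _
    rfl

lemma sieve_poly {m u n a : ℕ} (h : n ≡ a [MOD m]) :
    n * (n + u) * (n + 6) ≡ a * (a + u) * (a + 6) [MOD m] :=
  Nat.ModEq.mul (Nat.ModEq.mul h (Nat.ModEq.add_right _ h)) (Nat.ModEq.add_right _ h)

/-- the coefficients -/
noncomputable def sieveC (w R u : ℕ) (lam : ℕ → ℝ) (A : Finset ℕ) : ℝ :=
  ∑ a ∈ range (∏ p ∈ pw w, p), ∑ e ∈ (∏ p ∈ pw w, p).divisors.filter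
    (fun e => e * ∏ p ∈ A, p ≤ R),
      if e ∣ a * (a + u) * (a + 6) then lam (e * ∏ p ∈ A, p) else 0

lemma sieve_th {w R u : ℕ} (lam : ℕ → ℝ) {a n : ℕ} {B : Finset ℕ} (hB : B ⊆ SS w R)
    (hn : n ≡ a [MOD ∏ p ∈ pw w, p])
    (hn' : ∀ p ∈ SS w R, (p ∣ n * (n + u) * (n + 6) ↔ p ∈ B)) :
    th lam R u n = ∑ A ∈ B.powerset, ∑ e ∈ (∏ p ∈ pw w, p).divisors.filter
      (fun e => e * ∏ p ∈ A, p ≤ R),
      if e ∣ a * (a + u) * (a + 6) then lam (e * ∏ p ∈ A, p) else 0 := by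
  classical
  have h1 : th lam R u n = ∑ d ∈ (Icc 1 R).filter Squarefree,
      if d ∣ n * (n + u) * (n + 6) then lam d else 0 := by
    unfold th
    rw [← Finset.sum_filter, Finset.filter_filter]
  rw [h1, sieve_sum w R]
  symm
  have h2 : ∀ A ∈ B.powerset, (∑ e ∈ (∏ p ∈ pw w, p).divisors.filter
      (fun e => e * ∏ p ∈ A, p ≤ R),
      if e ∣ a * (a + u) * (a + 6) then lam (e * ∏ p ∈ A, p) else 0) =
      ∑ e ∈ (∏ p ∈ pw w, p).divisors.filter (fun e => e * ∏ p ∈ A, p ≤ R),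
      if e * (∏ p ∈ A, p) ∣ n * (n + u) * (n + 6) then lam (e * ∏ p ∈ A, p) else 0 := by
    intro A hA
    rw [Finset.mem_powerset] at hA
    refine Finset.sum_congr rfl fun e he => ?_
    simp only [Finset.mem_filter, Nat.mem_divisors] at he
    have hmod : n * (n + u) * (n + 6) ≡ a * (a + u) * (a + 6) [MOD e] :=
      sieve_poly (hn.of_dvd he.1.1)
    have h3 : e ∣ a * (a + u) * (a + 6) ↔ e * (∏ p ∈ A, p) ∣ n * (n + u) * (n + 6) := by
      constructor
      · intro h4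
        have h5 : e ∣ n * (n + u) * (n + 6) := (hmod.dvd_iff dvd_rfl).2 h4
        refine Nat.Coprime.mul_dvd_of_dvd_of_dvd
          (sieve_coprime (hA.trans hB) he.1.1) h5 ?_
        refine Finset.prod_primes_dvd _ ?_ ?_
        · intro p hp
          exact (sieve_SS.1 (hB (hA hp))).2.prime
        · intro p hp
          exact (hn' p (hB (hA hp))).2 (hA hp)
      · intro h4
        exact (hmod.dvd_iff dvd_rfl).1 ((Dvd.intro _ rfl).trans h4)
    simp only [h3]
  rw [Finset.sum_congr rfl h2]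
  refine Finset.sum_subset (Finset.powerset_mono.2 hB) ?_
  intro A hA hAB
  rw [Finset.mem_powerset] at hA hAB
  refine Finset.sum_eq_zero fun e _ => ?_
  rw [if_neg]
  intro h4
  apply hAB
  intro p hp
  refine (hn' p (hA hp)).1 ?_
  exact ((Finset.dvd_prod_of_mem _ hp).trans (Dvd.intro_left _ rfl)).trans h4

theorem sieve_C {w R u : ℕ} (hw : 7 ≤ w) (hu : u = 2 ∨ u = 4) (lam : ℕ → ℝ)
    (h0 : ∀ n : ℕ, 0 < n → 0 ≤ th lam R u n)
    (h1 : ∀ n : ℕ, 0 < n → (∀ p : ℕ, p.Prime → p ≤ R → ¬ p ∣ n * (n + u) * (n + 6)) →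
      1 ≤ th lam R u n) :
    ∃ C : Finset ℕ → ℝ, (∀ B, B ⊆ SS w R → 0 ≤ ∑ A ∈ B.powerset, C A) ∧
      (∀ A, A ⊆ SS w R → R < ∏ p ∈ A, p → C A = 0) ∧
      ((∏ p ∈ pw w, (p - rho u p) : ℕ) : ℝ) ≤ C ∅ ∧
      ∑ A ∈ (SS w R).powerset, (∏ p ∈ A, 3 / (p : ℝ)) * C A =
        ((∏ p ∈ pw w, p : ℕ) : ℝ) * MM lam R u := by
  classical
  have hsum : ∀ B, B ⊆ SS w R → ∀ nn : ℕ → ℕ,
      (∀ a, nn a ≡ a [MOD ∏ p ∈ pw w, p] ∧
        ∀ p ∈ SS w R, (p ∣ nn a * (nn a + u) * (nn a + 6) ↔ p ∈ B)) →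
      ∑ A ∈ B.powerset, sieveC w R u lam A =
        ∑ a ∈ range (∏ p ∈ pw w, p), th lam R u (nn a) := by
    intro B hB nn hnn
    unfold sieveC
    rw [Finset.sum_comm]
    refine Finset.sum_congr rfl fun a _ => ?_
    rw [sieve_th lam hB (hnn a).1 (hnn a).2]
  refine ⟨sieveC w R u lam, ?_, ?_, ?_, ?_⟩
  · intro B hB
    choose nn hnn0 hnn1 hnn2 using fun a => crt_set hw hu a hB
    rw [hsum B hB nn fun a => ⟨hnn1 a, hnn2 a⟩]
    exact Finset.sum_nonneg fun a _ => h0 _ (hnn0 a)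
  · intro A hA hR
    unfold sieveC
    refine Finset.sum_eq_zero fun a _ => ?_
    refine Finset.sum_eq_zero fun e he => ?_
    exfalso
    simp only [Finset.mem_filter, Nat.mem_divisors] at he
    have he1 : 0 < e := Nat.pos_of_dvd_of_pos he.1.1 (sieve_W_pos w)
    have : ∏ p ∈ A, p ≤ e * ∏ p ∈ A, p := Nat.le_mul_of_pos_left _ he1
    omega
  · choose nn hnn0 hnn1 hnn2 using fun a => crt_set hw hu a (Finset.empty_subset (SS w R))
    have h2 := hsum ∅ (Finset.empty_subset _) nn fun a => ⟨hnn1 a, hnn2 a⟩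
    rw [Finset.powerset_empty, Finset.sum_singleton] at h2
    rw [h2, ← coprime_count (pw w) fun p hp => (sieve_pw.1 hp).2]
    rw [Finset.card_eq_sum_ones, Finset.sum_filter]
    push_cast
    refine Finset.sum_le_sum fun a _ => ?_
    split_ifs with h3
    · refine h1 _ (hnn0 a) ?_
      intro p hp hpR hdvd
      by_cases hpw : p ≤ w
      · have hpm : p ∈ pw w := sieve_pw.2 ⟨hpw, hp⟩
        have hmod : nn a * (nn a + u) * (nn a + 6) ≡ a * (a + u) * (a + 6) [MOD p] :=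
          sieve_poly ((hnn1 a).of_dvd (Finset.dvd_prod_of_mem _ hpm))
        exact h3 p hpm ((hmod.dvd_iff dvd_rfl).1 hdvd)
      · have hpS : p ∈ SS w R := sieve_SS.2 ⟨⟨by omega, hpR⟩, hp⟩
        exact absurd ((hnn2 a p hpS).1 hdvd) (Finset.notMem_empty _)
    · exact h0 _ (hnn0 a)
  · unfold MM
    rw [sieve_sum w R, Finset.mul_sum]
    refine Finset.sum_congr rfl fun A hA => ?_
    rw [Finset.mem_powerset] at hA
    unfold sieveC
    rw [Finset.sum_comm, Finset.mul_sum, Finset.mul_sum]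
    refine Finset.sum_congr rfl fun e he => ?_
    simp only [Finset.mem_filter, Nat.mem_divisors] at he
    have he1 : 0 < e := Nat.pos_of_dvd_of_pos he.1.1 (sieve_W_pos w)
    obtain ⟨m, hm⟩ := he.1.1
    rw [← Finset.sum_filter, Finset.sum_const, nsmul_eq_mul]
    have h3 : ((range (∏ p ∈ pw w, p)).filter
        (fun a => e ∣ a * (a + u) * (a + 6))).card = m * rho u e := by
      rw [hm]
      exact rho_period he1
    rw [h3]
    have h4 : rho u (e * ∏ p ∈ A, p) = rho u e * 3 ^ A.card := by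
      rw [rho_mul he1 (sieve_A_pos hA) (sieve_coprime hA he.1.1)]
      congr 1
      have h5 : ∀ A' ⊆ A, rho u (∏ p ∈ A', p) = 3 ^ A'.card := by
        intro A'
        induction A' using Finset.induction_on with
        | empty =>
          intro _
          rw [Finset.prod_empty, Finset.card_empty, pow_zero]
          unfold rho
          simp
        | insert p s hp ih =>
          intro hs
          have hpA : p ∈ A := hs (Finset.mem_insert_self _ _)
          have hsA : s ⊆ A := (Finset.subset_insert _ _).trans hs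
          have hp1 := sieve_SS.1 (hA hpA)
          rw [Finset.prod_insert hp, Finset.card_insert_of_notMem hp, pow_succ,
            rho_mul hp1.2.pos (sieve_A_pos (hsA.trans hA)), ih hsA,
            rho_prime hu hp1.2 (by omega), mul_comm]
          refine Nat.Coprime.prod_right fun q hq => ?_
          rw [Nat.coprime_primes hp1.2 (sieve_SS.1 (hA (hsA hq))).2]
          rintro rfl
          exact hp hq
      exact h5 A (Finset.Subset.refl _)
    rw [h4, hm]
    have he2 : (e : ℝ) ≠ 0 := by exact_mod_cast he1.ne'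
    have hA2 : (∏ p ∈ A, (p : ℝ)) ≠ 0 := by
      rw [Finset.prod_ne_zero_iff]
      intro p hp
      have := (sieve_SS.1 (hA hp)).2.pos
      exact_mod_cast this.ne'
    rw [Finset.prod_div_distrib, Finset.prod_const]
    push_cast
    field_simp

end Pool.Agent.SVB
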