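import Mathlib
import Pool.Agent.SVB.Rho
import Pool.Agent.MT.Omega

set_option autoImplicit false

/-!
# Project SVB: Small

QQ_le: (1+3/p)/(1-3/p) <= 1 + 9/p for p >= 9, MT.Omega prod_primes 9. prod_D: local factors 4 (p=2), 9/8 (p=3), p^2(p-3)/(p-1)^3.
-/

namespace Pool.Agent.SVB

open Finset Filter Topology
open Pool.Agent.MT (IsWt Z1)

theorem QQ_le : ∃ C : ℕ, ∀ w R : ℕ, 7 ≤ w → 3 ≤ R → QQ w R ≤ C * Real.log R ^ C := by
  obtain ⟨C, hC⟩ := Pool.Agent.MT.prod_primes 9
  refine ⟨C, fun w R hw hR => ?_⟩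
  refine le_trans ?_ (hC R hR)
  have hmem : ∀ p ∈ SS w R, p.Prime ∧ 9 ≤ p ∧ p ≤ R := by
    intro p hp
    unfold SS at hp
    rw [mem_filter, mem_Ioc] at hp
    obtain ⟨⟨h1, h2⟩, h3⟩ := hp
    refine ⟨h3, ?_, h2⟩
    by_contra h
    have h8 : p = 8 := by omega
    rw [h8] at h3
    exact absurd h3 (by norm_num)
  calc QQ w R ≤ ∏ p ∈ SS w R, (1 + ((9 : ℕ) : ℝ) / p) := by
        unfold QQ
        apply Finset.prod_le_prod
        · intro p hp
          obtain ⟨_, h9, _⟩ := hmem p hp
          have h9' : (9 : ℝ) ≤ p := by exact_mod_cast h9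
          have hp0 : (0 : ℝ) < p := by linarith
          have h3 : 3 / (p : ℝ) ≤ 1 := by
            rw [div_le_one hp0]
            linarith
          have h4 : 0 ≤ 3 / (p : ℝ) := by positivity
          exact div_nonneg (by linarith) (by linarith)
        · intro p hp
          obtain ⟨_, h9, _⟩ := hmem p hp
          have h9' : (9 : ℝ) ≤ p := by exact_mod_cast h9
          have hp0 : (0 : ℝ) < p := by linarith
          have h3 : 0 < 1 - 3 / (p : ℝ) := by
            rw [sub_pos, div_lt_one hp0]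
            linarith
          rw [div_le_iff₀ h3]
          have h4 : (1 + ((9 : ℕ) : ℝ) / p) * (1 - 3 / (p : ℝ)) - (1 + 3 / (p : ℝ)) =
              3 * ((p : ℝ) - 9) / (p : ℝ) ^ 2 := by
            push_cast
            field_simp
            ring
          have h5 : 0 ≤ 3 * ((p : ℝ) - 9) / (p : ℝ) ^ 2 :=
            div_nonneg (by linarith) (by positivity)
          linarith
    _ ≤ ∏ p ∈ (range (R + 1)).filter Nat.Prime, (1 + ((9 : ℕ) : ℝ) / p) := by
        apply Finset.prod_le_prod_of_subset_of_one_le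
        · intro p hp
          obtain ⟨h1, _, h2⟩ := hmem p hp
          rw [mem_filter, mem_range]
          exact ⟨by omega, h1⟩
        · intro p _
          positivity
        · intro p _ _
          have : 0 ≤ ((9 : ℕ) : ℝ) / (p : ℝ) := by positivity
          linarith

theorem prod_D {u : ℕ} (hu : u = 2 ∨ u = 4) {w : ℕ} (hw : 3 ≤ w) :
    (∏ p ∈ pw w, (1 - (rho u p : ℝ) / p)) * (∏ p ∈ pw w, (1 - 1 / (p : ℝ))⁻¹) ^ 3 =
      (9 / 2 : ℝ) * ∏ p ∈ (range (w + 1)).filter (fun p => p.Prime ∧ 3 < p),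
        ((p : ℝ) ^ 2 * ((p : ℝ) - 3) / ((p : ℝ) - 1) ^ 3) := by
  rw [← Finset.prod_pow, ← Finset.prod_mul_distrib]
  have hpw : pw w = insert 2 (insert 3
      ((range (w + 1)).filter (fun p => p.Prime ∧ 3 < p))) := by
    ext p
    unfold pw
    simp only [mem_filter, mem_range, mem_insert]
    constructor
    · rintro ⟨h1, h2⟩
      by_cases h3 : 3 < p
      · exact Or.inr (Or.inr ⟨h1, h2, h3⟩)
      · have h4 := h2.two_le
        have : p = 2 ∨ p = 3 := by omega
        rcases this with h | h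
        · exact Or.inl h
        · exact Or.inr (Or.inl h)
    · rintro (h | h | ⟨h1, h2, _⟩)
      · rw [h]
        exact ⟨by omega, Nat.prime_two⟩
      · rw [h]
        exact ⟨by omega, Nat.prime_three⟩
      · exact ⟨h1, h2⟩
  rw [hpw, Finset.prod_insert, Finset.prod_insert]
  · rw [rho_two hu, rho_three hu, ← mul_assoc]
    congr 1
    · norm_num
    · refine Finset.prod_congr rfl fun p hp => ?_
      rw [mem_filter] at hp
      obtain ⟨_, h1, h2⟩ := hp
      rw [rho_prime hu h1 h2]
      have h2' : (3 : ℝ) < p := by exact_mod_cast h2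
      have hp0 : (p : ℝ) ≠ 0 := by
        have : (0 : ℝ) < p := by linarith
        exact this.ne'
      have hp1 : (p : ℝ) - 1 ≠ 0 := by
        have : (0 : ℝ) < p - 1 := by linarith
        exact this.ne'
      have e1 : (1 - 1 / (p : ℝ))⁻¹ = p / (p - 1) := by
        field_simp
      rw [e1]
      push_cast
      field_simp
  · simp
  · simp

end Pool.Agent.SVB
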