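import Mathlib
import Pool.Agent.SVB.DensOne
import Pool.Agent.SVB.Coin
import Pool.Agent.SVB.Core
import Pool.Agent.SVB.Sieve
import Pool.Agent.SVB.Atom
import Pool.Agent.SVB.Small
import Pool.Agent.MT.Wt

set_option autoImplicit false

/-!
# Project SVB: the theorem
-/

namespace Pool.Agent.SVB

open Finset Filter Topology
open Pool.Agent.MT (IsWt Z1)

/-- The constant. -/
noncomputable def Vc : ℝ := 8 * (1 + (Real.log 2 / (2 - Real.log 2)) ^ 3)

theorem kap_lim : Tendsto (fun N : ℕ => 8 * (1 + kap N)) atTop (𝓝 Vc) := by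
  unfold kap Vc
  have h : (2 : ℝ) - Real.log 2 ≠ 0 := by
    have := Real.log_two_lt_d9
    linarith
  exact ((((ell_lim.div (tendsto_const_nhds.sub ell_lim) h).pow 3).const_add 1).const_mul 8)

theorem pw_prime {w p : ℕ} (hp : p ∈ pw w) : p.Prime := by
  unfold pw at hp
  exact (mem_filter.1 hp).2

theorem log_tendsto : Tendsto (fun N : ℕ => Real.log (N : ℝ)) atTop atTop :=
  Real.tendsto_log_atTop.comp tendsto_natCast_atTop_atTop

theorem Vc_ge : 8 ≤ Vc := by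
  unfold Vc
  have h1 := Real.log_two_gt_d9
  have h2 := Real.log_two_lt_d9
  have h3 : 0 ≤ Real.log 2 / (2 - Real.log 2) := div_nonneg (by linarith) (by linarith)
  have h4 : 0 ≤ (Real.log 2 / (2 - Real.log 2)) ^ 3 := pow_nonneg h3 3
  linarith

theorem level_N {u : ℕ} (hu : u = 2 ∨ u = 4) {η : ℝ → ℝ} (hη : IsWt η) {D : ℝ}
    (hD : Tendsto (fun K : ℕ => (9 / 2 : ℝ) * ∏ p ∈ (range K).filter (fun p => p.Prime ∧ 3 < p),
      ((p : ℝ) ^ 2 * ((p : ℝ) - 3) / ((p : ℝ) - 1) ^ 3)) atTop (𝓝 D)) (hD0 : 0 < D)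
    {t : ℝ} (ht : 0 < t) (ht1 : t < 1 / 10) :
    ∀ᶠ N : ℕ in atTop, ∀ R : ℕ, (N : ℝ) ^ (3 / 4 : ℝ) ≤ R → (R : ℝ) ≤ (N : ℝ) ^ (1 - t) →
    ∀ lam : ℕ → ℝ, (∀ n : ℕ, 0 < n → 0 ≤ th lam R u n) →
    (∀ n : ℕ, 0 < n → (∀ p : ℕ, p.Prime → p ≤ R → ¬ p ∣ n * (n + u) * (n + 6)) →
      1 ≤ th lam R u n) →
    (1 - t) ^ 6 / (1 + t) * (Vc * D / Real.log N ^ 3) ≤ MM lam R u := by
  obtain ⟨C₀, hQ⟩ := QQ_le
  set A := C₀ + 1 with hA
  set B := C₀ + 5 with hB
  have hwt : Tendsto (fun N : ℕ => wN B N + 1) atTop atTop := by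
    apply tendsto_atTop_mono (fun N => Nat.le_succ _)
    unfold wN
    apply tendsto_nat_ceil_atTop.comp
    exact (tendsto_pow_atTop (by omega)).comp log_tendsto
  have hDw := hD.comp hwt
  have hev := fun c : ℝ => log_tendsto.eventually_ge_atTop c
  filter_upwards [dens_one η hη t ht (by linarith) A B, atom_sum η hη B t ht (by linarith) t ht,
    eventually_ge_atTop 16, hwt.eventually_ge_atTop 8,
    hDw.eventually_const_lt (show (1 - t) * D < D by nlinarith),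
    kap_lim.eventually_const_lt (show (1 - t) * Vc < Vc by nlinarith [Vc_ge]),
    kap_lim.eventually_const_lt (show 7 < Vc by linarith [Vc_ge]),
    hev 1, hev (12288 * 2 / (7 * t * (1 - t) ^ 3)), hev ((C₀ + 12288 * 2 * C₀) / t)] with
    N hdens hatom hN16 hw8 hDN hkap hkap7 hL1 hL2 hL3
  intro R hR1 hR2 lam h0 h1
  set w := wN B N with hwdef
  set L := Real.log (N : ℝ) with hL
  set Z := Z1 η N with hZ
  have hd := hdens R hR1 hR2
  have ha := hatom R hR2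
  have hNr : (16 : ℝ) ≤ N := by exact_mod_cast hN16
  have hR8 : (8 : ℝ) ≤ R := by
    have h2 : (16 : ℝ) ^ (3 / 4 : ℝ) = 8 := by
      rw [show (16 : ℝ) = 2 ^ (4 : ℝ) by norm_num, ← Real.rpow_mul (by norm_num)]
      norm_num
    calc (8 : ℝ) = 16 ^ (3 / 4 : ℝ) := h2.symm
      _ ≤ (N : ℝ) ^ (3 / 4 : ℝ) := Real.rpow_le_rpow (by norm_num) hNr (by norm_num)
      _ ≤ R := hR1
  have hR8' : 8 ≤ R := by exact_mod_cast hR8
  have hRN : (R : ℝ) ≤ N := by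
    calc (R : ℝ) ≤ (N : ℝ) ^ (1 - t) := hR2
      _ ≤ (N : ℝ) ^ (1 : ℝ) := Real.rpow_le_rpow_of_exponent_le (by linarith) (by linarith)
      _ = N := Real.rpow_one _
  have hRN' : R ≤ N := by exact_mod_cast hRN
  obtain ⟨hZ1, hZ2⟩ := Pool.Agent.MT.Z1_bounds η hη N hN16
  rw [← hZ] at hZ1 hZ2
  have hZ0 : 0 < Z := by linarith
  have hw7 : 7 ≤ w := by omega
  have hwr : (7 : ℝ) ≤ w := by exact_mod_cast hw7
  have hwB : L ^ B ≤ w := by
    rw [hwdef]
    unfold wN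
    exact Nat.le_ceil _
  -- the coincidences
  set τ' : ℝ := 768 * (L + 1) / w with hτ'
  have hτ'0 : 0 ≤ τ' := by positivity
  have hcoin : ∀ f₁ f₂ f₃ : ℕ, 0 < f₁ → 0 < f₂ → 0 < f₃ → Nat.Coprime f₁ f₂ → Nat.Coprime f₁ f₃ →
      Nat.Coprime f₂ f₃ → f₁ * f₂ * f₃ ≤ R →
      S3 η N f₁ f₂ f₃ (cc w) ≤ τ' * (Z ^ 3 / (f₁ * f₂ * f₃)) := by
    intro f₁ f₂ f₃ hf₁ hf₂ hf₃ c₁₂ c₁₃ c₂₃ hf
    have k1 : f₁ ≤ f₁ * f₂ * f₃ := by
      rw [mul_assoc]
      exact Nat.le_mul_of_pos_right _ (Nat.mul_pos hf₂ hf₃)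
    have k2 : f₂ ≤ f₁ * f₂ * f₃ := by
      calc f₂ ≤ f₁ * f₂ := Nat.le_mul_of_pos_left _ hf₁
        _ ≤ f₁ * f₂ * f₃ := Nat.le_mul_of_pos_right _ hf₃
    have k3 : f₃ ≤ f₁ * f₂ * f₃ := Nat.le_mul_of_pos_left _ (Nat.mul_pos hf₁ hf₂)
    refine (coin hη (by omega) (by omega : 1 ≤ w) hf₁ hf₂ hf₃ c₁₂ c₁₃ c₂₃ (by omega) (by omega)
      (by omega)).trans ?_
    have hf₁' : (0 : ℝ) < f₁ := by exact_mod_cast hf₁
    have hf₂' : (0 : ℝ) < f₂ := by exact_mod_cast hf₂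
    have hf₃' : (0 : ℝ) < f₃ := by exact_mod_cast hf₃
    have hN3 : (N : ℝ) ^ 3 ≤ 64 * Z ^ 3 := by
      have h4 : (N : ℝ) ≤ 4 * Z := by linarith
      calc (N : ℝ) ^ 3 ≤ (4 * Z) ^ 3 := pow_le_pow_left₀ (by linarith) h4 3
        _ = 64 * Z ^ 3 := by ring
    calc (N : ℝ) ^ 3 / (f₁ * f₂ * f₃) * (12 * (L + 1) / w)
        ≤ (64 * Z ^ 3) / (f₁ * f₂ * f₃) * (12 * (L + 1) / w) := by
          apply mul_le_mul_of_nonneg_right _ (by positivity)
          exact div_le_div_of_nonneg_right hN3 (by positivity)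
      _ = τ' * (Z ^ 3 / (f₁ * f₂ * f₃)) := by
          rw [hτ']
          ring
  obtain ⟨C, hC0, hC1, hC2, hC3⟩ := sieve_C (w := w) hw7 hu lam h0 h1
  have hV7 : 7 < 8 * (1 + kap N) := hkap7
  set V := 8 * (1 + kap N) with hV
  set τ : ℝ := 1 / L ^ A with hτ
  have hcore := core hη hd hw7 (by omega : 1 ≤ R) (by norm_num) (by linarith) (by positivity) hτ'0
    hcoin C hC0 hC1
  rw [hC3, ← hZ] at hcore
  -- numerical facts
  set E := ∏ p ∈ pw w, (1 - 1 / (p : ℝ))⁻¹ with hE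
  have hE1 : 1 ≤ E := by
    have h2 : ∏ p ∈ pw w, (1 : ℝ) ≤ E := by
      rw [hE]
      apply prod_le_prod (fun _ _ => zero_le_one)
      intro p hp
      have hp1 : (1 : ℝ) < p := by
        exact_mod_cast (pw_prime hp).one_lt
      rw [one_le_inv₀]
      · have : 0 ≤ 1 / (p : ℝ) := by positivity
        linarith
      · rw [sub_pos, div_lt_one (by linarith)]
        exact hp1
    simpa using h2
  have ht' : 0 < 1 - t := by linarith
  have h16τ' : 16 * τ' ≤ t * (7 * (1 - t) ^ 3 / L ^ 3) := by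
    have hLB : L * L ^ 4 ≤ w := by
      calc L * L ^ 4 = L ^ 5 := by ring
        _ ≤ L ^ B := pow_le_pow_right₀ hL1 (by omega)
        _ ≤ w := hwB
    have h2 : 12288 * 2 * L ^ 4 ≤ (7 * t * (1 - t) ^ 3) * w := by
      rw [div_le_iff₀ (by positivity)] at hL2
      calc 12288 * 2 * L ^ 4 ≤ (L * (7 * t * (1 - t) ^ 3)) * L ^ 4 :=
            mul_le_mul_of_nonneg_right hL2 (by positivity)
        _ = (7 * t * (1 - t) ^ 3) * (L * L ^ 4) := by ring
        _ ≤ _ := mul_le_mul_of_nonneg_left hLB (by positivity)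
    rw [hτ', show 16 * (768 * (L + 1) / w) = (12288 * (L + 1)) / w by ring,
      show t * (7 * (1 - t) ^ 3 / L ^ 3) = (7 * t * (1 - t) ^ 3) / L ^ 3 by ring,
      div_le_div_iff₀ (by linarith) (by positivity)]
    calc 12288 * (L + 1) * L ^ 3 ≤ 12288 * (2 * L) * L ^ 3 := by
          apply mul_le_mul_of_nonneg_right _ (by positivity)
          linarith
      _ = 12288 * 2 * L ^ 4 := by ring
      _ ≤ _ := h2
  have hx : (τ + 16 * τ') * QQ w R ≤ t := by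
    have hlogR : Real.log R ≤ L := Real.log_le_log (by linarith) hRN
    have hlogR0 : 0 ≤ Real.log R := Real.log_nonneg (by linarith)
    have hQ1 : QQ w R ≤ C₀ * L ^ C₀ := (hQ w R hw7 (by omega)).trans
      (mul_le_mul_of_nonneg_left (pow_le_pow_left₀ hlogR0 hlogR _) (by positivity))
    have h3 : τ + 16 * τ' ≤ (1 + 12288 * 2) / (L * L ^ C₀) := by
      have h4 : τ = 1 / (L * L ^ C₀) := by
        rw [hτ, hA, pow_succ]
        ring
      have h5 : 16 * τ' ≤ 12288 * 2 / (L * L ^ C₀) := by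
        rw [hτ', show 16 * (768 * (L + 1) / w) = (12288 * (L + 1)) / w by ring,
          div_le_div_iff₀ (by linarith) (by positivity)]
        have h6 : L ^ 2 * L ^ C₀ ≤ w := by
          calc L ^ 2 * L ^ C₀ = L ^ (C₀ + 2) := by ring
            _ ≤ L ^ B := pow_le_pow_right₀ hL1 (by omega)
            _ ≤ w := hwB
        calc 12288 * (L + 1) * (L * L ^ C₀) ≤ 12288 * (2 * L) * (L * L ^ C₀) := by
              apply mul_le_mul_of_nonneg_right _ (by positivity)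
              linarith
          _ = 12288 * 2 * (L ^ 2 * L ^ C₀) := by ring
          _ ≤ _ := mul_le_mul_of_nonneg_left h6 (by norm_num)
      rw [add_div, ← h4]
      linarith
    calc (τ + 16 * τ') * QQ w R ≤ (1 + 12288 * 2) / (L * L ^ C₀) * (C₀ * L ^ C₀) := by
          apply mul_le_mul h3 hQ1 _ (by positivity)
          unfold QQ
          apply prod_nonneg
          intro p hp
          have hp7 : (8 : ℝ) ≤ p := by
            have := (mem_Ioc.1 (mem_filter.1 hp).1).1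
            exact_mod_cast (show 8 ≤ p by omega)
          apply div_nonneg (by positivity)
          rw [sub_nonneg, div_le_one (by linarith)]
          linarith
      _ = (C₀ + 12288 * 2 * C₀) / L := by
          have : (0 : ℝ) < L ^ C₀ := by positivity
          field_simp
      _ ≤ t := by
          rw [div_le_iff₀ ht] at hL3
          rw [div_le_iff₀ (by linarith)]
          linarith
  have hτ0 : 0 ≤ τ := by positivity
  have hQQ0 : 0 ≤ QQ w R := by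
    unfold QQ
    apply prod_nonneg
    intro p hp
    have hp7 : (8 : ℝ) ≤ p := by
      have := (mem_Ioc.1 (mem_filter.1 hp).1).1
      exact_mod_cast (show 8 ≤ p by omega)
    apply div_nonneg (by positivity)
    rw [sub_nonneg, div_le_one (by linarith)]
    linarith
  set x := (τ + 16 * τ') * QQ w R with hxdef
  have hx0 : 0 ≤ x := by positivity
  -- the atoms
  have haN : (1 - t) ^ 3 * (Z ^ 3 * E ^ 3 / L ^ 3) ≤ aN η N w R ^ 3 := by
    have h2 : 0 ≤ (1 - t) * ((Z / L) * E) := by positivity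
    calc (1 - t) ^ 3 * (Z ^ 3 * E ^ 3 / L ^ 3) = ((1 - t) * ((Z / L) * E)) ^ 3 := by
          rw [mul_pow, mul_pow, div_pow]
          ring
      _ ≤ _ := pow_le_pow_left₀ h2 ha 3
  have hbr : (1 - t) ^ 4 * V * (Z ^ 3 * E ^ 3 / L ^ 3) ≤ V * aN η N w R ^ 3 - 16 * τ' * Z ^ 3 := by
    have h2 : 16 * τ' * Z ^ 3 ≤ t * (V * ((1 - t) ^ 3 * (Z ^ 3 * E ^ 3 / L ^ 3))) := by
      have h3 : 16 * τ' * Z ^ 3 ≤ t * (7 * (1 - t) ^ 3 / L ^ 3) * Z ^ 3 :=
        mul_le_mul_of_nonneg_right h16τ' (by positivity)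
      have h4 : t * (7 * (1 - t) ^ 3 / L ^ 3) * Z ^ 3 ≤
          t * (V * ((1 - t) ^ 3 * (Z ^ 3 * E ^ 3 / L ^ 3))) := by
        have h5 : t * (7 * (1 - t) ^ 3 / L ^ 3) * Z ^ 3 =
            (t * (1 - t) ^ 3 * Z ^ 3 / L ^ 3) * (7 * 1) := by ring
        have h6 : t * (V * ((1 - t) ^ 3 * (Z ^ 3 * E ^ 3 / L ^ 3))) =
            (t * (1 - t) ^ 3 * Z ^ 3 / L ^ 3) * (V * E ^ 3) := by ring
        rw [h5, h6]
        apply mul_le_mul_of_nonneg_left _ (by positivity)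
        exact mul_le_mul hV7.le (one_le_pow₀ hE1) (by norm_num) (by linarith)
      exact h3.trans h4
    have h7 : V * ((1 - t) ^ 3 * (Z ^ 3 * E ^ 3 / L ^ 3)) ≤ V * aN η N w R ^ 3 :=
      mul_le_mul_of_nonneg_left haN (by linarith)
    have h8 : (1 - t) ^ 4 * V * (Z ^ 3 * E ^ 3 / L ^ 3) =
        V * ((1 - t) ^ 3 * (Z ^ 3 * E ^ 3 / L ^ 3)) -
          t * (V * ((1 - t) ^ 3 * (Z ^ 3 * E ^ 3 / L ^ 3))) := by ring
    rw [h8]
    linarith
  have hbr0 : 0 ≤ (1 - t) ^ 4 * V * (Z ^ 3 * E ^ 3 / L ^ 3) := by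
    have : 0 ≤ V := by linarith
    positivity
  -- local factors
  set Wp : ℝ := ((∏ p ∈ pw w, p : ℕ) : ℝ) with hWp
  have hWp0 : 0 < Wp := by
    rw [hWp]
    exact_mod_cast prod_pos fun p hp => (pw_prime hp).pos
  have hrho : ((∏ p ∈ pw w, (p - rho u p) : ℕ) : ℝ) =
      Wp * ∏ p ∈ pw w, (1 - (rho u p : ℝ) / p) := by
    rw [hWp]
    push_cast
    rw [← prod_mul_distrib]
    apply prod_congr rfl
    intro p hp
    have hpp := pw_prime hp
    have hle : rho u p ≤ p := by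
      unfold rho
      exact (card_filter_le _ _).trans (by simp)
    have hp0 : (0 : ℝ) < p := by exact_mod_cast hpp.pos
    rw [Nat.cast_sub hle]
    field_simp
  have hDN' : (1 - t) * D < (∏ p ∈ pw w, (1 - (rho u p : ℝ) / p)) * E ^ 3 := by
    rw [hE, prod_D hu (by omega)]
    exact hDN
  have hfin : ((∏ p ∈ pw w, (p - rho u p) : ℕ) : ℝ) *
      ((1 - t) ^ 4 * V * (Z ^ 3 * E ^ 3 / L ^ 3)) ≤
      Z ^ 3 * (1 + x) * (Wp * MM lam R u) := by
    calc _ ≤ C ∅ * ((1 - t) ^ 4 * V * (Z ^ 3 * E ^ 3 / L ^ 3)) :=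
          mul_le_mul_of_nonneg_right hC2 hbr0
      _ ≤ C ∅ * (V * aN η N w R ^ 3 - 16 * τ' * Z ^ 3) := by
          apply mul_le_mul_of_nonneg_left hbr
          have := hC0 ∅ (empty_subset _)
          simpa using this
      _ ≤ _ := hcore
  have hfin2 : (1 - t) ^ 4 * V * (((∏ p ∈ pw w, (1 - (rho u p : ℝ) / p)) * E ^ 3) / L ^ 3) ≤
      (1 + x) * MM lam R u := by
    rw [hrho] at hfin
    have h2 : (Z ^ 3 * Wp) * ((1 - t) ^ 4 * V *
        (((∏ p ∈ pw w, (1 - (rho u p : ℝ) / p)) * E ^ 3) / L ^ 3)) ≤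
        (Z ^ 3 * Wp) * ((1 + x) * MM lam R u) := by
      calc _ = Wp * (∏ p ∈ pw w, (1 - (rho u p : ℝ) / p)) *
            ((1 - t) ^ 4 * V * (Z ^ 3 * E ^ 3 / L ^ 3)) := by ring
        _ ≤ Z ^ 3 * (1 + x) * (Wp * MM lam R u) := hfin
        _ = _ := by ring
    exact le_of_mul_le_mul_left h2 (by positivity)
  have hlow : (1 - t) ^ 6 * (Vc * D / L ^ 3) ≤ (1 + x) * MM lam R u := by
    refine le_trans ?_ hfin2
    have h2 : (1 - t) * Vc * ((1 - t) * D) ≤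
        V * ((∏ p ∈ pw w, (1 - (rho u p : ℝ) / p)) * E ^ 3) :=
      mul_le_mul hkap.le hDN'.le (by positivity) (by linarith)
    calc (1 - t) ^ 6 * (Vc * D / L ^ 3) = (1 - t) ^ 4 / L ^ 3 * ((1 - t) * Vc * ((1 - t) * D)) := by
          ring
      _ ≤ (1 - t) ^ 4 / L ^ 3 * (V * ((∏ p ∈ pw w, (1 - (rho u p : ℝ) / p)) * E ^ 3)) :=
          mul_le_mul_of_nonneg_left h2 (by positivity)
      _ = _ := by ring
  have hlow0 : 0 ≤ (1 - t) ^ 6 * (Vc * D / L ^ 3) := by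
    have := Vc_ge
    positivity
  have hMM0 : 0 ≤ MM lam R u := by
    by_contra hcon
    push Not at hcon
    have : (1 + x) * MM lam R u < 0 := mul_neg_of_pos_of_neg (by linarith) hcon
    linarith
  have h9 : (1 - t) ^ 6 * (Vc * D / L ^ 3) ≤ (1 + t) * MM lam R u :=
    hlow.trans (mul_le_mul_of_nonneg_right (by linarith) hMM0)
  rw [div_mul_eq_mul_div, div_le_iff₀ (by linarith)]
  linarith

theorem main {u : ℕ} (hu : u = 2 ∨ u = 4) {D : ℝ}
    (hD : Tendsto (fun K : ℕ => (9 / 2 : ℝ) * ∏ p ∈ (range K).filter (fun p => p.Prime ∧ 3 < p),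
      ((p : ℝ) ^ 2 * ((p : ℝ) - 3) / ((p : ℝ) - 1) ^ 3)) atTop (𝓝 D)) (hD0 : 0 < D)
    {ε : ℝ} (hε : 0 < ε) :
    ∀ᶠ R : ℕ in atTop, ∀ lam : ℕ → ℝ, (∀ n : ℕ, 0 < n → 0 ≤ th lam R u n) →
    (∀ n : ℕ, 0 < n → (∀ p : ℕ, p.Prime → p ≤ R → ¬ p ∣ n * (n + u) * (n + 6)) →
      1 ≤ th lam R u n) →
    (Vc - ε) * D / Real.log R ^ 3 ≤ MM lam R u := by
  obtain ⟨η, hη⟩ := Pool.Agent.MT.exists_wt
  obtain ⟨t, ht, ht1, htε⟩ : ∃ t : ℝ, 0 < t ∧ t < 1 / 10 ∧
      Vc - ε < (1 - t) ^ 6 / (1 + t) / (1 + 3 * t) ^ 3 * Vc := by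
    have hcont : ContinuousAt (fun t : ℝ => (1 - t) ^ 6 / (1 + t) / (1 + 3 * t) ^ 3 * Vc) 0 := by
      apply ContinuousAt.mul _ continuousAt_const
      apply ContinuousAt.div _ (by fun_prop) (by simp)
      apply ContinuousAt.div (by fun_prop) (by fun_prop) (by simp)
    have e1 : ∀ᶠ t in 𝓝 (0 : ℝ), Vc - ε < (1 - t) ^ 6 / (1 + t) / (1 + 3 * t) ^ 3 * Vc :=
      hcont.eventually_const_lt (by simp; linarith)
    have e3 : ∀ᶠ t in 𝓝[>] (0 : ℝ), t < 1 / 10 :=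
      (eventually_lt_nhds (by norm_num)).filter_mono nhdsWithin_le_nhds
    have e4 : ∀ᶠ t in 𝓝[>] (0 : ℝ), 0 < t := eventually_mem_nhdsWithin
    obtain ⟨t, h1, h2, h3⟩ := (e4.and (e3.and (e1.filter_mono nhdsWithin_le_nhds))).exists
    exact ⟨t, h1, h2, h3⟩
  have hN := level_N hu hη hD hD0 ht ht1
  have hceil : Tendsto (fun R : ℕ => ⌈(R : ℝ) ^ (1 + 2 * t)⌉₊) atTop atTop :=
    tendsto_nat_ceil_atTop.comp ((tendsto_rpow_atTop (by linarith)).comp
      tendsto_natCast_atTop_atTop)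
  have hRt : Tendsto (fun R : ℕ => (R : ℝ) ^ t) atTop atTop :=
    (tendsto_rpow_atTop ht).comp tendsto_natCast_atTop_atTop
  filter_upwards [hceil.eventually hN, hRt.eventually_ge_atTop 2, eventually_ge_atTop 2] with
    R hR hR2 hR3
  intro lam h0 h1
  have hRr : (2 : ℝ) ≤ R := by exact_mod_cast hR3
  have hR0 : (0 : ℝ) < R := by linarith
  set N := ⌈(R : ℝ) ^ (1 + 2 * t)⌉₊ with hNdef
  have hNlow : (R : ℝ) ^ (1 + 2 * t) ≤ N := Nat.le_ceil _
  have hpow1 : 1 ≤ (R : ℝ) ^ (1 + 2 * t) := Real.one_le_rpow (by linarith) (by linarith)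
  have hNup : (N : ℝ) ≤ (R : ℝ) ^ (1 + 3 * t) := by
    have h2 : (N : ℝ) < (R : ℝ) ^ (1 + 2 * t) + 1 := Nat.ceil_lt_add_one (by positivity)
    have h3 : (R : ℝ) ^ (1 + 3 * t) = (R : ℝ) ^ (1 + 2 * t) * (R : ℝ) ^ t := by
      rw [← Real.rpow_add hR0]
      congr 1
      ring
    rw [h3]
    nlinarith
  have hNpos : (0 : ℝ) < N := by linarith
  have c1 : (N : ℝ) ^ (3 / 4 : ℝ) ≤ R := by
    calc (N : ℝ) ^ (3 / 4 : ℝ) ≤ ((R : ℝ) ^ (1 + 3 * t)) ^ (3 / 4 : ℝ) :=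
          Real.rpow_le_rpow hNpos.le hNup (by norm_num)
      _ = (R : ℝ) ^ ((1 + 3 * t) * (3 / 4)) := (Real.rpow_mul hR0.le _ _).symm
      _ ≤ (R : ℝ) ^ (1 : ℝ) := Real.rpow_le_rpow_of_exponent_le (by linarith) (by linarith)
      _ = R := Real.rpow_one _
  have c2 : (R : ℝ) ≤ (N : ℝ) ^ (1 - t) := by
    calc (R : ℝ) = (R : ℝ) ^ (1 : ℝ) := (Real.rpow_one _).symm
      _ ≤ (R : ℝ) ^ ((1 + 2 * t) * (1 - t)) :=
          Real.rpow_le_rpow_of_exponent_le (by linarith) (by nlinarith)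
      _ = ((R : ℝ) ^ (1 + 2 * t)) ^ (1 - t) := Real.rpow_mul hR0.le _ _
      _ ≤ (N : ℝ) ^ (1 - t) := Real.rpow_le_rpow (by positivity) hNlow (by linarith)
  have hfin := hR R c1 c2 lam h0 h1
  refine le_trans ?_ hfin
  have hlogR : 0 < Real.log R := Real.log_pos (by linarith)
  have hN1 : (1 : ℝ) < N := by
    have h2 : (R : ℝ) ^ (1 : ℝ) ≤ (R : ℝ) ^ (1 + 2 * t) :=
      Real.rpow_le_rpow_of_exponent_le (by linarith) (by linarith)
    rw [Real.rpow_one] at h2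
    linarith
  have hlogN0 : 0 < Real.log N := Real.log_pos hN1
  have hlogN : Real.log N ≤ (1 + 3 * t) * Real.log R := by
    have h2 := Real.log_le_log hNpos hNup
    rwa [Real.log_rpow hR0] at h2
  have hlog3 : Real.log N ^ 3 ≤ (1 + 3 * t) ^ 3 * Real.log R ^ 3 := by
    rw [← mul_pow]
    exact pow_le_pow_left₀ hlogN0.le hlogN 3
  have hV := Vc_ge
  have ht2 : 0 < 1 - t := by linarith
  calc (Vc - ε) * D / Real.log R ^ 3
      ≤ ((1 - t) ^ 6 / (1 + t) / (1 + 3 * t) ^ 3 * Vc) * D / Real.log R ^ 3 := by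
        apply div_le_div_of_nonneg_right _ (by positivity)
        exact mul_le_mul_of_nonneg_right htε.le hD0.le
    _ = (1 - t) ^ 6 / (1 + t) * (Vc * D / ((1 + 3 * t) ^ 3 * Real.log R ^ 3)) := by
        field_simp
    _ ≤ (1 - t) ^ 6 / (1 + t) * (Vc * D / Real.log N ^ 3) := by
        apply mul_le_mul_of_nonneg_left _ (by positivity)
        exact div_le_div_of_nonneg_left (by positivity) (by positivity) hlog3

end Pool.Agent.SVB
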