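import Mathlib
import Pool.Agent.SVB.Defs

set_option autoImplicit false

/-!
# Project SVB: mean value of the sieve function
-/

namespace Pool.Agent.SVB

open Finset Filter Topology

/-- Counting the `n ≤ x` with `d ∣ n (n + u) (n + 6)`. -/
theorem count_div (u : ℕ) {d : ℕ} (hd : 0 < d) (x : ℕ) :
    |(((Icc 1 x).filter (fun n => d ∣ n * (n + u) * (n + 6))).card : ℝ) -
      x * ((rho u d : ℝ) / d)| ≤ 2 * d := by
  have hper : ∀ n k : ℕ, d ∣ (n + d * k) * ((n + d * k) + u) * ((n + d * k) + 6) ↔
      d ∣ n * (n + u) * (n + 6) := by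
    intro n k
    have h1 : (n + d * k) * ((n + d * k) + u) * ((n + d * k) + 6) ≡ n * (n + u) * (n + 6) [MOD d] := by
      have h2 : n + d * k ≡ n [MOD d] := by
        have : n + d * k ≡ n + 0 [MOD d] := Nat.ModEq.add_left n (Nat.modEq_zero_iff_dvd.2 (dvd_mul_right _ _))
        simpa using this
      exact (h2.mul (h2.add_right u)).mul (h2.add_right 6)
    exact h1.dvd_iff dvd_rfl
  -- count over full periods
  have hfull : ∀ k : ℕ, ((range (d * k)).filter (fun n => d ∣ n * (n + u) * (n + 6))).card =
      k * rho u d := by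
    intro k
    induction k with
    | zero => simp
    | succ k ih =>
      have h1 : range (d * (k + 1)) = range (d * k) ∪ (range d).map (addRightEmbedding (d * k)) := by
        ext n
        simp only [mem_range, mem_union, Finset.mem_map, addRightEmbedding_apply]
        constructor
        · intro h
          rcases lt_or_ge n (d * k) with h2 | h2
          · exact Or.inl h2
          · right
            refine ⟨n - d * k, ?_, by omega⟩
            rw [mul_add, mul_one] at h
            omega
        · rintro (h | ⟨m, hm, rfl⟩)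
          · rw [mul_add, mul_one]
            omega
          · rw [mul_add, mul_one]
            omega
      have hdisj : Disjoint (range (d * k)) ((range d).map (addRightEmbedding (d * k))) := by
        rw [disjoint_left]
        intro n hn hn'
        simp only [mem_range, Finset.mem_map, addRightEmbedding_apply] at hn hn'
        obtain ⟨m, _, rfl⟩ := hn'
        omega
      rw [h1, filter_union, card_union_of_disjoint (disjoint_filter_filter hdisj), ih, filter_map,
        card_map, add_mul, one_mul]
      congr 1
      unfold rho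
      congr 1
      apply filter_congr
      intro m _
      simp only [Function.comp, addRightEmbedding_apply]
      exact hper m k
  have hrho : rho u d ≤ d := by
    unfold rho
    exact (card_filter_le _ _).trans (by simp)
  set q := x / d with hq
  have hx1 : d * q ≤ x := Nat.mul_div_le x d
  have hx2 : x < d * (q + 1) := Nat.lt_mul_div_succ x hd
  -- compare with the periods
  have hup : ((Icc 1 x).filter (fun n => d ∣ n * (n + u) * (n + 6))).card ≤ (q + 1) * rho u d := by
    rw [← hfull (q + 1)]
    apply card_le_card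
    apply filter_subset_filter
    intro n hn
    rw [mem_Icc] at hn
    rw [mem_range]
    omega
  have hlow : q * rho u d ≤ ((Icc 1 x).filter (fun n => d ∣ n * (n + u) * (n + 6))).card + 1 := by
    rw [← hfull q]
    have h1 : (range (d * q)).filter (fun n => d ∣ n * (n + u) * (n + 6)) ⊆
        insert 0 ((Icc 1 x).filter (fun n => d ∣ n * (n + u) * (n + 6))) := by
      intro n hn
      rw [mem_filter, mem_range] at hn
      rcases Nat.eq_zero_or_pos n with h0 | h0
      · rw [h0]
        exact mem_insert_self _ _
      · exact mem_insert_of_mem (mem_filter.2 ⟨mem_Icc.2 ⟨h0, by omega⟩, hn.2⟩)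
    exact (card_le_card h1).trans (card_insert_le _ _)
  have hd' : (0 : ℝ) < d := by exact_mod_cast hd
  have hd1 : (1 : ℝ) ≤ d := by exact_mod_cast hd
  have hup' : (((Icc 1 x).filter (fun n => d ∣ n * (n + u) * (n + 6))).card : ℝ) ≤
      ((q : ℝ) + 1) * rho u d := by exact_mod_cast hup
  have hlow' : (q : ℝ) * rho u d ≤
      (((Icc 1 x).filter (fun n => d ∣ n * (n + u) * (n + 6))).card : ℝ) + 1 := by
    exact_mod_cast hlow
  have hx1' : (d : ℝ) * q ≤ x := by exact_mod_cast hx1
  have hx2' : (x : ℝ) < d * (q + 1) := by exact_mod_cast hx2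
  have hrho' : (rho u d : ℝ) ≤ d := by exact_mod_cast hrho
  have hrho0 : (0 : ℝ) ≤ rho u d := by positivity
  have k1 : (q : ℝ) * rho u d ≤ x * ((rho u d : ℝ) / d) := by
    rw [← mul_div_assoc, le_div_iff₀ hd']
    nlinarith
  have k2 : x * ((rho u d : ℝ) / d) ≤ ((q : ℝ) + 1) * rho u d := by
    rw [← mul_div_assoc, div_le_iff₀ hd']
    nlinarith
  rw [abs_le]
  constructor <;> nlinarith

theorem mean_value (lam : ℕ → ℝ) (R u : ℕ) :
    Tendsto (fun x : ℕ => (∑ n ∈ Icc 1 x, th lam R u n) / x) atTop (𝓝 (MM lam R u)) := by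
  have h1 : ∀ x : ℕ, ∑ n ∈ Icc 1 x, th lam R u n =
      ∑ d ∈ (Icc 1 R).filter Squarefree, lam d *
        (((Icc 1 x).filter (fun n => d ∣ n * (n + u) * (n + 6))).card : ℝ) := by
    intro x
    unfold th
    have h2 : ∀ n, ∑ d ∈ (Icc 1 R).filter (fun d => Squarefree d ∧ d ∣ n * (n + u) * (n + 6)), lam d =
        ∑ d ∈ (Icc 1 R).filter Squarefree, if d ∣ n * (n + u) * (n + 6) then lam d else 0 := by
      intro n
      rw [← sum_filter, filter_filter]
    simp only [h2]
    rw [sum_comm]
    apply sum_congr rfl
    intro d _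
    rw [← sum_filter, sum_const, nsmul_eq_mul, mul_comm]
  simp only [h1]
  unfold MM
  have h3 : ∀ x : ℕ, (∑ d ∈ (Icc 1 R).filter Squarefree, lam d *
        (((Icc 1 x).filter (fun n => d ∣ n * (n + u) * (n + 6))).card : ℝ)) / x =
      ∑ d ∈ (Icc 1 R).filter Squarefree, lam d *
        ((((Icc 1 x).filter (fun n => d ∣ n * (n + u) * (n + 6))).card : ℝ) / x) := by
    intro x
    rw [sum_div]
    apply sum_congr rfl
    intro d _
    ring
  simp only [h3]
  apply tendsto_finsetSum
  intro d hd
  apply Tendsto.const_mul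
  have hd0 : 0 < d := by
    have := mem_Icc.1 (mem_filter.1 hd).1
    omega
  rw [tendsto_iff_norm_sub_tendsto_zero]
  have h4 : Tendsto (fun x : ℕ => (2 * (d : ℝ)) / x) atTop (𝓝 0) :=
    tendsto_const_nhds.div_atTop tendsto_natCast_atTop_atTop
  refine squeeze_zero' (Eventually.of_forall fun x => norm_nonneg _) ?_ h4
  filter_upwards [eventually_ge_atTop 1] with x hx
  have hx0 : (0 : ℝ) < x := by exact_mod_cast hx
  have h5 := count_div u hd0 x
  rw [Real.norm_eq_abs]
  have h6 : (((Icc 1 x).filter (fun n => d ∣ n * (n + u) * (n + 6))).card : ℝ) / x -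
      (rho u d : ℝ) / d = ((((Icc 1 x).filter (fun n => d ∣ n * (n + u) * (n + 6))).card : ℝ) -
        x * ((rho u d : ℝ) / d)) / x := by
    field_simp
  rw [h6, abs_div, abs_of_pos hx0]
  exact div_le_div_of_nonneg_right h5 hx0.le

end Pool.Agent.SVB
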