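import Mathlib
import Pool.Agent.SVB.Defs
import Pool.Agent.SVB.Rho

set_option autoImplicit false

/-!
# Project SVB: functions of level `R` (sums of periodic functions with periods at most `R`)
are reduced to sieve functions by a conditional expectation.
-/

namespace Pool.Agent.SVB

open Finset Filter Topology

/-! ### mean value of a periodic function -/

theorem per_sum {h : ℕ → ℝ} {Q : ℕ} (hp : Function.Periodic h Q) (x : ℕ) :
    ∑ n ∈ range Q, h (x + n) = ∑ n ∈ range Q, h n := by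
  induction x with
  | zero => simp
  | succ x ih =>
    rw [← ih]
    have h1 := Finset.sum_range_succ' (fun n => h (x + n)) Q
    have h2 := Finset.sum_range_succ (fun n => h (x + n)) Q
    have h3 : ∑ n ∈ range Q, h (x + 1 + n) = ∑ n ∈ range Q, h (x + (n + 1)) :=
      Finset.sum_congr rfl fun n _ => by congr 1; ring
    rw [h3]
    have h4 : h (x + Q) = h (x + 0) := by rw [add_zero]; exact hp x
    rw [h1, h4] at h2
    linarith

theorem per_mean {f : ℕ → ℝ} {Q : ℕ} (hQ : 0 < Q) (hp : Function.Periodic f Q) :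
    Tendsto (fun x : ℕ => (∑ n ∈ Icc 1 x, f n) / x) atTop (𝓝 ((∑ n ∈ range Q, f n) / Q)) := by
  set h : ℕ → ℝ := fun n => f (1 + n) with hh
  have hhp : Function.Periodic h Q := by
    intro n
    show f (1 + (n + Q)) = f (1 + n)
    rw [← add_assoc]; exact hp _
  have e1 : ∀ x : ℕ, ∑ n ∈ Icc 1 x, f n = ∑ n ∈ range x, h n := by
    intro x
    have h1 : Icc 1 x = Ico (0 + 1) (x + 1) := by
      ext n; simp only [mem_Icc, mem_Ico]; omega
    rw [h1, ← Finset.sum_Ico_add f 0 x 1, Finset.range_eq_Ico]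
  have e2 : ∑ n ∈ range Q, h n = ∑ n ∈ range Q, f n := per_sum hp 1
  set μ : ℝ := (∑ n ∈ range Q, f n) / Q with hμ
  have hQ' : (0 : ℝ) < Q := by exact_mod_cast hQ
  set D : ℕ → ℝ := fun x => ∑ n ∈ range x, h n - x * μ with hD
  have hDp : Function.Periodic D Q := by
    intro x
    show ∑ n ∈ range (x + Q), h n - ((x + Q : ℕ) : ℝ) * μ = ∑ n ∈ range x, h n - x * μ
    rw [Finset.sum_range_add, per_sum hhp, e2]
    push_cast
    have : (Q : ℝ) * μ = ∑ n ∈ range Q, f n := by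
      rw [hμ]; field_simp
    linarith
  set C : ℝ := ∑ r ∈ range Q, |D r| with hC
  have hb : ∀ x, |D x| ≤ C := by
    intro x
    rw [← hDp.map_mod_nat x]
    exact Finset.single_le_sum (f := fun r => |D r|) (fun r _ => abs_nonneg _)
      (mem_range.2 (Nat.mod_lt x hQ))
  rw [tendsto_iff_norm_sub_tendsto_zero]
  have h4 : Tendsto (fun x : ℕ => C / x) atTop (𝓝 0) :=
    tendsto_const_nhds.div_atTop tendsto_natCast_atTop_atTop
  refine squeeze_zero' (Eventually.of_forall fun x => norm_nonneg _) ?_ h4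
  filter_upwards [eventually_ge_atTop 1] with x hx
  have hx0 : (0 : ℝ) < x := by exact_mod_cast hx
  rw [Real.norm_eq_abs]
  have h6 : (∑ n ∈ Icc 1 x, f n) / x - μ = D x / x := by
    rw [e1, hD]; field_simp
  rw [h6, abs_div, abs_of_pos hx0]
  exact div_le_div_of_nonneg_right (hb x) hx0.le

/-! ### Moebius inversion on the subsets of a finite set -/

theorem mob_exists (S : Finset ℕ) : ∀ g : Finset ℕ → ℝ, ∃ c : Finset ℕ → ℝ,
    ∀ X : Finset ℕ, X ⊆ S → g X = ∑ A ∈ X.powerset, c A := by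
  classical
  induction S using Finset.induction_on with
  | empty =>
    intro g
    refine ⟨fun _ => g ∅, fun X hX => ?_⟩
    rw [Finset.subset_empty.1 hX]; simp
  | insert a s ha ih =>
    intro g
    obtain ⟨c₁, h₁⟩ := ih g
    obtain ⟨c₂, h₂⟩ := ih (fun X => g (insert a X) - g X)
    refine ⟨fun A => if a ∈ A then c₂ (A.erase a) else c₁ A, fun X hX => ?_⟩
    by_cases haX : a ∈ X
    · obtain ⟨Y, haY, rfl⟩ : ∃ Y, a ∉ Y ∧ X = insert a Y :=
        ⟨X.erase a, Finset.notMem_erase a X, (Finset.insert_erase haX).symm⟩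
      have hY : Y ⊆ s := by
        intro y hy
        rcases Finset.mem_insert.1 (hX (Finset.mem_insert_of_mem hy)) with h | h
        · exact absurd (h ▸ hy) haY
        · exact h
      rw [Finset.sum_powerset_insert haY]
      have e1 : ∑ A ∈ Y.powerset, (if a ∈ A then c₂ (A.erase a) else c₁ A) = g Y := by
        rw [h₁ Y hY]
        refine Finset.sum_congr rfl fun A hA => ?_
        rw [if_neg fun h => haY (Finset.mem_powerset.1 hA h)]
      have e2 : ∑ A ∈ Y.powerset, (if a ∈ insert a A then c₂ ((insert a A).erase a)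
          else c₁ (insert a A)) = g (insert a Y) - g Y := by
        rw [h₂ Y hY]
        refine Finset.sum_congr rfl fun A hA => ?_
        rw [if_pos (Finset.mem_insert_self _ _), Finset.erase_insert
          (fun h => haY (Finset.mem_powerset.1 hA h))]
      rw [e1, e2]; ring
    · have hXs : X ⊆ s := by
        intro y hy
        rcases Finset.mem_insert.1 (hX hy) with h | h
        · exact absurd (h ▸ hy) haX
        · exact h
      rw [h₁ X hXs]
      refine Finset.sum_congr rfl fun A hA => ?_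
      show c₁ A = if a ∈ A then c₂ (A.erase a) else c₁ A
      rw [if_neg fun h => haX (Finset.mem_powerset.1 hA h)]

/-! ### residues with a given pattern of primes -/

/-- the modulus -/
def Qs (R : ℕ) (S : Finset ℕ) : ℕ := ∏ p ∈ S, p ^ R

/-- the residues modulo `Qs R S` for which exactly the primes of `B` (in `S`) divide
`n (n + u) (n + 6)` -/
def NS (u R : ℕ) (S B : Finset ℕ) : Finset ℕ :=
  (range (Qs R S)).filter (fun m => ∀ p ∈ S, (p ∣ m * (m + u) * (m + 6) ↔ p ∈ B))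

theorem Qs_pos {R : ℕ} {S : Finset ℕ} (hS : ∀ p ∈ S, p.Prime) : 0 < Qs R S :=
  Finset.prod_pos fun p hp => pow_pos (hS p hp).pos R

theorem dvd_Qs {R p : ℕ} (hR : 1 ≤ R) {S : Finset ℕ} (hp : p ∈ S) : p ∣ Qs R S :=
  (dvd_pow_self p (by omega)).trans (Finset.dvd_prod_of_mem (fun p => p ^ R) hp)

theorem Qs_coprime {R : ℕ} {S₁ S₂ : Finset ℕ} (h₁ : ∀ p ∈ S₁, p.Prime) (h₂ : ∀ p ∈ S₂, p.Prime)
    (hd : Disjoint S₁ S₂) : Nat.Coprime (Qs R S₁) (Qs R S₂) := by
  refine Nat.Coprime.prod_left fun p hp => Nat.Coprime.prod_right fun q hq => ?_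
  refine Nat.Coprime.pow _ _ ((Nat.coprime_primes (h₁ p hp) (h₂ q hq)).2 ?_)
  rintro rfl
  exact Finset.disjoint_left.1 hd hp hq

theorem NS_congr {u R : ℕ} {S B B' : Finset ℕ} (h : B ∩ S = B' ∩ S) : NS u R S B = NS u R S B' := by
  unfold NS
  refine Finset.filter_congr fun m _ => forall₂_congr fun p hp => ?_
  have h1 : p ∈ B ↔ p ∈ B' := by
    have := congrArg (fun X => p ∈ X) h
    simpa [hp] using this
  rw [h1]

/-- Chinese remainder theorem for sums -/
theorem sum_NS {u R : ℕ} (hR : 1 ≤ R) {S₁ S₂ B : Finset ℕ} (h₁ : ∀ p ∈ S₁, p.Prime)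
    (h₂ : ∀ p ∈ S₂, p.Prime) (hd : Disjoint S₁ S₂) {f : ℕ → ℝ}
    (hf : Function.Periodic f (Qs R S₁)) :
    ∑ m ∈ NS u R (S₁ ∪ S₂) B, f m = (∑ m ∈ NS u R S₁ B, f m) * (NS u R S₂ B).card := by
  classical
  have hQ : Qs R (S₁ ∪ S₂) = Qs R S₁ * Qs R S₂ := Finset.prod_union hd
  have hco := Qs_coprime (R := R) h₁ h₂ hd
  have p₁ := Qs_pos (R := R) h₁
  have p₂ := Qs_pos (R := R) h₂
  have e : (∑ m ∈ NS u R S₁ B, f m) * (NS u R S₂ B).card =
      ∑ x ∈ NS u R S₁ B ×ˢ NS u R S₂ B, f x.1 := by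
    rw [Finset.sum_product, Finset.sum_mul]
    refine Finset.sum_congr rfl fun m _ => ?_
    show f m * ((NS u R S₂ B).card : ℝ) = ∑ y ∈ NS u R S₂ B, f m
    rw [Finset.sum_const, nsmul_eq_mul, mul_comm]
  rw [e]
  refine Finset.sum_nbij' (fun n => (n % Qs R S₁, n % Qs R S₂))
    (fun ab => (Nat.chineseRemainder hco ab.1 ab.2 : ℕ)) ?_ ?_ ?_ ?_ ?_
  · intro n hn
    unfold NS at hn ⊢
    rw [mem_filter, mem_range, hQ] at hn
    rw [mem_product, mem_filter, mem_filter, mem_range, mem_range]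
    refine ⟨⟨Nat.mod_lt _ p₁, fun p hp => ?_⟩, ⟨Nat.mod_lt _ p₂, fun p hp => ?_⟩⟩
    · rw [← rho_mod' u n (dvd_Qs hR hp)]
      exact hn.2 p (mem_union_left _ hp)
    · rw [← rho_mod' u n (dvd_Qs hR hp)]
      exact hn.2 p (mem_union_right _ hp)
  · intro ab hab
    unfold NS at hab ⊢
    rw [mem_product, mem_filter, mem_filter, mem_range, mem_range] at hab
    rw [mem_filter, mem_range, hQ]
    have h3 := (Nat.chineseRemainder hco ab.1 ab.2).2
    refine ⟨Nat.chineseRemainder_lt_mul hco ab.1 ab.2 p₁.ne' p₂.ne', fun p hp => ?_⟩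
    rcases mem_union.1 hp with hp | hp
    · have h4 := h3.1
      unfold Nat.ModEq at h4
      rw [rho_mod' u _ (dvd_Qs hR hp), h4, Nat.mod_eq_of_lt hab.1.1]
      exact hab.1.2 p hp
    · have h4 := h3.2
      unfold Nat.ModEq at h4
      rw [rho_mod' u _ (dvd_Qs hR hp), h4, Nat.mod_eq_of_lt hab.2.1]
      exact hab.2.2 p hp
  · intro n hn
    unfold NS at hn
    rw [mem_filter, mem_range, hQ] at hn
    have h3 := (Nat.chineseRemainder hco (n % Qs R S₁) (n % Qs R S₂)).2
    have h4 : ((Nat.chineseRemainder hco (n % Qs R S₁) (n % Qs R S₂) : ℕ)) ≡ n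
        [MOD Qs R S₁ * Qs R S₂] :=
      (Nat.modEq_and_modEq_iff_modEq_mul hco).1 ⟨h3.1.trans (Nat.mod_modEq n _),
        h3.2.trans (Nat.mod_modEq n _)⟩
    exact Nat.ModEq.eq_of_lt_of_lt h4
      (Nat.chineseRemainder_lt_mul hco _ _ p₁.ne' p₂.ne') hn.1
  · intro ab hab
    unfold NS at hab
    rw [mem_product, mem_filter, mem_filter, mem_range, mem_range] at hab
    have h3 := (Nat.chineseRemainder hco ab.1 ab.2).2
    have h4 : (Nat.chineseRemainder hco ab.1 ab.2 : ℕ) % Qs R S₁ = ab.1 % Qs R S₁ := h3.1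
    have h5 : (Nat.chineseRemainder hco ab.1 ab.2 : ℕ) % Qs R S₂ = ab.2 % Qs R S₂ := h3.2
    exact Prod.ext (h4.trans (Nat.mod_eq_of_lt hab.1.1)) (h5.trans (Nat.mod_eq_of_lt hab.2.1))
  · intro n _
    exact (hf.map_mod_nat n).symm

theorem card_NS {u R : ℕ} (hR : 1 ≤ R) {S₁ S₂ B : Finset ℕ} (h₁ : ∀ p ∈ S₁, p.Prime)
    (h₂ : ∀ p ∈ S₂, p.Prime) (hd : Disjoint S₁ S₂) :
    ((NS u R (S₁ ∪ S₂) B).card : ℝ) = (NS u R S₁ B).card * (NS u R S₂ B).card := by
  have h := sum_NS (u := u) hR (B := B) h₁ h₂ hd (f := fun _ => 1) (fun _ => rfl)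
  simpa using h

/-- a residue with `p ∤ n (n + u) (n + 6)` -/
theorem good_res {u p : ℕ} (hu : u = 2 ∨ u = 4) (hp : p.Prime) :
    ∃ a : ℕ, ¬ p ∣ a * (a + u) * (a + 6) := by
  have h : rho u p < p := by
    rcases lt_or_ge 3 p with h | h
    · rw [rho_prime hu hp h]; exact h
    · interval_cases p
      · exact absurd hp (by norm_num)
      · exact absurd hp (by norm_num)
      · rw [rho_two hu]; norm_num
      · rw [rho_three hu]; norm_num
  by_contra hc
  push Not at hc
  unfold rho at h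
  rw [Finset.filter_true_of_mem fun n _ => hc n, card_range] at h
  exact lt_irrefl _ h

theorem NS_nonempty {u R : ℕ} (hu : u = 2 ∨ u = 4) (hR : 1 ≤ R) {S : Finset ℕ}
    (hS : ∀ p ∈ S, p.Prime) (B : Finset ℕ) : (NS u R S B).Nonempty := by
  classical
  have hex : ∀ p : ℕ, ∃ a : ℕ, p.Prime → (p ∣ a * (a + u) * (a + 6) ↔ p ∈ B) := by
    intro p
    by_cases hpB : p ∈ B
    · exact ⟨0, fun _ => by simp [hpB]⟩
    · by_cases hp : p.Prime
      · obtain ⟨a, ha⟩ := good_res hu hp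
        exact ⟨a, fun _ => ⟨fun h => absurd h ha, fun h => absurd h hpB⟩⟩
      · exact ⟨0, fun h => absurd h hp⟩
  choose a ha using hex
  have hco : Set.Pairwise (S : Set ℕ) (Function.onFun Nat.Coprime (fun p => p)) := by
    intro p hp q hq hpq
    exact (Nat.coprime_primes (hS p hp) (hS q hq)).2 hpq
  obtain ⟨k, hk⟩ := Nat.chineseRemainderOfFinset a (fun p => p) S
    (fun p hp => (hS p hp).ne_zero) hco
  refine ⟨k % Qs R S, ?_⟩
  unfold NS
  rw [mem_filter, mem_range]
  refine ⟨Nat.mod_lt _ (Qs_pos hS), fun p hp => ?_⟩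
  rw [← rho_mod' u k (dvd_Qs hR hp)]
  have h1 : k ≡ a p [MOD p] := hk p hp
  have h2 : k * (k + u) * (k + 6) ≡ a p * (a p + u) * (a p + 6) [MOD p] :=
    (h1.mul (h1.add_right u)).mul (h1.add_right 6)
  rw [h2.dvd_iff dvd_rfl]
  exact ha p (hS p hp)

end Pool.Agent.SVB
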