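import Mathlib
import Pool.Agent.SVB.TypeOne

set_option autoImplicit false

/-!
# Project SVB: functions of level `R` are reduced to sieve functions
-/

namespace Pool.Agent.SVB

open Finset Filter Topology

/-- the primes up to `R` -/
def TT (R : ℕ) : Finset ℕ := (Icc 1 R).filter Nat.Prime

/-- the primes up to `R` which divide `n (n + u) (n + 6)` -/
def Bs (u R n : ℕ) : Finset ℕ := (TT R).filter (fun p => p ∣ n * (n + u) * (n + 6))

theorem TT_prime {R : ℕ} : ∀ p ∈ TT R, p.Prime := fun _ hp => (mem_filter.1 hp).2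

/-- the function of level `R` -/
noncomputable def tq (f : ℕ → ℕ → ℝ) (R n : ℕ) : ℝ := ∑ q ∈ Icc 1 R, f q n

/-- the mean over the residues with the same pattern of primes -/
noncomputable def av (u R : ℕ) (S : Finset ℕ) (g : ℕ → ℝ) (B : Finset ℕ) : ℝ :=
  (∑ m ∈ NS u R S B, g m) / (NS u R S B).card

theorem pf_sub {q R : ℕ} (hq : q ∈ Icc 1 R) : q.primeFactors ⊆ TT R := by
  intro p hp
  rw [mem_Icc] at hq
  unfold TT
  rw [mem_filter, mem_Icc]
  have h1 := Nat.prime_of_mem_primeFactors hp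
  have h2 := Nat.le_of_dvd (by omega) (Nat.dvd_of_mem_primeFactors hp)
  exact ⟨⟨h1.one_le, by omega⟩, h1⟩

theorem dvd_Qs_pf {q R : ℕ} (hq : q ∈ Icc 1 R) : q ∣ Qs R q.primeFactors := by
  rw [mem_Icc] at hq
  have hq0 : q ≠ 0 := by omega
  have h := Nat.prod_factorization_pow_eq_self hq0
  conv_lhs => rw [← h]
  unfold Qs Finsupp.prod
  rw [Nat.support_factorization]
  refine Finset.prod_dvd_prod_of_dvd _ _ fun p _ => ?_
  exact pow_dvd_pow p ((Nat.factorization_lt p hq0).le.trans hq.2)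

theorem per_Qs {q R : ℕ} (hq : q ∈ Icc 1 R) {g : ℕ → ℝ} (hg : Function.Periodic g q) :
    Function.Periodic g (Qs R q.primeFactors) := by
  obtain ⟨k, hk⟩ := dvd_Qs_pf hq
  rw [hk, mul_comm]
  have := hg.nat_mul k
  simpa using this

theorem per_QT {q R : ℕ} (hq : q ∈ Icc 1 R) {g : ℕ → ℝ} (hg : Function.Periodic g q) :
    Function.Periodic g (Qs R (TT R)) := by
  have h : q ∣ Qs R (TT R) :=
    (dvd_Qs_pf hq).trans (Finset.prod_dvd_prod_of_subset _ _ _ (pf_sub hq))
  obtain ⟨k, hk⟩ := h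
  rw [hk, mul_comm]
  have := hg.nat_mul k
  simpa using this

theorem av_q {u R q : ℕ} (hu : u = 2 ∨ u = 4) (hR : 1 ≤ R) (hq : q ∈ Icc 1 R) {g : ℕ → ℝ}
    (hg : Function.Periodic g q) (B : Finset ℕ) :
    av u R (TT R) g B = av u R q.primeFactors g B := by
  classical
  have h1 : ∀ p ∈ q.primeFactors, p.Prime := fun p hp => Nat.prime_of_mem_primeFactors hp
  have h2 : ∀ p ∈ TT R \ q.primeFactors, p.Prime := fun p hp => TT_prime p (mem_sdiff.1 hp).1
  have hd : Disjoint q.primeFactors (TT R \ q.primeFactors) := disjoint_sdiff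
  have hU : q.primeFactors ∪ (TT R \ q.primeFactors) = TT R := union_sdiff_of_subset (pf_sub hq)
  have e1 := sum_NS (u := u) hR (B := B) h1 h2 hd (per_Qs hq hg)
  have e2 := card_NS (u := u) hR (B := B) h1 h2 hd
  rw [hU] at e1 e2
  have c1 : ((NS u R q.primeFactors B).card : ℝ) ≠ 0 := by
    exact_mod_cast (NS_nonempty hu hR h1 B).card_pos.ne'
  have c2 : ((NS u R (TT R \ q.primeFactors) B).card : ℝ) ≠ 0 := by
    exact_mod_cast (NS_nonempty hu hR h2 B).card_pos.ne'
  unfold av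
  rw [e1, e2]
  field_simp

theorem av_sum {u R : ℕ} (f : ℕ → ℕ → ℝ) (B : Finset ℕ) :
    av u R (TT R) (tq f R) B = ∑ q ∈ Icc 1 R, av u R (TT R) (f q) B := by
  unfold av tq
  rw [Finset.sum_comm, Finset.sum_div]

/-- the squarefree divisors and the sets of primes -/
theorem div_sets {u R n q : ℕ} (hq : q ∈ Icc 1 R) (c : Finset ℕ → ℝ) :
    ∑ d ∈ (Icc 1 R).filter (fun d => Squarefree d ∧ d ∣ n * (n + u) * (n + 6)),
      (if d ∣ q then c d.primeFactors else 0) =
      ∑ A ∈ (Bs u R n ∩ q.primeFactors).powerset, c A := by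
  classical
  have hq' := mem_Icc.1 hq
  rw [← Finset.sum_filter, Finset.filter_filter]
  refine Finset.sum_nbij' (fun d => d.primeFactors) (fun A => ∏ p ∈ A, p) ?_ ?_ ?_ ?_ ?_
  · intro d hd
    rw [mem_filter, mem_Icc] at hd
    rw [mem_powerset]
    intro p hp
    have hpp := Nat.prime_of_mem_primeFactors hp
    have hpd := Nat.dvd_of_mem_primeFactors hp
    have hdq : d ∣ q := hd.2.2
    rw [mem_inter]
    refine ⟨?_, Nat.mem_primeFactors.2 ⟨hpp, hpd.trans hdq, by omega⟩⟩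
    unfold Bs
    rw [mem_filter]
    exact ⟨pf_sub hq (Nat.mem_primeFactors.2 ⟨hpp, hpd.trans hdq, by omega⟩),
      hpd.trans hd.2.1.2⟩
  · intro A hA
    rw [mem_powerset] at hA
    have hpr : ∀ p ∈ A, p.Prime := fun p hp =>
      Nat.prime_of_mem_primeFactors (mem_inter.1 (hA hp)).2
    have hAq : (∏ p ∈ A, p) ∣ q := Finset.prod_primes_dvd q (fun p hp => (hpr p hp).prime)
      fun p hp => Nat.dvd_of_mem_primeFactors (mem_inter.1 (hA hp)).2
    have hAn : (∏ p ∈ A, p) ∣ n * (n + u) * (n + 6) :=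
      Finset.prod_primes_dvd _ (fun p hp => (hpr p hp).prime)
        fun p hp => (mem_filter.1 (mem_inter.1 (hA hp)).1).2
    have hpos : 0 < ∏ p ∈ A, p := Finset.prod_pos fun p hp => (hpr p hp).pos
    rw [mem_filter, mem_Icc]
    refine ⟨⟨hpos, (Nat.le_of_dvd (by omega) hAq).trans hq'.2⟩, ⟨?_, hAn⟩, hAq⟩
    refine Finset.squarefree_prod_of_pairwise_isCoprime (f := fun p : ℕ => p)
      (fun a ha b hb hab => ?_) fun p hp => (hpr p hp).prime.squarefree
    show IsRelPrime a b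
    rw [← Nat.coprime_iff_isRelPrime]
    exact (Nat.coprime_primes (hpr a ha) (hpr b hb)).2 hab
  · intro d hd
    rw [mem_filter] at hd
    exact Nat.prod_primeFactors_of_squarefree hd.2.1.1
  · intro A hA
    rw [mem_powerset] at hA
    exact Nat.primeFactors_prod fun p hp =>
      Nat.prime_of_mem_primeFactors (mem_inter.1 (hA hp)).2
  · intro d _
    rfl

/-- the conditional expectation is a sieve function of level `R` -/
theorem exists_lam {u R : ℕ} (hu : u = 2 ∨ u = 4) (hR : 1 ≤ R) (f : ℕ → ℕ → ℝ)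
    (hf : ∀ q ∈ Icc 1 R, Function.Periodic (f q) q) :
    ∃ lam : ℕ → ℝ, ∀ n, th lam R u n = av u R (TT R) (tq f R) (Bs u R n) := by
  classical
  have hc : ∀ q : ℕ, ∃ c : Finset ℕ → ℝ, ∀ X : Finset ℕ, X ⊆ q.primeFactors →
      av u R q.primeFactors (f q) X = ∑ A ∈ X.powerset, c A :=
    fun q => mob_exists q.primeFactors _
  choose c hc using hc
  refine ⟨fun d => ∑ q ∈ Icc 1 R, if d ∣ q then c q d.primeFactors else 0, fun n => ?_⟩
  unfold th
  rw [Finset.sum_comm, av_sum]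
  refine Finset.sum_congr rfl fun q hq => ?_
  rw [div_sets hq, av_q hu hR hq (hf q hq), ← hc q _ Finset.inter_subset_right]
  unfold av
  rw [NS_congr (B := Bs u R n) (B' := Bs u R n ∩ q.primeFactors)]
  rw [Finset.inter_assoc, Finset.inter_self]

theorem NS_eq {u R : ℕ} {B : Finset ℕ} (hB : B ⊆ TT R) :
    NS u R (TT R) B = (range (Qs R (TT R))).filter (fun m => Bs u R m = B) := by
  classical
  unfold NS
  refine Finset.filter_congr fun m _ => ?_
  constructor
  · intro h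
    ext p
    unfold Bs
    rw [mem_filter]
    exact ⟨fun hp => (h p hp.1).1 hp.2, fun hp => ⟨hB hp, (h p (hB hp)).2 hp⟩⟩
  · rintro rfl p hp
    unfold Bs
    rw [mem_filter]
    exact ⟨fun h => ⟨hp, h⟩, fun h => h.2⟩

theorem Bs_sub (u R n : ℕ) : Bs u R n ⊆ TT R := Finset.filter_subset _ _

/-- total expectation -/
theorem total {u R : ℕ} (hu : u = 2 ∨ u = 4) (hR : 1 ≤ R) (g : ℕ → ℝ) :
    ∑ m ∈ range (Qs R (TT R)), av u R (TT R) g (Bs u R m) = ∑ m ∈ range (Qs R (TT R)), g m := by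
  classical
  have hmaps : ∀ m ∈ range (Qs R (TT R)), Bs u R m ∈ (TT R).powerset :=
    fun m _ => mem_powerset.2 (Bs_sub u R m)
  rw [← Finset.sum_fiberwise_of_maps_to hmaps, ← Finset.sum_fiberwise_of_maps_to hmaps]
  refine Finset.sum_congr rfl fun B hB => ?_
  rw [← NS_eq (mem_powerset.1 hB)]
  have e : ∑ m ∈ NS u R (TT R) B, av u R (TT R) g (Bs u R m) =
      ∑ m ∈ NS u R (TT R) B, av u R (TT R) g B := by
    refine Finset.sum_congr rfl fun m hm => ?_
    rw [NS_eq (mem_powerset.1 hB), mem_filter] at hm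
    rw [hm.2]
  rw [e, Finset.sum_const, nsmul_eq_mul]
  have hc : ((NS u R (TT R) B).card : ℝ) ≠ 0 := by
    exact_mod_cast (NS_nonempty hu hR TT_prime B).card_pos.ne'
  unfold av
  field_simp

end Pool.Agent.SVB
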