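import Mathlib
import Pool.Agent.SVB.Main
import Pool.Agent.SVB.Mean
import Pool.Agent.SVB.TypeRed

set_option autoImplicit false

/-!
# Project SVB: the barrier for all functions of level `R`
-/

namespace Pool.Agent.SVB

open Finset Filter Topology

theorem Bs_mod {u R : ℕ} (hR : 1 ≤ R) (n : ℕ) : Bs u R (n % Qs R (TT R)) = Bs u R n := by
  unfold Bs
  refine Finset.filter_congr fun p hp => ?_
  rw [rho_mod' u n (dvd_Qs hR hp)]

theorem th_per {u R : ℕ} (hR : 1 ≤ R) {lam : ℕ → ℝ} {g : ℕ → ℝ}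
    (h : ∀ n, th lam R u n = av u R (TT R) g (Bs u R n)) :
    Function.Periodic (th lam R u) (Qs R (TT R)) := by
  intro n
  rw [h, h, ← Bs_mod hR (n + _), Nat.add_mod_right, Bs_mod hR]

theorem tq_per {R : ℕ} {f : ℕ → ℕ → ℝ} (hf : ∀ q ∈ Icc 1 R, Function.Periodic (f q) q) :
    Function.Periodic (tq f R) (Qs R (TT R)) := by
  intro n
  unfold tq
  exact Finset.sum_congr rfl fun q hq => per_QT hq (hf q hq) n

/-- the mean value of the conditional expectation -/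
theorem MM_eq {u R : ℕ} (hu : u = 2 ∨ u = 4) (hR : 1 ≤ R) {lam : ℕ → ℝ} {g : ℕ → ℝ}
    (h : ∀ n, th lam R u n = av u R (TT R) g (Bs u R n)) :
    MM lam R u = (∑ m ∈ range (Qs R (TT R)), g m) / (Qs R (TT R) : ℕ) := by
  have hQ : 0 < Qs R (TT R) := Qs_pos TT_prime
  have h1 := per_mean hQ (th_per hR h)
  have h2 := mean_value lam R u
  rw [tendsto_nhds_unique h2 h1, Finset.sum_congr rfl fun m _ => h m, total hu hR]

theorem av_nonneg {u R : ℕ} {g : ℕ → ℝ} (hg : ∀ n, 0 ≤ g n) (B : Finset ℕ) :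
    0 ≤ av u R (TT R) g B :=
  div_nonneg (Finset.sum_nonneg fun m _ => hg m) (Nat.cast_nonneg _)

theorem one_le_av {u R : ℕ} (hu : u = 2 ∨ u = 4) (hR : 1 ≤ R) {g : ℕ → ℝ}
    (hg : ∀ n, (∀ p : ℕ, p.Prime → p ≤ R → ¬ p ∣ n * (n + u) * (n + 6)) → 1 ≤ g n) :
    1 ≤ av u R (TT R) g ∅ := by
  have hc : (0 : ℝ) < ((NS u R (TT R) ∅).card : ℝ) := by
    exact_mod_cast (NS_nonempty hu hR TT_prime ∅).card_pos
  unfold av
  rw [le_div_iff₀ hc, one_mul]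
  have h : ∀ m ∈ NS u R (TT R) ∅, 1 ≤ g m := by
    intro m hm
    refine hg m fun p hp hpR hd => ?_
    unfold NS at hm
    have h1 := (mem_filter.1 hm).2 p (by
      unfold TT
      rw [mem_filter, mem_Icc]
      exact ⟨⟨hp.one_le, hpR⟩, hp⟩)
    exact Finset.notMem_empty _ (h1.1 hd)
  have h2 := Finset.sum_le_sum h
  simpa using h2

/-- The barrier for all functions of level `R`. -/
theorem typeOne {u : ℕ} (hu : u = 2 ∨ u = 4) {R : ℕ} (hR : 1 ≤ R) {V : ℝ}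
    (hmain : ∀ lam : ℕ → ℝ, (∀ n : ℕ, 0 < n → 0 ≤ th lam R u n) →
      (∀ n : ℕ, 0 < n → (∀ p : ℕ, p.Prime → p ≤ R → ¬ p ∣ n * (n + u) * (n + 6)) →
        1 ≤ th lam R u n) → V ≤ MM lam R u)
    (f : ℕ → ℕ → ℝ) (hf : ∀ q ∈ Icc 1 R, ∀ n, f q (n + q) = f q n)
    (θ : ℕ → ℝ) (hθ : ∀ n, θ n = ∑ q ∈ Icc 1 R, f q n)
    (h0 : ∀ n : ℕ, 0 < n → 0 ≤ θ n)
    (h1 : ∀ n : ℕ, 0 < n → (∀ p : ℕ, p.Prime → p ≤ R → ¬ p ∣ n * (n + u) * (n + 6)) →
      1 ≤ θ n) :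
    ∃ M : ℝ, Tendsto (fun x : ℕ => (∑ n ∈ Icc 1 x, θ n) / x) atTop (𝓝 M) ∧ V ≤ M := by
  have hf' : ∀ q ∈ Icc 1 R, Function.Periodic (f q) q := fun q hq n => hf q hq n
  have hθ' : θ = tq f R := funext hθ
  subst hθ'
  have hper := tq_per hf'
  have hQ : 0 < Qs R (TT R) := Qs_pos TT_prime
  obtain ⟨lam, hlam⟩ := exists_lam hu hR f hf'
  refine ⟨_, per_mean hQ hper, ?_⟩
  have h0' : ∀ n : ℕ, 0 ≤ tq f R n := by
    intro n
    rw [← hper n]
    exact h0 _ (by omega)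
  have h1' : ∀ n : ℕ, (∀ p : ℕ, p.Prime → p ≤ R → ¬ p ∣ n * (n + u) * (n + 6)) →
      1 ≤ tq f R n := by
    intro n hn
    rw [← hper n]
    refine h1 _ (by omega) fun p hp hpR hd => hn p hp hpR ?_
    have hpT : p ∈ TT R := by
      unfold TT
      rw [mem_filter, mem_Icc]
      exact ⟨⟨hp.one_le, hpR⟩, hp⟩
    rw [rho_mod' u _ (dvd_Qs hR hpT), Nat.add_mod_right, ← rho_mod' u _ (dvd_Qs hR hpT)] at hd
    exact hd
  rw [← MM_eq hu hR hlam]
  refine hmain lam (fun n _ => ?_) fun n _ hn => ?_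
  · rw [hlam]
    exact av_nonneg h0' _
  · rw [hlam]
    have hB : Bs u R n = ∅ := by
      unfold Bs
      refine Finset.filter_eq_empty_iff.2 fun p hp => ?_
      unfold TT at hp
      rw [mem_filter, mem_Icc] at hp
      exact hn p hp.2 hp.1.2
    rw [hB]
    exact one_le_av hu hR h1'

end Pool.Agent.SVB
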