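import Mathlib
import Pool.Agent.SVB.TypeFin

set_option autoImplicit false

/-!
# Project SVB: all nonnegative functions of level `R`
-/

namespace Pool.Agent.SVB

open Finset Filter Topology

/-- `n (n + u) (n + 6)` has no prime factor up to `R` -/
def Sif (u R n : ℕ) : Prop := ∀ p ∈ Icc 1 R, p.Prime → ¬ p ∣ n * (n + u) * (n + 6)

theorem sif_add {u R : ℕ} (hR : 1 ≤ R) (n : ℕ) : Sif u R (n + Qs R (TT R)) ↔ Sif u R n := by
  unfold Sif
  refine forall₂_congr fun p hp => imp_congr_right fun hpp => ?_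
  have hpT : p ∈ TT R := by
    unfold TT
    rw [mem_filter]
    exact ⟨hp, hpp⟩
  rw [rho_mod' u (n + _) (dvd_Qs hR hpT), Nat.add_mod_right, ← rho_mod' u n (dvd_Qs hR hpT)]

theorem NS_empty {u R : ℕ} [DecidablePred (Sif u R)] :
    NS u R (TT R) ∅ = (range (Qs R (TT R))).filter (Sif u R) := by
  unfold NS
  refine Finset.filter_congr fun m _ => ?_
  unfold Sif TT
  constructor
  · intro h p hp hpp hd
    exact Finset.notMem_empty _ ((h p (mem_filter.2 ⟨hp, hpp⟩)).1 hd)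
  · intro h p hp
    rw [mem_filter] at hp
    exact ⟨fun hd => absurd hd (h p hp.1 hp.2), fun hd => absurd hd (Finset.notMem_empty _)⟩

/-- the mean value over the sifted set -/
theorem sif_mean {u R : ℕ} (hu : u = 2 ∨ u = 4) (hR : 1 ≤ R) [DecidablePred (Sif u R)]
    {g : ℕ → ℝ} (hg : Function.Periodic g (Qs R (TT R))) :
    Tendsto (fun x : ℕ => (∑ n ∈ (Icc 1 x).filter (Sif u R), g n) /
      (((Icc 1 x).filter (Sif u R)).card : ℝ)) atTop (𝓝 (av u R (TT R) g ∅)) := by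
  have hQ : 0 < Qs R (TT R) := Qs_pos TT_prime
  have hQ' : (Qs R (TT R) : ℝ) ≠ 0 := by exact_mod_cast hQ.ne'
  have p1 : Function.Periodic (fun n => if Sif u R n then g n else 0) (Qs R (TT R)) := by
    intro n
    show (if Sif u R (n + Qs R (TT R)) then g (n + Qs R (TT R)) else 0) =
      if Sif u R n then g n else 0
    rw [hg n]
    exact if_congr (sif_add hR n) rfl rfl
  have p2 : Function.Periodic (fun n => if Sif u R n then (1 : ℝ) else 0) (Qs R (TT R)) := by
    intro n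
    exact if_congr (sif_add hR n) rfl rfl
  have t1 := per_mean hQ p1
  have t2 := per_mean hQ p2
  have e1 : ∑ n ∈ range (Qs R (TT R)), (if Sif u R n then g n else 0) =
      ∑ m ∈ NS u R (TT R) ∅, g m := by
    rw [NS_empty, Finset.sum_filter]
  have e2 : ∑ n ∈ range (Qs R (TT R)), (if Sif u R n then (1 : ℝ) else 0) =
      ((NS u R (TT R) ∅).card : ℝ) := by
    rw [NS_empty, ← Finset.sum_filter]
    simp
  rw [e1] at t1
  rw [e2] at t2
  have hc : ((NS u R (TT R) ∅).card : ℝ) ≠ 0 := by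
    exact_mod_cast (NS_nonempty hu hR TT_prime ∅).card_pos.ne'
  have t3 := t1.div t2 (div_ne_zero hc hQ')
  have e3 : (∑ m ∈ NS u R (TT R) ∅, g m) / (Qs R (TT R) : ℝ) /
      (((NS u R (TT R) ∅).card : ℝ) / (Qs R (TT R) : ℝ)) = av u R (TT R) g ∅ := by
    unfold av
    field_simp
  rw [e3] at t3
  refine t3.congr' ?_
  filter_upwards [eventually_ge_atTop 1] with x hx
  have hx0 : (x : ℝ) ≠ 0 := by
    have : 0 < x := hx
    exact_mod_cast this.ne'
  have s1 : ∑ n ∈ Icc 1 x, (if Sif u R n then g n else 0) =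
      ∑ n ∈ (Icc 1 x).filter (Sif u R), g n := by rw [Finset.sum_filter]
  have s2 : ∑ n ∈ Icc 1 x, (if Sif u R n then (1 : ℝ) else 0) =
      (((Icc 1 x).filter (Sif u R)).card : ℝ) := by
    rw [← Finset.sum_filter]
    simp
  show (∑ n ∈ Icc 1 x, (if Sif u R n then g n else 0)) / (x : ℝ) /
    ((∑ n ∈ Icc 1 x, (if Sif u R n then (1 : ℝ) else 0)) / (x : ℝ)) = _
  rw [s1, s2, div_div_div_cancel_right₀ hx0]

/-- The inequality for all nonnegative functions of level `R`. -/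
theorem typeAll {u : ℕ} (hu : u = 2 ∨ u = 4) {R : ℕ} (hR : 1 ≤ R) {V : ℝ}
    (hmain : ∀ lam : ℕ → ℝ, (∀ n : ℕ, 0 < n → 0 ≤ th lam R u n) →
      (∀ n : ℕ, 0 < n → (∀ p : ℕ, p.Prime → p ≤ R → ¬ p ∣ n * (n + u) * (n + 6)) →
        1 ≤ th lam R u n) → V ≤ MM lam R u)
    (f : ℕ → ℕ → ℝ) (hf : ∀ q ∈ Icc 1 R, ∀ n, f q (n + q) = f q n)
    (θ : ℕ → ℝ) (hθ : ∀ n, θ n = ∑ q ∈ Icc 1 R, f q n)
    (h0 : ∀ n : ℕ, 0 < n → 0 ≤ θ n) [DecidablePred (Sif u R)] :
    ∃ M A : ℝ, Tendsto (fun x : ℕ => (∑ n ∈ Icc 1 x, θ n) / x) atTop (𝓝 M) ∧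
      Tendsto (fun x : ℕ => (∑ n ∈ (Icc 1 x).filter (Sif u R), θ n) /
        (((Icc 1 x).filter (Sif u R)).card : ℝ)) atTop (𝓝 A) ∧ V * A ≤ M := by
  have hf' : ∀ q ∈ Icc 1 R, Function.Periodic (f q) q := fun q hq n => hf q hq n
  have hθ' : θ = tq f R := funext hθ
  subst hθ'
  have hper := tq_per hf'
  have hQ : 0 < Qs R (TT R) := Qs_pos TT_prime
  obtain ⟨lam, hlam⟩ := exists_lam hu hR f hf'
  have h0' : ∀ n : ℕ, 0 ≤ tq f R n := by
    intro n
    rw [← hper n]
    exact h0 _ (by omega)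
  set A : ℝ := av u R (TT R) (tq f R) ∅ with hA
  refine ⟨(∑ m ∈ range (Qs R (TT R)), tq f R m) / (Qs R (TT R) : ℕ), A, per_mean hQ hper,
    sif_mean hu hR hper, ?_⟩
  have hA0 : 0 ≤ A := av_nonneg h0' _
  have hM0 : 0 ≤ (∑ m ∈ range (Qs R (TT R)), tq f R m) / ((Qs R (TT R) : ℕ) : ℝ) :=
    div_nonneg (Finset.sum_nonneg fun m _ => h0' m) (Nat.cast_nonneg _)
  rcases hA0.eq_or_lt with h | h
  · rw [← h, mul_zero]
    exact hM0
  · have hth : ∀ n, th (fun d => lam d / A) R u n = th lam R u n / A := by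
      intro n
      unfold th
      rw [Finset.sum_div]
    have hMM : MM (fun d => lam d / A) R u = MM lam R u / A := by
      unfold MM
      rw [Finset.sum_div]
      exact Finset.sum_congr rfl fun d _ => by ring
    have h3 : V ≤ MM (fun d => lam d / A) R u := by
      refine hmain _ (fun n _ => ?_) fun n _ hn => ?_
      · rw [hth, hlam]
        exact div_nonneg (av_nonneg h0' _) h.le
      · rw [hth, hlam]
        have hB : Bs u R n = ∅ := by
          unfold Bs
          refine Finset.filter_eq_empty_iff.2 fun p hp => ?_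
          unfold TT at hp
          rw [mem_filter, mem_Icc] at hp
          exact hn p hp.2 hp.1.2
        rw [hB, ← hA, div_self h.ne']
    rw [hMM, MM_eq hu hR hlam, le_div_iff₀ h] at h3
    exact h3

end Pool.Agent.SVB
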